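import Pool.Agent.U46.Par3

set_option autoImplicit false
set_option linter.unusedSectionVars false

/-! The parametrization in terms of polynomials, and a lemma on ratios. -/

open Finset

namespace Pool.Agent.U46

variable {ε : Type} [Fintype ε] {d : ℕ}

lemma gc_poly {R : Type} [CommRing R] (u : ε ⊕ Fin d → R) (n : ℕ) :
    (∑ j : Fin d, Polynomial.C (u (Sum.inr j)) * Polynomial.X ^ (j : ℕ)).coeff n = gc u n := by
  rw [Polynomial.finsetSum_coeff]
  simp only [Polynomial.coeff_C_mul, Polynomial.coeff_X_pow]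
  unfold gc
  split_ifs with h
  · rw [Finset.sum_eq_single ⟨n, h⟩]
    · simp
    · intro i _ hi
      rw [if_neg, mul_zero]
      intro h1
      exact hi (Fin.ext h1.symm)
    · intro h1
      exact absurd (mem_univ _) h1
  · refine Finset.sum_eq_zero fun i _ => ?_
    rw [if_neg (by omega), mul_zero]

/-- the parametrization -/
lemma cv_poly {R : Type} [CommRing R] (p q : R) (u : ε ⊕ Fin d → R) (i : Fin (d + 1)) :
    cv p q u (Sum.inr i) = ((Polynomial.C q * Polynomial.X - Polynomial.C p) *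
      (∑ j : Fin d, Polynomial.C (u (Sum.inr j)) * Polynomial.X ^ (j : ℕ)) +
      Polynomial.C (∑ j, u (Sum.inl j)) * Polynomial.X).coeff i := by
  obtain ⟨G, hG⟩ : ∃ G : Polynomial R, G = ∑ j : Fin d, Polynomial.C (u (Sum.inr j)) *
    Polynomial.X ^ (j : ℕ) := ⟨_, rfl⟩
  have hGc : ∀ n, G.coeff n = gc u n := fun n => by rw [hG]; exact gc_poly u n
  rw [← hG]
  have h1 : (Polynomial.C q * Polynomial.X - Polynomial.C p) * G =
      Polynomial.C q * (Polynomial.X * G) - Polynomial.C p * G := by ring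
  rw [h1, Polynomial.coeff_add, Polynomial.coeff_sub, Polynomial.coeff_C_mul, Polynomial.coeff_C_mul,
    Polynomial.coeff_C_mul, Polynomial.coeff_X, hGc]
  show (if (i : ℕ) = 0 then 0 else q * gc u ((i : ℕ) - 1)) - p * gc u i +
      (if (i : ℕ) = 1 then ∑ j, u (Sum.inl j) else 0) = _
  congr 1
  · congr 1
    rcases Nat.eq_zero_or_pos (i : ℕ) with h | h
    · rw [if_pos h, h, Polynomial.mul_coeff_zero, Polynomial.coeff_X_zero, zero_mul, mul_zero]
    · obtain ⟨n, hn⟩ : ∃ n, (i : ℕ) = n + 1 := ⟨(i : ℕ) - 1, by omega⟩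
      rw [if_neg (by omega), hn, Polynomial.coeff_X_mul, hGc, Nat.add_sub_cancel]
  · by_cases h : (i : ℕ) = 1
    · rw [if_pos h, if_pos h.symm, mul_one]
    · rw [if_neg h, if_neg (Ne.symm h), mul_zero]

/-- ratios: if `a = v H ^ (n + 1) + O(H ^ n)` and `b = M H ^ (n + 1) + O(H ^ n)`, `0 ≤ a ≤ b`, then
`a / b = v / M + O(1 / H)` -/
lemma ratio_bound {a b v M C X H : ℝ} (ha : 0 ≤ a) (hab : a ≤ b) (hM : 0 < M) (hX : 0 < X)
    (hH : 0 < H) (h1 : |a - v * (X * H)| ≤ C * X) (h2 : |b - M * (X * H)| ≤ C * X) :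
    |a / b - v / M| ≤ 2 * C / M / H := by
  obtain ⟨r, hr⟩ : ∃ r : ℝ, r = a / b := ⟨_, rfl⟩
  have hr0 : 0 ≤ r := by rw [hr]; exact div_nonneg ha (ha.trans hab)
  have hr1 : r ≤ 1 := by rw [hr]; exact div_le_one_of_le₀ hab (ha.trans hab)
  have hrb : a = r * b := by
    rcases eq_or_lt_of_le (ha.trans hab) with h | h
    · have : a = 0 := by linarith
      rw [this, ← h, mul_zero]
    · rw [hr]
      field_simp
  rw [← hr]
  have hXH : 0 < X * H := mul_pos hX hH
  have h4 : |r - v / M| * (M * (X * H)) ≤ 2 * (C * X) := by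
    have e1 : |r - v / M| * (M * (X * H)) = |(r - v / M) * (M * (X * H))| := by
      rw [abs_mul, abs_of_pos (mul_pos hM hXH)]
    have e2 : (r - v / M) * (M * (X * H)) = (a - v * (X * H)) - r * (b - M * (X * H)) := by
      rw [hrb]
      field_simp
      ring
    rw [e1, e2]
    calc |(a - v * (X * H)) - r * (b - M * (X * H))| ≤ |a - v * (X * H)| + |r * (b - M * (X * H))| :=
          abs_sub _ _
      _ ≤ C * X + 1 * (C * X) := by
          rw [abs_mul, abs_of_nonneg hr0]
          exact add_le_add h1 (mul_le_mul hr1 h2 (abs_nonneg _) zero_le_one)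
      _ = 2 * (C * X) := by ring
  have h5 : |r - v / M| ≤ 2 * (C * X) / (M * (X * H)) := by
    rw [le_div_iff₀ (mul_pos hM hXH)]
    exact h4
  refine h5.trans (le_of_eq ?_)
  field_simp

end Pool.Agent.U46
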