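import Mathlib
import Pool.Agent.TH504.CB.PeriodDefs
import Pool.Agent.TH504.VL.Defs
import Pool.Agent.R915.Stm2
import Pool.Agent.Y90.Tori

/-!
# The exceptional points of a family of abelian varieties: definitions
-/

set_option autoImplicit false

namespace Pool.Agent.U46.EX

open Module Pool.Agent.Y90 Pool.Agent.R915 Pool.Agent.TH504.VL Pool.Agent.TH504.CB
open Pool.Agent.H204R3.CM (IsHodge)

/-- The number `e(g, ρ)`: the integral part of the maximum of `g ^ 2 / 4` and
`(ρ + 1) ^ 2 / 4 + (g - ρ - 1) (g - ρ) / 2` (truncated subtraction). For `ρ = 3` and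
`g = 4, 5, ..., 12` it is `4, 6, 9, 12, 16, 20, 25, 32, 40`. -/
def excDim (g ρ : ℕ) : ℕ := max (g ^ 2) ((ρ + 1) ^ 2 + 2 * (g - ρ - 1) * (g - ρ)) / 4

/-- The subset `S` of the open subset `U` of `ℂ ^ d` is contained in the union of countably many
complex submanifolds of codimension `m`: there are countably many systems of `m` holomorphic
functions on `U` such that each point of `S` is a common zero of one of the systems, at which the
differentials of its functions are linearly independent. -/
def InSubmanifolds {d : ℕ} (U S : Set (Fin d → ℂ)) (m : ℕ) : Prop :=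
  ∃ f : ℕ → Fin m → (Fin d → ℂ) → ℂ, (∀ n i, AnalyticOnNhd ℂ (f n i) U) ∧
    ∀ t ∈ S, ∃ n, (∀ i, f n i t = 0) ∧ LinearIndependent ℂ fun i => fderiv ℂ (f n i) t

/-- The number of moduli at `t` of the family `Z` of period matrices: the rank of the
Kodaira-Spencer map, the derivative of the period matrix. -/
noncomputable def moduli {g d : ℕ} (Z : (Fin d → ℂ) → Matrix (Fin g) (Fin g) ℂ)
    (t : Fin d → ℂ) : ℕ :=
  finrank ℂ (LinearMap.range (ksMap Z t))

/-- The Hodge classes, in all degrees, on all abelian varieties `X` such that each simple factor of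
`X` is a factor of the abelian variety with period matrix `Z` are exactly the classes in `Alg`. -/
def HodgeForProducts {g : ℕ} (Z : Matrix (Fin g) (Fin g) ℂ) : Prop :=
  ∀ (h : PM Z) (X : AV), (∀ Y, IsFactor Y X → IsFactor Y (AVZ h)) →
    ∀ (κ : Type) [Finite κ] (f : X.H [⋀^κ]→ₗ[ℚ] ℚ), IsHodge X.per f ↔ Alg X κ f

/-- The abelian variety `A` with period matrix `Z` is `ρ`-good: it has an abelian subvariety `B` of
codimension at most `ρ` such that each Hodge class on each power `A ^ n` is a combination of products
of divisor classes and one Hodge class which is pulled back from `(A / B) ^ n`; and if `n ρ ≤ 3` it is a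
combination of products of divisor classes; and if `ρ ≤ 3` then the Hodge classes on all abelian
varieties with simple factors among those of `A` are in `Alg`. -/
def IsGood {g : ℕ} (ρ : ℕ) (Z : Matrix (Fin g) (Fin g) ℂ) : Prop :=
  (∃ (B : Submodule ℚ (Fin g ⊕ Fin g → ℚ)) (c : ℕ), IsAbelianSubvariety Z B ∧
    finrank ℚ B + 2 * c = 2 * g ∧ c ≤ ρ ∧ HodgeClassesFromQuotient Z B) ∧
  (∀ n, n * ρ ≤ 3 → HodgeClassesFromDivisors Z n) ∧ (ρ ≤ 3 → HodgeForProducts Z)

end Pool.Agent.U46.EX
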