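import Mathlib
import Pool.Agent.U46.ExDefs
import Pool.Agent.X311.Cn1Defs
import Pool.Agent.X311.GhcPeriodsDefs
import Pool.Agent.N994.FH.Coh
import Pool.Agent.U228.MP.Defs

/-!
# Coniveau one for the varieties dominated by products with the members of a family: definitions
-/

set_option autoImplicit false

namespace Pool.Agent.U46.EX

open Module Pool.Agent.Y90 Pool.Agent.R915 Pool.Agent.TH504.VL Pool.Agent.TH504.CB
  Pool.Agent.TH131.GHC Pool.Agent.X311 Pool.Agent.W437.HC

/-- The simple abelian variety `Y` is a factor of the abelian variety with period matrix `Z`, or a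
factor of a principally polarized abelian variety of some dimension `g'` with more than
`g' (g' - 1) / 2` (and more than `g' ^ 2 / 4`) algebraically independent periods, or it has dimension at
most three and no complex multiplication, and imaginary quadratic fields act on it with equal
multiplicities only. -/
def AllowedFactor {g : ℕ} {Z : Matrix (Fin g) (Fin g) ℂ} (h : PM Z) (Y : AV) : Prop :=
  Pool.Agent.R915.IsFactor Y (AVZ h) ∨ Pool.Agent.U228.MP.FromManyPeriods 0 Y ∨
    (¬ HasCMult Y ∧ finrank ℚ Y.H ≤ 6 ∧ ∀ d, ¬ Unbalanced Y d)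

/-- Grothendieck's conjecture in coniveau one for all smooth projective varieties which are dominated
by an abelian variety with factors as in `AllowedFactor`. -/
def OneForProducts {g : ℕ} (Z : Matrix (Fin g) (Fin g) ℂ) : Prop :=
  ∀ (h : PM Z) (X : AV), (∀ Y, Pool.Agent.R915.IsFactor Y X → AllowedFactor h Y) →
    ∀ 𝒯 : Pool.Agent.N994.FH.Theory, Pool.Agent.N994.FH.ConiveauOne 𝒯 X

/-- Let `A` be the abelian variety with period matrix `Z` and `Y` the variety with cohomology `V`. If
`Y` satisfies the generalized Hodge conjecture in coniveau one (`N` is the space of the classes which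
vanish on a dense open subset of `Y`), then Grothendieck's conjecture in coniveau one holds, in all
degrees, for all varieties (with cohomology `H`) which are dominated by `A ^ n × Y`, for all `n`. -/
def OneOverPowers {g : ℕ} (Z : Matrix (Fin g) (Fin g) ℂ) {v : ℕ} (V : Coh v) : Prop :=
  ∀ N : Submodule ℚ (Fin v → ℚ), Cn1.GHCOne V N → ∀ (n x : ℕ) (H : Coh x)
    (NX : Submodule ℚ (Fin x → ℚ)), Cn1.IsEffective H → Cn1.IsDominated (perPow Z n) V N H NX →
      Cn1.ConiveauOne H NX

/-- The statement `OneOverPowers Z V` for all varieties `Y` of CM type and all varieties `Y` whose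
Hodge filtration is defined over `K`. -/
def OneTimesOver {g : ℕ} (K : Subfield ℂ) (Z : Matrix (Fin g) (Fin g) ℂ) : Prop :=
  ∀ (v : ℕ) (V : Coh v), IsOfCMType V ∨ HasFiltrationOver K V → OneOverPowers Z V

/-- The abelian variety with period matrix `Z` is isogenous to a product `A₁ × A₂` of principally
polarized abelian varieties with period matrices `Z₁`, `Z₂`, with `dim A₂ ≤ ρ`, such that
`OneTimesOver` holds for `A₁` and the field generated by `K` and the periods of `A₂`. -/
def IsGoodOne {g : ℕ} (K : Subfield ℂ) (ρ : ℕ) (Z : Matrix (Fin g) (Fin g) ℂ) : Prop :=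
  (∃ (b r : ℕ) (Z₁ : Matrix (Fin b) (Fin b) ℂ) (Z₂ : Matrix (Fin r) (Fin r) ℂ),
    IsPeriodMatrix Z₁ ∧ IsPeriodMatrix Z₂ ∧ IsIsogenousToProduct Z Z₁ Z₂ ∧ b + r = g ∧ r ≤ ρ ∧
      OneTimesOver (periodField K Z₂) Z₁) ∧
  (ρ = 0 → OneTimesOver K Z)

end Pool.Agent.U46.EX
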