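import Mathlib

/-!
# Algebraic relations between functions: polynomials with independent gradients
-/

set_option autoImplicit false
set_option maxHeartbeats 4000000

namespace Pool.Agent.U46.EX

open Module MvPolynomial

noncomputable section

variable {K : Type} [Field K] [Algebra K ℂ]

/-- an element algebraic over a subring is a simple root of a polynomial -/
theorem exists_simple_root {A : Subalgebra K ℂ} {x : ℂ} (hx : IsAlgebraic A x) :
    ∃ Q : Polynomial A, Polynomial.aeval x Q = 0 ∧
      Polynomial.aeval x (Polynomial.derivative Q) ≠ 0 := by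
  classical
  have h : ∃ n : ℕ, ∃ Q : Polynomial A, Q ≠ 0 ∧ Polynomial.aeval x Q = 0 ∧ Q.natDegree = n := by
    obtain ⟨Q, hQ, hQx⟩ := hx
    exact ⟨_, Q, hQ, hQx, rfl⟩
  obtain ⟨Q, hQ0, hQx, hQn⟩ := Nat.find_spec h
  refine ⟨Q, hQx, fun hd => ?_⟩
  by_cases h0 : Polynomial.derivative Q = 0
  · have h1 : Q.natDegree = 0 := Polynomial.derivative_eq_zero.1 h0
    rw [Polynomial.eq_C_of_natDegree_eq_zero h1, Polynomial.aeval_C] at hQx
    apply hQ0
    rw [Polynomial.eq_C_of_natDegree_eq_zero h1]
    have h2 : Q.coeff 0 = 0 := by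
      apply Subtype.val_injective
      exact hQx
    rw [h2, Polynomial.C_0]
  · have h1 : Q.natDegree ≠ 0 := by
      intro h1
      apply h0
      rw [Polynomial.eq_C_of_natDegree_eq_zero h1, Polynomial.derivative_C]
    have h2 := Polynomial.natDegree_derivative_lt h1
    have h3 := Nat.find_min h (m := (Polynomial.derivative Q).natDegree) (by rw [← hQn]; exact h2)
    exact h3 ⟨_, h0, hd, rfl⟩

variable {r : ℕ}

theorem pderiv_rename_eq_zero {s : Set (Fin r)} {k : Fin r} (hk : k ∉ s) (p : MvPolynomial s K) :
    pderiv k (rename (Subtype.val : s → Fin r) p) = 0 := by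
  induction p using MvPolynomial.induction_on with
  | C a => rw [rename_C, pderiv_C]
  | add p q hp hq => rw [map_add, map_add, hp, hq, add_zero]
  | mul_X p n hp =>
    have h1 : (n : Fin r) ≠ k := fun h => hk (h ▸ n.2)
    rw [map_mul, pderiv_mul, hp, rename_X, pderiv_X_of_ne h1, zero_mul, mul_zero, add_zero]

theorem pderiv_eval₂ {s : Set (Fin r)} {j k : Fin r} (hk : k ∉ s)
    (Q : Polynomial (MvPolynomial s K)) :
    pderiv k (Polynomial.eval₂ (rename (Subtype.val : s → Fin r) : MvPolynomial s K →ₐ[K]
        MvPolynomial (Fin r) K).toRingHom (X j) Q) =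
      Polynomial.eval₂ (rename (Subtype.val : s → Fin r) : MvPolynomial s K →ₐ[K]
        MvPolynomial (Fin r) K).toRingHom (X j) (Polynomial.derivative Q) * pderiv k (X j) := by
  induction Q using Polynomial.induction_on' with
  | add p q hp hq =>
    rw [Polynomial.eval₂_add, map_add, hp, hq, map_add, Polynomial.eval₂_add, add_mul]
  | monomial n a =>
    rw [Polynomial.eval₂_monomial, Polynomial.derivative_monomial, Polynomial.eval₂_monomial,
      pderiv_mul]
    have h1 : pderiv k ((rename (Subtype.val : s → Fin r) : MvPolynomial s K →ₐ[K]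
        MvPolynomial (Fin r) K).toRingHom a) = 0 := pderiv_rename_eq_zero hk a
    rw [h1, zero_mul, zero_add, Derivation.leibniz_pow, map_mul, map_natCast]
    simp only [nsmul_eq_mul, smul_eq_mul]
    ring

/-- the relation satisfied by a dependent coordinate -/
theorem exists_relation (z : Fin r → ℂ) {s : Set (Fin r)} (hs : AlgebraicIndepOn K z s)
    {j : Fin r} (hj : j ∉ s) (hdep : ¬ AlgebraicIndepOn K z (insert j s)) :
    ∃ P : MvPolynomial (Fin r) K, aeval z P = 0 ∧ aeval z (pderiv j P) ≠ 0 ∧
      ∀ k, k ∉ s → k ≠ j → aeval z (pderiv k P) = 0 := by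
  classical
  rw [AlgebraicIndepOn.insert_iff hj] at hdep
  have h1 : IsAlgebraic (Algebra.adjoin K (z '' s)) (z j) := by
    by_contra h1
    exact hdep ⟨hs, h1⟩
  obtain ⟨Q, hQ, hQ'⟩ := exists_simple_root h1
  -- the coefficients as polynomials
  have hmem : ∀ p : MvPolynomial s K, aeval (fun i : s => z i) p ∈ Algebra.adjoin K (z '' s) := by
    intro p
    rw [Set.image_eq_range, Algebra.adjoin_range_eq_range_aeval]
    exact ⟨p, rfl⟩
  let φ : MvPolynomial s K →ₐ[K] Algebra.adjoin K (z '' s) :=
    (aeval (fun i : s => z i)).codRestrict _ hmem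
  have hφ : Function.Surjective φ := by
    rintro ⟨x, hx⟩
    have hx' := hx
    rw [Set.image_eq_range, Algebra.adjoin_range_eq_range_aeval] at hx'
    obtain ⟨p, hp⟩ := hx'
    exact ⟨p, Subtype.ext hp⟩
  obtain ⟨Q', rfl⟩ := Polynomial.map_surjective φ.toRingHom hφ Q
  have hev : ∀ R : Polynomial (MvPolynomial s K),
      aeval z (Polynomial.eval₂ (rename (Subtype.val : s → Fin r) : MvPolynomial s K →ₐ[K]
        MvPolynomial (Fin r) K).toRingHom (X j) R) =
      Polynomial.aeval (z j) (R.map φ.toRingHom) := by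
    intro R
    have h2 : ∀ p : MvPolynomial s K, aeval z ((rename (Subtype.val : s → Fin r) :
        MvPolynomial s K →ₐ[K] MvPolynomial (Fin r) K) p) = ((φ p : Algebra.adjoin K (z '' s)) : ℂ) := by
      intro p
      rw [aeval_rename]
      rfl
    induction R using Polynomial.induction_on' with
    | add p q hp hq =>
      rw [Polynomial.eval₂_add, map_add, hp, hq, Polynomial.map_add, map_add]
    | monomial n a =>
      rw [Polynomial.eval₂_monomial, Polynomial.map_monomial, Polynomial.aeval_monomial, map_mul,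
        map_pow, aeval_X]
      congr 1
      exact h2 a
  refine ⟨Polynomial.eval₂ (rename (Subtype.val : s → Fin r) : MvPolynomial s K →ₐ[K]
        MvPolynomial (Fin r) K).toRingHom (X j) Q', ?_, ?_, ?_⟩
  · rw [hev]
    exact hQ
  · rw [pderiv_eval₂ hj, pderiv_X_self, mul_one, hev, ← Polynomial.derivative_map]
    exact hQ'
  · intro k hk hkj
    rw [pderiv_eval₂ hk, pderiv_X_of_ne (Ne.symm hkj), mul_zero, map_zero]

/-- If at most `e` of the numbers `z i` are algebraically independent then they satisfy `r - e`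
relations with independent gradients. -/
theorem exists_relations (z : Fin r → ℂ) {e : ℕ}
    (he : ∀ p : Fin (e + 1) → Fin r, ¬ AlgebraicIndependent K (fun i => z (p i))) :
    ∃ (P : Fin (r - e) → MvPolynomial (Fin r) K) (j : Fin (r - e) → Fin r),
      Function.Injective j ∧ (∀ i, aeval z (P i) = 0) ∧ (∀ i, aeval z (pderiv (j i) (P i)) ≠ 0) ∧
      ∀ i i', i ≠ i' → aeval z (pderiv (j i') (P i)) = 0 := by
  classical
  -- a maximal independent subset
  let T : Finset (Finset (Fin r)) :=
    Finset.univ.filter fun s => AlgebraicIndepOn K z (s : Set (Fin r))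
  have hT : T.Nonempty := by
    refine ⟨∅, ?_⟩
    rw [Finset.mem_filter]
    refine ⟨Finset.mem_univ _, ?_⟩
    rw [Finset.coe_empty]
    exact algebraicIndependent_empty_type
  obtain ⟨s, hsT, hmax⟩ := T.exists_max_image Finset.card hT
  have hs : AlgebraicIndepOn K z (s : Set (Fin r)) := (Finset.mem_filter.1 hsT).2
  have hcard : s.card ≤ e := by
    by_contra hlt
    obtain ⟨u, hus, hu⟩ := Finset.exists_subset_card_eq (by omega : e + 1 ≤ s.card)
    refine he (fun i => ((u.orderIsoOfFin hu i : u) : Fin r)) ?_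
    have h1 := hs.comp (fun i : Fin (e + 1) => (⟨((u.orderIsoOfFin hu i : u) : Fin r),
      hus (u.orderIsoOfFin hu i).2⟩ : (s : Set (Fin r)))) (by
        intro a b hab
        have h2 := congrArg (fun x : (s : Set (Fin r)) => (x : Fin r)) hab
        exact (u.orderIsoOfFin hu).injective (Subtype.ext h2))
    exact h1
  have hdep : ∀ j, j ∉ s → ¬ AlgebraicIndepOn K z (insert j (s : Set (Fin r))) := by
    intro j hj hind
    have h1 := hmax (insert j s) (by
      rw [Finset.mem_filter]
      refine ⟨Finset.mem_univ _, ?_⟩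
      rw [Finset.coe_insert]
      exact hind)
    rw [Finset.card_insert_of_notMem hj] at h1
    omega
  -- the dependent coordinates
  have hc : r - e ≤ (sᶜ).card := by
    rw [Finset.card_compl, Fintype.card_fin]
    omega
  obtain ⟨u, hus, hu⟩ := Finset.exists_subset_card_eq hc
  let j : Fin (r - e) → Fin r := fun i => ((u.orderIsoOfFin hu i : u) : Fin r)
  have hj : ∀ i, j i ∉ s := fun i => Finset.mem_compl.1 (hus (u.orderIsoOfFin hu i).2)
  have hjinj : Function.Injective j := by
    intro a b hab
    exact (u.orderIsoOfFin hu).injective (Subtype.ext hab)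
  choose P hP1 hP2 hP3 using fun i : Fin (r - e) =>
    exists_relation z hs (j := j i) (fun h => hj i (by exact_mod_cast h)) (hdep (j i) (hj i))
  refine ⟨P, j, hjinj, hP1, hP2, fun i i' hii' => hP3 i (j i') (fun h => hj i' (by exact_mod_cast h))
    fun h => hii' (hjinj h).symm⟩

end

end Pool.Agent.U46.EX
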