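import Mathlib
import Pool.Agent.TH504.VL.Defs
import Pool.Agent.U46.EX1

/-!
# Points with few algebraically independent values lie in countably many submanifolds
-/

set_option autoImplicit false
set_option maxHeartbeats 4000000

namespace Pool.Agent.U46.EX

open Module MvPolynomial Pool.Agent.TH504.VL

noncomputable section

section der

variable {K : Type} [Field K] [Algebra K ℂ] {r : ℕ}
  {E : Type} [NormedAddCommGroup E] [NormedSpace ℂ E]

/-- the derivative of a polynomial in functions -/
theorem hasFDerivAt_aeval (z : Fin r → E → ℂ) (z' : Fin r → E →L[ℂ] ℂ) (t : E)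
    (hz : ∀ i, HasFDerivAt (z i) (z' i) t) (P : MvPolynomial (Fin r) K) :
    HasFDerivAt (fun t => aeval (fun i => z i t) P)
      (∑ k, aeval (fun i => z i t) (pderiv k P) • z' k) t := by
  induction P using MvPolynomial.induction_on with
  | C a =>
    have h1 : (∑ k, aeval (fun i => z i t) (pderiv k (C a : MvPolynomial (Fin r) K)) • z' k) = 0 := by
      refine Finset.sum_eq_zero fun k _ => ?_
      rw [pderiv_C, map_zero]
      exact zero_smul ℂ (z' k)
    rw [h1]
    simp only [aeval_C]
    exact hasFDerivAt_const _ _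
  | add p q hp hq =>
    have h1 : (∑ k, aeval (fun i => z i t) (pderiv k (p + q)) • z' k) =
        (∑ k, aeval (fun i => z i t) (pderiv k p) • z' k) +
        ∑ k, aeval (fun i => z i t) (pderiv k q) • z' k := by
      rw [← Finset.sum_add_distrib]
      refine Finset.sum_congr rfl fun k _ => ?_
      rw [map_add, map_add]
      exact add_smul _ _ (z' k)
    rw [h1]
    simp only [map_add]
    exact hp.add hq
  | mul_X p n hp =>
    have h1 : (∑ k, aeval (fun i => z i t) (pderiv k (p * X n)) • z' k) =
        (aeval (fun i => z i t) p) • z' n +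
        (z n t) • ∑ k, aeval (fun i => z i t) (pderiv k p) • z' k := by
      rw [Finset.smul_sum]
      have h2 : (aeval (fun i => z i t) p) • z' n =
          ∑ k, (aeval (fun i => z i t) p * aeval (fun i => z i t)
            (pderiv k (X n : MvPolynomial (Fin r) K))) • z' k := by
        rw [Finset.sum_eq_single n]
        · rw [pderiv_X_self, map_one, mul_one]
        · intro k _ hk
          rw [pderiv_X_of_ne (Ne.symm hk), map_zero, mul_zero]
          exact zero_smul ℂ (z' k)
        · intro h
          exact absurd (Finset.mem_univ _) h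
      rw [h2, ← Finset.sum_add_distrib]
      refine Finset.sum_congr rfl fun k _ => ?_
      rw [pderiv_mul, map_add, map_mul, map_mul, aeval_X]
      refine ContinuousLinearMap.ext fun v => ?_
      change (_ + _) * z' k v = _ * z' k v + z n t * (_ * z' k v)
      ring
    rw [h1]
    simp only [map_mul, aeval_X]
    exact hp.mul (hz n)

theorem analytic_aeval {U : Set E} (z : Fin r → E → ℂ) (hz : ∀ i, AnalyticOnNhd ℂ (z i) U)
    (P : MvPolynomial (Fin r) K) :
    AnalyticOnNhd ℂ (fun t => aeval (fun i => z i t) P) U := by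
  induction P using MvPolynomial.induction_on with
  | C a =>
    simp only [aeval_C]
    exact analyticOnNhd_const
  | add p q hp hq =>
    simp only [map_add]
    exact hp.add hq
  | mul_X p n hp =>
    simp only [map_mul, aeval_X]
    exact hp.mul (hz n)

end der

section lin

variable {V : Type} [AddCommGroup V] [Module ℂ V] [FiniteDimensional ℂ V] {g r : ℕ}

/-- the coordinate of a linear map to matrices -/
def entryL (L : V →ₗ[ℂ] Matrix (Fin g) (Fin g) ℂ) (p : Fin g × Fin g) : V →ₗ[ℂ] ℂ where
  toFun v := L v p.1 p.2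
  map_add' v w := by rw [map_add, Matrix.add_apply]
  map_smul' c v := by rw [map_smul, Matrix.smul_apply, RingHom.id_apply]

theorem exists_entries (L : V →ₗ[ℂ] Matrix (Fin g) (Fin g) ℂ)
    (hr : r ≤ finrank ℂ (LinearMap.range L)) :
    ∃ q : Fin r → Fin g × Fin g, LinearIndependent ℂ fun i => entryL L (q i) := by
  classical
  let Φ : Submodule ℂ (Module.Dual ℂ V) := Submodule.span ℂ (Set.range fun p => entryL L p)
  have h1 : Φ.dualCoannihilator = LinearMap.ker L := by
    ext v
    rw [Submodule.mem_dualCoannihilator, LinearMap.mem_ker]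
    constructor
    · intro h
      ext i j
      exact h _ (Submodule.subset_span ⟨(i, j), rfl⟩)
    · intro h φ hφ
      induction hφ using Submodule.span_induction with
      | zero => rfl
      | add x y _ _ hx hy => rw [LinearMap.add_apply, hx, hy, add_zero]
      | smul a x _ hx => rw [LinearMap.smul_apply, hx, smul_zero]
      | mem x hx =>
        obtain ⟨p, rfl⟩ := hx
        change L v p.1 p.2 = 0
        rw [h]
        rfl
  have h2 := Subspace.finrank_add_finrank_dualCoannihilator_eq Φ
  rw [h1] at h2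
  have h3 := L.finrank_range_add_finrank_ker
  have h4 : r ≤ finrank ℂ Φ := by omega
  obtain ⟨f, hf1, hf2, hf3⟩ := Submodule.exists_fun_fin_finrank_span_eq ℂ
    (Set.range fun p => entryL L p)
  choose q hq using hf1
  refine ⟨fun i => q (Fin.castLE h4 i), ?_⟩
  have h5 := hf3.comp (Fin.castLE h4) (Fin.castLE_injective h4)
  have h6 : (fun i => entryL L (q (Fin.castLE h4 i))) = f ∘ Fin.castLE h4 := by
    funext i
    exact hq _
  rw [h6]
  exact h5

end lin

theorem countable_mvPolynomial (K : Type) [Field K] [Countable K] (r : ℕ) :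
    Countable (MvPolynomial (Fin r) K) := by
  rw [← Cardinal.mk_le_aleph0_iff]
  refine MvPolynomial.cardinalMk_le_max.trans ?_
  refine max_le (max_le ?_ ?_) le_rfl
  · exact Cardinal.mk_le_aleph0
  · exact Cardinal.mk_le_aleph0

/-- **Points with few independent values**: they lie in countably many submanifolds. -/
theorem exceptional {K : Type} [Field K] [Algebra K ℂ] [Countable K] {d g : ℕ}
    {U : Set (Fin d → ℂ)} (Z : (Fin d → ℂ) → Matrix (Fin g) (Fin g) ℂ)
    (hZ : ∀ i j, AnalyticOnNhd ℂ (fun t => Z t i j) U) (e r : ℕ) :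
    ∃ f : ℕ → Fin (r - e) → (Fin d → ℂ) → ℂ, (∀ n i, AnalyticOnNhd ℂ (f n i) U) ∧
      ∀ t ∈ U, r ≤ finrank ℂ (LinearMap.range (ksMap Z t)) →
        (∀ p : Fin (e + 1) → Fin g × Fin g,
          ¬ AlgebraicIndependent K fun s => Z t (p s).1 (p s).2) →
        ∃ n, (∀ i, f n i t = 0) ∧ LinearIndependent ℂ fun i => fderiv ℂ (f n i) t := by
  classical
  by_cases hem : ∀ t ∈ U, r ≤ finrank ℂ (LinearMap.range (ksMap Z t)) → False
  · exact ⟨fun _ _ _ => 0, fun _ _ => analyticOnNhd_const, fun t ht hr => absurd hr (hem t ht)⟩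
  push Not at hem
  obtain ⟨t₀, -, hr₀, -⟩ := hem
  obtain ⟨q₀, -⟩ := exists_entries (ksMap Z t₀) hr₀
  have := countable_mvPolynomial K r
  have hne : Nonempty ((Fin r → Fin g × Fin g) × (Fin (r - e) → MvPolynomial (Fin r) K)) :=
    ⟨(q₀, fun _ => 0)⟩
  obtain ⟨en, hen⟩ := exists_surjective_nat
    ((Fin r → Fin g × Fin g) × (Fin (r - e) → MvPolynomial (Fin r) K))
  refine ⟨fun n i t => aeval (fun k => Z t ((en n).1 k).1 ((en n).1 k).2) ((en n).2 i),
    fun n i => analytic_aeval (fun k t => Z t ((en n).1 k).1 ((en n).1 k).2)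
      (fun k => hZ _ _) _, fun t ht hr hexc => ?_⟩
  obtain ⟨q, hq⟩ := exists_entries (ksMap Z t) hr
  obtain ⟨P, j, hj, hP0, hPj, hPi⟩ := exists_relations (K := K) (e := e)
    (fun k => Z t (q k).1 (q k).2) (fun p => hexc fun s => q (p s))
  obtain ⟨n, hn⟩ := hen (q, P)
  refine ⟨n, ?_⟩
  simp only [hn]
  refine ⟨hP0, ?_⟩
  have hder : ∀ i, fderiv ℂ (fun t => aeval (fun k => Z t (q k).1 (q k).2) (P i)) t =
      ∑ k, aeval (fun k => Z t (q k).1 (q k).2) (pderiv k (P i)) •
        fderiv ℂ (fun t => Z t (q k).1 (q k).2) t := fun i =>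
    (hasFDerivAt_aeval (fun k t => Z t (q k).1 (q k).2)
      (fun k => fderiv ℂ (fun t => Z t (q k).1 (q k).2) t) t
      (fun k => ((hZ _ _) t ht).differentiableAt.hasFDerivAt) (P i)).fderiv
  rw [Fintype.linearIndependent_iff]
  intro c hc i₀
  have hc' : ∑ k, (∑ i, c i * aeval (fun k => Z t (q k).1 (q k).2) (pderiv k (P i))) •
      entryL (ksMap Z t) (q k) = 0 := by
    refine LinearMap.ext fun v => ?_
    have h1 : ∑ i, c i * ∑ k, aeval (fun k => Z t (q k).1 (q k).2) (pderiv k (P i)) *
        fderiv ℂ (fun t => Z t (q k).1 (q k).2) t v = 0 := by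
      have h3 := congrArg (fun φ : (Fin d → ℂ) →L[ℂ] ℂ => φ v) hc
      simp only [hder] at h3
      refine Eq.trans ?_ h3
      change _ = (∑ i, c i • ∑ k, aeval (fun k => Z t (q k).1 (q k).2) (pderiv k (P i)) •
        fderiv ℂ (fun t => Z t (q k).1 (q k).2) t) v
      rw [ContinuousLinearMap.coe_sum', Finset.sum_apply]
      refine Finset.sum_congr rfl fun i _ => ?_
      change _ = c i * (∑ k, aeval (fun k => Z t (q k).1 (q k).2) (pderiv k (P i)) •
        fderiv ℂ (fun t => Z t (q k).1 (q k).2) t) v
      rw [ContinuousLinearMap.coe_sum', Finset.sum_apply]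
      rfl
    rw [LinearMap.coe_sum, Finset.sum_apply]
    change ∑ k, (∑ i, c i * aeval (fun k => Z t (q k).1 (q k).2) (pderiv k (P i))) *
      fderiv ℂ (fun t => Z t (q k).1 (q k).2) t v = 0
    rw [← h1]
    simp only [Finset.mul_sum, Finset.sum_mul]
    rw [Finset.sum_comm]
    refine Finset.sum_congr rfl fun i _ => Finset.sum_congr rfl fun k _ => ?_
    rw [mul_assoc]
  have h2 := Fintype.linearIndependent_iff.1 hq _ hc' (j i₀)
  rw [Finset.sum_eq_single i₀] at h2
  · exact (mul_eq_zero.1 h2).resolve_right (hPj i₀)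
  · intro i _ hi
    rw [hPi i i₀ hi, mul_zero]
  · intro h
    exact absurd (Finset.mem_univ _) h

end

end Pool.Agent.U46.EX
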