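import Mathlib
import Pool.Agent.U46.EX2

/-!
# Independent differentials give algebraically independent values at very general points
-/

set_option autoImplicit false
set_option maxHeartbeats 4000000

namespace Pool.Agent.U46.EX

open Module MvPolynomial Pool.Agent.TH504.VL

noncomputable section

/-- functionals which are independent give a surjective map -/
theorem range_pi_eq_top {V : Type} [AddCommGroup V] [Module ℂ V] {D : ℕ} (φ : Fin D → V →ₗ[ℂ] ℂ)
    (h : LinearIndependent ℂ φ) : LinearMap.range (LinearMap.pi φ) = ⊤ := by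
  classical
  by_contra hne
  obtain ⟨c, hc0, hc⟩ := Submodule.exists_le_ker_of_lt_top _ (lt_top_iff_ne_top.2 hne)
  apply hc0
  have h1 : ∑ i, c (Pi.single i 1) • φ i = 0 := by
    refine LinearMap.ext fun v => ?_
    rw [LinearMap.coe_sum, Finset.sum_apply]
    have h2 : c (LinearMap.pi φ v) = 0 := hc ⟨v, rfl⟩
    have h3 : (LinearMap.pi φ v) = ∑ i, (φ i v) • (Pi.single i (1 : ℂ) : Fin D → ℂ) := by
      funext j
      rw [Finset.sum_apply]
      rw [Finset.sum_eq_single j]
      · rw [Pi.smul_apply, Pi.single_eq_same, smul_eq_mul, mul_one]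
        rfl
      · intro i _ hi
        rw [Pi.smul_apply, Pi.single_eq_of_ne (Ne.symm hi), smul_zero]
      · intro h
        exact absurd (Finset.mem_univ _) h
    rw [h3, map_sum] at h2
    refine Eq.trans ?_ h2
    refine Finset.sum_congr rfl fun i _ => ?_
    rw [map_smul, smul_eq_mul]
    change c (Pi.single i 1) * φ i v = _
    ring
  have h2 := Fintype.linearIndependent_iff.1 h _ h1
  refine LinearMap.pi_ext' fun i => ?_
  refine LinearMap.ext_ring ?_
  exact h2 i

/-- a polynomial which vanishes near a point is zero -/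
theorem eq_zero_of_nhds {K : Type} [Field K] [Algebra K ℂ] {D : ℕ} (P : MvPolynomial (Fin D) K)
    (x₀ : Fin D → ℂ) (h : ∀ᶠ x in nhds x₀, aeval x P = 0) : P = 0 := by
  obtain ⟨ε, hε, hball⟩ := Metric.eventually_nhds_iff_ball.1 h
  have h1 : (map (algebraMap K ℂ) P) = 0 := by
    refine MvPolynomial.funext_set (fun i => Metric.ball (x₀ i) ε) (fun i => ?_) fun x hx => ?_
    · exact infinite_of_mem_nhds (x₀ i) (Metric.ball_mem_nhds _ hε)
    · rw [map_zero, eval_map]
      have h2 := hball x (by
        rw [Metric.mem_ball, dist_pi_lt_iff hε]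
        intro i
        exact hx i (Set.mem_univ i))
      exact h2
  exact (map_injective _ (algebraMap K ℂ).injective) (by rw [h1, map_zero])

/-- **Very general points**: if the differentials of `D` entries are independent at one point then
the values of these entries are algebraically independent at very general points. -/
theorem very_general {K : Type} [Field K] [Algebra K ℂ] [Countable K] {d g D : ℕ}
    {U : Set (Fin d → ℂ)} (Z : (Fin d → ℂ) → Matrix (Fin g) (Fin g) ℂ)
    (hZ : ∀ i j, AnalyticOnNhd ℂ (fun t => Z t i j) U) {s : Fin d → ℂ} (hU : IsOpen U)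
    (hs : s ∈ U) (hD : D ≤ finrank ℂ (LinearMap.range (ksMap Z s))) :
    ∃ (q : Fin D → Fin g × Fin g) (f : ℕ → (Fin d → ℂ) → ℂ),
      (∀ m, AnalyticOnNhd ℂ (f m) U ∧ ∃ s ∈ U, f m s ≠ 0) ∧
      ∀ t ∈ U, (∀ m, f m t ≠ 0) →
        AlgebraicIndependent K fun k => Z t (q k).1 (q k).2 := by
  classical
  obtain ⟨q, hq⟩ := exists_entries (ksMap Z s) hD
  have := countable_mvPolynomial K D
  have hne : Nonempty {P : MvPolynomial (Fin D) K // P ≠ 0} := ⟨⟨1, one_ne_zero⟩⟩
  obtain ⟨en, hen⟩ := exists_surjective_nat {P : MvPolynomial (Fin D) K // P ≠ 0}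
  refine ⟨q, fun m t => aeval (fun k => Z t (q k).1 (q k).2) (en m).1, fun m => ⟨?_, ?_⟩,
    fun t ht hm => ?_⟩
  · exact analytic_aeval (fun k t => Z t (q k).1 (q k).2) (fun k => hZ _ _) _
  · by_contra hcon
    push Not at hcon
    have hstr : ∀ k, HasStrictFDerivAt (fun t => Z t (q k).1 (q k).2)
        (fderiv ℂ (fun t => Z t (q k).1 (q k).2) s) s := fun k =>
      ((hZ _ _) s hs).hasStrictFDerivAt
    have hstr' : HasStrictFDerivAt (fun t k => Z t (q k).1 (q k).2)
        (ContinuousLinearMap.pi fun k => fderiv ℂ (fun t => Z t (q k).1 (q k).2) s) s :=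
      hasStrictFDerivAt_pi.2 hstr
    have hsurj : (ContinuousLinearMap.pi fun k =>
        fderiv ℂ (fun t => Z t (q k).1 (q k).2) s).range = ⊤ := by
      have h1 := range_pi_eq_top _ hq
      rw [← h1]
      rfl
    have hmap := hstr'.map_nhds_eq_of_surj hsurj
    refine (en m).2 (eq_zero_of_nhds _ (fun k => Z s (q k).1 (q k).2) ?_)
    rw [← hmap, Filter.eventually_map]
    filter_upwards [hU.mem_nhds hs] with t ht
    exact hcon t ht
  · rw [algebraicIndependent_iff]
    intro P hP
    by_contra hP0
    obtain ⟨m, hm'⟩ := hen ⟨P, hP0⟩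
    refine hm m ?_
    have h1 : (en m).1 = P := by rw [hm']
    change aeval (fun k => Z t (q k).1 (q k).2) (en m).1 = 0
    exact (congrArg (fun p => aeval (fun k => Z t (q k).1 (q k).2) p) h1).trans hP

end

end Pool.Agent.U46.EX
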