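import Mathlib
import Pool.Agent.U228.MP.Core
import Pool.Agent.R915.M1
import Pool.Agent.X311.Periods
import Pool.Agent.U46.EX3
import Pool.Agent.U46.ExDefs

/-!
# The exceptional points of a family of abelian varieties
-/

set_option autoImplicit false
set_option maxHeartbeats 4000000

namespace Pool.Agent.U46.EX

open Matrix Module Pool.Agent.Y90 Pool.Agent.R915 Pool.Agent.TH504.VL Pool.Agent.U228.MP
open Pool.Agent.H204R3.CM (IsHodge)

noncomputable section

theorem hodge_of_many {g : ℕ} {Z : Matrix (Fin g) (Fin g) ℂ} (hm : PM Z → ManyPeriods 3 Z) :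
    HodgeForProducts Z := by
  intro h X hX κ _ f
  constructor
  · intro hf
    exact Pool.Agent.N507.GHC3.t_ZERO algSys X
      (ghc_many h (hm h) X (fun Y hY => Or.inl (hX Y hY)) algSys) κ f hf
  · intro hf
    exact hf.isHodge inferInstance

theorem three_le {g ρ : ℕ} (hρ : ρ ≤ 3) (hg : 4 ≤ g) :
    (3 + 1) ^ 2 + 2 * (g - 3 - 1) * (g - 3) ≤
      max (g ^ 2) ((ρ + 1) ^ 2 + 2 * (g - ρ - 1) * (g - ρ)) := by
  obtain ⟨k, rfl⟩ := Nat.exists_eq_add_of_le' hg
  rcases Nat.lt_or_ge ρ 3 with h | h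
  · rcases Nat.eq_zero_or_pos k with rfl | hk
    · refine le_trans ?_ (le_max_left _ _)
      norm_num
    · refine le_trans ?_ (le_max_right _ _)
      interval_cases ρ
      · have h1 : k + 4 - 3 - 1 = k := by omega
        have h2 : k + 4 - 3 = k + 1 := by omega
        have h3 : k + 4 - 0 - 1 = k + 3 := by omega
        have h4 : k + 4 - 0 = k + 4 := by omega
        rw [h1, h2, h3, h4]
        nlinarith
      · have h1 : k + 4 - 3 - 1 = k := by omega
        have h2 : k + 4 - 3 = k + 1 := by omega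
        have h3 : k + 4 - 1 - 1 = k + 2 := by omega
        have h4 : k + 4 - 1 = k + 3 := by omega
        rw [h1, h2, h3, h4]
        nlinarith
      · have h1 : k + 4 - 3 - 1 = k := by omega
        have h2 : k + 4 - 3 = k + 1 := by omega
        have h3 : k + 4 - 2 - 1 = k + 1 := by omega
        have h4 : k + 4 - 2 = k + 2 := by omega
        rw [h1, h2, h3, h4]
        nlinarith
  · have : ρ = 3 := by omega
    subst this
    exact le_max_right _ _

theorem good_of_indep {g : ℕ} (ρ : ℕ) {Z : Matrix (Fin g) (Fin g) ℂ}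
    (hZ : Zᵀ = Z) (hpos : (Z.map Complex.im).PosDef)
    (p : Fin (excDim g ρ + 1) → Fin g × Fin g)
    (hp : AlgebraicIndependent (Subfield.closure (∅ : Set ℂ)) fun s => Z (p s).1 (p s).2) :
    IsGood ρ Z := by
  obtain ⟨M, hM⟩ : ∃ M, M = max (g ^ 2) ((ρ + 1) ^ 2 + 2 * (g - ρ - 1) * (g - ρ)) := ⟨_, rfl⟩
  have he : excDim g ρ = M / 4 := by rw [hM]; rfl
  have h1 : g ^ 2 ≤ M := hM ▸ le_max_left _ _
  have h2 : (ρ + 1) ^ 2 + 2 * (g - ρ - 1) * (g - ρ) ≤ M := hM ▸ le_max_right _ _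
  have h4 : g ^ 2 < 4 * (excDim g ρ + 1) := by omega
  have h5 : (ρ + 1) ^ 2 + 2 * (g - ρ - 1) * (g - ρ) < 4 * (excDim g ρ + 1) := by omega
  obtain ⟨B, c, hB, hc, h6, h7, h8, -⟩ := Pool.Agent.X311.many_periods Z hZ hpos _ p hp
  have h9 : c ≤ ρ := h6 ρ h4 h5
  refine ⟨⟨B, c, hB, hc, h9, h7⟩, fun n hn => h8 n ((Nat.mul_le_mul_left n h9).trans hn),
    fun hρ => hodge_of_many fun _ => ?_⟩
  rcases Nat.lt_or_ge g 4 with hg | hg
  · exact Or.inl (by omega)
  · have hp' : AlgebraicIndependent ℚ fun s => Z (p s).1 (p s).2 :=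
      hp.restrictScalars (algebraMap ℚ (Subfield.closure (∅ : Set ℂ))).injective
    have h10 := three_le hρ hg
    rw [← hM] at h10
    exact Or.inr ⟨excDim g ρ + 1, p, hp', h4, by omega⟩

theorem exceptional_points {g d : ℕ} {U : Set (Fin d → ℂ)}
    (Z : (Fin d → ℂ) → Matrix (Fin g) (Fin g) ℂ)
    (hol : ∀ i j, AnalyticOnNhd ℂ (fun t => Z t i j) U)
    (hZ : ∀ t ∈ U, (Z t).transpose = Z t ∧ ((Z t).map Complex.im).PosDef) (ρ r : ℕ) :
    InSubmanifolds U {t | t ∈ U ∧ r ≤ moduli Z t ∧ ¬ IsGood ρ (Z t)} (r - excDim g ρ) := by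
  have hcount : Countable (Subfield.closure (∅ : Set ℂ)) := by
    rw [← Cardinal.mk_le_aleph0_iff]
    refine (Subfield.cardinalMk_closure_le_max ∅).trans (max_le ?_ le_rfl)
    exact Cardinal.mk_le_aleph0
  obtain ⟨f, hf, h⟩ := exceptional (K := Subfield.closure (∅ : Set ℂ)) Z hol (excDim g ρ) r
  refine ⟨f, hf, ?_⟩
  rintro t ⟨ht, hr, hex⟩
  exact h t ht hr fun p hp => hex (good_of_indep ρ (hZ t ht).1 (hZ t ht).2 p hp)

end

end Pool.Agent.U46.EX
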