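import Mathlib
import Pool.Agent.U46.EX5
import Pool.Agent.U46.C1Defs
import Pool.Agent.X311.Cn1
import Pool.Agent.N994.FH.Cn1

/-!
# The exceptional points of a family for the case of coniveau one
-/

set_option autoImplicit false
set_option maxHeartbeats 400000

namespace Pool.Agent.U46.EX

open Matrix Module Pool.Agent.Y90 Pool.Agent.R915 Pool.Agent.TH504.VL Pool.Agent.TH504.CB
  Pool.Agent.U228.MP Pool.Agent.TH131.GHC Pool.Agent.X311 Pool.Agent.W437.HC
open Pool.Agent.H204R3.CM (IsHodge)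

noncomputable section

theorem many_of_indep {g : ℕ} {ρ : ℕ} (hρ : ρ ≤ 3) {Z : Matrix (Fin g) (Fin g) ℂ}
    (p : Fin (excDim g ρ + 1) → Fin g × Fin g)
    (hp : AlgebraicIndependent ℚ fun s => Z (p s).1 (p s).2) : ManyPeriods 3 Z := by
  obtain ⟨M, hM⟩ : ∃ M, M = max (g ^ 2) ((ρ + 1) ^ 2 + 2 * (g - ρ - 1) * (g - ρ)) := ⟨_, rfl⟩
  have he : excDim g ρ = M / 4 := by rw [hM]; rfl
  have h1 : g ^ 2 ≤ M := hM ▸ le_max_left _ _
  rcases Nat.lt_or_ge g 4 with hg | hg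
  · exact Or.inl (by omega)
  · have h10 := three_le hρ hg
    rw [← hM] at h10
    exact Or.inr ⟨excDim g ρ + 1, p, hp, by omega, by omega⟩

theorem over_of_transfers {g : ℕ} {Z : Matrix (Fin g) (Fin g) ℂ} (hZ : IsPeriodMatrix Z) {v : ℕ}
    {V : Coh v} (h : TransfersGHC Z V) : OneOverPowers Z V := by
  intro N hN n x H NX heff hdom
  exact Cn1.coniveauOne_of_ghc hdom heff (h (Cn1.filt N) (Cn1.ghcz_filt hN) n)
    (Cn1.uniq_of_span (Cn1.span_perPow Z hZ.2 n))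

theorem goodOne_of_indep {g : ℕ} (K : Subfield ℂ) (ρ : ℕ) {Z : Matrix (Fin g) (Fin g) ℂ}
    (hZ : Zᵀ = Z) (hpos : (Z.map Complex.im).PosDef)
    (p : Fin (excDim g ρ + 1) → Fin g × Fin g)
    (hp : AlgebraicIndependent K fun s => Z (p s).1 (p s).2) : IsGoodOne K ρ Z := by
  obtain ⟨M, hM⟩ : ∃ M, M = max (g ^ 2) ((ρ + 1) ^ 2 + 2 * (g - ρ - 1) * (g - ρ)) := ⟨_, rfl⟩
  have he : excDim g ρ = M / 4 := by rw [hM]; rfl
  have h1 : g ^ 2 ≤ M := hM ▸ le_max_left _ _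
  have h2 : (ρ + 1) ^ 2 + 2 * (g - ρ - 1) * (g - ρ) ≤ M := hM ▸ le_max_right _ _
  have h4 : g ^ 2 < 4 * (excDim g ρ + 1) := by omega
  have h5 : (ρ + 1) ^ 2 + 2 * (g - ρ - 1) * (g - ρ) < 4 * (excDim g ρ + 1) := by omega
  obtain ⟨b, r, Z₁, Z₂, a1, a2, a3, a4, a5, a6, a7⟩ := ghc_periods Z hZ hpos K p hp
  have a8 : r ≤ ρ := a5 ρ h4 h5
  refine ⟨⟨b, r, Z₁, Z₂, a1, a2, a3, a4, a8, fun v V hV => over_of_transfers a1 (a6 v V hV)⟩,
    fun h0 v V hV => over_of_transfers ⟨hZ, hpos⟩ (a7 (by omega) v V hV)⟩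

theorem exceptional_one {g d : ℕ} {U : Set (Fin d → ℂ)} (K : Subfield ℂ) [Countable K]
    (Z : (Fin d → ℂ) → Matrix (Fin g) (Fin g) ℂ)
    (hol : ∀ i j, AnalyticOnNhd ℂ (fun t => Z t i j) U)
    (hZ : ∀ t ∈ U, (Z t).transpose = Z t ∧ ((Z t).map Complex.im).PosDef) (ρ r : ℕ) :
    InSubmanifolds U {t | t ∈ U ∧ r ≤ moduli Z t ∧ ¬ IsGoodOne K ρ (Z t)} (r - excDim g ρ) := by
  obtain ⟨f, hf, h⟩ := exceptional (K := K) Z hol (excDim g ρ) r
  refine ⟨f, hf, ?_⟩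
  rintro t ⟨ht, hr, hex⟩
  exact h t ht hr fun p hp => hex (goodOne_of_indep K ρ (hZ t ht).1 (hZ t ht).2 p hp)

/-- The Hodge filtration of a variety is defined over a countable field. -/
theorem exists_field {v : ℕ} (V : Coh v) :
    ∃ K : Subfield ℂ, Countable K ∧ HasFiltrationOver K V := by
  classical
  let E : ℤ → Submodule ℂ (Fin v → ℂ) := fun n =>
    LinearMap.ker (Matrix.mulVecLin V.z - (n : ℂ) • LinearMap.id)
  have hE : ∀ (n : ℤ) (y : Fin v → ℂ), y ∈ E n ↔ V.z *ᵥ y = (n : ℂ) • y := by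
    intro n y
    rw [LinearMap.mem_ker, LinearMap.sub_apply, sub_eq_zero]
    rfl
  choose s hs using fun n => (IsNoetherian.noetherian (E n) : (E n).FG)
  let S : Set ℂ := ⋃ n : ℤ, ⋃ x ∈ s n, Set.range x
  have hS : S.Countable := by
    refine Set.countable_iUnion fun n => ?_
    exact (s n).countable_toSet.biUnion fun x _ => Set.countable_range x
  refine ⟨Subfield.closure S, ?_, fun n y hy => ?_⟩
  · rw [← Cardinal.mk_le_aleph0_iff]
    refine (Subfield.cardinalMk_closure_le_max S).trans (max_le ?_ le_rfl)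
    have := hS.to_subtype
    exact Cardinal.mk_le_aleph0
  · have h1 : y ∈ Submodule.span ℂ (s n : Set (Fin v → ℂ)) := by
      rw [hs n]
      exact (hE n y).2 hy
    refine Submodule.span_mono ?_ h1
    intro x hx
    refine ⟨fun b => Subfield.subset_closure ?_, Submodule.subset_span ⟨n, le_rfl, ?_⟩⟩
    · exact Set.mem_iUnion.2 ⟨n, Set.mem_iUnion₂.2 ⟨x, hx, ⟨b, rfl⟩⟩⟩
    · have h2 : x ∈ E n := by
        rw [← hs n]
        exact Submodule.subset_span hx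
      exact (hE n x).1 h2

theorem exceptional_over {g d : ℕ} {U : Set (Fin d → ℂ)}
    (Z : (Fin d → ℂ) → Matrix (Fin g) (Fin g) ℂ)
    (hol : ∀ i j, AnalyticOnNhd ℂ (fun t => Z t i j) U)
    (hZ : ∀ t ∈ U, (Z t).transpose = Z t ∧ ((Z t).map Complex.im).PosDef) {v : ℕ} (V : Coh v)
    (r : ℕ) :
    InSubmanifolds U {t | t ∈ U ∧ r ≤ moduli Z t ∧ ¬ OneOverPowers (Z t) V}
      (r - excDim g 0) := by
  obtain ⟨K, hK, hV⟩ := exists_field V
  obtain ⟨f, hf, h⟩ := exceptional_one K Z hol hZ 0 r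
  refine ⟨f, hf, ?_⟩
  rintro t ⟨ht, hr, hex⟩
  exact h t ⟨ht, hr, fun hg => hex (hg.2 rfl v V (Or.inr hV))⟩

/-- Coniveau one for all varieties dominated by abelian varieties with allowed factors, outside
countably many submanifolds. -/
theorem exceptional_products {g d : ℕ} {U : Set (Fin d → ℂ)}
    (Z : (Fin d → ℂ) → Matrix (Fin g) (Fin g) ℂ)
    (hol : ∀ i j, AnalyticOnNhd ℂ (fun t => Z t i j) U) (r : ℕ) :
    InSubmanifolds U {t | t ∈ U ∧ r ≤ moduli Z t ∧ ¬ OneForProducts (Z t)}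
      (r - excDim g 3) := by
  have hcount : Countable (Subfield.closure (∅ : Set ℂ)) := by
    rw [← Cardinal.mk_le_aleph0_iff]
    refine (Subfield.cardinalMk_closure_le_max ∅).trans (max_le ?_ le_rfl)
    exact Cardinal.mk_le_aleph0
  obtain ⟨f, hf, h⟩ := exceptional (K := Subfield.closure (∅ : Set ℂ)) Z hol (excDim g 3) r
  refine ⟨f, hf, ?_⟩
  rintro t ⟨ht, hr, hex⟩
  refine h t ht hr fun p hp => hex fun h X hX 𝒯 => ?_
  have hp' : AlgebraicIndependent ℚ fun s => Z t (p s).1 (p s).2 :=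
    hp.restrictScalars (algebraMap ℚ (Subfield.closure (∅ : Set ℂ))).injective
  exact Pool.Agent.N994.FH.coniveauOne (ghc_many h (many_of_indep le_rfl p hp') X hX 𝒯.alg)

/-- The generalized Hodge conjecture for the abelian varieties with allowed factors. -/
def GHCForProducts {g : ℕ} (Z : Matrix (Fin g) (Fin g) ℂ) : Prop :=
  ∀ (h : PM Z) (X : AV), (∀ Y, Pool.Agent.R915.IsFactor Y X → AllowedFactor h Y) →
    ∀ 𝒜 : Sys, Pool.Agent.N178.HX.GHC 𝒜 X

/-- **The generalized Hodge conjecture outside countably many submanifolds.** -/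
theorem exceptional_ghc {g d : ℕ} {U : Set (Fin d → ℂ)}
    (Z : (Fin d → ℂ) → Matrix (Fin g) (Fin g) ℂ)
    (hol : ∀ i j, AnalyticOnNhd ℂ (fun t => Z t i j) U) (r : ℕ) :
    InSubmanifolds U {t | t ∈ U ∧ r ≤ moduli Z t ∧ ¬ GHCForProducts (Z t)} (r - excDim g 3) := by
  have hcount : Countable (Subfield.closure (∅ : Set ℂ)) := by
    rw [← Cardinal.mk_le_aleph0_iff]
    refine (Subfield.cardinalMk_closure_le_max ∅).trans (max_le ?_ le_rfl)
    exact Cardinal.mk_le_aleph0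
  obtain ⟨f, hf, h⟩ := exceptional (K := Subfield.closure (∅ : Set ℂ)) Z hol (excDim g 3) r
  refine ⟨f, hf, ?_⟩
  rintro t ⟨ht, hr, hex⟩
  refine h t ht hr fun p hp => hex fun h X hX 𝒜 => ?_
  have hp' : AlgebraicIndependent ℚ fun s => Z t (p s).1 (p s).2 :=
    hp.restrictScalars (algebraMap ℚ (Subfield.closure (∅ : Set ℂ))).injective
  exact ghc_many h (many_of_indep le_rfl p hp') X hX 𝒜

end

end Pool.Agent.U46.EX
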