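import Mathlib
import Pool.Agent.TH504.CB.FlatDefs
import Pool.Agent.TH504.CB.PeriodDefs

/-!
# Flat Hodge classes on the powers of a family of abelian varieties and a fixed variety: definitions
-/

set_option autoImplicit false

namespace Pool.Agent.U46.EX

open Module Pool.Agent.H204R3.CM Pool.Agent.W437.HC Pool.Agent.W437.HD Pool.Agent.TH504.VL
  Pool.Agent.TH504.VY Pool.Agent.TH504.CB Pool.Agent.TH131.GHC

/-- There are many moduli: `4 D > g ^ 2` and `4 D > (ρ + 1) ^ 2 + 2 (g - ρ - 1) (g - ρ)`. -/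
def ManyModuli (g ρ D : ℕ) : Prop :=
  g ^ 2 < 4 * D ∧ (ρ + 1) ^ 2 + 2 * (g - ρ - 1) * (g - ρ) < 4 * D

/-- `Z` is a holomorphic family of period matrices over `U`. -/
def IsFamily {g d : ℕ} (U : Set (Fin d → ℂ)) (Z : (Fin d → ℂ) → Matrix (Fin g) (Fin g) ℂ) : Prop :=
  (∀ i j, AnalyticOnNhd ℂ (fun t => Z t i j) U) ∧
    ∀ t ∈ U, (Z t).transpose = Z t ∧ ((Z t).map Complex.im).PosDef

/-- Each flat class on the fibre power `A ^ n` of the family which is a Hodge class on all members is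
a combination of products of flat divisor classes. -/
def FlatClassesFromDivisors {g d : ℕ} (U : Set (Fin d → ℂ))
    (Z : (Fin d → ℂ) → Matrix (Fin g) (Fin g) ℂ) (n : ℕ) : Prop :=
  ∀ (k : ℕ) (f : (Fin n → Fin g ⊕ Fin g → ℚ) [⋀^Fin k]→ₗ[ℚ] ℚ),
    (∀ t ∈ U, IsHodge (perPow (Z t) n) f) → f ∈ flatDivisorSpan U (fun t => perPow (Z t) n) k

/-- Each flat class on `A ^ n × Y`, where `A` is the family and `Y` a fixed variety with cohomology
`V`, which is a Hodge class on all members is a sum of products `f ⊗ x` of a combination `f` of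
products of flat divisor classes on `A ^ n` and a Hodge class `x` on `Y`. -/
def FlatClassesOnTimes {g d : ℕ} (U : Set (Fin d → ℂ))
    (Z : (Fin d → ℂ) → Matrix (Fin g) (Fin g) ℂ) (n : ℕ) {v : ℕ} (V : Coh v) : Prop :=
  ∀ F : HAZ (Fin n → Fin g ⊕ Fin g → ℚ) v,
    (∀ t ∈ U, IsHodgeOnProduct (perPow (Z t) n) V F) →
    F ∈ Submodule.span ℚ {F | ∃ (k : ℕ) (f : (Fin n → Fin g ⊕ Fin g → ℚ) [⋀^Fin k]→ₗ[ℚ] ℚ)
      (x : Fin v → ℚ), f ∈ flatDivisorSpan U (fun t => perPow (Z t) n) k ∧ IsHodgeOn V x ∧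
        F = cross f x}

/-- Through each point `b` of `B` there is a connected complex manifold (an open set `U` of a space
`ℂ ^ d`, mapped to `B`) along which the Hodge structure of the family `Y` is constant and the family
`Z` of abelian varieties of dimension `g` is holomorphic and has, at some point, `D` moduli, where
`4 D > g ^ 2` and `4 D > 1 + 2 (g - 1) g` (that is, `D > g (g - 1) / 2`). -/
def HasManyModuliRelative {B : Type} {g v : ℕ} (Z : B → Matrix (Fin g) (Fin g) ℂ)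
    (Y : B → Coh v) : Prop :=
  ∀ b, ∃ (d : ℕ) (U : Set (Fin d → ℂ)) (φ : (Fin d → ℂ) → B), IsOpen U ∧ IsPreconnected U ∧
    b ∈ φ '' U ∧ (∀ t ∈ U, (Y (φ t)).z = (Y b).z) ∧ IsFamily U (fun t => Z (φ t)) ∧
    ∃ s ∈ U, ManyModuli g 0 (finrank ℂ (LinearMap.range (ksMap (fun t => Z (φ t)) s)))

end Pool.Agent.U46.EX
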