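import Mathlib
import Pool.Agent.TH504.CB.Low4
import Pool.Agent.X311.Periods
import Pool.Agent.U46.EX3
import Pool.Agent.U46.FDefs

/-!
# Flat Hodge classes on all families of abelian varieties with many moduli
-/

set_option autoImplicit false
set_option maxHeartbeats 4000000

namespace Pool.Agent.U46.EX

open Matrix Module Pool.Agent.H204R3.CM Pool.Agent.H194R3.CM Pool.Agent.W437.HC
  Pool.Agent.W437.HD Pool.Agent.W437.HP Pool.Agent.TH504.VL
  Pool.Agent.TH504.VY Pool.Agent.TH504.CB Pool.Agent.TH131.GHC Pool.Agent.X311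

noncomputable section

variable {g d : ℕ} {U : Set (Fin d → ℂ)} {Z : (Fin d → ℂ) → Matrix (Fin g) (Fin g) ℂ}

theorem flat_functions (hZ : IsFamily U Z) :
    ∃ (T : Type) (_ : Countable T) (f : T → (Fin d → ℂ) → ℂ), (∀ p, AnalyticOnNhd ℂ (f p) U) ∧
      (∀ p, ∃ s ∈ U, f p s ≠ 0) ∧
      ∀ t ∈ U, (∀ p, f p t ≠ 0) → ∀ s ∈ U, ∀ (n k : ℕ)
        (F : (Fin n → Fin g ⊕ Fin g → ℚ) [⋀^Fin k]→ₗ[ℚ] ℚ),
        IsHodge (perPow (Z t) n) F → IsHodge (perPow (Z s) n) F := by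
  classical
  have hpos : ∀ t ∈ U, (imM (Z t)).PosDef := fun t ht => (hZ.2 t ht).2
  have hYb : ∀ t ∈ U, IsUnit (imM (bigD ℂ (fun _ : Unit => Z t))).det := fun t ht =>
    (imM_bigD_posDef (fun _ : Unit => Z t) fun _ => hpos t ht).isUnit.map
      Matrix.detMonoidHom
  have hbol : ∀ a b, AnalyticOnNhd ℂ (fun t => bigD ℂ (fun _ : Unit => Z t) a b) U := by
    intro a b
    unfold bigD
    simp only [Matrix.sum_apply, Matrix.mul_apply, Matrix.transpose_apply]
    refine Finset.analyticOnNhd_fun_sum _ fun i _ => Finset.analyticOnNhd_fun_sum _ fun x _ => ?_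
    refine AnalyticOnNhd.mul ?_ analyticOnNhd_const
    refine Finset.analyticOnNhd_fun_sum _ fun y _ => ?_
    exact AnalyticOnNhd.mul analyticOnNhd_const (hZ.1 _ _)
  obtain ⟨T, hT, f, h1, h2, h3⟩ := vg_functions (fun t => bigD ℂ (fun _ : Unit => Z t)) hbol hYb
  refine ⟨T, hT, f, h1, h2, fun t ht hft s hs n k F hF => ?_⟩
  exact hodge_transport (ι := Unit) (Z := fun _ => Z t) (Z' := fun _ => Z s) (fun _ => hpos t ht)
    (fun _ => hpos s hs) (h3 t ht hft s hs) (fun _ : Fin n => ()) hF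

/-- A point where the entries are independent over a countable field and all Hodge classes are
flat. -/
theorem good_point (hU : IsOpen U) (hc : IsPreconnected U) (hZ : IsFamily U Z) {s : Fin d → ℂ}
    (hs : s ∈ U) (S : Set ℂ) (hS : S.Countable) {D : ℕ}
    (hD : D ≤ finrank ℂ (LinearMap.range (ksMap Z s))) :
    ∃ t ∈ U, (∃ q : Fin D → Fin g × Fin g,
        AlgebraicIndependent (Subfield.closure S) fun k => Z t (q k).1 (q k).2) ∧
      ∀ s ∈ U, ∀ (n k : ℕ) (F : (Fin n → Fin g ⊕ Fin g → ℚ) [⋀^Fin k]→ₗ[ℚ] ℚ),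
        IsHodge (perPow (Z t) n) F → IsHodge (perPow (Z s) n) F := by
  have hcount : Countable (Subfield.closure S) := by
    rw [← Cardinal.mk_le_aleph0_iff]
    refine (Subfield.cardinalMk_closure_le_max S).trans (max_le ?_ le_rfl)
    have := hS.to_subtype
    exact Cardinal.mk_le_aleph0
  obtain ⟨q, f, hf, hq⟩ := very_general (K := Subfield.closure S) Z hZ.1 hU hs hD
  obtain ⟨T, hT, f', h1, h2, h3⟩ := flat_functions hZ
  obtain ⟨t, ht, hft⟩ := exists_point hU hc ⟨s, hs⟩ (ι := ℕ ⊕ T) (Sum.elim f f')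
    (by
      rintro (m | p)
      · exact (hf m).1
      · exact h1 p)
    (by
      rintro (m | p)
      · exact (hf m).2
      · exact h2 p)
  exact ⟨t, ht, ⟨q, hq t ht fun m => hft (Sum.inl m)⟩, h3 t ht fun p => hft (Sum.inr p)⟩

theorem flat_span (n k : ℕ) {t : Fin d → ℂ}
    (h : ∀ s ∈ U, ∀ (n k : ℕ) (F : (Fin n → Fin g ⊕ Fin g → ℚ) [⋀^Fin k]→ₗ[ℚ] ℚ),
        IsHodge (perPow (Z t) n) F → IsHodge (perPow (Z s) n) F)
    {f : (Fin n → Fin g ⊕ Fin g → ℚ) [⋀^Fin k]→ₗ[ℚ] ℚ}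
    (hf : f ∈ divisorSpan (perPow (Z t) n) k) :
    f ∈ flatDivisorSpan U (fun t => perPow (Z t) n) k := by
  refine Submodule.span_mono ?_ hf
  rintro f' ⟨r, e, C, hC, hf'⟩
  exact ⟨r, e, C, fun l s hs => h s hs n 2 (C l) (hC l), hf'⟩

/-- **Flat Hodge classes on the powers of a family with many moduli.** -/
theorem flat_powers (hU : IsOpen U) (hc : IsPreconnected U) (hZ : IsFamily U Z) {s : Fin d → ℂ}
    (hs : s ∈ U) {ρ : ℕ} (hD : ManyModuli g ρ (finrank ℂ (LinearMap.range (ksMap Z s)))) {n : ℕ}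
    (hn : n * ρ ≤ 3) : FlatClassesFromDivisors U Z n := by
  intro k f hf
  obtain ⟨t, ht, ⟨q, hq⟩, hflat⟩ := good_point hU hc hZ hs ∅ Set.countable_empty le_rfl
  obtain ⟨B, r, -, -, h1, -, h2, -⟩ := many_periods (Z t) (hZ.2 t ht).1 (hZ.2 t ht).2 _ q hq
  have h3 : r ≤ ρ := h1 ρ hD.1 hD.2
  exact flat_span n k hflat (h2 n ((Nat.mul_le_mul_left n h3).trans hn) k f (hf t ht))

/-- **Flat Hodge classes on the products of the powers of a family with many moduli and a fixed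
variety.** -/
theorem flat_times (hU : IsOpen U) (hc : IsPreconnected U) (hZ : IsFamily U Z) {s : Fin d → ℂ}
    (hs : s ∈ U) (hD : ManyModuli g 0 (finrank ℂ (LinearMap.range (ksMap Z s)))) {n v : ℕ}
    (V : Coh v) : FlatClassesOnTimes U Z n V := by
  intro F hF
  obtain ⟨t, ht, ⟨q, hq⟩, hflat⟩ := good_point hU hc hZ hs
    (Set.range fun p : Fin v × Fin v => V.z p.1 p.2) (Set.countable_range _) le_rfl
  obtain ⟨B, r, -, -, h1, -, -, h2⟩ := many_periods (Z t) (hZ.2 t ht).1 (hZ.2 t ht).2 _ q hq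
  have h3 : r = 0 := Nat.le_zero.1 (h1 0 hD.1 hD.2)
  have h4 := h2 h3 v V (fun a b => Subfield.subset_closure ⟨(a, b), rfl⟩) n F (hF t ht)
  refine Submodule.span_mono ?_ h4
  rintro F' ⟨k, f, x, hf, hx, hF'⟩
  exact ⟨k, f, x, flat_span n k hflat hf, hx, hF'⟩

end

end Pool.Agent.U46.EX
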