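import Mathlib
import Pool.Agent.TH504.VY.Main
import Pool.Agent.U46.EX4

/-!
# The variational Hodge conjecture for the product of the powers of a family of abelian varieties
# with many moduli and a fixed variety
-/

set_option autoImplicit false
set_option maxHeartbeats 4000000

namespace Pool.Agent.U46.EX

open Matrix Module Pool.Agent.H204R3.CM Pool.Agent.H204R3.SP Pool.Agent.H204R3.GH
  Pool.Agent.H194R3.CM Pool.Agent.W437.HC
  Pool.Agent.W437.HD Pool.Agent.W437.HP Pool.Agent.W437.HR Pool.Agent.W546.GHC Pool.Agent.TH504.VL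
  Pool.Agent.TH504.VY Pool.Agent.TH504.CB Pool.Agent.TH131.GHC Pool.Agent.X311

noncomputable section

section conv

variable {n g k : ℕ} {Z : Matrix (Fin g) (Fin g) ℂ}

theorem isH_of_hodge (hpos : (imM Z).PosDef)
    {f : (Fin n → Fin g ⊕ Fin g → ℚ) [⋀^Fin k]→ₗ[ℚ] ℚ} (hf : IsHodge (perPow Z n) f) :
    IsH (DZ (bigD ℂ (fun _ : Fin n => Z))) (cfE (EE (fun _ : Fin n => g)) f) :=
  isH_cf (frame1 (fun _ : Fin n => Z) (fun _ => hpos)) (D := DZ (bigD ℂ (fun _ : Fin n => Z))) rfl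
    hf (fun _ => ())

theorem hodge_of_isH (hpos : (imM Z).PosDef)
    {f : (Fin n → Fin g ⊕ Fin g → ℚ) [⋀^Fin k]→ₗ[ℚ] ℚ}
    (hf : IsH (DZ (bigD ℂ (fun _ : Fin n => Z))) (cfE (EE (fun _ : Fin n => g)) f)) :
    IsHodge (perPow Z n) f := by
  have hJ : JR (bigD ℂ (fun _ : Fin n => Z)) * JR (bigD ℂ (fun _ : Fin n => Z)) = -1 :=
    JR_sq ((imM_bigD_posDef (fun _ : Fin n => Z) fun _ => hpos).isUnit.map Matrix.detMonoidHom)
  have h2 : f.toMultilinearMap = (evalM (cfE (EE (fun _ : Fin n => g)) f)).compLinearMap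
        (fun _ => (frame1 (fun _ : Fin n => Z) (fun _ => hpos)).a ()) := by
    refine MultilinearMap.ext fun v => ?_
    have h3 := (frame1 (fun _ : Fin n => Z) (fun _ => hpos)).expand f v
    rw [Fintype.sum_unique] at h3
    exact h3
  have h3 : (k.factorial : ℚ) • f = MultilinearMap.alternatization
      ((evalM (cfE (EE (fun _ : Fin n => g)) f)).compLinearMap
        (fun _ => (frame1 (fun _ : Fin n => Z) (fun _ => hpos)).a ())) := by
    rw [← h2]
    have h4 := AlternatingMap.coe_alternatization f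
    change MultilinearMap.alternatization f.toMultilinearMap = _ at h4
    rw [h4, Fintype.card_fin]
    exact Nat.cast_smul_eq_nsmul ℚ _ f
  have hne : (k.factorial : ℚ) ≠ 0 := Nat.cast_ne_zero.2 (Nat.factorial_ne_zero _)
  have h4 : f = (k.factorial : ℚ)⁻¹ • (k.factorial : ℚ) • f := by
    rw [smul_smul, inv_mul_cancel₀ hne, one_smul]
  rw [h4, h3]
  exact Pool.Agent.TH125.isHodge_smul _ (isHodge_pf (frame1 (fun _ : Fin n => Z) (fun _ => hpos))
    (D := DZ (bigD ℂ (fun _ : Fin n => Z))) rfl hJ hf (fun _ => ()))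

end conv

section base

variable {n g v : ℕ} {B : Type} {Z : B → Matrix (Fin g) (Fin g) ℂ}

/-- The reproducing property. -/
theorem mem_of_integrals' [Nonempty B] (hZ : ∀ b, (Z b)ᵀ = Z b) (hpos : ∀ b, (imM (Z b)).PosDef)
    {F : HAZ (Fin n → Fin g ⊕ Fin g → ℚ) v}
    (hspan : ∀ (k : ℕ) (f : (Fin n → Fin g ⊕ Fin g → ℚ) [⋀^Fin k]→ₗ[ℚ] ℚ),
      (∀ b, IsHodge (perPow (Z b) n) f) → ∀ b, f ∈ divisorSpan (perPow (Z b) n) k)
    (hcmp : ∀ (k : ℕ) (x : Fin v) (b : B), IsHodge (perPow (Z b) n) (cmp x (F k)))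
    {P : Submodule ℚ (HAZ (Fin n → Fin g ⊕ Fin g → ℚ) v)}
    (hP : ∀ (k j : ℕ) (e : Basis (Fin k ⊕ Fin j) ℚ (Fin n → Fin g ⊕ Fin g → ℚ))
      (f : (Fin n → Fin g ⊕ Fin g → ℚ) [⋀^Fin k]→ₗ[ℚ] ℚ)
      (β : (Fin n → Fin g ⊕ Fin g → ℚ) [⋀^Fin j]→ₗ[ℚ] ℚ),
      (∀ b, f ∈ divisorSpan (perPow (Z b) n) k) →
      (∀ b, β ∈ divisorSpan (perPow (Z b) n) j) →
        cross f (fibreIntegral e F β) ∈ P) : F ∈ P := by
  classical
  obtain ⟨N, hN⟩ : ∃ N, N = Fintype.card (Fin (NB (fun _ : Fin n => g)) ⊕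
    Fin (NB (fun _ : Fin n => g))) := ⟨_, rfl⟩
  have hdim : finrank ℚ (Fin n → Fin g ⊕ Fin g → ℚ) = N := by
    rw [hN]
    exact finrank_eq_card_basis (basisP (fun _ : Fin n => g))
  have hbig : ∀ k, N < k → F k = 0 := by
    intro k hk
    refine AlternatingMap.ext fun w => ?_
    refine (F k).map_linearDependent w fun hw => ?_
    have h1 := hw.fintype_card_le_finrank
    rw [Fintype.card_fin, hdim] at h1
    omega
  have hsum : F = ∑ k ∈ Finset.range (N + 1),
      (Pi.single k (F k) : HAZ (Fin n → Fin g ⊕ Fin g → ℚ) v) := by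
    funext k
    rw [Finset.sum_apply]
    by_cases hk : k ∈ Finset.range (N + 1)
    · rw [Finset.sum_eq_single k]
      · rw [Pi.single_eq_same]
      · intro l _ hl
        exact Pi.single_eq_of_ne (Ne.symm hl) _
      · intro h0
        exact absurd hk h0
    · rw [Finset.sum_eq_zero]
      · refine hbig k ?_
        rw [Finset.mem_range] at hk
        omega
      · intro l hl
        refine Pi.single_eq_of_ne ?_ _
        rintro rfl
        exact hk hl
  rw [hsum]
  refine Submodule.sum_mem _ fun k hk => ?_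
  rw [Finset.mem_range] at hk
  have hkN : k + (N - k) = Fintype.card (Fin (NB (fun _ : Fin n => g)) ⊕
    Fin (NB (fun _ : Fin n => g))) := by omega
  have hq : Fintype.card (Fin (NB (fun _ : Fin n => g)) ⊕ Fin (NB (fun _ : Fin n => g))) =
      Fintype.card (Fin k ⊕ Fin (N - k)) := by
    rw [Fintype.card_sum (α := Fin k), Fintype.card_fin, Fintype.card_fin, hkN]
  let e : Basis (Fin k ⊕ Fin (N - k)) ℚ (Fin n → Fin g ⊕ Fin g → ℚ) :=
    (basisP (fun _ : Fin n => g)).reindex (Fintype.equivOfCardEq hq)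
  refine reproduce (X := B) (EE (fun _ : Fin n => g))
    (fun b => polOf (bigD_symm fun _ : Fin n => hZ b) (imM_bigD_posDef _ fun _ : Fin n => hpos b))
    (fun x y => (polOf_Om _ _).trans (polOf_Om _ _).symm)
    (fun {κ} _ _ f hf => cfE_inj f hf)
    hkN e F (fun x b => isH_of_hodge (hpos b) (hcmp k x b)) fun f hf β hβ => ?_
  exact hP k _ e f β (hspan k f fun b => hodge_of_isH (hpos b) (hf b))
    (hspan _ β fun b => hodge_of_isH (hpos b) (hβ b))

end base

end

end Pool.Agent.U46.EX
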