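import Mathlib
import Pool.Agent.U46.EX6

/-!
# Products of divisor classes are Hodge classes
-/

set_option autoImplicit false
set_option maxHeartbeats 4000000

namespace Pool.Agent.U46.EX

open Matrix Module Pool.Agent.H204R3.CM Pool.Agent.W437.HC
  Pool.Agent.W437.HD Pool.Agent.W437.HP Pool.Agent.TH504.VL
  Pool.Agent.TH504.VY Pool.Agent.TH504.CB Pool.Agent.TH131.GHC Pool.Agent.X311

noncomputable section

section prodM

variable {T : Type} [AddCommGroup T] [Module ℝ T] {r k : ℕ}

theorem prodM_update (e : Fin r × Fin 2 ≃ Fin k)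
    (ψ : Fin r → MultilinearMap ℝ (fun _ : Fin 2 => T) ℝ) (u : Fin k → T) (i : Fin k) (x : T) :
    (∏ l, ψ l ![Function.update u i x (e (l, 0)), Function.update u i x (e (l, 1))]) =
      ψ (e.symm i).1 (Function.update ![u (e ((e.symm i).1, 0)), u (e ((e.symm i).1, 1))]
        (e.symm i).2 x) *
      ∏ l ∈ Finset.univ.erase (e.symm i).1, ψ l ![u (e (l, 0)), u (e (l, 1))] := by
  classical
  obtain ⟨⟨l₀, ε₀⟩, hp⟩ : ∃ p, e.symm i = p := ⟨_, rfl⟩
  have hi : i = e (l₀, ε₀) := by rw [← hp, Equiv.apply_symm_apply]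
  rw [hp, ← Finset.mul_prod_erase Finset.univ _ (Finset.mem_univ l₀)]
  congr 1
  · congr 1
    funext ε
    rw [hi]
    fin_cases ε₀ <;> fin_cases ε
    · simp
    · simp
    · simp
    · simp
  · refine Finset.prod_congr rfl fun l hl => ?_
    have hne : ∀ ε, e (l, ε) ≠ i := by
      intro ε h
      rw [hi] at h
      exact Finset.ne_of_mem_erase hl (congrArg Prod.fst (e.injective h))
    rw [Function.update_of_ne (hne 0), Function.update_of_ne (hne 1)]

/-- the product of forms in two variables -/
def prodM (e : Fin r × Fin 2 ≃ Fin k) (ψ : Fin r → MultilinearMap ℝ (fun _ : Fin 2 => T) ℝ) :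
    MultilinearMap ℝ (fun _ : Fin k => T) ℝ where
  toFun u := ∏ l, ψ l ![u (e (l, 0)), u (e (l, 1))]
  map_update_add' {inst} u i x y := by
    have : inst = instDecidableEqFin k := Subsingleton.elim _ _
    subst this
    rw [prodM_update, prodM_update, prodM_update, MultilinearMap.map_update_add, add_mul]
  map_update_smul' {inst} u i c x := by
    have : inst = instDecidableEqFin k := Subsingleton.elim _ _
    subst this
    rw [prodM_update, prodM_update, MultilinearMap.map_update_smul, smul_mul_assoc]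

end prodM

/-- Products of divisor classes are Hodge classes. -/
theorem isHodge_of_divisorSpan {W T : Type} [AddCommGroup W] [Module ℚ W] [AddCommGroup T]
    [Module ℂ T] {per : W →+ T} {k : ℕ} {f : W [⋀^Fin k]→ₗ[ℚ] ℚ} (hf : f ∈ divisorSpan per k) :
    IsHodge per f := by
  unfold divisorSpan at hf
  induction hf using Submodule.span_induction with
  | zero => exact Pool.Agent.TH125.isHodge_zero
  | add x y _ _ hx hy => exact Pool.Agent.TH125.isHodge_add hx hy
  | smul a x _ hx => exact Pool.Agent.TH125.isHodge_smul a hx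
  | mem f hf =>
    obtain ⟨r, e, C, hC, hf⟩ := hf
    choose ψ h1 h2 using hC
    refine ⟨∑ σ : Equiv.Perm (Fin k), ((Equiv.Perm.sign σ : ℤ) : ℝ) •
      (prodM e ψ).domDomCongr σ, fun w => ?_, fun z hz u => ?_⟩
    · rw [hf, _root_.sum_apply]
      push_cast
      refine Finset.sum_congr rfl fun σ _ => ?_
      have h4 : ∏ l, ψ l ![per (w (σ (e (l, 0)))), per (w (σ (e (l, 1))))] =
          ∏ l, ((C l ![w (σ (e (l, 0))), w (σ (e (l, 1)))] : ℚ) : ℝ) := by
        refine Finset.prod_congr rfl fun l _ => ?_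
        have h3 := h1 l ![w (σ (e (l, 0))), w (σ (e (l, 1)))]
        rw [← h3]
        congr 1
        funext ε
        fin_cases ε <;> rfl
      rw [← h4]
      rfl
    · rw [_root_.sum_apply, _root_.sum_apply]
      refine Finset.sum_congr rfl fun σ _ => ?_
      have h4 : ∏ l, ψ l ![z • u (σ (e (l, 0))), z • u (σ (e (l, 1)))] =
          ∏ l, ψ l ![u (σ (e (l, 0))), u (σ (e (l, 1)))] := by
        refine Finset.prod_congr rfl fun l _ => ?_
        have h3 := h2 l z hz ![u (σ (e (l, 0))), u (σ (e (l, 1)))]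
        rw [← h3]
        congr 1
        funext ε
        fin_cases ε <;> rfl
      exact congrArg (fun x : ℝ => ((Equiv.Perm.sign σ : ℤ) : ℝ) * x) h4

end

end Pool.Agent.U46.EX
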