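import Mathlib
import Pool.Agent.U46.EX7

/-!
# The variational Hodge conjecture for products with a fixed variety
-/

set_option autoImplicit false
set_option maxHeartbeats 4000000

namespace Pool.Agent.U46.EX

open Matrix Module Pool.Agent.H204R3.CM Pool.Agent.W437.HC
  Pool.Agent.W437.HD Pool.Agent.W437.HP Pool.Agent.TH504.VL
  Pool.Agent.TH504.VY Pool.Agent.TH504.CB Pool.Agent.TH131.GHC Pool.Agent.X311

noncomputable section

variable {g d : ℕ} {U : Set (Fin d → ℂ)} {Z : (Fin d → ℂ) → Matrix (Fin g) (Fin g) ℂ}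

theorem flat_to_point {n k : ℕ} {f : (Fin n → Fin g ⊕ Fin g → ℚ) [⋀^Fin k]→ₗ[ℚ] ℚ}
    (hf : f ∈ flatDivisorSpan U (fun t => perPow (Z t) n) k) {b : Fin d → ℂ} (hb : b ∈ U) :
    f ∈ divisorSpan (perPow (Z b) n) k := by
  refine Submodule.span_mono ?_ hf
  rintro f' ⟨r, e, C, hC, hf'⟩
  exact ⟨r, e, C, fun l => hC l b hb, hf'⟩

theorem components {n v : ℕ} {V : Coh v} {F : HAZ (Fin n → Fin g ⊕ Fin g → ℚ) v}
    (hF : F ∈ Submodule.span ℚ {F | ∃ (k : ℕ) (f : (Fin n → Fin g ⊕ Fin g → ℚ) [⋀^Fin k]→ₗ[ℚ] ℚ)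
      (x : Fin v → ℚ), f ∈ flatDivisorSpan U (fun t => perPow (Z t) n) k ∧ IsHodgeOn V x ∧
        F = cross f x}) :
    (∀ (k : ℕ) (x : Fin v), ∀ b ∈ U, IsHodge (perPow (Z b) n) (cmp x (F k))) ∧
      ∀ (k : ℕ) (w : Fin k → (Fin n → Fin g ⊕ Fin g → ℚ)), F k w ∈ HY V := by
  induction hF using Submodule.span_induction with
  | zero =>
    refine ⟨fun k x b hb => ?_, fun k w => Submodule.zero_mem _⟩
    have h1 : cmp x ((0 : HAZ (Fin n → Fin g ⊕ Fin g → ℚ) v) k) = 0 := by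
      ext w
      rfl
    rw [h1]
    exact Pool.Agent.TH125.isHodge_zero
  | add F G _ _ hF hG =>
    refine ⟨fun k x b hb => ?_, fun k w => Submodule.add_mem _ (hF.2 k w) (hG.2 k w)⟩
    have h1 : cmp x ((F + G) k) = cmp x (F k) + cmp x (G k) := by
      ext w
      rfl
    rw [h1]
    exact Pool.Agent.TH125.isHodge_add (hF.1 k x b hb) (hG.1 k x b hb)
  | smul a F _ hF =>
    refine ⟨fun k x b hb => ?_, fun k w => Submodule.smul_mem _ a (hF.2 k w)⟩
    have h1 : cmp x ((a • F) k) = a • cmp x (F k) := by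
      ext w
      rfl
    rw [h1]
    exact Pool.Agent.TH125.isHodge_smul a (hF.1 k x b hb)
  | mem F hF =>
    obtain ⟨k', f, x', hf, hx', rfl⟩ := hF
    refine ⟨fun k x b hb => ?_, fun k w => ?_⟩
    · by_cases hk : k = k'
      · subst hk
        have h1 : cmp x ((cross f x' : HAZ (Fin n → Fin g ⊕ Fin g → ℚ) v) k) = x' x • f := by
          ext w
          unfold cross
          rw [Pi.single_eq_same]
          change f w * x' x = x' x * f w
          ring
        rw [h1]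
        exact Pool.Agent.TH125.isHodge_smul _ (isHodge_of_divisorSpan (flat_to_point hf hb))
      · have h1 : cmp x ((cross f x' : HAZ (Fin n → Fin g ⊕ Fin g → ℚ) v) k) = 0 := by
          unfold cross
          rw [Pi.single_eq_of_ne hk]
          ext w
          rfl
        rw [h1]
        exact Pool.Agent.TH125.isHodge_zero
    · by_cases hk : k = k'
      · subst hk
        unfold cross
        rw [Pi.single_eq_same]
        exact Submodule.smul_mem (HY V) (f w) (show x' ∈ HY V from hx')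
      · unfold cross
        rw [Pi.single_eq_of_ne hk]
        exact Submodule.zero_mem _

theorem leaf_components {B : Type} {n v : ℕ} {Z : B → Matrix (Fin g) (Fin g) ℂ} {Y : B → Coh v}
    (h : HasManyModuliRelative Z Y) {F : HAZ (Fin n → Fin g ⊕ Fin g → ℚ) v}
    (hF : ∀ b, IsHodgeOnProduct (perPow (Z b) n) (Y b) F) (b : B) :
    (∀ (k : ℕ) (x : Fin v), IsHodge (perPow (Z b) n) (cmp x (F k))) ∧
      ∀ (k : ℕ) (w : Fin k → (Fin n → Fin g ⊕ Fin g → ℚ)), F k w ∈ HY (Y b) := by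
  obtain ⟨d, U, φ, hU, hc, ⟨t, ht, rfl⟩, hY, hZ, s, hs, hD⟩ := h b
  have h1 := components (flat_times hU hc hZ hs hD (n := n) (Y (φ t)) F fun s hs => by
    obtain ⟨Φ, h1, h2⟩ := hF (φ s)
    exact ⟨Φ, h1, hasType_congr (hY s hs) h2⟩)
  exact ⟨fun k x => h1.1 k x t ht, h1.2⟩

theorem leaf_span {B : Type} {n v : ℕ} {Z : B → Matrix (Fin g) (Fin g) ℂ} {Y : B → Coh v}
    (h : HasManyModuliRelative Z Y) (k : ℕ)
    (f : (Fin n → Fin g ⊕ Fin g → ℚ) [⋀^Fin k]→ₗ[ℚ] ℚ)
    (hf : ∀ b, IsHodge (perPow (Z b) n) f) (b : B) : f ∈ divisorSpan (perPow (Z b) n) k := by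
  obtain ⟨d, U, φ, hU, hc, ⟨t, ht, rfl⟩, hY, hZ, s, hs, hD⟩ := h b
  exact flat_to_point (flat_powers hU hc hZ hs hD (n := n) (by omega) k f
      fun t ht => hf (φ t)) ht

/-- **The variational Hodge conjecture** for the product of the powers of a family with many moduli
and any family of varieties. -/
theorem vhc_times {B : Type} [Nonempty B] {v : ℕ} (Z : B → Matrix (Fin g) (Fin g) ℂ)
    (Y : B → Coh v) (h : HasManyModuliRelative Z Y) (n : ℕ) :
    HodgeClassesAreProducts (fun b => perPow (Z b) n) Y ∧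
      VariationalFromY (fun b => perPow (Z b) n) Y := by
  have hper : ∀ b, (Z b)ᵀ = Z b ∧ (imM (Z b)).PosDef := by
    intro b
    obtain ⟨d, U, φ, hU, hc, ⟨t, ht, rfl⟩, hY, hZ, -⟩ := h b
    exact hZ.2 t ht
  have hint : ∀ {F : HAZ (Fin n → Fin g ⊕ Fin g → ℚ) v},
      (∀ b, IsHodgeOnProduct (perPow (Z b) n) (Y b) F) → ∀ {k j : ℕ}
      (e : Basis (Fin k ⊕ Fin j) ℚ (Fin n → Fin g ⊕ Fin g → ℚ))
      (β : (Fin n → Fin g ⊕ Fin g → ℚ) [⋀^Fin j]→ₗ[ℚ] ℚ) (b : B),
      fibreIntegral e F β ∈ HY (Y b) := by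
    intro F hF k j e β b
    unfold fibreIntegral
    refine Submodule.sum_mem _ fun σ _ => ?_
    have h2 : ∀ (z : ℤ) (x : Fin v → ℚ), x ∈ HY (Y b) → z • x ∈ HY (Y b) :=
      fun z x hx => zsmul_mem hx z
    exact h2 _ _ (Submodule.smul_mem _ _ ((leaf_components h hF b).2 k _))
  refine ⟨fun F hF => ?_, fun C hC F hF b₀ hb₀ b => ?_⟩
  · exact mem_of_integrals' (fun b => (hper b).1) (fun b => (hper b).2) (leaf_span h)
      (fun k x b => (leaf_components h hF b).1 k x) fun k j e f β hf hβ =>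
        Submodule.subset_span ⟨k, f, _, hf, fun b => hint hF e β b, rfl⟩
  · refine mem_of_integrals' (fun b => (hper b).1) (fun b => (hper b).2) (leaf_span h)
      (fun k x b => (leaf_components h hF b).1 k x) fun k j e f β hf hβ => ?_
    refine C.cross_mem b k f (hf b) _ ?_
    refine hC _ (fun b' => hint hF e β b') b₀ ?_ b
    exact C.integral_mem b₀ F hb₀ k j e β (hβ b₀)

end

end Pool.Agent.U46.EX
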