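import Mathlib
import Pool.Agent.U46.FDefs

/-!
# Hodge classes in the topological K-theory of families of categories: definitions

A family `C → B` of admissible subcategories of derived categories of smooth proper varieties (over a
simply connected base) is given by the Hodge structures `C b : Coh v` on
`K_0^top(C_b) ⊗ ℚ ⊕ K_1^top(C_b) ⊗ ℚ = ℚ ^ v`: the degree of a basis vector is even in `K_0^top` and odd
in `K_1^top`, and the Hodge operator is multiplication by `p - q` on the component of type `(p, q)`,
that is, on `HH_(p - q)(C_b)`.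

For a complex torus `A_b` (with the inclusion `per b : W → T` of the homology in the tangent space)
`K_0^top(D(A_b) ⊠ C_b) ⊗ ℚ` is the direct sum over `k` of `H^k(A_b) ⊗ K_k^top(C_b)`, by the Chern
character of `A_b` and the Künneth formula. Its Hodge classes are the classes which are killed by the
Hodge operator `p - q` (Tate twists do not change it).
-/

set_option autoImplicit false

namespace Pool.Agent.U46.EX

open Module Pool.Agent.H204R3.CM Pool.Agent.W437.HC Pool.Agent.W437.HD Pool.Agent.TH504.VL
  Pool.Agent.TH504.VY Pool.Agent.TH504.CB Pool.Agent.TH131.GHC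

/-- The class `x` is a Hodge class in `K_0^top(C) ⊗ ℚ`. -/
def IsHodgeK {v : ℕ} (C : Coh v) (x : Fin v → ℚ) : Prop :=
  (∀ i, x i ≠ 0 → Even (C.dg i)) ∧ IsHodgeOn C x

/-- The class `F` is a Hodge class in `K_0^top(D(A) ⊠ C) ⊗ ℚ`: its component of degree `k` on `A` has
values in `K_k^top(C) ⊗ ℚ`, and it is killed by the Hodge operator. -/
def IsHodgeKTimes {W T : Type} [AddCommGroup W] [Module ℚ W] [AddCommGroup T] [Module ℂ T] {v : ℕ}
    (per : W →+ T) (C : Coh v) (F : HAZ W v) : Prop :=
  (∀ (k : ℕ) (w : Fin k → W) (i : Fin v), F k w i ≠ 0 → Even (k + C.dg i)) ∧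
    IsHodgeOnProduct per C F

/-- The images `alg b` of `K_0(D(A_b) ⊠ C_b) ⊗ ℚ` and `algC b` of `K_0(C_b) ⊗ ℚ`, for a family of
complex tori `A_b`, with two of their properties: the exterior product of a product of divisor classes
on `A_b` and an element of `algC b` is in `alg b` (`CrossClosed`), and the direct image on `C_b` of the
product of an element of `alg b` and a product of divisor classes on `A_b` is in `algC b`
(`IntegralClosed`). -/
structure KSystem {B W T : Type} [AddCommGroup W] [Module ℚ W] [AddCommGroup T] [Module ℂ T]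
    (per : B → W →+ T) (v : ℕ) where
  /-- the classes of objects of `D(A_b) ⊠ C_b` -/
  alg : B → Submodule ℚ (HAZ W v)
  /-- the classes of objects of `C_b` -/
  algC : B → Submodule ℚ (Fin v → ℚ)
  cross_mem : CrossClosed per alg algC
  integral_mem : IntegralClosed per alg algC

/-- The span of the products `f ⊗ x` of a class `f` which is a combination of products of divisor
classes on all `A_b` and a class `x` which is a Hodge class in `K_0^top(C_b) ⊗ ℚ` for all `b`. -/
def kProducts {B W T : Type} [AddCommGroup W] [Module ℚ W] [AddCommGroup T] [Module ℂ T]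
    (per : B → W →+ T) {v : ℕ} (C : B → Coh v) : Submodule ℚ (HAZ W v) :=
  Submodule.span ℚ {G | ∃ (k : ℕ) (f : W [⋀^Fin k]→ₗ[ℚ] ℚ) (x : Fin v → ℚ),
    (∀ b, f ∈ divisorSpan (per b) k) ∧ (∀ b, IsHodgeK (C b) x) ∧ G = cross f x}

/-- Each flat class which is a Hodge class in `K_0^top(D(A_b) ⊠ C_b) ⊗ ℚ` for all `b` is a sum of
products `f ⊗ x` as in `kProducts`. -/
def HodgeKAreProducts {B W T : Type} [AddCommGroup W] [Module ℚ W] [AddCommGroup T] [Module ℂ T]
    (per : B → W →+ T) {v : ℕ} (C : B → Coh v) : Prop :=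
  ∀ F, (∀ b, IsHodgeKTimes (per b) (C b) F) → F ∈ kProducts per C

/-- The conjecture for `C → B` implies the conjecture for `D(A) ⊠_B C → B`. -/
def VHCFromC {B W T : Type} [AddCommGroup W] [Module ℚ W] [AddCommGroup T] [Module ℂ T]
    (per : B → W →+ T) {v : ℕ} (C : B → Coh v) : Prop :=
  ∀ S : KSystem per v, Variational (fun b => IsHodgeK (C b)) S.algC →
    Variational (fun b => IsHodgeKTimes (per b) (C b)) S.alg

/-- The `n`-th powers of the abelian varieties of the family `Z`. -/
noncomputable def powers {B : Type} {g : ℕ} (Z : B → Matrix (Fin g) (Fin g) ℂ) (n : ℕ) (b : B) :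
    (Fin n → Fin g ⊕ Fin g → ℚ) →+ (Fin n → Fin g → ℂ) :=
  perPow (Z b) n

/-- A family `D(A ^ n) ⊠_B C → B` of categories, where `A` has many moduli relative to `C`. -/
structure BoxFamily (B : Type) where
  /-- the dimension of `A` -/
  g : ℕ
  /-- the rank of `K_0^top(C) ⊕ K_1^top(C)` -/
  v : ℕ
  /-- the exponent -/
  n : ℕ
  /-- the period matrices of `A` -/
  Z : B → Matrix (Fin g) (Fin g) ℂ
  /-- the Hodge structures of `C` -/
  C : B → Coh v
  /-- the classes of objects -/
  S : KSystem (powers Z n) v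
  moves : HasManyModuliRelative Z C

/-- The flat classes on a family `D(A ^ n) ⊠_B C`. -/
def BoxFamily.Flat {B : Type} (P : BoxFamily B) : Type :=
  HAZ (Fin P.n → Fin P.g ⊕ Fin P.g → ℚ) P.v

instance {B : Type} (P : BoxFamily B) : AddCommGroup P.Flat :=
  inferInstanceAs (AddCommGroup (HAZ (Fin P.n → Fin P.g ⊕ Fin P.g → ℚ) P.v))

instance {B : Type} (P : BoxFamily B) : Module ℚ P.Flat :=
  inferInstanceAs (Module ℚ (HAZ (Fin P.n → Fin P.g ⊕ Fin P.g → ℚ) P.v))

/-- The span of the classes of objects of `D(A_b ^ n) ⊠ C_b`. -/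
def BoxFamily.alg {B : Type} (P : BoxFamily B) (b : B) : Submodule ℚ P.Flat :=
  P.S.alg b

/-- The Hodge classes in `K_0^top(D(A_b ^ n) ⊠ C_b) ⊗ ℚ`. -/
def BoxFamily.hodge {B : Type} (P : BoxFamily B) (b : B) (F : P.Flat) : Prop :=
  IsHodgeKTimes (powers P.Z P.n b) (P.C b) F

/-- The conjecture for `C → B`. -/
def BoxFamily.VHCofC {B : Type} (P : BoxFamily B) : Prop :=
  Variational (fun b => IsHodgeK (P.C b)) P.S.algC

/-- A family `D → B` of categories: the space `M` of flat classes of `K_0^top(D_b) ⊗ ℚ`, the Hodge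
classes and the classes of objects of `D_b`. -/
structure CatFamily (B M : Type) [AddCommGroup M] [Module ℚ M] where
  /-- the flat class is a Hodge class at `b` -/
  hodge : B → M → Prop
  /-- the classes of objects of `D_b` -/
  alg : B → Submodule ℚ M

/-- The maps `p` and `q` (given by kernels over `B`) make the family `D → B` a direct factor of the
sum of the families `P j → B`. -/
structure Splits {B J M : Type} [Fintype J] [AddCommGroup M] [Module ℚ M] (D : CatFamily B M)
    (P : J → BoxFamily B) (p : ∀ j, (P j).Flat →ₗ[ℚ] M) (q : ∀ j, M →ₗ[ℚ] (P j).Flat) : Prop where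
  q_hodge : ∀ b j x, D.hodge b x → (P j).hodge b (q j x)
  q_alg : ∀ b j, ∀ x ∈ D.alg b, q j x ∈ (P j).alg b
  p_alg : ∀ b j, ∀ y ∈ (P j).alg b, p j y ∈ D.alg b
  sum_eq : ∀ x, ∑ j, p j (q j x) = x

/-- The family `D → B` is a direct factor of the sum of the families `P j → B`. -/
def IsFactor {B J M : Type} [Fintype J] [AddCommGroup M] [Module ℚ M] (D : CatFamily B M)
    (P : J → BoxFamily B) : Prop :=
  ∃ (p : ∀ j, (P j).Flat →ₗ[ℚ] M) (q : ∀ j, M →ₗ[ℚ] (P j).Flat), Splits D P p q

end Pool.Agent.U46.EX
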