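import Mathlib
import Pool.Agent.U46.EX8
import Pool.Agent.U46.KDefs

/-!
# The noncommutative variational Hodge conjecture for products with families of categories
-/

set_option autoImplicit false
set_option maxHeartbeats 400000

namespace Pool.Agent.U46.EX

open Matrix Module Pool.Agent.H204R3.CM Pool.Agent.W437.HC
  Pool.Agent.W437.HD Pool.Agent.W437.HP Pool.Agent.TH504.VL
  Pool.Agent.TH504.VY Pool.Agent.TH504.CB Pool.Agent.TH131.GHC Pool.Agent.X311

noncomputable section

variable {g : ℕ}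

theorem even_of_equiv {r k : ℕ} (e : Fin r × Fin 2 ≃ Fin k) : Even k := by
  have h := Fintype.card_congr e
  rw [Fintype.card_prod, Fintype.card_fin, Fintype.card_fin, Fintype.card_fin] at h
  exact ⟨r, by omega⟩

theorem divisorSpan_odd {W T : Type} [AddCommGroup W] [Module ℚ W] [AddCommGroup T]
    [Module ℂ T] {per : W →+ T} {k : ℕ} {f : W [⋀^Fin k]→ₗ[ℚ] ℚ} (hf : f ∈ divisorSpan per k)
    (hk : ¬ Even k) : f = 0 := by
  unfold divisorSpan at hf
  induction hf using Submodule.span_induction with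
  | zero => rfl
  | add x y _ _ hx hy => rw [hx, hy, add_zero]
  | smul a x _ hx => rw [hx, smul_zero]
  | mem f hf =>
    obtain ⟨r, e, -, -, -⟩ := hf
    exact absurd (even_of_equiv e) hk

/-- **The description of the Hodge classes** in `K_0^top(D(A_b ^ n) ⊠ C_b)`. -/
theorem hodgeK_products' {B : Type} [Nonempty B] {v : ℕ} (Z : B → Matrix (Fin g) (Fin g) ℂ)
    (C : B → Coh v) (h : HasManyModuliRelative Z C) (n : ℕ) :
    HodgeKAreProducts (fun b => perPow (Z b) n) C := by
  have hper : ∀ b, (Z b)ᵀ = Z b ∧ (imM (Z b)).PosDef := by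
    intro b
    obtain ⟨d, U, φ, hU, hc, ⟨t, ht, rfl⟩, hY, hZ, -⟩ := h b
    exact hZ.2 t ht
  intro F hF
  have hF' : ∀ b, IsHodgeOnProduct (perPow (Z b) n) (C b) F := fun b => (hF b).2
  have hint : ∀ {k j : ℕ} (e : Basis (Fin k ⊕ Fin j) ℚ (Fin n → Fin g ⊕ Fin g → ℚ))
      (β : (Fin n → Fin g ⊕ Fin g → ℚ) [⋀^Fin j]→ₗ[ℚ] ℚ) (b : B),
      fibreIntegral e F β ∈ HY (C b) := by
    intro k j e β b
    unfold fibreIntegral
    refine Submodule.sum_mem _ fun σ _ => ?_
    have h2 : ∀ (z : ℤ) (x : Fin v → ℚ), x ∈ HY (C b) → z • x ∈ HY (C b) :=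
      fun z x hx => zsmul_mem hx z
    exact h2 _ _ (Submodule.smul_mem _ _ ((leaf_components h hF' b).2 k _))
  refine mem_of_integrals' (fun b => (hper b).1) (fun b => (hper b).2) (leaf_span h)
    (fun k x b => (leaf_components h hF' b).1 k x) fun k j e f β hf hβ => ?_
  by_cases hk : Even k
  · refine Submodule.subset_span ⟨k, f, _, hf, fun b => ⟨fun i hi => ?_, hint e β b⟩, rfl⟩
    by_contra hi'
    refine hi ?_
    unfold fibreIntegral
    rw [Finset.sum_apply]
    refine Finset.sum_eq_zero fun σ _ => ?_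
    have h0 : F k (fun l => e (σ (Sum.inl l))) i = 0 := by
      by_contra h1
      have h2 := (hF b).1 k _ i h1
      exact hi' ((Nat.even_add.1 h2).1 hk)
    simp only [Pi.smul_apply, h0, smul_zero]
  · have hz : f = 0 := divisorSpan_odd (hf (Classical.arbitrary B)) hk
    have h3 : (cross f (fibreIntegral e F β) : HAZ (Fin n → Fin g ⊕ Fin g → ℚ) v) = 0 := by
      rw [hz]
      unfold cross
      rw [Pi.single_eq_zero_iff]
      ext w i
      simp
    rw [h3]
    exact Submodule.zero_mem _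

/-- **The noncommutative variational Hodge conjecture** for `D(A_b ^ n) ⊠ C_b`, from the one for
`C_b`. -/
theorem vhcK_times' {B : Type} [Nonempty B] {v : ℕ} (Z : B → Matrix (Fin g) (Fin g) ℂ)
    (C : B → Coh v) (h : HasManyModuliRelative Z C) (n : ℕ)
    (S : KSystem (fun b => perPow (Z b) n) v)
    (hC : Variational (fun b => IsHodgeK (C b)) S.algC) :
    Variational (fun b => IsHodgeKTimes (perPow (Z b) n) (C b)) S.alg := by
  have hper : ∀ b, (Z b)ᵀ = Z b ∧ (imM (Z b)).PosDef := by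
    intro b
    obtain ⟨d, U, φ, hU, hc, ⟨t, ht, rfl⟩, hY, hZ, -⟩ := h b
    exact hZ.2 t ht
  intro F hF b₀ hb₀ b
  have hF' : ∀ b, IsHodgeOnProduct (perPow (Z b) n) (C b) F := fun b => (hF b).2
  have hint : ∀ {k j : ℕ} (e : Basis (Fin k ⊕ Fin j) ℚ (Fin n → Fin g ⊕ Fin g → ℚ))
      (β : (Fin n → Fin g ⊕ Fin g → ℚ) [⋀^Fin j]→ₗ[ℚ] ℚ) (b : B),
      fibreIntegral e F β ∈ HY (C b) := by
    intro k j e β b
    unfold fibreIntegral
    refine Submodule.sum_mem _ fun σ _ => ?_
    have h2 : ∀ (z : ℤ) (x : Fin v → ℚ), x ∈ HY (C b) → z • x ∈ HY (C b) :=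
      fun z x hx => zsmul_mem hx z
    exact h2 _ _ (Submodule.smul_mem _ _ ((leaf_components h hF' b).2 k _))
  refine mem_of_integrals' (fun b => (hper b).1) (fun b => (hper b).2) (leaf_span h)
    (fun k x b => (leaf_components h hF' b).1 k x) fun k j e f β hf hβ => ?_
  by_cases hk : Even k
  · refine S.cross_mem b k f (hf b) _ ?_
    refine hC _ (fun b' => ⟨fun i hi => ?_, hint e β b'⟩) b₀ ?_ b
    · by_contra hi'
      refine hi ?_
      unfold fibreIntegral
      rw [Finset.sum_apply]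
      refine Finset.sum_eq_zero fun σ _ => ?_
      have h0 : F k (fun l => e (σ (Sum.inl l))) i = 0 := by
        by_contra h1
        have h2 := (hF b').1 k _ i h1
        exact hi' ((Nat.even_add.1 h2).1 hk)
      simp only [Pi.smul_apply, h0, smul_zero]
    · exact S.integral_mem b₀ F hb₀ k j e β (hβ b₀)
  · have hz : f = 0 := divisorSpan_odd (hf (Classical.arbitrary B)) hk
    have h3 : (cross f (fibreIntegral e F β) : HAZ (Fin n → Fin g ⊕ Fin g → ℚ) v) = 0 := by
      rw [hz]
      unfold cross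
      rw [Pi.single_eq_zero_iff]
      ext w i
      simp
    rw [h3]
    exact Submodule.zero_mem _

theorem hodgeK_products {B : Type} [Nonempty B] {v : ℕ} (Z : B → Matrix (Fin g) (Fin g) ℂ)
    (C : B → Coh v) (h : HasManyModuliRelative Z C) (n : ℕ) :
    HodgeKAreProducts (powers Z n) C :=
  hodgeK_products' Z C h n

theorem vhcK_times {B : Type} [Nonempty B] {v : ℕ} (Z : B → Matrix (Fin g) (Fin g) ℂ)
    (C : B → Coh v) (h : HasManyModuliRelative Z C) (n : ℕ) : VHCFromC (powers Z n) C :=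
  fun S => vhcK_times' Z C h n S

/-- **Direct factors.** -/
theorem vhc_factor {B J M : Type} [Nonempty B] [Fintype J] [AddCommGroup M] [Module ℚ M]
    {D : CatFamily B M} {P : J → BoxFamily B} (h : IsFactor D P) (hP : ∀ j, (P j).VHCofC) :
    Variational D.hodge D.alg := by
  obtain ⟨p, q, h1, h2, h3, h4⟩ := h
  intro x hx b₀ hb₀ b
  rw [← h4 x]
  refine Submodule.sum_mem _ fun j _ => h3 b j _ ?_
  exact vhcK_times (P j).Z (P j).C (P j).moves (P j).n (P j).S (hP j) (q j x)
    (fun b => h1 b j x (hx b)) b₀ (h2 b₀ j x hb₀) b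

end

end Pool.Agent.U46.EX
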