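import Mathlib
import Pool.Agent.U46.KDefs
import Pool.Agent.U46.C1Defs

/-!
# The noncommutative Hodge conjecture for products with the members of a family: definitions
-/

set_option autoImplicit false

namespace Pool.Agent.U46.EX

open Module Pool.Agent.Y90 Pool.Agent.R915 Pool.Agent.H204R3.CM Pool.Agent.W437.HC
  Pool.Agent.W437.HD Pool.Agent.TH504.VL Pool.Agent.TH504.VY Pool.Agent.TH504.CB
  Pool.Agent.TH131.GHC

/-- The span of the products `f ⊗ x` of a combination `f` of products of divisor classes on the complex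
torus and a Hodge class `x` in `K_0^top(C) ⊗ ℚ`. -/
def ncProducts {W T : Type} [AddCommGroup W] [Module ℚ W] [AddCommGroup T] [Module ℂ T]
    (per : W →+ T) {v : ℕ} (C : Coh v) : Submodule ℚ (HAZ W v) :=
  Submodule.span ℚ {G | ∃ (k : ℕ) (f : W [⋀^Fin k]→ₗ[ℚ] ℚ) (x : Fin v → ℚ),
    f ∈ divisorSpan per k ∧ IsHodgeK C x ∧ G = cross f x}

/-- The space `alg` contains the products `f ⊗ x` of the combinations `f` of products of divisor classes
on the complex torus and the elements `x` of `algC`. -/
def ContainsProducts {W T : Type} [AddCommGroup W] [Module ℚ W] [AddCommGroup T] [Module ℂ T]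
    (per : W →+ T) {v : ℕ} (algC : Submodule ℚ (Fin v → ℚ)) (alg : Submodule ℚ (HAZ W v)) : Prop :=
  ∀ (k : ℕ), ∀ f ∈ divisorSpan per k, ∀ x ∈ algC, cross f x ∈ alg

/-- The noncommutative Hodge conjecture for `C` implies it for `D(A) ⊠ C`; here `algC` and `alg` are the
spaces of the classes of objects. -/
def NCHodgeFromC {W T : Type} [AddCommGroup W] [Module ℚ W] [AddCommGroup T] [Module ℂ T]
    (per : W →+ T) {v : ℕ} (C : Coh v) : Prop :=
  ∀ (algC : Submodule ℚ (Fin v → ℚ)) (alg : Submodule ℚ (HAZ W v)),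
    ContainsProducts per algC alg → (∀ x, IsHodgeK C x → x ∈ algC) →
      ∀ F, IsHodgeKTimes per C F → F ∈ alg

/-- The Hodge classes in `K_0^top(D(A) ⊠ C) ⊗ ℚ` are the sums of products as in `ncProducts`. -/
def HodgeAreProducts {W T : Type} [AddCommGroup W] [Module ℚ W] [AddCommGroup T] [Module ℂ T]
    (per : W →+ T) {v : ℕ} (C : Coh v) : Prop :=
  ∀ F, IsHodgeKTimes per C F → F ∈ ncProducts per C

/-- Let `A` be the abelian variety with period matrix `Z`, and let `C` be an admissible subcategory, given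
by the Hodge structure on `K_0^top(C) ⊗ ℚ ⊕ K_1^top(C) ⊗ ℚ` (even and odd degrees). For all `n` the Hodge
classes in `K_0^top(D(A ^ n) ⊠ C) ⊗ ℚ` are sums of products, and the noncommutative Hodge conjecture for `C`
implies it for `D(A ^ n) ⊠ C`. -/
def TransfersNC {g : ℕ} (Z : Matrix (Fin g) (Fin g) ℂ) {v : ℕ} (C : Coh v) : Prop :=
  ∀ n : ℕ, HodgeAreProducts (perPow Z n) C ∧ NCHodgeFromC (perPow Z n) C

/-- The statement `TransfersNC Z C` for all categories `C` whose Hodge operator is defined over `K`. -/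
def TransfersOver {g : ℕ} (K : Subfield ℂ) (Z : Matrix (Fin g) (Fin g) ℂ) : Prop :=
  ∀ (v : ℕ) (C : Coh v), (∀ a b, C.z a b ∈ K) → TransfersNC Z C

/-- A category `D` with `W = K_0^top(D) ⊗ ℚ`, with the Hodge classes `Hdg` and the span `Obj` of the
classes of objects, is a direct factor of a finite sum of the categories `D(X j)`, `X j` abelian
varieties: `p j` and `q j` are the components (in `H^(2 b j)(X j, ℚ)(b j)`, by the Chern character) of the
maps given by functors `D(X j) → D` and `D → D(X j)` (kernels, with rational coefficients). The map `p j`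
takes the classes in `Alg`, which are classes of algebraic cycles (Lefschetz, Markman), to classes of
objects, and `q j` takes Hodge classes to Hodge classes. (As in the starting file on categories generated
by abelian varieties.) -/
structure IsAbelianFactor {J : Type} [Fintype J] (X : J → AV) (b : J → ℕ) {W : Type}
    [AddCommGroup W] [Module ℚ W] (Hdg Obj : Submodule ℚ W)
    (p : ∀ j, ((X j).H [⋀^Fin (2 * b j)]→ₗ[ℚ] ℚ) →ₗ[ℚ] W)
    (q : ∀ j, W →ₗ[ℚ] ((X j).H [⋀^Fin (2 * b j)]→ₗ[ℚ] ℚ)) : Prop where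
  objects : ∀ j f, Alg (X j) (Fin (2 * b j)) f → p j f ∈ Obj
  hodge : ∀ j, ∀ w ∈ Hdg, IsHodge (X j).per (q j w)
  identity : ∀ w, ∑ j, p j (q j w) = w

/-- The noncommutative Hodge conjecture for all categories (with the Hodge classes `Hdg` and the classes
`Obj` of objects in the space `W`) which are direct factors, by kernels and with rational coefficients,
of finite sums of categories `D(X j)`, `X j` abelian varieties all of whose simple factors are as in
`AllowedFactor`. -/
def NCForFactors {g : ℕ} (Z : Matrix (Fin g) (Fin g) ℂ) : Prop :=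
  ∀ (h : PM Z) {J : Type} [Fintype J] (X : J → AV) (b : J → ℕ),
    (∀ j Y, Pool.Agent.R915.IsFactor Y (X j) → AllowedFactor h Y) →
    ∀ {W : Type} [AddCommGroup W] [Module ℚ W] (Hdg Obj : Submodule ℚ W)
      (p : ∀ j, ((X j).H [⋀^Fin (2 * b j)]→ₗ[ℚ] ℚ) →ₗ[ℚ] W)
      (q : ∀ j, W →ₗ[ℚ] ((X j).H [⋀^Fin (2 * b j)]→ₗ[ℚ] ℚ)),
      IsAbelianFactor X b Hdg Obj p q → Hdg ≤ Obj

end Pool.Agent.U46.EX
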