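import Mathlib
import Pool.Agent.U46.EX5
import Pool.Agent.U46.EX9
import Pool.Agent.U46.EX10
import Pool.Agent.U46.NCDefs

/-!
# The noncommutative Hodge conjecture outside small sets
-/

set_option autoImplicit false
set_option maxHeartbeats 400000

namespace Pool.Agent.U46.EX

open Matrix Module Pool.Agent.Y90 Pool.Agent.R915 Pool.Agent.H204R3.CM Pool.Agent.W437.HC
  Pool.Agent.W437.HD Pool.Agent.W437.HP Pool.Agent.TH504.VL Pool.Agent.TH504.VY
  Pool.Agent.TH504.CB Pool.Agent.TH131.GHC Pool.Agent.X311 Pool.Agent.U228.MP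

noncomputable section

/-- the projection to the even part -/
def evenPart {v : ℕ} (C : Coh v) : (Fin v → ℚ) →ₗ[ℚ] (Fin v → ℚ) where
  toFun x i := if Even (C.dg i) then x i else 0
  map_add' x y := by
    funext i
    by_cases h : Even (C.dg i)
    · simp [h]
    · simp [h]
  map_smul' a x := by
    funext i
    by_cases h : Even (C.dg i)
    · simp [h]
    · simp [h]

theorem evenPart_apply {v : ℕ} (C : Coh v) (x : Fin v → ℚ) (i : Fin v) :
    evenPart C x i = if Even (C.dg i) then x i else 0 := rfl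

theorem isHodgeK_evenPart {v : ℕ} {C : Coh v} {x : Fin v → ℚ} (hx : IsHodgeOn C x) :
    IsHodgeK C (evenPart C x) := by
  refine ⟨fun i hi => ?_, ?_⟩
  · by_contra h
    rw [evenPart_apply, if_neg h] at hi
    exact hi rfl
  · unfold IsHodgeOn at hx ⊢
    funext b
    have hb := congrFun hx b
    change ∑ b', C.z b b' * ((evenPart C x b' : ℚ) : ℂ) = 0
    change ∑ b', C.z b b' * ((x b' : ℚ) : ℂ) = 0 at hb
    by_cases h : Even (C.dg b)
    · rw [← hb]
      refine Finset.sum_congr rfl fun b' _ => ?_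
      rw [evenPart_apply]
      by_cases h' : C.dg b = C.dg b'
      · rw [if_pos (h' ▸ h)]
      · rw [C.graded b b' h', zero_mul, zero_mul]
    · refine Finset.sum_eq_zero fun b' _ => ?_
      rw [evenPart_apply]
      by_cases h' : C.dg b = C.dg b'
      · rw [if_neg (h' ▸ h), Rat.cast_zero, mul_zero]
      · rw [C.graded b b' h', zero_mul]

section

variable {W T : Type} [AddCommGroup W] [Module ℚ W] [AddCommGroup T] [Module ℂ T] {v : ℕ}

/-- the projection to the even part of `C` -/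
def evenHAZ (C : Coh v) (F : HAZ W v) : HAZ W v := fun k => (evenPart C).compAlternatingMap (F k)

theorem evenHAZ_cross (C : Coh v) {k : ℕ} (f : W [⋀^Fin k]→ₗ[ℚ] ℚ) (x : Fin v → ℚ) :
    evenHAZ C (cross f x) = cross f (evenPart C x) := by
  funext k'
  by_cases hk : k' = k
  · subst hk
    unfold evenHAZ cross
    rw [Pi.single_eq_same, Pi.single_eq_same]
    ext w i
    change evenPart C (f w • x) i = (f w • evenPart C x) i
    rw [map_smul]
  · unfold evenHAZ cross
    rw [Pi.single_eq_of_ne hk, Pi.single_eq_of_ne hk]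
    ext w i
    change evenPart C (0 : Fin v → ℚ) i = (0 : Fin v → ℚ) i
    rw [map_zero]

theorem odd_zero {per : W →+ T} {C : Coh v} {F : HAZ W v} (hF : F ∈ crossSpan per C) {k : ℕ}
    (hk : ¬ Even k) : F k = 0 := by
  unfold crossSpan at hF
  induction hF using Submodule.span_induction with
  | zero => rfl
  | add x y _ _ hx hy =>
    change x k + y k = 0
    rw [hx, hy, add_zero]
  | smul a x _ hx =>
    change a • x k = 0
    rw [hx, smul_zero]
  | mem F hF =>
    obtain ⟨k', f, x, hf, -, rfl⟩ := hF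
    by_cases h : k = k'
    · subst h
      have hz : f = 0 := divisorSpan_odd hf hk
      rw [hz]
      unfold cross
      rw [Pi.single_eq_same]
      ext w i
      simp
    · unfold cross
      rw [Pi.single_eq_of_ne h]

theorem even_mem {per : W →+ T} {C : Coh v} {F : HAZ W v} (hF : F ∈ crossSpan per C) :
    evenHAZ C F ∈ Submodule.span ℚ {G | ∃ (k : ℕ) (f : W [⋀^Fin k]→ₗ[ℚ] ℚ)
      (x : Fin v → ℚ), f ∈ divisorSpan per k ∧ IsHodgeK C x ∧ G = cross f x} := by
  unfold crossSpan at hF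
  induction hF using Submodule.span_induction with
  | zero =>
    have h : evenHAZ C (0 : HAZ W v) = 0 := by
      funext k
      ext w i
      change evenPart C (0 : Fin v → ℚ) i = (0 : Fin v → ℚ) i
      rw [map_zero]
    rw [h]
    exact Submodule.zero_mem _
  | add x y _ _ hx hy =>
    have h : evenHAZ C (x + y) = evenHAZ C x + evenHAZ C y := by
      funext k
      ext w i
      change evenPart C (x k w + y k w) i = evenPart C (x k w) i + evenPart C (y k w) i
      rw [map_add]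
      rfl
    rw [h]
    exact Submodule.add_mem _ hx hy
  | smul a x _ hx =>
    have h : evenHAZ C (a • x) = a • evenHAZ C x := by
      funext k
      ext w i
      change evenPart C (a • x k w) i = a • evenPart C (x k w) i
      rw [map_smul]
      rfl
    rw [h]
    exact Submodule.smul_mem _ a hx
  | mem F hF =>
    obtain ⟨k, f, x, hf, hx, rfl⟩ := hF
    rw [evenHAZ_cross]
    exact Submodule.subset_span ⟨k, f, _, hf, isHodgeK_evenPart hx, rfl⟩

theorem k_products {per : W →+ T} {C : Coh v} {F : HAZ W v} (hF : F ∈ crossSpan per C)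
    (hK : ∀ (k : ℕ) (w : Fin k → W) (i : Fin v), F k w i ≠ 0 → Even (k + C.dg i)) :
    F ∈ Submodule.span ℚ {G | ∃ (k : ℕ) (f : W [⋀^Fin k]→ₗ[ℚ] ℚ)
      (x : Fin v → ℚ), f ∈ divisorSpan per k ∧ IsHodgeK C x ∧ G = cross f x} := by
  have h : evenHAZ C F = F := by
    funext k
    by_cases hk : Even k
    · ext w i
      change evenPart C (F k w) i = F k w i
      rw [evenPart_apply]
      by_cases hi : Even (C.dg i)
      · rw [if_pos hi]
      · rw [if_neg hi]
        by_contra h0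
        exact hi ((Nat.even_add.1 (hK k w i (Ne.symm h0))).1 hk)
    · unfold evenHAZ
      rw [odd_zero hF hk]
      ext w i
      change evenPart C (0 : Fin v → ℚ) i = (0 : Fin v → ℚ) i
      rw [map_zero]
  rw [← h]
  exact even_mem hF

end

theorem transfers_of_indep {g : ℕ} (K : Subfield ℂ) {Z : Matrix (Fin g) (Fin g) ℂ}
    (hZ : Zᵀ = Z) (hpos : (Z.map Complex.im).PosDef)
    (p : Fin (excDim g 0 + 1) → Fin g × Fin g)
    (hp : AlgebraicIndependent K fun s => Z (p s).1 (p s).2) : TransfersOver K Z := by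
  obtain ⟨M, hM⟩ : ∃ M, M = max (g ^ 2) ((0 + 1) ^ 2 + 2 * (g - 0 - 1) * (g - 0)) := ⟨_, rfl⟩
  have he : excDim g 0 = M / 4 := by rw [hM]; rfl
  have h1 : g ^ 2 ≤ M := hM ▸ le_max_left _ _
  have h2 : (0 + 1) ^ 2 + 2 * (g - 0 - 1) * (g - 0) ≤ M := hM ▸ le_max_right _ _
  have h4 : g ^ 2 < 4 * (excDim g 0 + 1) := by omega
  have h5 : (0 + 1) ^ 2 + 2 * (g - 0 - 1) * (g - 0) < 4 * (excDim g 0 + 1) := by omega
  obtain ⟨B, c, hB, hc, h6, h7, h8, h9⟩ := many_periods Z hZ hpos K p hp
  have h10 : c = 0 := Nat.le_zero.1 (h6 0 h4 h5)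
  intro v C hC n
  have key : HodgeAreProducts (perPow Z n) C := fun F hF =>
    k_products (h9 h10 v C hC n F hF.2) hF.1
  refine ⟨key, fun algC alg hcl hall F hF => ?_⟩
  refine (Submodule.span_le.2 ?_ : ncProducts (perPow Z n) C ≤ alg) (key F hF)
  rintro G ⟨k, f, x, hf, hx, rfl⟩
  exact hcl k f hf x (hall x hx)

theorem nc_of_many {g : ℕ} {Z : Matrix (Fin g) (Fin g) ℂ} (hm : ManyPeriods 3 Z) :
    NCForFactors Z := by
  intro h J _ X b hX W _ _ Hdg Z' f q hD w hw
  rw [← hD.identity w]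
  refine Submodule.sum_mem _ fun j _ => hD.objects j _ ?_
  exact Pool.Agent.N507.GHC3.t_ZERO algSys (X j) (ghc_many h hm (X j) (hX j) algSys) _ _
    (hD.hodge j w hw)

theorem exceptional_nc {g d : ℕ} {U : Set (Fin d → ℂ)} (K : Subfield ℂ) [Countable K]
    (Z : (Fin d → ℂ) → Matrix (Fin g) (Fin g) ℂ)
    (hol : ∀ i j, AnalyticOnNhd ℂ (fun t => Z t i j) U)
    (hZ : ∀ t ∈ U, (Z t).transpose = Z t ∧ ((Z t).map Complex.im).PosDef) (r : ℕ) :
    InSubmanifolds U {t | t ∈ U ∧ r ≤ moduli Z t ∧ ¬ TransfersOver K (Z t)}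
      (r - excDim g 0) := by
  obtain ⟨f, hf, h⟩ := exceptional (K := K) Z hol (excDim g 0) r
  refine ⟨f, hf, ?_⟩
  rintro t ⟨ht, hr, hex⟩
  exact h t ht hr fun p hp => hex (transfers_of_indep K (hZ t ht).1 (hZ t ht).2 p hp)

theorem exceptional_nc_one {g d : ℕ} {U : Set (Fin d → ℂ)}
    (Z : (Fin d → ℂ) → Matrix (Fin g) (Fin g) ℂ)
    (hol : ∀ i j, AnalyticOnNhd ℂ (fun t => Z t i j) U)
    (hZ : ∀ t ∈ U, (Z t).transpose = Z t ∧ ((Z t).map Complex.im).PosDef) {v : ℕ} (C : Coh v)
    (r : ℕ) :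
    InSubmanifolds U {t | t ∈ U ∧ r ≤ moduli Z t ∧ ¬ TransfersNC (Z t) C}
      (r - excDim g 0) := by
  obtain ⟨S, hS⟩ : ∃ S : Set ℂ, S = Set.range fun p : Fin v × Fin v => C.z p.1 p.2 := ⟨_, rfl⟩
  have hcount : Countable (Subfield.closure S) := by
    rw [← Cardinal.mk_le_aleph0_iff]
    refine (Subfield.cardinalMk_closure_le_max S).trans (max_le ?_ le_rfl)
    have : Countable S := by
      rw [hS]
      exact (Set.countable_range _).to_subtype
    exact Cardinal.mk_le_aleph0
  obtain ⟨f, hf, h⟩ := exceptional_nc (Subfield.closure S) Z hol hZ r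
  refine ⟨f, hf, ?_⟩
  rintro t ⟨ht, hr, hex⟩
  refine h t ⟨ht, hr, fun hg => hex (hg v C fun a b => Subfield.subset_closure ?_)⟩
  rw [hS]
  exact ⟨(a, b), rfl⟩

theorem exceptional_factors {g d : ℕ} {U : Set (Fin d → ℂ)}
    (Z : (Fin d → ℂ) → Matrix (Fin g) (Fin g) ℂ)
    (hol : ∀ i j, AnalyticOnNhd ℂ (fun t => Z t i j) U) (r : ℕ) :
    InSubmanifolds U {t | t ∈ U ∧ r ≤ moduli Z t ∧ ¬ NCForFactors (Z t)} (r - excDim g 3) := by
  have hcount : Countable (Subfield.closure (∅ : Set ℂ)) := by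
    rw [← Cardinal.mk_le_aleph0_iff]
    refine (Subfield.cardinalMk_closure_le_max ∅).trans (max_le ?_ le_rfl)
    exact Cardinal.mk_le_aleph0
  obtain ⟨f, hf, h⟩ := exceptional (K := Subfield.closure (∅ : Set ℂ)) Z hol (excDim g 3) r
  refine ⟨f, hf, ?_⟩
  rintro t ⟨ht, hr, hex⟩
  refine h t ht hr fun p hp => hex (nc_of_many (many_of_indep le_rfl p ?_))
  exact hp.restrictScalars (algebraMap ℚ (Subfield.closure (∅ : Set ℂ))).injective

end

end Pool.Agent.U46.EX
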