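import Pool.Agent.U46.Sec

set_option autoImplicit false
set_option linter.unusedSectionVars false

/-! Sections of cubes by slabs: scaling, perturbation of the coefficients, one large coefficient. -/

open MeasureTheory Filter Topology Set

namespace Pool.Agent.U46

variable {ι κ : Type} [Fintype ι] [Fintype κ]

open scoped Pointwise in
/-- scaling of everything -/
lemma F_scale (c : ι → ℝ) (a h : ℝ) {r : ℝ} (hr : 0 < r) :
    F c 0 (r * a) (r * h) = r ^ Fintype.card ι * F c 0 a h := by
  have h1 : KK c 0 (r * a) (r * h) = r • KK c 0 a h := by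
    ext u
    rw [Set.mem_smul_set_iff_inv_smul_mem₀ hr.ne']
    simp only [KK, mem_ofPred_eq, Pi.smul_apply, smul_eq_mul, zero_add, mul_assoc]
    rw [← Finset.mul_sum]
    simp only [abs_mul, abs_inv, abs_of_pos hr, inv_mul_le_iff₀ hr]
  unfold F
  rw [h1, measureReal_def, Measure.addHaar_smul, ENNReal.toReal_mul, Module.finrank_fintype_fun_eq_card,
    ENNReal.toReal_ofReal (abs_nonneg _), abs_of_pos (by positivity)]
  rfl

open scoped Pointwise in
/-- enlarging the slab -/
lemma F_slab (c : ι → ℝ) {a h r : ℝ} (hh : 0 ≤ h) (hr : 1 ≤ r) :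
    F c 0 (r * a) h ≤ r ^ Fintype.card ι * F c 0 a h := by
  have hr0 : 0 < r := by linarith
  rw [← F_scale c a h hr0]
  refine measureReal_mono ?_ (KK_fin _ _ _ _).ne
  intro u hu
  exact ⟨fun m => (hu.1 m).trans (by nlinarith), hu.2⟩

/-- multiplying the coefficients -/
lemma F_coef (c : ι → ℝ) (a h : ℝ) {r : ℝ} (hr : r ≠ 0) :
    F (fun m => c m / r) 0 (a / |r|) h = F c 0 a h := by
  unfold F
  congr 1
  ext u
  simp only [KK, mem_ofPred_eq, zero_add]
  have h1 : ∑ m, u m * (c m / r) = (∑ m, u m * c m) / r := by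
    rw [Finset.sum_div]
    exact Finset.sum_congr rfl fun m _ => by ring
  rw [h1, abs_div, div_le_div_iff_of_pos_right (abs_pos.2 hr)]

/-- perturbation of the coefficients -/
lemma F_pert (c c' : ι → ℝ) (a : ℝ) {h δ : ℝ} (hh : 0 ≤ h) (hδ : ∑ m, |c m - c' m| ≤ δ) :
    F c 0 a h ≤ F c' 0 (a + h * δ) h := by
  refine measureReal_mono ?_ (KK_fin _ _ _ _).ne
  intro u hu
  refine ⟨hu.1, ?_⟩
  have h1 : 0 + ∑ m, u m * c' m = (0 + ∑ m, u m * c m) + ∑ m, u m * (c' m - c m) := by
    rw [zero_add, zero_add, ← Finset.sum_add_distrib]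
    exact Finset.sum_congr rfl fun m _ => by ring
  rw [h1]
  refine (abs_add_le _ _).trans (add_le_add hu.2 ?_)
  refine (Finset.abs_sum_le_sum_abs _ _).trans ?_
  calc ∑ m, |u m * (c' m - c m)| ≤ ∑ m, h * |c m - c' m| := by
        refine Finset.sum_le_sum fun m _ => ?_
        rw [abs_mul, abs_sub_comm]
        exact mul_le_mul_of_nonneg_right (hu.1 m) (abs_nonneg _)
    _ = h * ∑ m, |c m - c' m| := by rw [Finset.mul_sum]
    _ ≤ h * δ := mul_le_mul_of_nonneg_left hδ hh

/-- only the absolute values of the coefficients matter -/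
lemma F_abs {c c' : ι → ℝ} (hc : ∀ m, |c m| = |c' m|) (s a : ℝ) {h : ℝ} (hh : 0 ≤ h) :
    F c s a h = F c' s a h := by
  classical
  refine Fintype.induction_empty_option
    (P := fun ι _ => ∀ c c' : ι → ℝ, (∀ m, |c m| = |c' m|) → ∀ s, F c s a h = F c' s a h)
    ?_ ?_ ?_ ι c c' hc s
  · intro α β _ e ih c c' hc s
    let : Fintype α := Fintype.ofEquiv β e.symm
    have h1 := ih (c ∘ e) (c' ∘ e) (fun m => hc _) s
    rw [← F_equiv e c s a h, ← F_equiv e c' s a h]
    convert h1
  · intro c c' _ s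
    rw [F_empty, F_empty]
  · intro α _ ih c c' hc s
    rw [F_option c s a hh, F_option c' s a hh]
    have h1 : ∀ x, F (fun i => c (some i)) x a h = F (fun i => c' (some i)) x a h :=
      ih (fun i => c (some i)) (fun i => c' (some i)) (fun m => hc _)
    simp only [h1]
    rcases abs_eq_abs.1 (hc none) with h2 | h2
    · rw [h2]
    · rw [h2]
      have h3 := intervalIntegral.integral_comp_neg
        (f := fun t => F (fun i => c' (some i)) (s + t * c' none) a h) (a := -h) (b := h)
      rw [neg_neg] at h3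
      rw [← h3]
      congr 1
      funext t
      congr 1
      ring

/-- coefficients that vanish -/
lemma F_sum_zero (c : ι → ℝ) (s a : ℝ) {h : ℝ} (hh : 0 ≤ h) :
    F (Sum.elim c fun _ : κ => 0) s a h = F c s a h * (2 * h) ^ Fintype.card κ := by
  have h1 := volume_measurePreserving_sumPiEquivProdPi (fun _ : ι ⊕ κ => ℝ)
  have h2 : KK (Sum.elim c fun _ : κ => 0) s a h =
      (MeasurableEquiv.sumPiEquivProdPi fun _ : ι ⊕ κ => ℝ) ⁻¹'
        (KK c s a h ×ˢ Set.pi univ fun _ : κ => Icc (-h) h) := by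
    ext u
    have e1 : ∀ i, ((MeasurableEquiv.sumPiEquivProdPi fun _ : ι ⊕ κ => ℝ) u).1 i = u (Sum.inl i) :=
      fun i => rfl
    have e2 : ∀ i, ((MeasurableEquiv.sumPiEquivProdPi fun _ : ι ⊕ κ => ℝ) u).2 i = u (Sum.inr i) :=
      fun i => rfl
    simp only [KK, mem_ofPred_eq, mem_preimage, mem_prod, e1, Set.mem_pi, mem_univ, forall_true_left, e2,
      Fintype.sum_sum_type, Sum.elim_inl, Sum.elim_inr, mul_zero, Finset.sum_const_zero, add_zero,
      Sum.forall, mem_Icc, ← abs_le]
    tauto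
  have h3 : MeasurableSet (Set.pi univ fun _ : κ => Icc (-h) h) :=
    MeasurableSet.univ_pi fun _ => measurableSet_Icc
  unfold F
  rw [h2, measureReal_def, h1.measure_preimage ((KK_meas c s a h).prod h3).nullMeasurableSet,
    Measure.volume_eq_prod, Measure.prod_prod, ENNReal.toReal_mul, ← vol_cube h hh]
  rfl

lemma vol_window (X y a : ℝ) (hX : X ≠ 0) :
    volume {t : ℝ | |t * X + y| ≤ a} = ENNReal.ofReal (2 * a / |X|) := by
  have h1 : {t : ℝ | |t * X + y| ≤ a} = Icc (-y / X - a / |X|) (-y / X + a / |X|) := by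
    ext t
    simp only [mem_ofPred_eq, mem_Icc]
    have h2 : t * X + y = (t - -y / X) * X := by
      field_simp
      ring
    rw [h2, abs_mul, ← le_div_iff₀ (abs_pos.2 hX), abs_le]
    constructor <;> rintro ⟨h3, h4⟩ <;> constructor <;> linarith
  rw [h1, Real.volume_Icc]
  congr 1
  ring

/-- one large coefficient -/
lemma F_big (c : Option ι → ℝ) {a h : ℝ} (ha : 0 ≤ a) (hc : c none ≠ 0) :
    2 * a / |c none| * F (fun i => c (some i)) 0 (h * |c none| - a) h ≤ F c 0 a h ∧
    F c 0 a h ≤ 2 * a / |c none| * F (fun i => c (some i)) 0 (h * |c none| + a) h := by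
  obtain ⟨X, hX⟩ : ∃ X, X = c none := ⟨_, rfl⟩
  rw [← hX] at hc ⊢
  have hX0 := abs_pos.2 hc
  have h1 := Measure.pi_map_piOptionEquivProd (ι := ι) (β := fun _ => ℝ) (fun _ => volume)
  have h2 : volume (KK c 0 a h) = ∫⁻ x : ι → ℝ,
      volume {t : ℝ | |t| ≤ h ∧ (∀ i, |x i| ≤ h) ∧ |t * X + ∑ i, x i * c (some i)| ≤ a} := by
    have h3 : (volume : Measure (Option ι → ℝ)) = ((Measure.pi fun _ : ι => (volume : Measure ℝ)).prod
        (volume : Measure ℝ)).map (MeasurableEquiv.piOptionEquivProd fun _ => ℝ).symm := h1.symm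
    rw [h3, MeasurableEquiv.map_apply, Measure.prod_apply
      ((MeasurableEquiv.measurable _) (KK_meas c 0 a h))]
    refine lintegral_congr fun x => ?_
    congr 1
    ext t
    have e1 : ((MeasurableEquiv.piOptionEquivProd fun _ : Option ι => ℝ).symm (x, t)) none = t := rfl
    have e2 : ∀ i, ((MeasurableEquiv.piOptionEquivProd fun _ : Option ι => ℝ).symm (x, t)) (some i) =
      x i := fun i => rfl
    simp only [KK, mem_preimage, mem_ofPred_eq, Option.forall, Fintype.sum_option, e1, e2, zero_add,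
      ← hX, and_assoc]
  have hup : volume (KK c 0 a h) ≤ ENNReal.ofReal (2 * a / |X|) *
      volume (KK (fun i => c (some i)) 0 (h * |X| + a) h) := by
    rw [h2, ← setLIntegral_const, ← lintegral_indicator (KK_meas _ _ _ _)]
    refine lintegral_mono fun x => ?_
    by_cases hx : x ∈ KK (fun i => c (some i)) 0 (h * |X| + a) h
    · rw [indicator_of_mem hx, ← vol_window X (∑ i, x i * c (some i)) a hc]
      exact measure_mono fun t ht => ht.2.2
    · rw [indicator_of_notMem hx]
      have : {t : ℝ | |t| ≤ h ∧ (∀ i, |x i| ≤ h) ∧ |t * X + ∑ i, x i * c (some i)| ≤ a} = ∅ := by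
        rw [eq_empty_iff_forall_notMem]
        rintro t ⟨ht1, ht2, ht3⟩
        apply hx
        refine ⟨ht2, ?_⟩
        rw [zero_add]
        have e : ∑ i, x i * c (some i) = (t * X + ∑ i, x i * c (some i)) - t * X := by ring
        rw [e]
        refine (abs_sub _ _).trans ?_
        rw [abs_mul]
        have := mul_le_mul_of_nonneg_right ht1 hX0.le
        linarith
      simp only [this, measure_empty, le_refl]
  have hlow : ENNReal.ofReal (2 * a / |X|) *
      volume (KK (fun i => c (some i)) 0 (h * |X| - a) h) ≤ volume (KK c 0 a h) := by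
    rw [h2, ← setLIntegral_const, ← lintegral_indicator (KK_meas _ _ _ _)]
    refine lintegral_mono fun x => ?_
    by_cases hx : x ∈ KK (fun i => c (some i)) 0 (h * |X| - a) h
    · rw [indicator_of_mem hx, ← vol_window X (∑ i, x i * c (some i)) a hc]
      refine measure_mono fun t ht => ?_
      have h5 := hx.2
      rw [zero_add] at h5
      refine ⟨?_, hx.1, ht⟩
      have ht' : |t * X + ∑ i, x i * c (some i)| ≤ a := ht
      have e : t * X = (t * X + ∑ i, x i * c (some i)) - ∑ i, x i * c (some i) := by ring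
      have h6 : |t * X| ≤ h * |X| := by
        rw [e]
        refine (abs_sub _ _).trans ?_
        linarith
      rw [abs_mul] at h6
      exact le_of_mul_le_mul_right h6 hX0
    · rw [indicator_of_notMem hx]
      exact zero_le
  have hpos : 0 ≤ 2 * a / |X| := by positivity
  constructor
  · have h7 := ENNReal.toReal_mono (KK_fin c 0 a h).ne hlow
    rw [ENNReal.toReal_mul, ENNReal.toReal_ofReal hpos] at h7
    exact h7
  · have h7 := ENNReal.toReal_mono
      (ENNReal.mul_ne_top ENNReal.ofReal_ne_top (KK_fin (fun i => c (some i)) 0 (h * |X| + a) h).ne) hup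
    rw [ENNReal.toReal_mul, ENNReal.toReal_ofReal hpos] at h7
    exact h7

/-- **One large coefficient, the others are close to prescribed ones.** -/
theorem F_main (c : Option ι → ℝ) (c' : ι → ℝ) {X η : ℝ} (hX : 0 < X) (hc : |c none| = X)
    (hc' : 1 / X + ∑ i, |c (some i) / c none - c' i| ≤ η) (hη : η ≤ 1 / 2) :
    (1 - 2 * η) ^ Fintype.card ι * (2 / X * F c' 0 1 1) ≤ F c 0 1 1 ∧
    F c 0 1 1 ≤ (1 + 2 * η) ^ Fintype.card ι * (2 / X * F c' 0 1 1) := by
  have hc0 : c none ≠ 0 := by
    intro h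
    rw [h, abs_zero] at hc
    linarith
  obtain ⟨h1, h2⟩ := F_big c (h := 1) (zero_le_one' ℝ) hc0
  rw [one_mul, mul_one, hc] at h1 h2
  obtain ⟨σ, hσ⟩ : ∃ σ, σ = ∑ i, |c (some i) / c none - c' i| := ⟨_, rfl⟩
  have hσ0 : 0 ≤ σ := by rw [hσ]; exact Finset.sum_nonneg fun _ _ => abs_nonneg _
  rw [← hσ] at hc'
  have hX' : 0 < 1 / X := by positivity
  have hη0 : 0 < η := by linarith
  constructor
  · refine le_trans ?_ h1
    rw [mul_left_comm]
    apply mul_le_mul_of_nonneg_left _ (by positivity)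
    have h3 := F_pert c' (fun i => c (some i) / c none) (1 - η) (zero_le_one' ℝ) (δ := σ) (by
      rw [hσ]
      exact le_of_eq (Finset.sum_congr rfl fun m _ => abs_sub_comm _ _))
    have h4 : F (fun i => c (some i) / c none) 0 (1 - η + 1 * σ) 1 ≤
        F (fun i => c (some i)) 0 (X - 1) 1 := by
      rw [← F_coef (fun i => c (some i)) (X - 1) 1 hc0, hc]
      apply F_mono
      have : (X - 1) / X = 1 - 1 / X := by field_simp
      rw [this]
      linarith
    refine le_trans ?_ (h3.trans h4)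
    have h5 := F_slab c' (a := 1 - η) (h := 1) (r := 1 / (1 - η)) (zero_le_one' ℝ)
      (by rw [le_div_iff₀ (by linarith)]; linarith)
    rw [one_div_mul_cancel (by linarith : (1 - η) ≠ 0)] at h5
    have h6 : 0 ≤ F c' 0 (1 - η) 1 := F_nonneg _ _ _ _
    calc (1 - 2 * η) ^ Fintype.card ι * F c' 0 1 1
        ≤ (1 - 2 * η) ^ Fintype.card ι * ((1 / (1 - η)) ^ Fintype.card ι * F c' 0 (1 - η) 1) := by
          apply mul_le_mul_of_nonneg_left h5
          exact pow_nonneg (by linarith) _
      _ = ((1 - 2 * η) * (1 / (1 - η))) ^ Fintype.card ι * F c' 0 (1 - η) 1 := by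
          rw [mul_pow]
          ring
      _ ≤ 1 ^ Fintype.card ι * F c' 0 (1 - η) 1 := by
          apply mul_le_mul_of_nonneg_right _ h6
          apply pow_le_pow_left₀
          · apply mul_nonneg (by linarith)
            apply one_div_nonneg.2
            linarith
          · rw [mul_one_div, div_le_one (by linarith)]
            linarith
      _ = _ := by rw [one_pow, one_mul]
  · refine h2.trans ?_
    rw [mul_left_comm]
    apply mul_le_mul_of_nonneg_left _ (by positivity)
    have h3 : F (fun i => c (some i)) 0 (X + 1) 1 =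
        F (fun i => c (some i) / c none) 0 (1 + 1 / X) 1 := by
      rw [← F_coef (fun i => c (some i)) (X + 1) 1 hc0, hc]
      congr 1
      field_simp
    rw [h3]
    refine (F_pert _ c' (1 + 1 / X) (zero_le_one' ℝ) (le_of_eq hσ.symm)).trans ?_
    have h4 : F c' 0 (1 + 1 / X + 1 * σ) 1 ≤ F c' 0 ((1 + 2 * η) * 1) 1 := by
      apply F_mono
      linarith
    exact h4.trans (F_slab c' zero_le_one (by linarith))

/-- continuity in the coefficients -/
lemma F_cont (c c' : ι → ℝ) {δ : ℝ} (hδ : ∑ m, |c m - c' m| ≤ δ) :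
    F c 0 1 1 ≤ (1 + δ) ^ Fintype.card ι * F c' 0 1 1 := by
  have h0 : 0 ≤ δ := le_trans (Finset.sum_nonneg fun _ _ => abs_nonneg _) hδ
  refine (F_pert c c' 1 (zero_le_one' ℝ) hδ).trans ?_
  have h1 := F_slab c' (a := 1) (h := 1) (r := 1 + δ) zero_le_one (by linarith)
  rw [mul_one] at h1
  rw [one_mul]
  exact h1

lemma F_continuous : Continuous fun c : ι → ℝ => F c 0 1 1 := by
  rw [continuous_iff_continuousAt]
  intro c
  have hd : Tendsto (fun c' : ι → ℝ => ∑ m, |c' m - c m|) (𝓝 c) (𝓝 0) := by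
    have h1 : Continuous fun c' : ι → ℝ => ∑ m, |c' m - c m| := by fun_prop
    have h2 := h1.tendsto c
    simpa using h2
  have hup : Tendsto (fun c' : ι → ℝ => (1 + ∑ m, |c' m - c m|) ^ Fintype.card ι * F c 0 1 1) (𝓝 c)
      (𝓝 (F c 0 1 1)) := by
    have h1 := ((hd.const_add 1).pow (Fintype.card ι)).mul_const (F c 0 1 1)
    simpa using h1
  have hlow : Tendsto (fun c' : ι → ℝ => F c 0 1 1 / (1 + ∑ m, |c' m - c m|) ^ Fintype.card ι) (𝓝 c)
      (𝓝 (F c 0 1 1)) := by
    have h1 := ((hd.const_add 1).pow (Fintype.card ι))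
    rw [add_zero, one_pow] at h1
    have h2 := (tendsto_const_nhds (x := F c 0 1 1) (f := 𝓝 c)).div h1 one_ne_zero
    rw [div_one] at h2
    exact h2
  refine tendsto_of_tendsto_of_tendsto_of_le_of_le hlow hup ?_ ?_
  · intro c'
    have h0 : 0 ≤ ∑ m, |c' m - c m| := Finset.sum_nonneg fun _ _ => abs_nonneg _
    have h1 := F_cont c c' (δ := ∑ m, |c' m - c m|)
      (le_of_eq (Finset.sum_congr rfl fun m _ => abs_sub_comm _ _))
    simp only
    rw [div_le_iff₀ (by positivity), mul_comm]
    exact h1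
  · intro c'
    exact F_cont c' c le_rfl

end Pool.Agent.U46
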