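import Pool.Agent.U46.Rate

set_option autoImplicit false
set_option linter.unusedSectionVars false

/-! The limit law with a power saving, for arbitrary subsets of the members. -/

open Filter Topology Finset

namespace Pool.Agent.U46

open Pool.Agent.N656.LL

/-- the uniform tail -/
def UTail (D : Data) (K K₂ : ℝ) (m k₂ : ℕ) : Prop := 1 ≤ K ∧ 0 ≤ K₂ ∧ 5 ≤ m ∧ 1 ≤ k₂ ∧
  ∀ T H : ℕ, K * ((T : ℝ) + 1) ^ m ≤ H → D.N (Data.big T) H ≤
      K₂ / ((T : ℝ) + 1) ^ k₂ * (2 * (H : ℝ) + 1) ^ D.n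

/-- the choice of the level -/
lemma level_facts {K : ℝ} (hK : 1 ≤ K) {m : ℕ} (hm : 5 ≤ m) {H : ℕ} (hHK : K ≤ H) :
    ∃ (T : ℕ) (h : ℝ), h = (H : ℝ) ^ ((1 : ℝ) / m) ∧ 1 ≤ h ∧ h ^ m = H ∧
      K * ((T : ℝ) + 1) ^ m ≤ H ∧ (T : ℝ) + 1 ≤ h ∧ ∀ k : ℕ, 1 ≤ k →
      1 / ((T : ℝ) + 1) ^ k ≤ 2 * K / h := by
  obtain ⟨T, hT1, hT2⟩ := exists_level hK (by omega : 1 ≤ m) hHK
  have hH1 : (1 : ℝ) ≤ H := hK.trans hHK
  have hH0 : (0 : ℝ) < H := by linarith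
  obtain ⟨h, hh⟩ : ∃ h : ℝ, h = (H : ℝ) ^ ((1 : ℝ) / m) := ⟨_, rfl⟩
  have hm0 : (m : ℝ) ≠ 0 := by
    have : (5 : ℝ) ≤ m := by exact_mod_cast hm
    linarith
  have hhm : h ^ m = H := by
    rw [hh, ← Real.rpow_natCast, ← Real.rpow_mul hH0.le, one_div, inv_mul_cancel₀ hm0, Real.rpow_one]
  have hh0 : 0 < h := by rw [hh]; positivity
  have hh1 : 1 ≤ h := by
    rw [hh]
    exact Real.one_le_rpow hH1 (by positivity)
  have hT0 : (0 : ℝ) ≤ T := Nat.cast_nonneg T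
  have hTh : (T : ℝ) + 1 ≤ h := by
    by_contra hc
    rw [not_le] at hc
    have h1 : h ^ m < ((T : ℝ) + 1) ^ m := pow_lt_pow_left₀ hc hh0.le (by omega)
    have h2 : ((T : ℝ) + 1) ^ m ≤ K * ((T : ℝ) + 1) ^ m := le_mul_of_one_le_left (by positivity) hK
    rw [hhm] at h1
    linarith
  have hTh2 : 1 / ((T : ℝ) + 1) ≤ 2 * K / h := by
    have h1 : h < K * ((T : ℝ) + 2) := by
      by_contra hc
      rw [not_lt] at hc
      have h1 : (K * ((T : ℝ) + 2)) ^ m ≤ h ^ m := pow_le_pow_left₀ (by positivity) hc _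
      have h2 : K * ((T : ℝ) + 2) ^ m ≤ (K * ((T : ℝ) + 2)) ^ m := by
        rw [mul_pow]
        apply mul_le_mul_of_nonneg_right _ (by positivity)
        exact le_self_pow₀ hK (by omega)
      rw [hhm] at h1
      linarith
    rw [div_le_div_iff₀ (by positivity) hh0]
    nlinarith
  refine ⟨T, h, hh, hh1, hhm, hT1, hTh, fun k hk => ?_⟩
  refine le_trans ?_ hTh2
  apply one_div_le_one_div_of_le (by positivity)
  exact le_self_pow₀ (by linarith) (by omega)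

/-- **The limit law with a power saving**, uniformly in the set of points and in the subset of the
members. -/
theorem law_sub {D : Data} {K K₂ : ℝ} {m k₂ : ℕ} (hU : UTail D K K₂ m k₂) {R : ℝ} (hR0 : 0 ≤ R) :
    ∃ C : ℝ, 0 ≤ C ∧ ∀ H : ℕ, K ≤ H → ∀ (S : Set D.α) (v : ℤ × ℤ → ℝ),
      S ⊆ {a | a ∈ D.S H} → (∀ P, 0 ≤ v P) → (∀ P, v P ≤ D.v P) →
      (∀ P, |(Set.ncard {a | a ∈ S ∧ D.Z a P} : ℝ) - v P * (H : ℝ) ^ D.n| ≤
        R * (H : ℝ) ^ (D.n - 1)) → ∀ A : Set (ℤ × ℤ),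
      |(Set.ncard {a | a ∈ S ∧ ∃ P ∈ A, D.Z a P} : ℝ) - (∑' P, A.indicator v P) * (H : ℝ) ^ D.n| ≤
        C * ((H : ℝ) ^ D.n / (H : ℝ) ^ ((1 : ℝ) / m)) := by
  classical
  obtain ⟨hK, hK₂, hm, hk₂, ht⟩ := hU
  have hDK := D.hK
  refine ⟨4 * R + 16 * 3 ^ D.n + K₂ * (2 * K) * 3 ^ D.n + D.K * 2 ^ D.n * (2 * K), by positivity,
    fun H hHK S v hS hv0 hvD hR A => ?_⟩
  obtain ⟨T, h, hh, hh1, hhm, hT1, hTh, hpk⟩ := level_facts hK hm hHK
  have hH1 : (1 : ℝ) ≤ H := hK.trans hHK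
  have hH0 : (0 : ℝ) < H := by linarith
  have hH1n : 1 ≤ H := by exact_mod_cast hH1
  have hh0 : 0 < h := by linarith
  have hT0 : (0 : ℝ) ≤ T := Nat.cast_nonneg T
  rw [← hh]
  obtain ⟨F, hF⟩ : ∃ F : Finset (ℤ × ℤ), F = (bx T).filter fun P => P ∈ A := ⟨_, rfl⟩
  have hFc : (F.card : ℝ) ≤ 4 * h ^ 2 := by
    have h1 : (F.card : ℝ) ≤ (bx T).card := by rw [hF]; exact_mod_cast card_filter_le _ _
    have h2 := card_bx T
    have h3 : ((T : ℝ) + 1) ^ 2 ≤ h ^ 2 := pow_le_pow_left₀ (by positivity) hTh 2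
    linarith
  -- the weights
  have hsv : Summable v := Summable.of_nonneg_of_le hv0 hvD D.summable
  have hsA : Summable (A.indicator v) := hsv.indicator A
  have hFsum : ∑ P ∈ F, v P = ∑' P, (F : Set (ℤ × ℤ)).indicator v P := by
    rw [← _root_.tsum_subtype, Finset.tsum_subtype']
  have hsF : Summable ((F : Set (ℤ × ℤ)).indicator v) := hsv.indicator _
  have hF2 : ∑ P ∈ F, v P ≤ ∑' P, A.indicator v P := by
    rw [hFsum]
    refine hsF.tsum_le_tsum (fun P => ?_) hsA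
    apply Set.indicator_le_indicator_of_subset _ hv0
    intro P hP
    rw [hF, mem_coe, mem_filter] at hP
    exact hP.2
  have hF1 : ∑' P, A.indicator v P ≤ ∑ P ∈ F, v P + D.wt (Data.big T) := by
    rw [hFsum]
    unfold Data.wt
    rw [← hsF.tsum_add (D.summable_ind _)]
    refine hsA.tsum_le_tsum (fun P => ?_) (hsF.add (D.summable_ind _))
    have hb0 : 0 ≤ (Data.big T).indicator D.v P := Set.indicator_nonneg (fun P _ => (D.hv P).le) P
    have hf0 : 0 ≤ (F : Set (ℤ × ℤ)).indicator v P := Set.indicator_nonneg (fun P _ => hv0 P) P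
    by_cases hA : P ∈ A
    · rw [Set.indicator_of_mem hA]
      by_cases hT : P ∈ Data.big T
      · rw [Set.indicator_of_mem hT]
        linarith [hvD P]
      · have hm : P ∈ (F : Set (ℤ × ℤ)) := by
          rw [hF, mem_coe, mem_filter, mem_bx]
          exact ⟨not_lt.1 hT, hA⟩
        rw [Set.indicator_of_mem hm]
        linarith
    · rw [Set.indicator_of_notMem hA]
      linarith
  -- the counts
  have hfin : ∀ p : D.α → Prop, {a | a ∈ S ∧ p a}.Finite := fun p =>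
    (D.S H).finite_toSet.subset fun a ha => hS ha.1
  obtain ⟨S', hS'⟩ : ∃ S' : Finset D.α, (S' : Set D.α) = S := by
    refine ⟨((D.S H).finite_toSet.subset hS).toFinset, ?_⟩
    simp
  have hdec : DecidableEq D.α := D.dec
  have e1 : ∀ (p : D.α → Prop) [DecidablePred p],
      Set.ncard {a | a ∈ S ∧ p a} = (S'.filter p).card := by
    intro p _
    rw [← Set.ncard_coe_finset]
    congr 1
    ext a
    rw [← hS']
    simp
  have hbonf : ∑ P ∈ F, (Set.ncard {a | a ∈ S ∧ D.Z a P} : ℝ) -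
      (F.card : ℝ) ^ 2 * (2 * (H : ℝ) + 1) ^ (D.n - 1) ≤
      (Set.ncard {a | a ∈ S ∧ ∃ P ∈ F, D.Z a P} : ℝ) ∧
      (Set.ncard {a | a ∈ S ∧ ∃ P ∈ F, D.Z a P} : ℝ) ≤
      ∑ P ∈ F, (Set.ncard {a | a ∈ S ∧ D.Z a P} : ℝ) := by
    have e2 : S'.filter (fun a => ∃ P ∈ F, D.Z a P) =
        F.biUnion fun P => S'.filter fun a => D.Z a P := by
      ext a
      simp only [mem_filter, mem_biUnion]
      constructor
      · rintro ⟨h1, P, h2, h3⟩
        exact ⟨P, h2, h1, h3⟩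
      · rintro ⟨P, h2, h1, h3⟩
        exact ⟨h1, P, h2, h3⟩
    have e3 : ∀ P, (Set.ncard {a | a ∈ S ∧ D.Z a P} : ℝ) =
        ((S'.filter fun a => D.Z a P).card : ℝ) := fun P => by rw [e1]
    rw [e1, e2]
    simp only [e3]
    constructor
    · refine bonf F _ _ ?_ (by positivity)
      intro P _ Q _ hPQ
      refine le_trans ?_ (D.two P Q hPQ H)
      have h1 : (S'.filter fun a => D.Z a P) ∩ (S'.filter fun a => D.Z a Q) ⊆
          (D.S H).filter fun a => D.Z a P ∧ D.Z a Q := by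
        intro a ha
        rw [mem_inter, mem_filter, mem_filter] at ha
        rw [mem_filter]
        refine ⟨hS ?_, ha.1.2, ha.2.2⟩
        rw [← hS']
        exact ha.1.1
      have h2 : Set.ncard {a | a ∈ D.S H ∧ D.Z a P ∧ D.Z a Q} =
          ((D.S H).filter fun a => D.Z a P ∧ D.Z a Q).card := by
        rw [← Set.ncard_coe_finset]
        congr 1
        ext a
        simp
      rw [h2]
      exact_mod_cast card_le_card h1
    · exact_mod_cast card_biUnion_le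
  obtain ⟨s, hs⟩ : ∃ s : ℝ, s = ∑ P ∈ F, (Set.ncard {a | a ∈ S ∧ D.Z a P} : ℝ) := ⟨_, rfl⟩
  obtain ⟨V, hV⟩ : ∃ V : ℝ, V = ∑ P ∈ F, v P := ⟨_, rfl⟩
  obtain ⟨X, hX⟩ : ∃ X : ℝ, X = (H : ℝ) ^ D.n := ⟨_, rfl⟩
  have hX0 : 0 < X := by rw [hX]; positivity
  rw [← hs] at hbonf
  rw [← hV] at hF1 hF2
  rw [← hX]
  have hn := D.hn
  have hXn : (H : ℝ) ^ (D.n - 1) * h ^ m = X := by
    rw [hhm, hX, ← pow_succ]
    congr 1
    omega
  have hpow : ∀ j : ℕ, j + 1 ≤ m → (H : ℝ) ^ (D.n - 1) * h ^ j ≤ X / h := by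
    intro j hj
    rw [le_div_iff₀ hh0, mul_assoc, ← pow_succ, ← hXn]
    apply mul_le_mul_of_nonneg_left _ (by positivity)
    exact pow_le_pow_right₀ hh1 hj
  have hsV : |s - V * X| ≤ 4 * R * (X / h) := by
    rw [hs, hV, sum_mul, ← sum_sub_distrib]
    refine (abs_sum_le_sum_abs _ _).trans ?_
    calc ∑ P ∈ F, |(Set.ncard {a | a ∈ S ∧ D.Z a P} : ℝ) - v P * X|
        ≤ ∑ _P ∈ F, R * (H : ℝ) ^ (D.n - 1) := sum_le_sum fun P _ => by rw [hX]; exact hR P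
      _ = (F.card : ℝ) * (R * (H : ℝ) ^ (D.n - 1)) := by rw [sum_const, nsmul_eq_mul]
      _ ≤ (4 * h ^ 2) * (R * (H : ℝ) ^ (D.n - 1)) :=
          mul_le_mul_of_nonneg_right hFc (by positivity)
      _ = 4 * R * ((H : ℝ) ^ (D.n - 1) * h ^ 2) := by ring
      _ ≤ 4 * R * (X / h) := mul_le_mul_of_nonneg_left (hpow 2 (by omega)) (by positivity)
  have h3H : 2 * (H : ℝ) + 1 ≤ 3 * H := by linarith
  have hbon : (F.card : ℝ) ^ 2 * (2 * (H : ℝ) + 1) ^ (D.n - 1) ≤ 16 * 3 ^ D.n * (X / h) := by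
    have e1 : (F.card : ℝ) ^ 2 ≤ (4 * h ^ 2) ^ 2 := pow_le_pow_left₀ (Nat.cast_nonneg _) hFc 2
    have e2 : (2 * (H : ℝ) + 1) ^ (D.n - 1) ≤ (3 * (H : ℝ)) ^ (D.n - 1) :=
      pow_le_pow_left₀ (by positivity) h3H _
    have e3 : (3 : ℝ) ^ (D.n - 1) ≤ 3 ^ D.n := pow_le_pow_right₀ (by norm_num) (by omega)
    calc (F.card : ℝ) ^ 2 * (2 * (H : ℝ) + 1) ^ (D.n - 1)
        ≤ (4 * h ^ 2) ^ 2 * (3 * (H : ℝ)) ^ (D.n - 1) :=
          mul_le_mul e1 e2 (by positivity) (by positivity)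
      _ = 16 * 3 ^ (D.n - 1) * ((H : ℝ) ^ (D.n - 1) * h ^ 4) := by rw [mul_pow]; ring
      _ ≤ 16 * 3 ^ D.n * (X / h) := by
          apply mul_le_mul _ (hpow 4 (by omega)) (by positivity) (by positivity)
          linarith
  have htail : D.N (Data.big T) H ≤ K₂ * (2 * K) * 3 ^ D.n * (X / h) := by
    refine (ht T H hT1).trans ?_
    have e2 : (2 * (H : ℝ) + 1) ^ D.n ≤ 3 ^ D.n * X := by
      rw [hX, ← mul_pow]
      exact pow_le_pow_left₀ (by positivity) h3H _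
    calc K₂ / ((T : ℝ) + 1) ^ k₂ * (2 * (H : ℝ) + 1) ^ D.n
        = K₂ * (1 / ((T : ℝ) + 1) ^ k₂) * (2 * (H : ℝ) + 1) ^ D.n := by ring
      _ ≤ K₂ * (2 * K / h) * (3 ^ D.n * X) := by
          apply mul_le_mul _ e2 (by positivity) (by positivity)
          exact mul_le_mul_of_nonneg_left (hpk k₂ hk₂) hK₂
      _ = _ := by ring
  have hwt : D.wt (Data.big T) * X ≤ D.K * 2 ^ D.n * (2 * K) * (X / h) := by
    have e1 := D.wt_tail T
    calc D.wt (Data.big T) * X ≤ (D.K * 2 ^ D.n / ((T : ℝ) + 1) ^ D.k) * X :=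
          mul_le_mul_of_nonneg_right e1 hX0.le
      _ = D.K * 2 ^ D.n * (1 / ((T : ℝ) + 1) ^ D.k) * X := by ring
      _ ≤ D.K * 2 ^ D.n * (2 * K / h) * X := by
          apply mul_le_mul_of_nonneg_right _ hX0.le
          exact mul_le_mul_of_nonneg_left (hpk D.k D.hk) (by positivity)
      _ = _ := by ring
  have hN1 : (Set.ncard {a | a ∈ S ∧ ∃ P ∈ F, D.Z a P} : ℝ) ≤
      Set.ncard {a | a ∈ S ∧ ∃ P ∈ A, D.Z a P} := by
    have h1 : {a | a ∈ S ∧ ∃ P ∈ F, D.Z a P} ⊆ {a | a ∈ S ∧ ∃ P ∈ A, D.Z a P} := by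
      rintro a ⟨ha, P, hP, hz⟩
      rw [hF, mem_filter] at hP
      exact ⟨ha, P, hP.2, hz⟩
    exact_mod_cast Set.ncard_le_ncard h1 (hfin _)
  have hN2 : (Set.ncard {a | a ∈ S ∧ ∃ P ∈ A, D.Z a P} : ℝ) ≤
      Set.ncard {a | a ∈ S ∧ ∃ P ∈ F, D.Z a P} + D.N (Data.big T) H := by
    have h1 : {a | a ∈ S ∧ ∃ P ∈ A, D.Z a P} ⊆ {a | a ∈ S ∧ ∃ P ∈ F, D.Z a P} ∪
        {a | a ∈ D.S H ∧ ∃ P ∈ Data.big T, D.Z a P} := by
      rintro a ⟨ha, P, hP, hz⟩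
      by_cases hb : P ∈ Data.big T
      · exact Or.inr ⟨hS ha, P, hb, hz⟩
      · left
        refine ⟨ha, P, ?_, hz⟩
        rw [hF, mem_filter, mem_bx]
        exact ⟨not_lt.1 hb, hP⟩
    unfold Data.N
    exact_mod_cast (Set.ncard_le_ncard h1 ((hfin _).union (D.fin H _))).trans
      (Set.ncard_union_le _ _)
  have hsV' := abs_le.1 hsV
  have hF1' : (∑' P, A.indicator v P) * X ≤ V * X + D.wt (Data.big T) * X := by
    rw [← add_mul]
    exact mul_le_mul_of_nonneg_right hF1 hX0.le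
  have hF2' : V * X ≤ (∑' P, A.indicator v P) * X := mul_le_mul_of_nonneg_right hF2 hX0.le
  have hXh : 0 ≤ X / h := by positivity
  have p1 : 0 ≤ 4 * R * (X / h) := by positivity
  have p2 : 0 ≤ 16 * 3 ^ D.n * (X / h) := by positivity
  have p3 : 0 ≤ K₂ * (2 * K) * 3 ^ D.n * (X / h) := by positivity
  have p4 : 0 ≤ D.K * 2 ^ D.n * (2 * K) * (X / h) := by positivity
  have e : (4 * R + 16 * 3 ^ D.n + K₂ * (2 * K) * 3 ^ D.n + D.K * 2 ^ D.n * (2 * K)) * (X / h) =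
      4 * R * (X / h) + 16 * 3 ^ D.n * (X / h) + K₂ * (2 * K) * 3 ^ D.n * (X / h) +
      D.K * 2 ^ D.n * (2 * K) * (X / h) := by ring
  rw [e, abs_le]
  constructor
  · linarith [hsV'.1, hbonf.1]
  · linarith [hsV'.2, hbonf.2]

/-- two zeros -/
theorem two_rate {D : Data} {K K₂ : ℝ} {m k₂ : ℕ} (hU : UTail D K K₂ m k₂) :
    ∃ C : ℝ, 0 ≤ C ∧ ∀ H : ℕ, K ≤ H →
      (Set.ncard {a | a ∈ D.S H ∧ ∃ P Q, P ≠ Q ∧ D.Z a P ∧ D.Z a Q} : ℝ) ≤
        C * ((H : ℝ) ^ D.n / (H : ℝ) ^ ((1 : ℝ) / m)) := by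
  classical
  obtain ⟨hK, hK₂, hm, hk₂, ht⟩ := hU
  refine ⟨16 * 3 ^ D.n + K₂ * (2 * K) * 3 ^ D.n, by positivity, fun H hHK => ?_⟩
  obtain ⟨T, h, hh, hh1, hhm, hT1, hTh, hpk⟩ := level_facts hK hm hHK
  have hH1 : (1 : ℝ) ≤ H := hK.trans hHK
  have hH0 : (0 : ℝ) < H := by linarith
  have hh0 : 0 < h := by linarith
  have hT0 : (0 : ℝ) ≤ T := Nat.cast_nonneg T
  rw [← hh]
  obtain ⟨X, hX⟩ : ∃ X : ℝ, X = (H : ℝ) ^ D.n := ⟨_, rfl⟩
  have hX0 : 0 < X := by rw [hX]; positivity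
  have hn := D.hn
  have hXn : (H : ℝ) ^ (D.n - 1) * h ^ m = X := by
    rw [hhm, hX, ← pow_succ]
    congr 1
    omega
  have hpow : ∀ j : ℕ, j + 1 ≤ m → (H : ℝ) ^ (D.n - 1) * h ^ j ≤ X / h := by
    intro j hj
    rw [le_div_iff₀ hh0, mul_assoc, ← pow_succ, ← hXn]
    apply mul_le_mul_of_nonneg_left _ (by positivity)
    exact pow_le_pow_right₀ hh1 hj
  have h3H : 2 * (H : ℝ) + 1 ≤ 3 * H := by linarith
  rw [← hX]
  have hdec : DecidableEq D.α := D.dec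
  have hsub : {a | a ∈ D.S H ∧ ∃ P Q, P ≠ Q ∧ D.Z a P ∧ D.Z a Q} ⊆
      (((bx T ×ˢ bx T).filter fun p => p.1 ≠ p.2).biUnion fun p =>
        (D.S H).filter fun a => D.Z a p.1 ∧ D.Z a p.2 : Finset D.α) ∪
      {a | a ∈ D.S H ∧ ∃ P ∈ Data.big T, D.Z a P} := by
    rintro a ⟨ha, P, Q, hPQ, hP, hQ⟩
    by_cases hbP : P ∈ Data.big T
    · exact Or.inr ⟨ha, P, hbP, hP⟩
    by_cases hbQ : Q ∈ Data.big T
    · exact Or.inr ⟨ha, Q, hbQ, hQ⟩
    left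
    rw [mem_coe, mem_biUnion]
    refine ⟨(P, Q), ?_, ?_⟩
    · rw [mem_filter, mem_product, mem_bx, mem_bx]
      exact ⟨⟨not_lt.1 hbP, not_lt.1 hbQ⟩, hPQ⟩
    · rw [mem_filter]
      exact ⟨ha, hP, hQ⟩
  have h1 := (Set.ncard_le_ncard hsub ((Finset.finite_toSet _).union (D.fin H _))).trans
    (Set.ncard_union_le _ _)
  rw [Set.ncard_coe_finset] at h1
  have h2 : (Set.ncard {a | a ∈ D.S H ∧ ∃ P Q, P ≠ Q ∧ D.Z a P ∧ D.Z a Q} : ℝ) ≤
      ((((bx T ×ˢ bx T).filter fun p => p.1 ≠ p.2).biUnion fun p =>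
        (D.S H).filter fun a => D.Z a p.1 ∧ D.Z a p.2).card : ℝ) + D.N (Data.big T) H := by
    unfold Data.N
    exact_mod_cast h1
  have h3 : ((((bx T ×ˢ bx T).filter fun p => p.1 ≠ p.2).biUnion fun p =>
        (D.S H).filter fun a => D.Z a p.1 ∧ D.Z a p.2).card : ℝ) ≤ 16 * 3 ^ D.n * (X / h) := by
    have e0 : ((((bx T ×ˢ bx T).filter fun p => p.1 ≠ p.2).biUnion fun p =>
        (D.S H).filter fun a => D.Z a p.1 ∧ D.Z a p.2).card : ℝ) ≤
        ∑ p ∈ (bx T ×ˢ bx T).filter (fun p => p.1 ≠ p.2),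
          (((D.S H).filter fun a => D.Z a p.1 ∧ D.Z a p.2).card : ℝ) := by
      exact_mod_cast card_biUnion_le
    refine e0.trans ?_
    have e1 : ∀ p ∈ (bx T ×ˢ bx T).filter (fun p => p.1 ≠ p.2),
        (((D.S H).filter fun a => D.Z a p.1 ∧ D.Z a p.2).card : ℝ) ≤
          (2 * (H : ℝ) + 1) ^ (D.n - 1) := by
      intro p hp
      rw [mem_filter] at hp
      refine le_trans ?_ (D.two p.1 p.2 hp.2 H)
      rw [← Set.ncard_coe_finset]
      have : (((D.S H).filter fun a => D.Z a p.1 ∧ D.Z a p.2 : Finset D.α) : Set D.α) =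
          {a | a ∈ D.S H ∧ D.Z a p.1 ∧ D.Z a p.2} := by
        ext a
        simp
      rw [this]
    refine (sum_le_sum e1).trans ?_
    rw [sum_const, nsmul_eq_mul]
    have e2 : ((((bx T ×ˢ bx T).filter fun p => p.1 ≠ p.2).card : ℕ) : ℝ) ≤ (4 * h ^ 2) ^ 2 := by
      have e3 : ((((bx T ×ˢ bx T).filter fun p => p.1 ≠ p.2).card : ℕ) : ℝ) ≤
          ((bx T).card : ℝ) ^ 2 := by
        have := card_filter_le (bx T ×ˢ bx T) (fun p => p.1 ≠ p.2)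
        rw [card_product] at this
        rw [sq]
        exact_mod_cast this
      refine e3.trans (pow_le_pow_left₀ (Nat.cast_nonneg _) ?_ 2)
      have h2 := card_bx T
      have h3 : ((T : ℝ) + 1) ^ 2 ≤ h ^ 2 := pow_le_pow_left₀ (by positivity) hTh 2
      linarith
    have e4 : (2 * (H : ℝ) + 1) ^ (D.n - 1) ≤ (3 * (H : ℝ)) ^ (D.n - 1) :=
      pow_le_pow_left₀ (by positivity) h3H _
    have e5 : (3 : ℝ) ^ (D.n - 1) ≤ 3 ^ D.n := pow_le_pow_right₀ (by norm_num) (by omega)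
    calc _ ≤ (4 * h ^ 2) ^ 2 * (3 * (H : ℝ)) ^ (D.n - 1) :=
          mul_le_mul e2 e4 (by positivity) (by positivity)
      _ = 16 * 3 ^ (D.n - 1) * ((H : ℝ) ^ (D.n - 1) * h ^ 4) := by rw [mul_pow]; ring
      _ ≤ 16 * 3 ^ D.n * (X / h) := by
          apply mul_le_mul _ (hpow 4 (by omega)) (by positivity) (by positivity)
          linarith
  have htail : D.N (Data.big T) H ≤ K₂ * (2 * K) * 3 ^ D.n * (X / h) := by
    refine (ht T H hT1).trans ?_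
    have e2 : (2 * (H : ℝ) + 1) ^ D.n ≤ 3 ^ D.n * X := by
      rw [hX, ← mul_pow]
      exact pow_le_pow_left₀ (by positivity) h3H _
    calc K₂ / ((T : ℝ) + 1) ^ k₂ * (2 * (H : ℝ) + 1) ^ D.n
        = K₂ * (1 / ((T : ℝ) + 1) ^ k₂) * (2 * (H : ℝ) + 1) ^ D.n := by ring
      _ ≤ K₂ * (2 * K / h) * (3 ^ D.n * X) := by
          apply mul_le_mul _ e2 (by positivity) (by positivity)
          exact mul_le_mul_of_nonneg_left (hpk k₂ hk₂) hK₂
      _ = _ := by ring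
  have e : (16 * 3 ^ D.n + K₂ * (2 * K) * 3 ^ D.n) * (X / h) =
      16 * 3 ^ D.n * (X / h) + K₂ * (2 * K) * 3 ^ D.n * (X / h) := by ring
  rw [e]
  linarith

end Pool.Agent.U46
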