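import Pool.Agent.U46.Dav
import Pool.Agent.N656.LL.Vol

set_option autoImplicit false
set_option linter.unusedSectionVars false

/-! Lattice points in the sections of a convex region by the hyperplanes `w₀ + ∑ c_m w_m = 0`. -/

open Filter Topology Finset MeasureTheory

namespace Pool.Agent.U46

open Pool.Agent.N656.LL

variable {ι κ : Type} [Fintype ι]

/-- the point of the hyperplane over `u` -/
noncomputable def lft (e : Option ι ≃ κ) (c : ι → ℤ) (u : ι → ℝ) : κ → ℝ :=
  fun p => glue u (-∑ m, u m * (c m : ℝ)) (e.symm p)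

/-- the section -/
def scn (e : Option ι ≃ κ) (c : ι → ℤ) (Ω : Set (κ → ℝ)) : Set (ι → ℝ) := {u | lft e c u ∈ Ω}

/-- its volume -/
noncomputable def vscn (e : Option ι ≃ κ) (c : ι → ℤ) (Ω : Set (κ → ℝ)) : ℝ :=
  volume.real (scn e c Ω)

variable {e : Option ι ≃ κ} {c : ι → ℤ} {Ω : Set (κ → ℝ)}

lemma lft_none (u : ι → ℝ) : lft e c u (e none) = -∑ m, u m * (c m : ℝ) := by
  unfold lft
  rw [Equiv.symm_apply_apply]
  rfl

lemma lft_some (u : ι → ℝ) (m : ι) : lft e c u (e (some m)) = u m := by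
  unfold lft
  rw [Equiv.symm_apply_apply]
  rfl

lemma lft_cont : Continuous (lft e c) := by
  refine continuous_pi fun p => ?_
  have h1 : Continuous fun u : ι → ℝ => glue u (-∑ m, u m * (c m : ℝ)) :=
    glue_cont.comp (show Continuous fun u : ι → ℝ => (u, -∑ m, u m * (c m : ℝ)) by fun_prop)
  exact (continuous_apply (e.symm p)).comp h1

lemma lft_add (a b : ℝ) (u v : ι → ℝ) :
    a • lft e c u + b • lft e c v = lft e c (a • u + b • v) := by
  funext p
  obtain ⟨o, rfl⟩ := e.surjective p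
  rw [Pi.add_apply, Pi.smul_apply, Pi.smul_apply]
  cases o
  · rw [lft_none, lft_none, lft_none]
    simp only [Pi.add_apply, Pi.smul_apply, smul_eq_mul, mul_neg, mul_sum]
    rw [← neg_add, ← sum_add_distrib]
    congr 1
    refine sum_congr rfl fun m _ => ?_
    ring
  · rw [lft_some, lft_some, lft_some]
    rfl

/-- a point on the hyperplane -/
lemma lft_eq (w : κ → ℝ) (h0 : w (e none) + ∑ m, w (e (some m)) * (c m : ℝ) = 0) :
    lft e c (fun m => w (e (some m))) = w := by
  funext p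
  obtain ⟨o, rfl⟩ := e.surjective p
  cases o
  · rw [lft_none]
    linarith
  · rw [lft_some]

lemma scn_closed (hcl : IsClosed Ω) : IsClosed (scn e c Ω) := hcl.preimage lft_cont

lemma scn_convex (hc : Convex ℝ Ω) : Convex ℝ (scn e c Ω) := by
  intro u hu v hv a b ha hb hab
  have h1 := hc hu hv ha hb hab
  rw [lft_add] at h1
  exact h1

lemma scn_sub (hb : ∀ w ∈ Ω, ∀ o, |w o| ≤ 1) : scn e c Ω ⊆ K fun m => (c m : ℝ) := by
  intro u hu
  have hu' : lft e c u ∈ Ω := hu
  refine ⟨fun m => ?_, ?_⟩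
  · have := hb _ hu' (e (some m))
    rwa [lft_some] at this
  · have := hb _ hu' (e none)
    rwa [lft_none, abs_neg] at this

lemma vscn_le [DecidableEq ι] (hb : ∀ w ∈ Ω, ∀ o, |w o| ≤ 1) :
    vscn e c Ω ≤ vol fun m => (c m : ℝ) :=
  measureReal_mono (scn_sub hb) (K_bounded _).measure_lt_top.ne

lemma vscn_nonneg : 0 ≤ vscn e c Ω := measureReal_nonneg

lemma vscn_pos [DecidableEq ι] (hb : ∀ w ∈ Ω, ∀ o, |w o| ≤ 1) {w : κ → ℝ} (hw : w ∈ interior Ω)
    (h0 : w (e none) + ∑ m, w (e (some m)) * (c m : ℝ) = 0) : 0 < vscn e c Ω := by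
  have hopen : IsOpen (lft e c ⁻¹' interior Ω) := isOpen_interior.preimage lft_cont
  have hne : (lft e c ⁻¹' interior Ω).Nonempty := by
    refine ⟨fun m => w (e (some m)), ?_⟩
    rw [Set.mem_preimage, lft_eq w h0]
    exact hw
  have hpos : 0 < volume (lft e c ⁻¹' interior Ω) := hopen.measure_pos volume hne
  have hfin : volume (scn e c Ω) ≠ ⊤ :=
    (lt_of_le_of_lt (measure_mono (scn_sub hb)) (K_bounded _).measure_lt_top).ne
  unfold vscn
  rw [measureReal_def, ENNReal.toReal_pos_iff]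
  refine ⟨lt_of_lt_of_le hpos (measure_mono ?_), hfin.lt_top⟩
  intro u hu
  have h1 : lft e c u ∈ interior Ω := hu
  have h2 : lft e c u ∈ Ω := interior_subset h1
  exact h2

open scoped Pointwise in
/-- the members of `H Ω` on the hyperplane -/
theorem scn_count [DecidableEq ι] (hc : Convex ℝ Ω) (hcl : IsClosed Ω)
    (hb : ∀ w ∈ Ω, ∀ o, |w o| ≤ 1) {H : ℕ} (hH : 1 ≤ H) :
    |(Set.ncard {w : κ → ℤ | (fun p => (w p : ℝ) / H) ∈ Ω ∧
        w (e none) + ∑ m, w (e (some m)) * c m = 0} : ℝ) -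
      vscn e c Ω * (H : ℝ) ^ Fintype.card ι| ≤
      Fintype.card ι * 3 ^ (Fintype.card ι - 1) * (H : ℝ) ^ (Fintype.card ι - 1) := by
  have hH1 : (1 : ℝ) ≤ H := by exact_mod_cast hH
  have hH0 : (0 : ℝ) < H := by linarith
  obtain ⟨Kk, hKk⟩ : ∃ Kk : Set (ι → ℝ), Kk = (H : ℝ) • scn e c Ω := ⟨_, rfl⟩
  have hmem : ∀ u : ι → ℝ, u ∈ Kk ↔ (H : ℝ)⁻¹ • u ∈ scn e c Ω := by
    intro u
    rw [hKk, Set.mem_smul_set_iff_inv_smul_mem₀ hH0.ne']
  have h1 := davenport Kk (by rw [hKk]; exact (scn_convex hc).smul _)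
    (by
      have : Kk = (fun u => (H : ℝ)⁻¹ • u) ⁻¹' scn e c Ω := by
        ext u
        exact hmem u
      rw [this]
      exact (scn_closed hcl).preimage (continuous_const_smul _)) H
    (by
      intro u hu m
      rw [hmem] at hu
      have h2 := (scn_sub hb hu).1 m
      simp only [Pi.smul_apply, smul_eq_mul, abs_mul, abs_inv, abs_of_pos hH0] at h2
      rwa [inv_mul_le_iff₀ hH0, mul_one] at h2)
  have hvol : volume.real Kk = vscn e c Ω * (H : ℝ) ^ Fintype.card ι := by
    rw [hKk, measureReal_def, Measure.addHaar_smul, ENNReal.toReal_mul,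
      Module.finrank_fintype_fun_eq_card, ENNReal.toReal_ofReal (abs_nonneg _),
      abs_of_pos (by positivity), mul_comm]
    rfl
  have hkey : ∀ w : κ → ℤ, w (e none) + ∑ m, w (e (some m)) * c m = 0 →
      lft e c ((H : ℝ)⁻¹ • fun m => ((w (e (some m)) : ℤ) : ℝ)) = fun p => (w p : ℝ) / H := by
    intro w hw
    have h2 := lft_eq (e := e) (c := c) (fun p => (w p : ℝ) / H) (by
      have h3 : (w (e none) : ℝ) + ∑ m, (w (e (some m)) : ℝ) * (c m : ℝ) = 0 := by
        exact_mod_cast hw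
      have h4 : (w (e none) : ℝ) / H + ∑ m, (w (e (some m)) : ℝ) / H * (c m : ℝ) =
          ((w (e none) : ℝ) + ∑ m, (w (e (some m)) : ℝ) * (c m : ℝ)) / H := by
        rw [add_div, sum_div]
        congr 1
        exact sum_congr rfl fun m _ => by ring
      rw [h4, h3, zero_div])
    rw [← h2]
    congr 1
    funext m
    simp only [Pi.smul_apply, smul_eq_mul]
    ring
  have hcount : Set.ncard {w : κ → ℤ | (fun p => (w p : ℝ) / H) ∈ Ω ∧
        w (e none) + ∑ m, w (e (some m)) * c m = 0} =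
      Set.ncard {b : ι → ℤ | (fun m => (b m : ℝ)) ∈ Kk} := by
    refine Set.ncard_congr (fun w _ => fun m => w (e (some m))) ?_ ?_ ?_
    · rintro w ⟨hw, h0⟩
      show (fun m => ((w (e (some m)) : ℤ) : ℝ)) ∈ Kk
      rw [hmem]
      show lft e c ((H : ℝ)⁻¹ • fun m => ((w (e (some m)) : ℤ) : ℝ)) ∈ Ω
      rw [hkey w h0]
      exact hw
    · rintro w w' ⟨_, hs⟩ ⟨_, hs'⟩ hab
      have h1 : ∀ m, w (e (some m)) = w' (e (some m)) := fun m => congrFun hab m
      funext p
      obtain ⟨o, rfl⟩ := e.surjective p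
      cases o with
      | none =>
        simp only [h1] at hs
        linarith
      | some m => exact h1 m
    · intro b hb'
      obtain ⟨w, hw⟩ : ∃ w : κ → ℤ, w = fun p => glue b (-∑ m, b m * c m) (e.symm p) := ⟨_, rfl⟩
      have hw0 : w (e none) = -∑ m, b m * c m := by
        rw [hw]
        simp [glue]
      have hw1 : ∀ m, w (e (some m)) = b m := by
        intro m
        rw [hw]
        simp [glue]
      have h0 : w (e none) + ∑ m, w (e (some m)) * c m = 0 := by
        simp only [hw0, hw1]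
        ring
      refine ⟨w, ⟨?_, h0⟩, funext hw1⟩
      rw [← hkey w h0]
      have hb'' : (fun m => ((b m : ℤ) : ℝ)) ∈ Kk := hb'
      rw [hmem] at hb''
      simp only [hw1]
      exact hb''
  rw [hcount, ← hvol]
  refine h1.trans ?_
  rw [mul_assoc, ← mul_pow]
  apply mul_le_mul_of_nonneg_left _ (by positivity)
  exact pow_le_pow_left₀ (by positivity) (by linarith) _

end Pool.Agent.U46
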