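import Pool.Agent.U46.Crn
import Pool.Agent.U46.RateS
import Pool.Agent.U46.Scn
import Pool.Agent.N656.BD.Dat

set_option autoImplicit false
set_option linter.unusedSectionVars false
set_option maxHeartbeats 4000000

/-! The tail for polynomials of bounded bidegree, in a uniform form. -/

open Filter Topology Finset

namespace Pool.Agent.U46

open Pool.Agent.N656.PL Pool.Agent.N656.LL Pool.Agent.N656.BD

variable {a b : ℕ}

/-- the tail: the uniform form of `Pool.Agent.N656.BD.tail`, with the same proof -/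
theorem bd_tail (a b : ℕ) : ∃ K₁ K : ℝ, 1 ≤ K₁ ∧ 0 ≤ K ∧ ∀ T H : ℕ,
    K₁ * ((T : ℝ) + 1) ^ (24 * (min a b + 1)) ≤ H →
    (Set.ncard {w : Ix a b → ℤ | w ∈ box (Ix a b) H ∧ ∃ P : ℤ × ℤ, T < sz P ∧ G w P.1 P.2 = 0} : ℝ) ≤
      K / ((T : ℝ) + 1) ^ (min a b + 1) * (2 * (H : ℝ) + 1) ^ (Fintype.card (Ix a b) - 1) := by
  classical
  obtain ⟨M, hM⟩ : ∃ M : ℝ, M = (Fintype.card (Ix a b) : ℝ) := ⟨_, rfl⟩
  have hM1 : 1 ≤ M := by
    rw [hM]
    have := card_Ix_ge a b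
    exact_mod_cast (by omega : 1 ≤ Fintype.card (Ix a b))
  obtain ⟨C1, hC10, hC1⟩ := reg1 3 (by norm_num) a b M hM1
  obtain ⟨C2, hC20, hC2⟩ := reg1 3 (by norm_num) b a M hM1
  obtain ⟨K₀, hK₀1, hK₀⟩ := crn_tail a b
  refine ⟨K₀ + 16, 9 * C1 + 9 * C2 + 1, by linarith, by positivity, fun T H hTH => ?_⟩
  obtain ⟨k, hk⟩ : ∃ k, k = min a b + 1 := ⟨_, rfl⟩
  rw [← hk]
  obtain ⟨τ, hτ⟩ : ∃ τ : ℝ, τ = 1 / ((T : ℝ) + 1) ^ k := ⟨_, rfl⟩
  have hτ0 : 0 < τ := by rw [hτ]; positivity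
  have hT1 : (1 : ℝ) ≤ (T : ℝ) + 1 := by
    have : (0 : ℝ) ≤ T := by positivity
    linarith
  have ha : 1 / ((T : ℝ) + 1) ^ (a + 1) ≤ τ := by
    rw [hτ, hk]
    exact one_div_pow_le_one_div_pow_of_le hT1 (by omega)
  have hb : 1 / ((T : ℝ) + 1) ^ (b + 1) ≤ τ := by
    rw [hτ, hk]
    exact one_div_pow_le_one_div_pow_of_le hT1 (by omega)
  obtain ⟨t, ht⟩ : ∃ t : ℝ, t = ((T : ℝ) + 1) ^ k := ⟨_, rfl⟩
  have ht1 : 1 ≤ t := by rw [ht]; exact one_le_pow₀ hT1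
  have ht0 : 0 < t := by linarith
  have hTH' : (K₀ + 16) * t ^ 24 ≤ H := by
    rw [ht, ← pow_mul, mul_comm k 24]
    rw [hk]
    exact hTH
  have hτt : 1 / τ = t := by
    rw [hτ, ← ht]
    field_simp
  have hτ1 : τ ≤ 1 := by
    rw [hτ, ← ht, div_le_one ht0]
    exact ht1
  have ht24 : t ^ 2 ≤ t ^ 24 := pow_le_pow_right₀ ht1 (by norm_num)
  have hH16 : 16 * t ^ 2 ≤ (H : ℝ) := by
    have e1 : 0 ≤ K₀ * t ^ 24 := by positivity
    linarith
  have hH : 1 ≤ H := by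
    have e1 : 1 ≤ t ^ 2 := one_le_pow₀ ht1
    have e2 : (1 : ℝ) ≤ H := by linarith
    exact_mod_cast e2
  have h1 := hK₀ τ H hτ0 hτ1 (by
    rw [hτt]
    have e1 : 0 ≤ 16 * t ^ 24 := by positivity
    linarith)
  have h2 : (1 + Real.log H) / (H : ℝ) ≤ τ := by
    have hHR : (1 : ℝ) ≤ H := by exact_mod_cast hH
    obtain ⟨s, hs⟩ : ∃ s : ℝ, s = Real.sqrt H := ⟨_, rfl⟩
    have hss : s ^ 2 = H := by rw [hs]; exact Real.sq_sqrt (by linarith)
    have hs1 : 1 ≤ s := by rw [hs]; exact Real.one_le_sqrt.2 hHR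
    have hlog : Real.log H ≤ 2 * (s - 1) := by
      rw [← hss, Real.log_pow]
      have := Real.log_le_sub_one_of_pos (by linarith : (0 : ℝ) < s)
      push_cast
      linarith
    have hs4 : 4 * t ≤ s := by
      rw [hs]
      apply Real.le_sqrt_of_sq_le
      have e1 : (4 * t) ^ 2 = 16 * t ^ 2 := by ring
      rw [e1]
      exact hH16
    rw [hτ, ← ht, div_le_div_iff₀ (by linarith) ht0, one_mul]
    have e1 : (1 + Real.log H) * t ≤ 2 * s * t := by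
      apply mul_le_mul_of_nonneg_right _ ht0.le
      linarith
    have e2 : 2 * s * t ≤ s ^ 2 := by nlinarith
    linarith
  have hHR : (1 : ℝ) ≤ H := by exact_mod_cast hH
  have hH0 : (0 : ℝ) < H := by linarith
  obtain ⟨L, hL⟩ : ∃ L : ℝ, L = 2 * (H : ℝ) + 1 := ⟨_, rfl⟩
  have hL3 : L ≤ 3 * H := by rw [hL]; linarith
  have hL0 : 0 < L := by rw [hL]; linarith
  obtain ⟨n, hn⟩ : ∃ n : ℕ, Fintype.card (Ix a b) = n + 1 :=
    ⟨Fintype.card (Ix a b) - 1, by have := card_Ix_ge a b; omega⟩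
  have hsub : {w : Ix a b → ℤ | w ∈ box (Ix a b) H ∧ ∃ P : ℤ × ℤ, T < sz P ∧ G w P.1 P.2 = 0} ⊆
      (R1 a b M H T ∪ R2 a b M H T) ∪ crn a b H := by
    rintro w ⟨hw, P, hP, hz⟩
    have hw' := mem_box.1 hw
    have hP' : (T : ℤ) ≤ |P.1| ∨ (T : ℤ) ≤ |P.2| := by
      unfold sz at hP
      rcases lt_max_iff.1 hP with h | h
      · left
        rw [Int.abs_eq_natAbs]
        omega
      · right
        rw [Int.abs_eq_natAbs]
        omega
    rcases le_or_gt |(P.1 : ℝ)| (M * H) with h3 | h3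
    · exact Or.inl (Or.inl ⟨hw', P.1, P.2, h3, hP', hz⟩)
    rcases le_or_gt |(P.2 : ℝ)| (M * H) with h4 | h4
    · exact Or.inl (Or.inr ⟨hw', P.1, P.2, h4, hP', hz⟩)
    rw [hM] at h3 h4
    exact Or.inr ⟨hw', P.1, P.2, h3, h4, hz⟩
  have hfin : ((R1 a b M H T ∪ R2 a b M H T) ∪ crn a b H).Finite := by
    refine (box (Ix a b) H).finite_toSet.subset ?_
    rintro w ((h | h) | h) <;> exact mem_box.2 h.1
  have h3 := (Set.ncard_le_ncard hsub hfin).trans ((Set.ncard_union_le _ _).trans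
    (add_le_add (Set.ncard_union_le _ _) le_rfl))
  have h4 : (Set.ncard {w : Ix a b → ℤ | w ∈ box (Ix a b) H ∧
      ∃ P : ℤ × ℤ, T < sz P ∧ G w P.1 P.2 = 0} : ℝ) ≤
      ((R1 a b M H T).ncard : ℝ) + (R2 a b M H T).ncard + (crn a b H).ncard := by
    exact_mod_cast h3
  have r1 : ((R1 a b M H T).ncard : ℝ) ≤ 9 * C1 * τ * L ^ n := by
    have h5 := hC1 (Bx H) (gv H) H hHR (spread_gv H hH) T
    have h6 : ((R1 a b M H T).ncard : ℝ) ≤ (Set.ncard {u : Fin (b + 3) → Fin (a + 3) → Bx H |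
        ∃ x y : ℤ, |(x : ℝ)| ≤ M * H ∧ ((T : ℤ) ≤ |x| ∨ (T : ℤ) ≤ |y|) ∧
          sl (b + 2) y (sl (a + 2) x (gv H)) u = 0} : ℝ) := by
      exact_mod_cast R1_le a b M H T
    rw [card_Bx, ← pow_mul, mul_comm (a + 3), ← card_Ix, hn] at h5
    push_cast at h5
    rw [← hL] at h5
    have h7 : ((R1 a b M H T).ncard : ℝ) * H ≤ (9 * C1 * τ * L ^ n) * H := by
      calc _ ≤ _ := by gcongr
        _ ≤ _ := h5
        _ ≤ C1 * L ^ (n + 1) * (τ + τ + τ) := by gcongr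
        _ = (3 * C1 * τ * L ^ n) * L := by ring
        _ ≤ (3 * C1 * τ * L ^ n) * (3 * H) := by gcongr
        _ = _ := by ring
    exact le_of_mul_le_mul_right h7 hH0
  have r2 : ((R2 a b M H T).ncard : ℝ) ≤ 9 * C2 * τ * L ^ n := by
    have h5 := hC2 (Bx H) (gv H) H hHR (spread_gv H hH) T
    have h6 : ((R2 a b M H T).ncard : ℝ) ≤ (Set.ncard {u : Fin (a + 3) → Fin (b + 3) → Bx H |
        ∃ x y : ℤ, |(x : ℝ)| ≤ M * H ∧ ((T : ℤ) ≤ |x| ∨ (T : ℤ) ≤ |y|) ∧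
          sl (a + 2) y (sl (b + 2) x (gv H)) u = 0} : ℝ) := by
      exact_mod_cast R2_le a b M H T
    rw [card_Bx, ← pow_mul, ← card_Ix, hn] at h5
    push_cast at h5
    rw [← hL] at h5
    have h7 : ((R2 a b M H T).ncard : ℝ) * H ≤ (9 * C2 * τ * L ^ n) * H := by
      calc _ ≤ _ := by gcongr
        _ ≤ _ := h5
        _ ≤ C2 * L ^ (n + 1) * (τ + τ + τ) := by gcongr
        _ = (3 * C2 * τ * L ^ n) * L := by ring
        _ ≤ (3 * C2 * τ * L ^ n) * (3 * H) := by gcongr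
        _ = _ := by ring
    exact le_of_mul_le_mul_right h7 hH0
  have r3 : ((crn a b H).ncard : ℝ) ≤ τ * L ^ n := by
    rw [hn, Nat.add_sub_cancel, ← hL] at h1
    exact h1
  rw [hn, Nat.add_sub_cancel, ← hL]
  refine h4.trans ?_
  have h5 : (9 * C1 + 9 * C2 + 1) / ((T : ℝ) + 1) ^ k = (9 * C1 + 9 * C2 + 1) * τ := by
    rw [hτ]
    ring
  rw [h5]
  linarith


/-- the uniform tail -/
lemma bd_utail (a b : ℕ) : ∃ K K₂ : ℝ,
    UTail (datb a b) K K₂ (24 * (min a b + 1)) (min a b + 1) := by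
  obtain ⟨K₁, K, hK₁, hK, h⟩ := bd_tail a b
  refine ⟨K₁, K, hK₁, hK, by omega, by omega, fun T H hTH => ?_⟩
  have h1 := h T H hTH
  have h2 : Fintype.card (Ix a b) - 1 = Fintype.card (JJ a b) := by
    have := card_JJ a b
    omega
  rw [h2] at h1
  refine le_trans (le_of_eq ?_) h1
  unfold Data.N
  congr 2

/-- the constant coefficient and the others -/
def eIx (a b : ℕ) : Option (JJ a b) ≃ Ix a b where
  toFun o := o.elim (z0 a b) (fun m => m.1)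
  invFun p := if h : (p.1 : ℕ) + p.2 ≠ 0 then some ⟨p, h⟩ else none
  left_inv o := by
    cases o with
    | none => simp [z0, ix]
    | some m =>
      have h1 : (m.1.1 : ℕ) + m.1.2 ≠ 0 := m.2
      show (if h : (m.1.1 : ℕ) + m.1.2 ≠ 0 then some (⟨m.1, h⟩ : JJ a b) else none) = some m
      rw [dif_pos h1]
  right_inv p := by
    by_cases h : (p.1 : ℕ) + p.2 ≠ 0
    · simp only [h, dif_pos, not_false_iff, ne_eq]
      rfl
    · simp only [h, dif_neg, not_false_iff]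
      show z0 a b = p
      by_contra hne
      exact h (ne_z0.1 (Ne.symm hne))

lemma G_opt (w : Ix a b → ℤ) (P : ℤ × ℤ) :
    G w P.1 P.2 = w (eIx a b none) + ∑ m : JJ a b, w (eIx a b (some m)) * mn a b P m := G_split w P

/-- **Polynomials of bounded bidegree with coefficients in a convex region.** -/
theorem bd_convex (a b : ℕ) : ∃ C : ℝ, 0 ≤ C ∧
    ∀ Ω : Set (Ix a b → ℝ), Convex ℝ Ω → IsClosed Ω → (∀ w ∈ Ω, ∀ o, |w o| ≤ 1) →
    ∀ H : ℕ, 1 ≤ H → ∀ A : Set (ℤ × ℤ),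
      |(Set.ncard {w : Ix a b → ℤ | (fun p => (w p : ℝ) / H) ∈ Ω ∧ ∃ P ∈ A, G w P.1 P.2 = 0} : ℝ) -
        (∑' P, A.indicator (fun P => vscn (eIx a b) (mn a b P) Ω) P) *
          (H : ℝ) ^ Fintype.card (JJ a b)| ≤
        C * ((H : ℝ) ^ Fintype.card (JJ a b) / (H : ℝ) ^ ((1 : ℝ) / ((24 * (min a b + 1) : ℕ) : ℝ))) := by
  classical
  obtain ⟨K, K₂, hU⟩ := bd_utail a b
  obtain ⟨C, hC0, hC⟩ := law_sub hU (R := Fintype.card (JJ a b) * 3 ^ (Fintype.card (JJ a b) - 1))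
    (by positivity)
  have hn : (datb a b).n = Fintype.card (JJ a b) := rfl
  obtain ⟨m, hm⟩ : ∃ m : ℕ, m = 24 * (min a b + 1) := ⟨_, rfl⟩
  have hm1 : 1 ≤ m := by omega
  rw [← hm] at hC ⊢
  obtain ⟨B, hB⟩ : ∃ B : ℝ, B = ∑ h ∈ range ⌈K⌉₊, ((datb a b).N Set.univ h +
    (datb a b).wt Set.univ * (h : ℝ) ^ (datb a b).n) := ⟨_, rfl⟩
  have hterm : ∀ h : ℕ, 0 ≤ (datb a b).N Set.univ h + (datb a b).wt Set.univ * (h : ℝ) ^ (datb a b).n := by
    intro h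
    have h1 := (datb a b).N_nonneg Set.univ h
    have h2 := (datb a b).wt_nonneg Set.univ
    positivity
  have hB0 : 0 ≤ B := by rw [hB]; exact sum_nonneg fun h _ => hterm h
  refine ⟨C + B, by positivity, fun Ω hc hcl hb H hH A => ?_⟩
  have hH1 : (1 : ℝ) ≤ H := by exact_mod_cast hH
  have hH0 : (0 : ℝ) < H := by linarith
  obtain ⟨s, hs⟩ : ∃ s : ℝ, s = (1 : ℝ) / (m : ℝ) := ⟨_, rfl⟩
  have hs1 : s ≤ 1 := by
    rw [hs, div_le_one (by exact_mod_cast hm1)]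
    exact_mod_cast hm1
  rw [← hs] at hC ⊢
  rw [← hn]
  have hpos : 0 < (H : ℝ) ^ (datb a b).n / (H : ℝ) ^ s := by positivity
  obtain ⟨v, hv⟩ : ∃ v : ℤ × ℤ → ℝ, v = fun P => vscn (eIx a b) (mn a b P) Ω := ⟨_, rfl⟩
  have hv0 : ∀ P, 0 ≤ v P := fun P => by rw [hv]; exact vscn_nonneg
  have hvD : ∀ P, v P ≤ (datb a b).v P := fun P => by rw [hv]; exact vscn_le hb
  rw [← hv]
  have hS : {w : Ix a b → ℤ | (fun p => (w p : ℝ) / H) ∈ Ω} ⊆ {w | w ∈ box (Ix a b) H} := by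
    intro w hw
    show w ∈ box (Ix a b) H
    rw [mem_box]
    intro p
    have h1 := hb _ hw p
    rw [abs_div, abs_of_pos hH0, div_le_one hH0] at h1
    exact_mod_cast h1
  by_cases hK : K ≤ H
  · have h1 := hC H hK {w : Ix a b → ℤ | (fun p => (w p : ℝ) / H) ∈ Ω} v hS hv0 hvD
      (fun P => by
        have h2 := scn_count (e := eIx a b) (c := mn a b P) hc hcl hb hH
        have h3 : {w : Ix a b → ℤ | (fun p => (w p : ℝ) / H) ∈ Ω ∧
            w (eIx a b none) + ∑ m, w (eIx a b (some m)) * mn a b P m = 0} =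
            {w : Ix a b → ℤ | (fun p => (w p : ℝ) / H) ∈ Ω ∧ G w P.1 P.2 = 0} := by
          ext w
          rw [Set.mem_ofPred_eq, Set.mem_ofPred_eq, G_opt]
        rw [h3] at h2
        have hvP : v P = vscn (eIx a b) (mn a b P) Ω := by rw [hv]
        rw [hvP]
        exact h2) A
    refine h1.trans ?_
    apply mul_le_mul_of_nonneg_right _ hpos.le
    linarith
  · rw [not_le] at hK
    have hmem : H ∈ range ⌈K⌉₊ := by
      rw [mem_range]
      exact Nat.lt_ceil.2 hK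
    have h1 : (datb a b).N Set.univ H + (datb a b).wt Set.univ * (H : ℝ) ^ (datb a b).n ≤ B := by
      rw [hB]
      exact single_le_sum (f := fun h : ℕ => (datb a b).N Set.univ h +
        (datb a b).wt Set.univ * (h : ℝ) ^ (datb a b).n) (fun h _ => hterm h) hmem
    have e1 : (Set.ncard {w : Ix a b → ℤ | (fun p => (w p : ℝ) / H) ∈ Ω ∧
        ∃ P ∈ A, G w P.1 P.2 = 0} : ℝ) ≤ (datb a b).N Set.univ H := by
      have : {w : Ix a b → ℤ | (fun p => (w p : ℝ) / H) ∈ Ω ∧ ∃ P ∈ A, G w P.1 P.2 = 0} ⊆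
          {w | w ∈ (datb a b).S H ∧ ∃ P ∈ (Set.univ : Set (ℤ × ℤ)), (datb a b).Z w P} := by
        rintro w ⟨h3, P, _, h5⟩
        exact ⟨hS h3, P, Set.mem_univ _, h5⟩
      unfold Data.N
      exact_mod_cast Set.ncard_le_ncard this ((datb a b).fin H _)
    have e2 : ∑' P, A.indicator v P ≤ (datb a b).wt Set.univ := by
      unfold Data.wt
      have s1 : Summable v := Summable.of_nonneg_of_le hv0 hvD (datb a b).summable
      refine (s1.indicator A).tsum_le_tsum (fun P => ?_) ((datb a b).summable_ind _)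
      rw [Set.indicator_univ]
      refine le_trans ?_ (hvD P)
      exact Set.indicator_le_self' (fun _ _ => hv0 _) P
    have e3 : 0 ≤ ∑' P, A.indicator v P :=
      tsum_nonneg fun P => Set.indicator_nonneg (fun P _ => hv0 P) P
    have e5 : 0 ≤ (H : ℝ) ^ (datb a b).n := by positivity
    have e6 := mul_le_mul_of_nonneg_right e2 e5
    have e7 : 0 ≤ (∑' P, A.indicator v P) * (H : ℝ) ^ (datb a b).n := mul_nonneg e3 e5
    have e8 : (0 : ℝ) ≤ Set.ncard {w : Ix a b → ℤ | (fun p => (w p : ℝ) / H) ∈ Ω ∧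
        ∃ P ∈ A, G w P.1 P.2 = 0} := Nat.cast_nonneg _
    have h2 : |(Set.ncard {w : Ix a b → ℤ | (fun p => (w p : ℝ) / H) ∈ Ω ∧
        ∃ P ∈ A, G w P.1 P.2 = 0} : ℝ) - (∑' P, A.indicator v P) * (H : ℝ) ^ (datb a b).n| ≤ B := by
      rw [abs_le]
      constructor <;> linarith
    have h3 : 1 ≤ (H : ℝ) ^ (datb a b).n / (H : ℝ) ^ s := by
      rw [le_div_iff₀ (by positivity), one_mul]
      have e1 : (H : ℝ) ^ s ≤ (H : ℝ) ^ (1 : ℝ) := Real.rpow_le_rpow_of_exponent_le hH1 hs1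
      rw [Real.rpow_one] at e1
      refine e1.trans (le_self_pow₀ hH1 ?_)
      have := (datb a b).hn
      omega
    calc _ ≤ B * 1 := by rw [mul_one]; exact h2
      _ ≤ (C + B) * ((H : ℝ) ^ (datb a b).n / (H : ℝ) ^ s) := by
          apply mul_le_mul (by linarith) h3 zero_le_one (by positivity)

/-- two zeros -/
theorem bd_two (a b : ℕ) : ∃ C : ℝ, 0 ≤ C ∧ ∀ H : ℕ, 1 ≤ H →
      (Set.ncard {w : Ix a b → ℤ | w ∈ box (Ix a b) H ∧
        ∃ P Q : ℤ × ℤ, P ≠ Q ∧ G w P.1 P.2 = 0 ∧ G w Q.1 Q.2 = 0} : ℝ) ≤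
        C * ((H : ℝ) ^ Fintype.card (JJ a b) / (H : ℝ) ^ ((1 : ℝ) / ((24 * (min a b + 1) : ℕ) : ℝ))) := by
  classical
  obtain ⟨K, K₂, hU⟩ := bd_utail a b
  obtain ⟨C, hC0, hC⟩ := two_rate hU
  have hn : (datb a b).n = Fintype.card (JJ a b) := rfl
  obtain ⟨f, hf⟩ : ∃ f : ℕ → ℝ, f = fun H => (Set.ncard {w : Ix a b → ℤ | w ∈ box (Ix a b) H ∧
        ∃ P Q : ℤ × ℤ, P ≠ Q ∧ G w P.1 P.2 = 0 ∧ G w Q.1 Q.2 = 0} : ℝ) := ⟨_, rfl⟩
  have hf0 : ∀ H, 0 ≤ f H := fun H => by rw [hf]; exact Nat.cast_nonneg _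
  obtain ⟨B, hB⟩ : ∃ B : ℝ, B = ∑ h ∈ range ⌈K⌉₊, f h := ⟨_, rfl⟩
  have hB0 : 0 ≤ B := by rw [hB]; exact sum_nonneg fun h _ => hf0 h
  obtain ⟨m, hm⟩ : ∃ m : ℕ, m = 24 * (min a b + 1) := ⟨_, rfl⟩
  have hm1 : 1 ≤ m := by omega
  rw [← hm] at hC ⊢
  refine ⟨C + B, by positivity, fun H hH => ?_⟩
  have hH1 : (1 : ℝ) ≤ H := by exact_mod_cast hH
  have hH0 : (0 : ℝ) < H := by linarith
  obtain ⟨s, hs⟩ : ∃ s : ℝ, s = (1 : ℝ) / (m : ℝ) := ⟨_, rfl⟩
  have hs1 : s ≤ 1 := by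
    rw [hs, div_le_one (by exact_mod_cast hm1)]
    exact_mod_cast hm1
  rw [← hs] at hC ⊢
  rw [← hn]
  have hpos : 0 < (H : ℝ) ^ (datb a b).n / (H : ℝ) ^ s := by positivity
  have e0 : (Set.ncard {w : Ix a b → ℤ | w ∈ box (Ix a b) H ∧
        ∃ P Q : ℤ × ℤ, P ≠ Q ∧ G w P.1 P.2 = 0 ∧ G w Q.1 Q.2 = 0} : ℝ) = f H := by rw [hf]
  by_cases hK : K ≤ H
  · have h1 := hC H hK
    have h2 : f H ≤ C * ((H : ℝ) ^ (datb a b).n / (H : ℝ) ^ s) := by
      rw [hf]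
      exact h1
    rw [e0]
    refine h2.trans ?_
    apply mul_le_mul_of_nonneg_right _ hpos.le
    linarith
  · rw [not_le] at hK
    have hmem : H ∈ range ⌈K⌉₊ := by
      rw [mem_range]
      exact Nat.lt_ceil.2 hK
    have h1 : f H ≤ B := by
      rw [hB]
      exact single_le_sum (f := f) (fun h _ => hf0 h) hmem
    have h3 : 1 ≤ (H : ℝ) ^ (datb a b).n / (H : ℝ) ^ s := by
      rw [le_div_iff₀ (by positivity), one_mul]
      have e1 : (H : ℝ) ^ s ≤ (H : ℝ) ^ (1 : ℝ) := Real.rpow_le_rpow_of_exponent_le hH1 hs1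
      rw [Real.rpow_one] at e1
      refine e1.trans (le_self_pow₀ hH1 ?_)
      have := (datb a b).hn
      omega
    rw [e0]
    calc f H ≤ B * 1 := by rw [mul_one]; exact h1
      _ ≤ (C + B) * ((H : ℝ) ^ (datb a b).n / (H : ℝ) ^ s) := by
          apply mul_le_mul (by linarith) h3 zero_le_one (by positivity)

end Pool.Agent.U46
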