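import Mathlib

set_option autoImplicit false
set_option linter.unusedSectionVars false

/-! The Poisson limit along a filter, and the number of tuples with `k` entries in a subset. -/

open Filter Topology Finset

namespace Pool.Agent.U46

open Asymptotics in
/-- **The Poisson limit of binomial weights**, along an arbitrary filter. -/
theorem poisson {α : Type} {l : Filter α} {n : α → ℕ} {p : α → ℝ} {r : ℝ}
    (hn : Tendsto n l atTop) (hp : Tendsto (fun a => (n a : ℝ) * p a) l (𝓝 r)) (k : ℕ) :
    Tendsto (fun a => ((n a).choose k : ℝ) * p a ^ k * (1 - p a) ^ (n a - k)) l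
      (𝓝 (Real.exp (-r) * r ^ k / k.factorial)) := by
  have hn' : Tendsto (fun a => (n a : ℝ)) l atTop := tendsto_natCast_atTop_atTop.comp hn
  have hp0 : Tendsto p l (𝓝 0) := by
    have h1 : Tendsto (fun a => ((n a : ℝ) * p a) * (n a : ℝ)⁻¹) l (𝓝 (r * 0)) :=
      hp.mul (tendsto_inv_atTop_zero.comp hn')
    rw [mul_zero] at h1
    refine h1.congr' ?_
    filter_upwards [hn.eventually (eventually_ge_atTop 1)] with a ha
    have : (n a : ℝ) ≠ 0 := by
      have : (1 : ℝ) ≤ n a := by exact_mod_cast ha
      linarith
    field_simp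
  have h1 : Tendsto (fun a => ((n a).choose k : ℝ) * p a ^ k) l (𝓝 (r ^ k / k.factorial)) := by
    have e1 : (fun a => ((n a).choose k : ℝ)) ~[l] fun a => ((n a : ℝ) ^ k / k.factorial) :=
      (isEquivalent_choose k).comp_tendsto hn
    have e2 : (fun a => ((n a).choose k : ℝ) * p a ^ k) ~[l]
        fun a => ((n a : ℝ) ^ k / k.factorial) * p a ^ k := e1.mul IsEquivalent.refl
    have e3 : (fun a => ((n a : ℝ) ^ k / k.factorial) * p a ^ k) =
        fun a => ((n a : ℝ) * p a) ^ k / k.factorial := by
      funext a
      rw [mul_pow]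
      ring
    rw [e3] at e2
    rw [e2.tendsto_nhds_iff]
    exact (hp.pow k).div_const _
  have hlt : ∀ᶠ a in l, p a < 1 / 2 := hp0.eventually (gt_mem_nhds (by norm_num))
  have hone : Tendsto (fun a => 1 - p a) l (𝓝 1) := by
    simpa using tendsto_const_nhds.sub hp0
  have h2 : Tendsto (fun a => (1 - p a) ^ n a) l (𝓝 (Real.exp (-r))) := by
    have up : Tendsto (fun a => Real.exp (-((n a : ℝ) * p a))) l (𝓝 (Real.exp (-r))) :=
      (Real.continuous_exp.tendsto _).comp hp.neg
    have lo : Tendsto (fun a => Real.exp (-((n a : ℝ) * p a / (1 - p a)))) l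
        (𝓝 (Real.exp (-r))) := by
      have h3 := (hp.div hone one_ne_zero).neg
      rw [div_one] at h3
      exact (Real.continuous_exp.tendsto _).comp h3
    refine tendsto_of_tendsto_of_tendsto_of_le_of_le' lo up ?_ ?_
    · filter_upwards [hlt] with a ha
      have h1p : 0 < 1 - p a := by linarith
      have h4 : Real.exp (-(p a / (1 - p a))) ≤ 1 - p a := by
        have h5 := Real.add_one_le_exp (p a / (1 - p a))
        have h6 : p a / (1 - p a) + 1 = (1 - p a)⁻¹ := by field_simp; ring
        rw [h6] at h5
        rw [Real.exp_neg]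
        exact inv_le_of_inv_le₀ h1p h5
      calc Real.exp (-((n a : ℝ) * p a / (1 - p a))) = Real.exp (-(p a / (1 - p a))) ^ n a := by
            rw [← Real.exp_nat_mul]
            congr 1
            ring
        _ ≤ (1 - p a) ^ n a := pow_le_pow_left₀ (Real.exp_pos _).le h4 _
    · filter_upwards [hlt] with a ha
      have h1p : 0 < 1 - p a := by linarith
      have h4 : 1 - p a ≤ Real.exp (-p a) := Real.one_sub_le_exp_neg _
      calc (1 - p a) ^ n a ≤ Real.exp (-p a) ^ n a := pow_le_pow_left₀ h1p.le h4 _
        _ = Real.exp (-((n a : ℝ) * p a)) := by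
            rw [← Real.exp_nat_mul]
            congr 1
            ring
  have h3 : Tendsto (fun a => (1 - p a) ^ (n a - k)) l (𝓝 (Real.exp (-r))) := by
    have h4 := h2.div (hone.pow k) (by norm_num)
    rw [one_pow, div_one] at h4
    refine h4.congr' ?_
    filter_upwards [hlt, hn.eventually (eventually_ge_atTop k)] with a ha hk
    have h1p : (1 - p a) ≠ 0 := by linarith
    rw [Pi.div_apply, div_eq_iff (pow_ne_zero _ h1p), ← pow_add]
    congr 1
    omega
  have h5 := h1.mul h3
  have e : r ^ k / k.factorial * Real.exp (-r) = Real.exp (-r) * r ^ k / k.factorial := by ring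
  rw [e] at h5
  exact h5

/-- tuples with `k` entries in a subset, for finite sets -/
lemma card_tuples {α : Type} [DecidableEq α] (G B : Finset α) (hB : B ⊆ G) (n k : ℕ) :
    ((Fintype.piFinset fun _ : Fin n => G).filter fun f => (univ.filter fun i => f i ∈ B).card = k).card =
      n.choose k * B.card ^ k * (G \ B).card ^ (n - k) := by
  classical
  have h1 : ((Fintype.piFinset fun _ : Fin n => G).filter fun f =>
      (univ.filter fun i => f i ∈ B).card = k) =
      (powersetCard k (univ : Finset (Fin n))).biUnion fun S =>
        Fintype.piFinset fun i : Fin n => if i ∈ S then B else G \ B := by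
    ext f
    simp only [mem_filter, Fintype.mem_piFinset, mem_biUnion, mem_powersetCard]
    constructor
    · rintro ⟨hf, hk⟩
      refine ⟨univ.filter fun i => f i ∈ B, ⟨subset_univ _, hk⟩, fun i => ?_⟩
      by_cases hi : f i ∈ B
      · simp [hi]
      · simp [hi, hf i]
    · rintro ⟨S, ⟨_, hS⟩, hf⟩
      have hS' : (univ.filter fun i => f i ∈ B) = S := by
        ext i
        simp only [mem_filter, mem_univ, true_and]
        have := hf i
        by_cases hi : i ∈ S
        · simpa [hi] using this
        · simp only [hi, if_false, Finset.mem_sdiff] at this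
          simp [hi, this.2]
      refine ⟨fun i => ?_, by rw [hS', hS]⟩
      have := hf i
      by_cases hi : i ∈ S
      · rw [if_pos hi] at this
        exact hB this
      · rw [if_neg hi, Finset.mem_sdiff] at this
        exact this.1
  rw [h1, card_biUnion]
  · have h2 : ∀ S ∈ powersetCard k (univ : Finset (Fin n)),
        (Fintype.piFinset fun i : Fin n => if i ∈ S then B else G \ B).card =
          B.card ^ k * (G \ B).card ^ (n - k) := by
      intro S hS
      rw [mem_powersetCard] at hS
      rw [Fintype.card_piFinset]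
      have h3 : ∀ i : Fin n, (if i ∈ S then B else G \ B).card =
          if i ∈ S then B.card else (G \ B).card := fun i => by split_ifs <;> rfl
      simp only [h3]
      rw [prod_ite, prod_const, prod_const]
      have h4 : (univ.filter fun i : Fin n => i ∈ S) = S := by ext; simp
      have h5 : (univ.filter fun i : Fin n => i ∉ S) = univ \ S := by ext; simp
      rw [h4, h5, card_sdiff_of_subset (subset_univ S), card_univ, Fintype.card_fin, hS.2]
    rw [sum_congr rfl h2, sum_const, card_powersetCard, card_univ, Fintype.card_fin, smul_eq_mul]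
    ring
  · intro S hS S' hS' hne
    rw [Function.onFun, Finset.disjoint_left]
    intro f hf hf'
    apply hne
    rw [Fintype.mem_piFinset] at hf hf'
    ext i
    have h1 := hf i
    have h2 := hf' i
    by_cases hi : i ∈ S <;> by_cases hi' : i ∈ S'
    · simp [hi, hi']
    · rw [if_pos hi] at h1
      rw [if_neg hi', Finset.mem_sdiff] at h2
      exact absurd h1 h2.2
    · rw [if_neg hi, Finset.mem_sdiff] at h1
      rw [if_pos hi'] at h2
      exact absurd h2 h1.2
    · simp [hi, hi']

/-- tuples with `k` entries in a subset, for sets -/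
lemma ncard_tuples {α : Type} {G B : Set α} (hG : G.Finite) (hB : B ⊆ G) (n k : ℕ) :
    Set.ncard {f : Fin n → α | (∀ i, f i ∈ G) ∧ Set.ncard {i | f i ∈ B} = k} =
      n.choose k * B.ncard ^ k * (G.ncard - B.ncard) ^ (n - k) := by
  classical
  obtain ⟨G', rfl⟩ := hG.exists_finset_coe
  obtain ⟨B', rfl⟩ := (hG.subset hB).exists_finset_coe
  have hB' : B' ⊆ G' := by exact_mod_cast hB
  rw [Set.ncard_coe_finset, Set.ncard_coe_finset, ← card_sdiff_of_subset hB', ← card_tuples G' B' hB',
    ← Set.ncard_coe_finset]
  congr 1
  ext f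
  simp only [Set.mem_ofPred_eq, mem_coe, coe_filter, Fintype.mem_piFinset]
  have h1 : {i | f i ∈ B'} = ((univ.filter fun i => f i ∈ B' : Finset (Fin n)) : Set (Fin n)) := by
    ext i
    simp
  rw [h1, Set.ncard_coe_finset]

end Pool.Agent.U46
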