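import Pool.Agent.N656.BD.Cor3

/-!
# The polynomials with an integer zero both of whose coordinates are large are rare: a uniform form
-/

set_option autoImplicit false
set_option maxHeartbeats 4000000

open Finset

namespace Pool.Agent.U46

open Pool.Agent.N656.BD

variable {a b : ℕ}

/-- the polynomials with an integer zero both of whose coordinates exceed `M H`: the uniform form
of `Pool.Agent.N656.BD.crn_le`, with the same proof -/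
theorem crn_unif (a b : ℕ) (θ : ℝ) (hθ : 0 < θ) (hθ1 : θ ≤ 1) :
    ∀ H : ℕ, 4 / θ ≤ (H : ℝ) → (Set.ncard (crn a b H) : ℝ) ≤
      (2 * θ + 64 * (640 * (Fintype.card (Ix a b) : ℝ) ^ 2 * (1 / θ) ^ 5) / Real.sqrt (Real.sqrt H)) *
        (2 * (H : ℝ) + 1) ^ (Fintype.card (Ix a b) - 1) := by
  classical
  obtain ⟨M, hM⟩ : ∃ M : ℝ, M = (Fintype.card (Ix a b) : ℝ) := ⟨_, rfl⟩
  obtain ⟨m, hm⟩ : ∃ m : ℕ, Fintype.card (Ix a b) = m + 5 := by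
    refine ⟨Fintype.card (Ix a b) - 5, ?_⟩
    rw [Fintype.card_prod, Fintype.card_fin, Fintype.card_fin]
    have : 9 ≤ (b + 3) * (a + 3) := by nlinarith [Nat.zero_le a, Nat.zero_le b]
    omega
  have hM1 : 1 ≤ M := by
    rw [hM, hm]
    push_cast
    have : (0 : ℝ) ≤ m := by positivity
    linarith
  have hM2 : 2 ≤ M := by
    rw [hM, hm]
    push_cast
    have : (0 : ℝ) ≤ m := by positivity
    linarith
  obtain ⟨ρ, hρ⟩ : ∃ ρ : ℝ, ρ = 2 / θ := ⟨_, rfl⟩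
  have hρ1 : 1 ≤ ρ := by
    rw [hρ, le_div_iff₀ hθ]
    linarith
  have hρ0 : 0 < ρ := by linarith
  have hM0 : 0 < M := by linarith
  obtain ⟨Q, hQ⟩ : ∃ Q : ℝ, Q = 2 * (M * ρ) / θ + 1 := ⟨_, rfl⟩
  have hQ0 : 0 ≤ Q := by rw [hQ]; positivity
  obtain ⟨C1, hC1⟩ : ∃ C1 : ℝ, C1 = 6 * M * ρ ^ 2 := ⟨_, rfl⟩
  obtain ⟨C2, hC2⟩ : ∃ C2 : ℝ, C2 = 3 * M * ρ ^ 2 := ⟨_, rfl⟩
  have hC10 : 0 ≤ C1 := by rw [hC1]; positivity
  have hC20 : 0 ≤ C2 := by rw [hC2]; positivity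
  obtain ⟨t, ht⟩ : ∃ t : ℝ, t = 1 / θ := ⟨_, rfl⟩
  have ht1 : 1 ≤ t := by
    rw [ht, le_div_iff₀ hθ]
    linarith
  have ht0 : 0 < t := by linarith
  have hθt : θ = 1 / t := by
    rw [ht]
    field_simp
  have hKC : 2 + (2 * C1 + 1) * Q + (2 * C2 + 1) * (Q * (2 / θ + 1)) + 1 + 16 ≤
      640 * M ^ 2 * (1 / θ) ^ 5 := by
    have e1 : ρ = 2 * t := by rw [hρ, ht]; ring
    have e2 : Q = 4 * M * t ^ 2 + 1 := by
      rw [hQ, e1, hθt]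
      field_simp
      ring
    have hMt : 1 ≤ M * t ^ 2 := by
      have : 1 ≤ t ^ 2 := one_le_pow₀ ht1
      nlinarith
    have e3 : Q ≤ 5 * (M * t ^ 2) := by rw [e2]; linarith
    have e4 : 2 * C1 + 1 ≤ 49 * (M * t ^ 2) := by rw [hC1, e1]; nlinarith
    have e5 : 2 * C2 + 1 ≤ 25 * (M * t ^ 2) := by rw [hC2, e1]; nlinarith
    have e6 : 2 / θ + 1 ≤ 3 * t := by
      have : 2 / θ = 2 * t := by rw [ht]; ring
      rw [this]
      linarith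
    have e60 : 0 ≤ 2 / θ + 1 := by positivity
    have e7 : (2 * C1 + 1) * Q ≤ 49 * (M * t ^ 2) * (5 * (M * t ^ 2)) :=
      mul_le_mul e4 e3 hQ0 (by positivity)
    have e8 : (2 * C2 + 1) * (Q * (2 / θ + 1)) ≤ 25 * (M * t ^ 2) * (5 * (M * t ^ 2) * (3 * t)) := by
      apply mul_le_mul e5 _ (by positivity) (by positivity)
      exact mul_le_mul e3 e6 e60 (by positivity)
    rw [← ht]
    have e9 : 49 * (M * t ^ 2) * (5 * (M * t ^ 2)) ≤ 245 * M ^ 2 * t ^ 5 := by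
      have : t ^ 4 ≤ t ^ 5 := pow_le_pow_right₀ ht1 (by norm_num)
      have h2 : 0 ≤ 245 * M ^ 2 := by positivity
      nlinarith
    have e10 : 25 * (M * t ^ 2) * (5 * (M * t ^ 2) * (3 * t)) = 375 * M ^ 2 * t ^ 5 := by ring
    have e11 : 1 ≤ M ^ 2 * t ^ 5 := by
      have h1 : 1 ≤ M ^ 2 := one_le_pow₀ hM1
      have h2 : 1 ≤ t ^ 5 := one_le_pow₀ ht1
      nlinarith
    linarith
  intro H hH
  have hHR : (0 : ℝ) < H := lt_of_lt_of_le (by positivity) hH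
  have hH1 : 1 ≤ H := by
    have : 0 < H := by exact_mod_cast hHR
    omega
  have hHR1 : (1 : ℝ) ≤ H := by exact_mod_cast hH1
  have hlog : 0 ≤ Real.log H := Real.log_natCast_nonneg H
  obtain ⟨pc, hpc⟩ : ∃ p, p = ix a b (a + 2) (b + 2) (by omega) (by omega) := ⟨_, rfl⟩
  obtain ⟨pα, hpα⟩ : ∃ p, p = ix a b (a + 2) (b + 1) (by omega) (by omega) := ⟨_, rfl⟩
  obtain ⟨pβ, hpβ⟩ : ∃ p, p = ix a b (a + 1) (b + 2) (by omega) (by omega) := ⟨_, rfl⟩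
  obtain ⟨p1, hp1⟩ : ∃ p, p = ix a b (a + 2) b (by omega) (by omega) := ⟨_, rfl⟩
  have n1 : pc ≠ pβ := by rw [hpc, hpβ]; exact ix_ne (by omega)
  have n3 : pc ≠ pα := by rw [hpc, hpα]; exact ix_ne (by omega)
  obtain ⟨L, hL⟩ : ∃ L : ℝ, L = 2 * (H : ℝ) + 1 := ⟨_, rfl⟩
  have hL0 : 0 < L := by rw [hL]; positivity
  have hLH : (H : ℝ) ≤ L := by rw [hL]; linarith
  have hL1 : 1 ≤ L := by rw [hL]; linarith
  -- the pieces
  obtain ⟨A1, hA1⟩ : ∃ A1 : Finset (Ix a b → ℤ), A1 = (box (Ix a b) H).filter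
    fun w => w pc = 0 ∧ |(w pα : ℝ)| ≤ θ * H := ⟨_, rfl⟩
  obtain ⟨A2, hA2⟩ : ∃ A2 : Finset (Ix a b → ℤ), A2 = (box (Ix a b) H).filter
    fun w => w pc = 0 ∧ |(w pβ : ℝ)| ≤ θ * H := ⟨_, rfl⟩
  obtain ⟨A5, hA5⟩ : ∃ A5 : Finset (Ix a b → ℤ), A5 = (box (Ix a b) H).filter
    fun w => w pc = 0 ∧ w pβ ≠ 0 ∧ w pα ∣ w p1 * w pβ ^ 2 := ⟨_, rfl⟩
  obtain ⟨V2, hV2⟩ : ∃ V2 : ℤ → Finset (Ix a b → ℤ), ∀ x, V2 x = (box (Ix a b) H).filter
    fun u => u pc = 0 ∧ θ * H < |(u pβ : ℝ)| ∧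
      ∃ y : ℤ, 2 * (H : ℤ) < |y| ∧ |(u pα : ℝ) * x + (u pβ : ℝ) * y| ≤ M * ρ * H ∧
        G u x y = 0 := ⟨_, fun _ => rfl⟩
  obtain ⟨V3, hV3⟩ : ∃ V3 : ℤ → Finset (Ix a b → ℤ), ∀ x, V3 x = (box (Ix a b) H).filter
    fun u => 4 * M * ρ * (H : ℝ) ^ 2 < |(x : ℝ)| ∧ u pc = 0 ∧
      θ * H < |(u pα : ℝ)| ∧ θ * H < |(u pβ : ℝ)| ∧
      ∃ y : ℤ, 2 * H * (ρ + 2) < |(y : ℝ)| ∧ |(x : ℝ)| ≤ ρ * |(y : ℝ)| ∧
        |(u pα : ℝ) * x + (u pβ : ℝ) * y| ≤ M * ρ * H ∧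
        G u x y = 0 := ⟨_, fun _ => rfl⟩
  obtain ⟨N1, hN1⟩ : ∃ N1 : ℕ, N1 = ⌊C1 * (H : ℝ) ^ 2⌋₊ := ⟨_, rfl⟩
  obtain ⟨N2, hN2⟩ : ∃ N2 : ℕ, N2 = ⌊C2 * (H : ℝ) ^ 3⌋₊ := ⟨_, rfl⟩
  have hN1le : (N1 : ℝ) ≤ C1 * (H : ℝ) ^ 2 := by rw [hN1]; exact Nat.floor_le (by positivity)
  have hN2le : (N2 : ℝ) ≤ C2 * (H : ℝ) ^ 3 := by rw [hN2]; exact Nat.floor_le (by positivity)
  have hmemI : ∀ (x : ℤ) (B : ℝ) (N : ℕ), N = ⌊B⌋₊ → |(x : ℝ)| ≤ B →
      x ∈ Icc (-(N : ℤ)) N := by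
    intro x B N hN hx
    have h3 : (x.natAbs : ℝ) ≤ B := by
      rw [Nat.cast_natAbs]
      push_cast
      exact hx
    have h4 : x.natAbs ≤ N := by rw [hN]; exact Nat.le_floor h3
    exact mem_Icc.2 ⟨by omega, by omega⟩
  have hsub : crn a b H ⊆ (((A1 ∪ A2) ∪ ((Icc (-(N1 : ℤ)) N1).biUnion V2)) ∪
      (((Icc (-(N2 : ℤ)) N2).biUnion V3) ∪ A5) : Finset (Ix a b → ℤ)) := by
    rintro w ⟨hw, x, y, hx, hy, h0⟩
    have hwb : w ∈ box (Ix a b) H := mem_box.2 hw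
    rw [← hM] at hx hy
    obtain ⟨hc, h1⟩ := struct w H hw M hM θ hθ hθ1 hH x y hx hy h0
    rw [← hpc] at hc
    rw [← hpα, ← hpβ, ← hp1, ← hρ] at h1
    rw [mem_coe, mem_union, mem_union, mem_union, mem_union]
    rcases le_or_gt |(w pα : ℝ)| (θ * H) with h2 | h2
    · left; left; left
      rw [hA1, mem_filter]
      exact ⟨hwb, hc, h2⟩
    rcases le_or_gt |(w pβ : ℝ)| (θ * H) with h3 | h3
    · left; left; right
      rw [hA2, mem_filter]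
      exact ⟨hwb, hc, h3⟩
    rcases h1 with h1 | h1 | ⟨h4, h5, h6, h7⟩
    · exact absurd h1 (not_le.2 h2)
    · exact absurd h1 (not_le.2 h3)
    rcases le_or_gt |(x : ℝ)| (C1 * (H : ℝ) ^ 2) with h8 | h8
    · left; right
      rw [mem_biUnion]
      refine ⟨x, hmemI x _ N1 hN1 h8, ?_⟩
      rw [hV2, mem_filter]
      refine ⟨hwb, hc, h3, y, ?_, h6, h0⟩
      have h9 : 2 * (H : ℝ) < |(y : ℝ)| := lt_of_le_of_lt (by gcongr) hy
      exact_mod_cast h9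
    rcases le_or_gt |(x : ℝ)| (C2 * (H : ℝ) ^ 3) with h9 | h9
    · right; left
      rw [mem_biUnion]
      refine ⟨x, hmemI x _ N2 hN2 h9, ?_⟩
      rw [hV3, mem_filter]
      refine ⟨hwb, ?_, hc, h2, h3, y, ?_, h4, h6, h0⟩
      · refine lt_of_le_of_lt ?_ h8
        rw [hC1]
        have : ρ ≤ ρ ^ 2 := by nlinarith
        have h10 : 4 * M * ρ ≤ 6 * M * ρ ^ 2 := by nlinarith
        gcongr
      · have h10 : C1 * (H : ℝ) ^ 2 < ρ * |(y : ℝ)| := lt_of_lt_of_le h8 h4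
        have h11 : ρ * (2 * H * (ρ + 2)) ≤ C1 * (H : ℝ) ^ 2 := by
          rw [hC1]
          have e1 : 2 * (ρ + 2) ≤ 6 * M * ρ := by nlinarith
          have e2 : (H : ℝ) ≤ (H : ℝ) ^ 2 := by nlinarith
          calc ρ * (2 * H * (ρ + 2)) = ρ * (2 * (ρ + 2)) * H := by ring
            _ ≤ ρ * (6 * M * ρ) * (H : ℝ) ^ 2 := by gcongr
            _ = _ := by ring
        exact lt_of_mul_lt_mul_left (lt_of_le_of_lt h11 h10) hρ0.le
    · right; right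
      rw [hA5, mem_filter]
      refine ⟨hwb, hc, ?_, h7 (by rw [hC2] at h9; exact h9)⟩
      intro h10
      rw [h10, Int.cast_zero, abs_zero] at h3
      have : 0 < θ * H := by positivity
      linarith
  have h1 := Set.ncard_le_ncard hsub (Finset.finite_toSet _)
  rw [Set.ncard_coe_finset] at h1
  have h2 := h1.trans ((card_union_le _ _).trans (add_le_add
    ((card_union_le _ _).trans (add_le_add (card_union_le _ _) card_biUnion_le))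
    ((card_union_le _ _).trans (add_le_add card_biUnion_le le_rfl))))
  have h3 : (Set.ncard (crn a b H) : ℝ) ≤ (((A1.card : ℝ) + A2.card) +
      ∑ x ∈ Icc (-(N1 : ℤ)) N1, ((V2 x).card : ℝ)) +
      (∑ x ∈ Icc (-(N2 : ℤ)) N2, ((V3 x).card : ℝ) + A5.card) := by exact_mod_cast h2
  -- the single bounds
  have b1 : (A1.card : ℝ) ≤ (2 * (θ * H) + 1) * L ^ (m + 3) := by
    have h4 := card_small H pc pα n3 (θ * H) (by positivity)
    rw [hm, show m + 5 - 2 = m + 3 by omega, ← hL, ← hA1] at h4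
    exact h4
  have b2 : (A2.card : ℝ) ≤ (2 * (θ * H) + 1) * L ^ (m + 3) := by
    have h4 := card_small H pc pβ n1 (θ * H) (by positivity)
    rw [hm, show m + 5 - 2 = m + 3 by omega, ← hL, ← hA2] at h4
    exact h4
  have hQe : 2 * (M * ρ * H) / (θ * H) + 1 = Q := by
    rw [hQ]
    field_simp
  have b3 : ∀ x, ((V2 x).card : ℝ) ≤ Q * L ^ (m + 1) := by
    intro x
    have h4 := line2 (a := a) (b := b) H θ (M * ρ * H) hθ hHR (by positivity) x (V2 x)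
      (fun u hu => by
        rw [hV2, mem_filter] at hu
        rw [← hpc, ← hpα, ← hpβ]
        exact ⟨mem_box.1 hu.1, hu.2⟩)
    rw [hQe, hm, ← hL] at h4
    have h5 : ((V2 x).card : ℝ) * L ^ 4 ≤ Q * L ^ (m + 1) * L ^ 4 := by
      calc _ ≤ _ := h4
        _ = _ := by ring
    exact le_of_mul_le_mul_right h5 (by positivity)
  have b4 : ∀ x, ((V3 x).card : ℝ) ≤ Q * (2 / θ + 1) * (1 + Real.log H) * L ^ m := by
    intro x
    by_cases hx : 4 * M * ρ * (H : ℝ) ^ 2 < |(x : ℝ)|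
    · have h4 := line3 (a := a) (b := b) H θ M ρ hθ hHR hM1 hρ1 x hx (V3 x)
        (fun u hu => by
          rw [hV3, mem_filter] at hu
          rw [← hpc, ← hpα, ← hpβ]
          exact ⟨mem_box.1 hu.1, hu.2.2⟩)
      rw [hQe, hm, ← hL, show m + 5 - 2 = m + 3 by omega] at h4
      have h6 := sum_phi H hH1 Q θ hQ0 hθ
      rw [← hL] at h6
      have h5 : ((V3 x).card : ℝ) * L ^ 5 ≤
          Q * (2 / θ + 1) * (1 + Real.log H) * L ^ m * L ^ 5 := by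
        calc _ ≤ _ := h4
          _ ≤ L ^ (m + 3) * (Q * (2 / θ + 1) * (L ^ 2 * (1 + Real.log H))) := by gcongr
          _ = _ := by ring
      exact le_of_mul_le_mul_right h5 (by positivity)
    · have h4 : V3 x = ∅ := by
        rw [hV3]
        refine filter_eq_empty_iff.2 fun u _ h5 => hx h5.1
      rw [h4, card_empty, Nat.cast_zero]
      positivity
  have b5 : (A5.card : ℝ) ≤ L ^ (m + 3) +
      16 * ((H : ℝ) ^ 2 * Real.sqrt H * (1 + Real.log H) ^ 2) * L ^ (m + 1) := by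
    have h4 := last4 (a := a) (b := b) H
    rw [← hpc, ← hpα, ← hpβ, ← hp1, ← hA5, hm, show m + 5 - 2 = m + 3 by omega,
      show m + 5 - 4 = m + 1 by omega, ← hL] at h4
    exact h4
  have s3 : ∑ x ∈ Icc (-(N1 : ℤ)) N1, ((V2 x).card : ℝ) ≤
      (2 * C1 + 1) * Q * L ^ (m + 3) := by
    calc _ ≤ ∑ _x ∈ Icc (-(N1 : ℤ)) N1, Q * L ^ (m + 1) := Finset.sum_le_sum fun x _ => b3 x
      _ = (2 * N1 + 1) * (Q * L ^ (m + 1)) := by
          rw [Finset.sum_const, nsmul_eq_mul, card_I]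
          push_cast
          ring
      _ ≤ ((2 * C1 + 1) * L ^ 2) * (Q * L ^ (m + 1)) := by
          have h4 : 2 * (N1 : ℝ) + 1 ≤ (2 * C1 + 1) * L ^ 2 := by
            have h5 : (H : ℝ) ^ 2 ≤ L ^ 2 := by gcongr
            have h6 : 1 ≤ L ^ 2 := one_le_pow₀ hL1
            have h7 : C1 * (H : ℝ) ^ 2 ≤ C1 * L ^ 2 := by gcongr
            nlinarith
          gcongr
      _ = _ := by ring
  have s4 : ∑ x ∈ Icc (-(N2 : ℤ)) N2, ((V3 x).card : ℝ) ≤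
      (2 * C2 + 1) * (Q * (2 / θ + 1)) * (1 + Real.log H) * L ^ (m + 3) := by
    calc _ ≤ ∑ _x ∈ Icc (-(N2 : ℤ)) N2, Q * (2 / θ + 1) * (1 + Real.log H) * L ^ m :=
          Finset.sum_le_sum fun x _ => b4 x
      _ = (2 * N2 + 1) * (Q * (2 / θ + 1) * (1 + Real.log H) * L ^ m) := by
          rw [Finset.sum_const, nsmul_eq_mul, card_I]
          push_cast
          ring
      _ ≤ ((2 * C2 + 1) * L ^ 3) * (Q * (2 / θ + 1) * (1 + Real.log H) * L ^ m) := by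
          have h4 : 2 * (N2 : ℝ) + 1 ≤ (2 * C2 + 1) * L ^ 3 := by
            have h5 : (H : ℝ) ^ 3 ≤ L ^ 3 := by gcongr
            have h6 : 1 ≤ L ^ 3 := one_le_pow₀ hL1
            have h7 : C2 * (H : ℝ) ^ 3 ≤ C2 * L ^ 3 := by gcongr
            nlinarith
          gcongr
      _ = _ := by ring
  obtain ⟨F, hF⟩ : ∃ F : ℝ, F = Real.sqrt H * (1 + Real.log H) ^ 2 := ⟨_, rfl⟩
  have hsq1 : 1 ≤ Real.sqrt H := Real.one_le_sqrt.2 hHR1
  have hl1 : 1 ≤ (1 + Real.log H) ^ 2 := one_le_pow₀ (by linarith)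
  have hl2 : 1 + Real.log H ≤ (1 + Real.log H) ^ 2 := by nlinarith
  have hF1 : 1 ≤ F := by rw [hF]; nlinarith
  have hF2 : 1 + Real.log H ≤ F := by rw [hF]; nlinarith
  have s1 : (2 * (θ * H) + 1) * L ^ (m + 3) ≤ θ * L ^ (m + 4) + L ^ (m + 3) := by
    have h4 : 2 * (θ * H) ≤ θ * L := by rw [hL]; nlinarith
    calc (2 * (θ * H) + 1) * L ^ (m + 3) ≤ (θ * L + 1) * L ^ (m + 3) := by gcongr
      _ = _ := by ring
  have s5 : 16 * ((H : ℝ) ^ 2 * Real.sqrt H * (1 + Real.log H) ^ 2) * L ^ (m + 1) ≤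
      16 * F * L ^ (m + 3) := by
    calc 16 * ((H : ℝ) ^ 2 * Real.sqrt H * (1 + Real.log H) ^ 2) * L ^ (m + 1) =
        16 * ((H : ℝ) ^ 2 * F) * L ^ (m + 1) := by rw [hF]; ring
      _ ≤ 16 * (L ^ 2 * F) * L ^ (m + 1) := by gcongr
      _ = _ := by ring
  have hFs : F * L ^ (m + 3) ≤ 64 / Real.sqrt (Real.sqrt H) * L ^ (m + 4) := by
    have h4 := log_small H hH1
    rw [← hF] at h4
    have hss : 0 < Real.sqrt (Real.sqrt H) := Real.sqrt_pos.2 (by linarith)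
    calc F * L ^ (m + 3) ≤ (64 * H / Real.sqrt (Real.sqrt H)) * L ^ (m + 3) := by gcongr
      _ ≤ (64 * L / Real.sqrt (Real.sqrt H)) * L ^ (m + 3) := by gcongr
      _ = _ := by ring
  rw [← hM, ← hL, hm, show m + 5 - 1 = m + 4 by omega]
  have hP : 0 ≤ L ^ (m + 3) := by positivity
  have t3 : (2 * C1 + 1) * Q * L ^ (m + 3) ≤ (2 * C1 + 1) * Q * (F * L ^ (m + 3)) := by
    have : L ^ (m + 3) ≤ F * L ^ (m + 3) := by nlinarith
    gcongr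
  have t4 : (2 * C2 + 1) * (Q * (2 / θ + 1)) * (1 + Real.log H) * L ^ (m + 3) ≤
      (2 * C2 + 1) * (Q * (2 / θ + 1)) * (F * L ^ (m + 3)) := by
    calc _ = (2 * C2 + 1) * (Q * (2 / θ + 1)) * ((1 + Real.log H) * L ^ (m + 3)) := by ring
      _ ≤ _ := by gcongr
  have t1 : L ^ (m + 3) ≤ F * L ^ (m + 3) := by nlinarith
  obtain ⟨Z, hZ⟩ : ∃ Z : ℝ, Z = F * L ^ (m + 3) := ⟨_, rfl⟩
  rw [← hZ] at t1 t3 t4 hFs
  have s5' : 16 * ((H : ℝ) ^ 2 * Real.sqrt H * (1 + Real.log H) ^ 2) * L ^ (m + 1) ≤ 16 * Z := by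
    rw [hZ]
    linarith
  have hall : (Set.ncard (crn a b H) : ℝ) ≤ 2 * θ * L ^ (m + 4) +
      (2 + (2 * C1 + 1) * Q + (2 * C2 + 1) * (Q * (2 / θ + 1)) + 1 + 16) * Z := by
    linarith
  refine hall.trans ?_
  have hK0 : 0 ≤ 2 + (2 * C1 + 1) * Q + (2 * C2 + 1) * (Q * (2 / θ + 1)) + 1 + 16 := by positivity
  have hss0 : 0 ≤ 64 / Real.sqrt (Real.sqrt H) * L ^ (m + 4) := by positivity
  calc 2 * θ * L ^ (m + 4) +
      (2 + (2 * C1 + 1) * Q + (2 * C2 + 1) * (Q * (2 / θ + 1)) + 1 + 16) * Z ≤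
      2 * θ * L ^ (m + 4) +
      (2 + (2 * C1 + 1) * Q + (2 * C2 + 1) * (Q * (2 / θ + 1)) + 1 + 16) *
        (64 / Real.sqrt (Real.sqrt H) * L ^ (m + 4)) := by gcongr
    _ ≤ 2 * θ * L ^ (m + 4) + (640 * M ^ 2 * (1 / θ) ^ 5) *
        (64 / Real.sqrt (Real.sqrt H) * L ^ (m + 4)) := by
        gcongr
    _ = _ := by ring

/-- the tail -/
theorem crn_tail (a b : ℕ) : ∃ K : ℝ, 1 ≤ K ∧ ∀ (τ : ℝ) (H : ℕ), 0 < τ → τ ≤ 1 →
    K * (1 / τ) ^ 24 ≤ H → (Set.ncard (crn a b H) : ℝ) ≤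
      τ * (2 * (H : ℝ) + 1) ^ (Fintype.card (Ix a b) - 1) := by
  obtain ⟨M, hM⟩ : ∃ M : ℝ, M = (Fintype.card (Ix a b) : ℝ) := ⟨_, rfl⟩
  have hM0 : 0 ≤ M := by rw [hM]; positivity
  obtain ⟨B, hB⟩ : ∃ B : ℝ, B = 2 * (64 * (640 * M ^ 2 * 4 ^ 5)) + 16 := ⟨_, rfl⟩
  have hB16 : 16 ≤ B := by
    rw [hB]
    have : 0 ≤ 2 * (64 * (640 * M ^ 2 * 4 ^ 5)) := by positivity
    linarith
  refine ⟨B ^ 4, one_le_pow₀ (by linarith), fun τ H hτ hτ1 hH => ?_⟩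
  obtain ⟨t, ht⟩ : ∃ t : ℝ, t = 1 / τ := ⟨_, rfl⟩
  have ht1 : 1 ≤ t := by
    rw [ht, le_div_iff₀ hτ]
    linarith
  have ht0 : 0 < t := by linarith
  rw [← ht] at hH
  have hτt : τ = 1 / t := by
    rw [ht]
    field_simp
  have hθ0 : 0 < τ / 4 := by positivity
  have h1 : 4 / (τ / 4) ≤ (H : ℝ) := by
    have e1 : 4 / (τ / 4) = 16 * t := by
      rw [hτt]
      field_simp
      norm_num
    rw [e1]
    have e2 : t ≤ t ^ 24 := le_self_pow₀ ht1 (by norm_num)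
    have e3 : B ≤ B ^ 4 := le_self_pow₀ (by linarith) (by norm_num)
    calc 16 * t ≤ B ^ 4 * t ^ 24 := mul_le_mul (by linarith) e2 ht0.le (by positivity)
      _ ≤ H := hH
  refine (crn_unif a b (τ / 4) hθ0 (by linarith) H h1).trans ?_
  rw [← hM]
  apply mul_le_mul_of_nonneg_right _ (by positivity)
  have e4 : (B * t ^ 6) ^ 4 ≤ (H : ℝ) := by
    have e5 : (B * t ^ 6) ^ 4 = B ^ 4 * t ^ 24 := by ring
    rw [e5]
    exact hH
  have e5 : B * t ^ 6 ≤ Real.sqrt (Real.sqrt H) := by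
    apply Real.le_sqrt_of_sq_le
    apply Real.le_sqrt_of_sq_le
    rw [← pow_mul]
    exact e4
  have hs0 : 0 < Real.sqrt (Real.sqrt H) := lt_of_lt_of_le (by positivity) e5
  have e6 : 64 * (640 * M ^ 2 * (1 / (τ / 4)) ^ 5) / Real.sqrt (Real.sqrt H) ≤ τ / 2 := by
    rw [div_le_iff₀ hs0]
    have e7 : 64 * (640 * M ^ 2 * (1 / (τ / 4)) ^ 5) = 64 * (640 * M ^ 2 * 4 ^ 5) * t ^ 5 := by
      rw [hτt]
      field_simp
    rw [e7]
    have e8 : 64 * (640 * M ^ 2 * 4 ^ 5) ≤ B / 2 := by rw [hB]; linarith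
    calc 64 * (640 * M ^ 2 * 4 ^ 5) * t ^ 5 ≤ B / 2 * t ^ 5 := by gcongr
      _ = τ / 2 * (B * t ^ 6) := by
          rw [hτt]
          field_simp
      _ ≤ τ / 2 * Real.sqrt (Real.sqrt H) := by gcongr
  linarith

end Pool.Agent.U46
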