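import Pool.Agent.U46.Dav

set_option autoImplicit false
set_option linter.unusedSectionVars false
set_option maxHeartbeats 4000000

/-! Davenport's lemma on the integer points of a convex region in a box. -/

open MeasureTheory Set

namespace Pool.Agent.U46

variable {ι : Type} [Fintype ι]

/-- splitting off one coordinate -/
lemma vol_glue2 {K : Set (Option ι → ℝ)} (hK : MeasurableSet K) {h h' : ℝ} (hh : 0 ≤ h)
    (hb0 : ∀ u ∈ K, |u none| ≤ h) (hb : ∀ u ∈ K, ∀ m, |u m| ≤ h') :
    volume.real K = ∫ t in (-h)..h, volume.real {x : ι → ℝ | glue x t ∈ K} := by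
  have h1 := Measure.pi_map_piOptionEquivProd (ι := ι) (β := fun _ => ℝ) (fun _ => volume)
  have hgm : Measurable fun p : (ι → ℝ) × ℝ => glue p.1 p.2 := glue_cont.measurable
  have hfin : ∀ t, volume {x : ι → ℝ | glue x t ∈ K} < ⊤ := by
    intro t
    refine (measure_mono ?_).trans_lt (cube_fin (ι := ι) h')
    intro x hx m _
    exact abs_le.1 (hb _ hx (some m))
  have h2 : volume K = ∫⁻ t in Icc (-h) h, volume {x : ι → ℝ | glue x t ∈ K} := by
    have h3 : (volume : Measure (Option ι → ℝ)) = ((Measure.pi fun _ : ι => (volume : Measure ℝ)).prod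
        (volume : Measure ℝ)).map (MeasurableEquiv.piOptionEquivProd fun _ => ℝ).symm := h1.symm
    rw [h3, MeasurableEquiv.map_apply, Measure.prod_apply_symm
      ((MeasurableEquiv.measurable _) hK), ← lintegral_indicator measurableSet_Icc]
    refine lintegral_congr fun t => ?_
    have h4 : (fun x : ι → ℝ => (x, t)) ⁻¹'
        ((MeasurableEquiv.piOptionEquivProd fun _ : Option ι => ℝ).symm ⁻¹' K) =
        {x : ι → ℝ | glue x t ∈ K} := by
      ext x
      have e1 : (MeasurableEquiv.piOptionEquivProd fun _ : Option ι => ℝ).symm (x, t) = glue x t := by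
        funext o
        cases o <;> rfl
      simp only [mem_preimage, mem_ofPred_eq, e1]
    rw [h4]
    by_cases ht : t ∈ Icc (-h) h
    · rw [indicator_of_mem ht]
      rfl
    · rw [indicator_of_notMem ht]
      have : {x : ι → ℝ | glue x t ∈ K} = ∅ := by
        rw [eq_empty_iff_forall_notMem]
        intro x hx
        exact ht (abs_le.1 (hb0 _ hx))
      rw [this, measure_empty]
  have hm : AEMeasurable (fun t => volume {x : ι → ℝ | glue x t ∈ K})
      (volume.restrict (Icc (-h) h)) := by
    apply Measurable.aemeasurable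
    have h5 : MeasurableSet {p : ℝ × (ι → ℝ) | glue p.2 p.1 ∈ K} :=
      (hgm.comp measurable_swap) hK
    exact measurable_measure_prodMk_left h5
  rw [measureReal_def, h2, intervalIntegral.integral_of_le (by linarith),
    ← integral_Icc_eq_integral_Ioc]
  rw [← integral_toReal hm (Filter.Eventually.of_forall fun t => hfin t)]
  rfl

/-- the error term -/
noncomputable def err {ι : Type} [Fintype ι] [DecidableEq ι] (f : ι → ℝ) : ℝ :=
  ∑ m, ∏ j, (if j = m then 1 else f j)

lemma err_option {ι : Type} [Fintype ι] [DecidableEq ι] (f : Option ι → ℝ) :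
    err f = ∏ i, f (some i) + f none * err fun i => f (some i) := by
  unfold err
  rw [Fintype.sum_option]
  congr 1
  · rw [Fintype.prod_option]
    simp
  · rw [Finset.mul_sum]
    refine Finset.sum_congr rfl fun i _ => ?_
    rw [Fintype.prod_option]
    simp

lemma err_equiv {ι κ : Type} [Fintype ι] [DecidableEq ι] [Fintype κ] [DecidableEq κ] (e : ι ≃ κ)
    (f : κ → ℝ) : err f = err fun i => f (e i) := by
  unfold err
  refine (Fintype.sum_equiv e _ _ fun i => ?_).symm
  refine Fintype.prod_equiv e _ _ fun j => ?_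
  simp

lemma err_nonneg {ι : Type} [Fintype ι] [DecidableEq ι] {f : ι → ℝ} (hf : ∀ m, 0 ≤ f m) :
    0 ≤ err f := by
  unfold err
  refine Finset.sum_nonneg fun m _ => Finset.prod_nonneg fun j _ => ?_
  split_ifs
  · exact zero_le_one
  · exact hf j

lemma err_inst {ι : Type} [Fintype ι] (D₁ D₂ : DecidableEq ι) (f : ι → ℝ) :
    @err ι _ D₁ f = @err ι _ D₂ f := by
  rw [Subsingleton.elim D₁ D₂]

/-- **Davenport's lemma**, regions in boxes. -/
theorem davenport2 [DecidableEq ι] (K : Set (ι → ℝ)) (hc : Convex ℝ K) (hcl : IsClosed K) (R : ι → ℕ)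
    (hb : ∀ u ∈ K, ∀ m, |u m| ≤ R m) :
    |(Set.ncard {b : ι → ℤ | (fun m => (b m : ℝ)) ∈ K} : ℝ) - volume.real K| ≤
      err fun m => 2 * (R m : ℝ) + 1 := by
  classical
  have main := Fintype.induction_empty_option
    (P := fun ι _ => ∀ _ : DecidableEq ι, ∀ (R : ι → ℕ) (K : Set (ι → ℝ)), Convex ℝ K → IsClosed K →
      (∀ u ∈ K, ∀ m, |u m| ≤ R m) →
      |(Set.ncard {b : ι → ℤ | (fun m => (b m : ℝ)) ∈ K} : ℝ) - volume.real K| ≤
      err fun m => 2 * (R m : ℝ) + 1) ?_ ?_ ?_ ι
  · exact main _ R K hc hcl hb
  · intro α β _ e ih _ R K hc hcl hb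
    let : Fintype α := Fintype.ofEquiv β e.symm
    let : DecidableEq α := Classical.decEq α
    obtain ⟨K', hK'⟩ : ∃ K' : Set (α → ℝ), K' = {u | (fun m => u (e.symm m)) ∈ K} := ⟨_, rfl⟩
    have hlin : ∀ u : α → ℝ, u ∈ K' ↔ (fun m => u (e.symm m)) ∈ K := by
      intro u
      rw [hK']
      rfl
    have h1 := ih (Classical.decEq α) (fun m => R (e m)) K'
      (by
        intro u hu v hv a b ha hb hab
        rw [hlin] at hu hv ⊢
        exact hc hu hv ha hb hab)
      (by
        rw [hK']
        exact hcl.preimage (continuous_pi fun m => continuous_apply _))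
      (by
        intro u hu m
        rw [hlin] at hu
        have := hb _ hu (e m)
        simpa using this)
    have h2 : volume.real K' = volume.real K := by
      have h3 := volume_measurePreserving_piCongrLeft (fun _ : β => ℝ) e
      have h4 : K' = (MeasurableEquiv.piCongrLeft (fun _ : β => ℝ) e) ⁻¹' K := by
        ext u
        rw [hlin, mem_preimage]
        have h5 : (MeasurableEquiv.piCongrLeft (fun _ : β => ℝ) e) u = fun m => u (e.symm m) := by
          funext m
          have h6 : (MeasurableEquiv.piCongrLeft (fun _ : β => ℝ) e) u (e (e.symm m)) = u (e.symm m) :=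
            Equiv.piCongrLeft_apply_apply (fun _ : β => ℝ) e u (e.symm m)
          rwa [Equiv.apply_symm_apply] at h6
        rw [h5]
      rw [h4, measureReal_def, measureReal_def, h3.measure_preimage hcl.measurableSet.nullMeasurableSet]
    have h3 : Set.ncard {b : α → ℤ | (fun m => (b m : ℝ)) ∈ K'} =
        Set.ncard {b : β → ℤ | (fun m => (b m : ℝ)) ∈ K} := by
      refine Set.ncard_congr (fun b _ => fun m => b (e.symm m)) ?_ ?_ ?_
      · intro b hb
        exact (hlin _).1 hb
      · intro b b' _ _ h
        funext m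
        have := congrFun h (e m)
        simpa using this
      · intro b hb
        refine ⟨fun m => b (e m), ?_, ?_⟩
        · refine (hlin _).2 ?_
          simpa using hb
        · funext m
          simp
    rw [← h2, ← h3, err_equiv e]
    exact h1.trans (le_of_eq (err_inst _ _ _))
  · intro _ R K hc hcl hb
    have hu := vol_cube (ι := PEmpty) 0 le_rfl
    have hu2 : (Set.pi univ fun _ : PEmpty => Icc (-(0 : ℝ)) 0) = univ := by
      ext u
      simp
    rw [hu2, Fintype.card_eq_zero, pow_zero] at hu
    by_cases h0 : (fun m : PEmpty => m.elim) ∈ K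
    · have h1 : K = univ := by
        rw [eq_univ_iff_forall]
        intro u
        have : u = fun m : PEmpty => m.elim := funext fun m => m.elim
        rw [this]
        exact h0
      rw [h1, hu]
      simp [err]
    · have h1 : K = ∅ := by
        rw [eq_empty_iff_forall_notMem]
        intro u hu'
        apply h0
        have : u = fun m : PEmpty => m.elim := funext fun m => m.elim
        rw [← this]
        exact hu'
      rw [h1]
      simp [err]
  · intro α _ ih _ R K hc hcl hb
    let : DecidableEq α := Classical.decEq α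
    obtain ⟨H, hH⟩ : ∃ H : ℕ, H = R none := ⟨_, rfl⟩
    obtain ⟨W, hW⟩ : ∃ W : ℕ, ∀ m, R m ≤ W := by
      refine ⟨∑ m, R m, fun m => ?_⟩
      exact Finset.single_le_sum (f := R) (fun _ _ => Nat.zero_le _) (Finset.mem_univ m)
    have hbW : ∀ u ∈ K, ∀ m, |u m| ≤ (W : ℝ) := fun u hu m => (hb u hu m).trans (by exact_mod_cast hW m)
    have hbn : ∀ u ∈ K, |u none| ≤ (H : ℝ) := fun u hu => by rw [hH]; exact hb u hu none
    have hW0 : (0 : ℝ) ≤ W := Nat.cast_nonneg W
    have herr := err_option (fun m : Option α => 2 * (R m : ℝ) + 1)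
    rw [← hH] at herr
    obtain ⟨E, hE⟩ : ∃ E : ℝ, E = err fun i : α => 2 * (R (some i) : ℝ) + 1 := ⟨_, rfl⟩
    rw [← hE] at herr
    have hE0 : 0 ≤ E := by
      rw [hE]
      exact err_nonneg fun m => by positivity
    have hgoal : (err fun m : Option α => 2 * (R m : ℝ) + 1) =
        ∏ i : α, (2 * (R (some i) : ℝ) + 1) + (2 * (H : ℝ) + 1) * E := by
      exact (err_inst _ _ _).trans herr
    rw [hgoal]
    have hH0 : (0 : ℝ) ≤ H := Nat.cast_nonneg H
    -- slices
    have hslice : ∀ t : ℝ, |(Set.ncard {b : α → ℤ | (fun m => (b m : ℝ)) ∈ {x : α → ℝ | glue x t ∈ K}} : ℝ) -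
        volume.real {x : α → ℝ | glue x t ∈ K}| ≤ E := by
      intro t
      rw [hE]
      apply ih (Classical.decEq α) (fun i => R (some i))
      · intro x hx y hy a b ha hb' hab
        have h1 := hc hx hy ha hb' hab
        have h2 : a • glue x t + b • glue y t = glue (a • x + b • y) t := by
          funext o
          cases o
          · simp only [glue, Pi.add_apply, Pi.smul_apply, smul_eq_mul]
            rw [← add_mul, hab, one_mul]
          · rfl
        rw [h2] at h1
        exact h1
      · exact hcl.preimage (glue_cont.comp (by fun_prop : Continuous fun x : α → ℝ => (x, t)))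
      · intro x hx m
        exact hb _ hx (some m)
    -- fibres
    have hfibre : ∀ x : α → ℝ, |(Set.ncard {a : ℤ | (a : ℝ) ∈ {t : ℝ | glue x t ∈ K}} : ℝ) -
        volume.real {t : ℝ | glue x t ∈ K}| ≤ 1 := by
      intro x
      apply interval_count (H := H)
      · intro s hs t ht a b ha hb' hab
        have h1 := hc hs ht ha hb' hab
        have h2 : a • glue x s + b • glue x t = glue x (a • s + b • t) := by
          funext o
          cases o
          · rfl
          · simp only [glue, Pi.add_apply, Pi.smul_apply, smul_eq_mul]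
            rw [← add_mul, hab, one_mul]
        rw [h2] at h1
        exact h1
      · exact hcl.preimage (glue_cont.comp (by fun_prop : Continuous fun t : ℝ => (x, t)))
      · intro t ht
        exact hbn _ ht
    obtain ⟨B, hB⟩ : ∃ B : Finset (α → ℤ), B = Fintype.piFinset fun m =>
      Finset.Icc (-(R (some m) : ℤ)) (R (some m)) := ⟨_, rfl⟩
    have hBc : (B.card : ℝ) = ∏ i : α, (2 * (R (some i) : ℝ) + 1) := by
      rw [hB, Fintype.card_piFinset, Nat.cast_prod]
      refine Finset.prod_congr rfl fun m _ => ?_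
      rw [Int.card_Icc]
      have : ((R (some m) : ℤ) + 1 - -(R (some m) : ℤ)).toNat = 2 * R (some m) + 1 := by omega
      rw [this]
      push_cast
      ring
    have hmemB : ∀ (b : α → ℤ) (t : ℝ), glue (fun m => (b m : ℝ)) t ∈ K → b ∈ B := by
      intro b t hbt
      rw [hB, Fintype.mem_piFinset]
      intro m
      rw [Finset.mem_Icc, ← abs_le]
      have := hb _ hbt (some m)
      simp only [glue] at this
      exact_mod_cast this
    -- counting by fibres
    have hcount : (Set.ncard {b : Option α → ℤ | (fun m => (b m : ℝ)) ∈ K} : ℝ) =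
        ∑ b ∈ B, (Set.ncard {a : ℤ | (a : ℝ) ∈ {t : ℝ | glue (fun m => (b m : ℝ)) t ∈ K}} : ℝ) := by
      have h1 : {b : Option α → ℤ | (fun m => (b m : ℝ)) ∈ K} =
          ⋃ b ∈ (B : Set (α → ℤ)), (fun a : ℤ => glue b a) ''
            {a : ℤ | (a : ℝ) ∈ {t : ℝ | glue (fun m => (b m : ℝ)) t ∈ K}} := by
        ext c
        simp only [mem_iUnion, mem_image, exists_prop, mem_ofPred_eq]
        constructor
        · intro hc'
          have e : (fun m => (c m : ℝ)) = glue (fun i => ((c (some i) : ℤ) : ℝ)) ((c none : ℤ) : ℝ) := by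
            funext o
            cases o <;> rfl
          rw [e] at hc'
          exact ⟨fun i => c (some i), hmemB _ _ hc', c none, hc', glue_eq c⟩
        · rintro ⟨b, _, a, ha, rfl⟩
          have e : (fun m => ((glue b a m : ℤ) : ℝ)) = glue (fun i => ((b i : ℤ) : ℝ)) (a : ℝ) := by
            funext o
            cases o <;> rfl
          rw [e]
          exact ha
      have hfin : ∀ b : α → ℤ, {a : ℤ | (a : ℝ) ∈ {t : ℝ | glue (fun m => (b m : ℝ)) t ∈ K}}.Finite := by
        intro b
        apply (Set.finite_Icc (-(H : ℤ)) H).subset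
        intro a ha
        rw [mem_Icc, ← abs_le]
        have := hbn _ ha
        simp only [glue] at this
        exact_mod_cast this
      have h2 := (Finset.finite_toSet B).ncard_biUnion
        (s := fun b => (fun a : ℤ => glue b a) ''
            {a : ℤ | (a : ℝ) ∈ {t : ℝ | glue (fun m => (b m : ℝ)) t ∈ K}})
        (fun b _ => (hfin b).image _) (by
          intro b _ b' _ hbb
          rw [Function.onFun, Set.disjoint_left]
          rintro c ⟨a, _, rfl⟩ ⟨a', _, hy⟩
          exact hbb (funext fun m => (congrFun hy (some m)).symm))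
      rw [finsum_mem_coe_finset] at h2
      rw [h1, h2]
      push_cast
      refine Finset.sum_congr rfl fun b _ => ?_
      rw [Set.ncard_image_of_injective]
      intro a a' haa
      exact congrFun haa none
    have hstep1 : |(Set.ncard {b : Option α → ℤ | (fun m => (b m : ℝ)) ∈ K} : ℝ) -
        ∑ b ∈ B, volume.real {t : ℝ | glue (fun m => (b m : ℝ)) t ∈ K}| ≤ ∏ i : α, (2 * (R (some i) : ℝ) + 1) := by
      rw [hcount, ← Finset.sum_sub_distrib, ← hBc]
      refine (Finset.abs_sum_le_sum_abs _ _).trans ?_
      calc _ ≤ ∑ _b ∈ B, (1 : ℝ) := Finset.sum_le_sum fun b _ => hfibre _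
        _ = _ := by simp
    -- the integrals
    have hmeas : ∀ b : α → ℤ, MeasurableSet {t : ℝ | glue (fun m => (b m : ℝ)) t ∈ K} := fun b =>
      (hcl.preimage (glue_cont.comp (by fun_prop : Continuous fun t : ℝ =>
        ((fun m => (b m : ℝ)), t)))).measurableSet
    have hint1 : ∀ b : α → ℤ, volume.real {t : ℝ | glue (fun m => (b m : ℝ)) t ∈ K} =
        ∫ t in (-(H : ℝ))..H, {t : ℝ | glue (fun m => (b m : ℝ)) t ∈ K}.indicator (fun _ => (1 : ℝ)) t := by
      intro b
      rw [intervalIntegral.integral_of_le (by linarith), ← integral_Icc_eq_integral_Ioc,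
        setIntegral_indicator (hmeas b), setIntegral_const, smul_eq_mul, mul_one]
      congr 1
      ext t
      constructor
      · intro ht
        exact ⟨abs_le.1 (hbn _ ht), ht⟩
      · exact fun ht => ht.2
    have hii : ∀ b : α → ℤ, IntervalIntegrable
        (fun t => {t : ℝ | glue (fun m => (b m : ℝ)) t ∈ K}.indicator (fun _ => (1 : ℝ)) t)
        volume (-(H : ℝ)) H := by
      intro b
      rw [intervalIntegrable_iff]
      exact (integrableOn_const (measure_ne_top_of_subset Set.uIoc_subset_uIcc
        (by rw [Set.uIcc_of_le (by linarith)]; exact measure_Icc_lt_top.ne))).indicator (hmeas b)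
    have hcs : ∀ t : ℝ, (Set.ncard {b : α → ℤ | (fun m => (b m : ℝ)) ∈ {x : α → ℝ | glue x t ∈ K}} : ℝ) =
        ∑ b ∈ B, {t : ℝ | glue (fun m => (b m : ℝ)) t ∈ K}.indicator (fun _ => (1 : ℝ)) t := by
      intro t
      have h1 : {b : α → ℤ | (fun m => (b m : ℝ)) ∈ {x : α → ℝ | glue x t ∈ K}} =
          ((B.filter fun b => glue (fun m => (b m : ℝ)) t ∈ K : Finset (α → ℤ)) : Set (α → ℤ)) := by
        ext b
        simp only [mem_ofPred_eq, Finset.coe_filter]
        exact ⟨fun h => ⟨hmemB b t h, h⟩, fun h => h.2⟩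
      rw [h1, Set.ncard_coe_finset, Finset.card_filter]
      push_cast
      refine Finset.sum_congr rfl fun b _ => ?_
      by_cases h2 : glue (fun m => (b m : ℝ)) t ∈ K
      · rw [if_pos h2, indicator_of_mem (show t ∈ {t : ℝ | glue (fun m => (b m : ℝ)) t ∈ K} from h2)]
      · rw [if_neg h2, indicator_of_notMem
          (show t ∉ {t : ℝ | glue (fun m => (b m : ℝ)) t ∈ K} from h2)]
    have hsum : ∑ b ∈ B, volume.real {t : ℝ | glue (fun m => (b m : ℝ)) t ∈ K} =
        ∫ t in (-(H : ℝ))..H,
          (Set.ncard {b : α → ℤ | (fun m => (b m : ℝ)) ∈ {x : α → ℝ | glue x t ∈ K}} : ℝ) := by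
      simp only [hcs]
      rw [intervalIntegral.integral_finsetSum fun b _ => hii b]
      exact Finset.sum_congr rfl fun b _ => hint1 b
    have hvol := vol_glue2 hcl.measurableSet hH0 hbn hbW
    have hI1 : IntervalIntegrable (fun t => (Set.ncard {b : α → ℤ | (fun m => (b m : ℝ)) ∈
        {x : α → ℝ | glue x t ∈ K}} : ℝ)) volume (-(H : ℝ)) H := by
      simp only [hcs]
      have h1 := IntervalIntegrable.sum B fun b _ => hii b
      have h2 : (∑ b ∈ B, fun t : ℝ => {t : ℝ | glue (fun m => (b m : ℝ)) t ∈ K}.indicator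
          (fun _ => (1 : ℝ)) t) = fun t : ℝ => ∑ b ∈ B,
          {t : ℝ | glue (fun m => (b m : ℝ)) t ∈ K}.indicator (fun _ => (1 : ℝ)) t := by
        funext t
        rw [Finset.sum_apply]
      rw [h2] at h1
      exact h1
    have hI2 : IntervalIntegrable (fun t => volume.real {x : α → ℝ | glue x t ∈ K})
        volume (-(H : ℝ)) H := by
      rw [intervalIntegrable_iff]
      refine Measure.integrableOn_of_bounded (M := (2 * (W : ℝ)) ^ Fintype.card α) ?_ ?_ ?_
      · exact (show volume (Ioc (min (-(H : ℝ)) H) (max (-(H : ℝ)) H)) < ⊤ from measure_Ioc_lt_top).ne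
      · have h5 : MeasurableSet {p : ℝ × (α → ℝ) | glue p.2 p.1 ∈ K} :=
          (glue_cont.measurable.comp measurable_swap) hcl.measurableSet
        have h6 : Measurable fun t : ℝ => volume {x : α → ℝ | glue x t ∈ K} :=
          measurable_measure_prodMk_left h5
        exact h6.ennreal_toReal.aestronglyMeasurable
      · refine Filter.Eventually.of_forall fun t => ?_
        rw [Real.norm_of_nonneg measureReal_nonneg, ← vol_cube (W : ℝ) hW0]
        refine measureReal_mono ?_ (cube_fin (W : ℝ)).ne
        intro x hx m _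
        exact abs_le.1 (hbW _ hx (some m))
    have hstep2 : |∑ b ∈ B, volume.real {t : ℝ | glue (fun m => (b m : ℝ)) t ∈ K} - volume.real K| ≤
        (2 * (H : ℝ) + 1) * E := by
      rw [hsum, hvol, ← intervalIntegral.integral_sub hI1 hI2, ← Real.norm_eq_abs]
      have h1 := intervalIntegral.norm_integral_le_of_norm_le_const (a := -(H : ℝ)) (b := H)
        (C := E)
        (f := fun t => (Set.ncard {b : α → ℤ | (fun m => (b m : ℝ)) ∈ {x : α → ℝ | glue x t ∈ K}} : ℝ) -
          volume.real {x : α → ℝ | glue x t ∈ K})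
        (fun t _ => by rw [Real.norm_eq_abs]; exact hslice t)
      refine h1.trans ?_
      rw [sub_neg_eq_add, abs_of_nonneg (by positivity)]
      nlinarith
    calc _ ≤ _ + _ := abs_sub_le _ (∑ b ∈ B, volume.real {t : ℝ | glue (fun m => (b m : ℝ)) t ∈ K}) _
      _ ≤ ∏ i : α, (2 * (R (some i) : ℝ) + 1) + (2 * (H : ℝ) + 1) * E := add_le_add hstep1 hstep2

end Pool.Agent.U46
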