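import Pool.Agent.U46.Pl

set_option autoImplicit false
set_option linter.unusedSectionVars false

/-! Sums over the lattice points of large dilates of a set. -/

open MeasureTheory Filter Topology Set

namespace Pool.Agent.U46

/-- the integer parts -/
noncomputable def fl (z : ℝ × ℝ) : ℤ × ℤ := (⌊z.1⌋, ⌊z.2⌋)

lemma fl_meas : Measurable fl :=
  (Int.measurable_floor.comp measurable_fst).prodMk (Int.measurable_floor.comp measurable_snd)

lemma fl_map : (volume : Measure (ℝ × ℝ)).map fl = Measure.count := by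
  rw [Measure.ext_iff_singleton]
  rintro ⟨p, q⟩
  rw [Measure.map_apply fl_meas (measurableSet_singleton _), Measure.count_singleton]
  have h1 : fl ⁻¹' {(p, q)} = Ico (p : ℝ) (p + 1) ×ˢ Ico (q : ℝ) (q + 1) := by
    ext z
    simp only [fl, mem_preimage, mem_singleton_iff, Prod.mk.injEq, mem_prod, mem_Ico, Int.floor_eq_iff]
  rw [h1, Measure.volume_eq_prod, Measure.prod_prod, Real.volume_Ico, Real.volume_Ico]
  simp

lemma int_fl (f : ℤ × ℤ → ℝ) : ∫ z : ℝ × ℝ, f (fl z) = ∑' P, f P := by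
  have h1 : ∫ z : ℝ × ℝ, f (fl z) = ∫ P, f P ∂Measure.count := by
    rw [← fl_map, integral_map fl_meas.aemeasurable]
    exact (Measurable.of_discrete).aestronglyMeasurable
  rw [h1]
  by_cases hf : Integrable f Measure.count
  · rw [integral_countable hf]
    simp [measureReal_def]
  · rw [integral_undef hf]
    rw [integrable_count_iff] at hf
    rw [summable_norm_iff] at hf
    rw [tsum_eq_zero_of_not_summable hf]

lemma int_fl_scale (f : ℤ × ℤ → ℝ) {T : ℝ} (hT : 0 < T) :
    T ^ 2 * ∫ z : ℝ × ℝ, f (fl (T • z)) = ∑' P, f P := by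
  have h1 := Measure.integral_comp_smul (volume : Measure (ℝ × ℝ)) (fun z => f (fl z)) T
  rw [h1, int_fl, Module.finrank_prod, Module.finrank_self, smul_eq_mul,
    abs_of_pos (by positivity)]
  field_simp

lemma nm_eq (P : ℤ × ℤ) : nm P = ‖((P.1 : ℝ), (P.2 : ℝ))‖ := rfl

lemma fl_dist (z : ℝ × ℝ) : ‖(((fl z).1 : ℝ), ((fl z).2 : ℝ)) - z‖ ≤ 1 := by
  rw [Prod.norm_def, max_le_iff]
  constructor
  · rw [Real.norm_eq_abs, abs_le]
    have h1 := Int.floor_le z.1
    have h2 := Int.lt_floor_add_one z.1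
    simp only [fl, Prod.fst_sub]
    constructor <;> linarith
  · rw [Real.norm_eq_abs, abs_le]
    have h1 := Int.floor_le z.2
    have h2 := Int.lt_floor_add_one z.2
    simp only [fl, Prod.snd_sub]
    constructor <;> linarith

/-- the scaled integer parts -/
noncomputable def sc (T : ℝ) (z : ℝ × ℝ) : ℝ × ℝ :=
  (((fl (T • z)).1 : ℝ) / T, ((fl (T • z)).2 : ℝ) / T)

lemma sc_dist {T : ℝ} (hT : 0 < T) (z : ℝ × ℝ) : ‖sc T z - z‖ ≤ 1 / T := by
  have h1 := fl_dist (T • z)
  have h2 : (((fl (T • z)).1 : ℝ), ((fl (T • z)).2 : ℝ)) - T • z = T • (sc T z - z) := by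
    unfold sc
    ext
    · simp only [Prod.fst_sub, Prod.smul_fst, smul_eq_mul]
      field_simp
    · simp only [Prod.snd_sub, Prod.smul_snd, smul_eq_mul]
      field_simp
  rw [h2, norm_smul, Real.norm_eq_abs, abs_of_pos hT] at h1
  rw [le_div_iff₀ hT, mul_comm]
  exact h1

lemma sc_tendsto (z : ℝ × ℝ) : Tendsto (fun T => sc T z) atTop (𝓝 z) := by
  rw [tendsto_iff_norm_sub_tendsto_zero]
  have h1 : Tendsto (fun T : ℝ => 1 / T) atTop (𝓝 0) := by
    simp only [one_div]
    exact tendsto_inv_atTop_zero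
  refine squeeze_zero' (Filter.Eventually.of_forall fun _ => norm_nonneg _) ?_ h1
  filter_upwards [eventually_gt_atTop 0] with T hT
  exact sc_dist hT z

lemma nm_sc {T : ℝ} (hT : 0 < T) (z : ℝ × ℝ) : nm (fl (T • z)) = T * ‖sc T z‖ := by
  rw [nm_eq]
  have h2 : (((fl (T • z)).1 : ℝ), ((fl (T • z)).2 : ℝ)) = T • sc T z := by
    unfold sc
    ext
    · simp only [Prod.smul_fst, smul_eq_mul]
      field_simp
    · simp only [Prod.smul_snd, smul_eq_mul]
      field_simp
  rw [h2, norm_smul, Real.norm_eq_abs, abs_of_pos hT]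

/-- **Sums over the lattice points of dilates.** -/
theorem dct (v : ℤ × ℤ → ℝ) (G : ℝ × ℝ → ℝ) {k : ℕ} (hk : 2 < k) {C : ℝ}
    (hv : ∀ P, P ≠ 0 → |v P| ≤ C / nm P ^ k)
    (hG : ∀ z, z ≠ 0 → Tendsto (fun T : ℝ => T ^ k * v (fl (T • z))) atTop (𝓝 (G z)))
    {A : Set (ℝ × ℝ)} (hA : MeasurableSet A) (hfr : volume (frontier A) = 0) {ρ : ℝ} (hρ : 0 < ρ)
    (hA0 : ∀ z ∈ A, ρ ≤ ‖z‖) :
    Tendsto (fun T : ℝ => T ^ (k - 2) *
      ∑' P : ℤ × ℤ, {P : ℤ × ℤ | ((P.1 : ℝ) / T, (P.2 : ℝ) / T) ∈ A}.indicator v P) atTop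
      (𝓝 (∫ z in A, G z)) := by
  classical
  obtain ⟨Ψ, hΨ⟩ : ∃ Ψ : ℝ → ℝ × ℝ → ℝ, Ψ = fun T z => T ^ k *
    {P : ℤ × ℤ | ((P.1 : ℝ) / T, (P.2 : ℝ) / T) ∈ A}.indicator v (fl (T • z)) := ⟨_, rfl⟩
  have hC : 0 ≤ C := by
    have h1 := hv (1, 0) (by simp)
    have h2 : nm (1, 0) = 1 := by simp [nm]
    rw [h2, one_pow, div_one] at h1
    exact (abs_nonneg _).trans h1
  have key : Tendsto (fun T => ∫ z, Ψ T z) atTop (𝓝 (∫ z, A.indicator G z)) := by
    refine tendsto_integral_filter_of_dominated_convergence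
      (fun z => C * (1 / ρ + 2) ^ k * (1 + ‖z‖) ^ (-(k : ℝ))) ?_ ?_ ?_ ?_
    · refine Filter.Eventually.of_forall fun T => ?_
      rw [hΨ]
      apply Measurable.aestronglyMeasurable
      apply Measurable.const_mul
      have h1 : Measurable fun z : ℝ × ℝ => fl (T • z) := fl_meas.comp (measurable_const_smul T)
      exact (Measurable.of_discrete (f := {P : ℤ × ℤ | ((P.1 : ℝ) / T, (P.2 : ℝ) / T) ∈ A}.indicator v)).comp h1
    · filter_upwards [eventually_ge_atTop 1] with T hT
      refine Filter.Eventually.of_forall fun z => ?_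
      have hT0 : 0 < T := by linarith
      have hz0 : 0 < 1 + ‖z‖ := by have := norm_nonneg z; linarith
      have hr : (1 + ‖z‖) ^ (-(k : ℝ)) = 1 / (1 + ‖z‖) ^ k := by
        rw [Real.rpow_neg hz0.le, Real.rpow_natCast, one_div]
      rw [hr, hΨ]
      simp only
      by_cases hP : ((((fl (T • z)).1 : ℝ)) / T, ((fl (T • z)).2 : ℝ) / T) ∈ A
      · rw [indicator_of_mem (show fl (T • z) ∈ {P : ℤ × ℤ | ((P.1 : ℝ) / T, (P.2 : ℝ) / T) ∈ A} from hP)]
        have h1 : ρ ≤ ‖sc T z‖ := hA0 _ hP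
        have h2 := nm_sc hT0 z
        have h3 : 0 < nm (fl (T • z)) := by
          rw [h2]
          have : 0 < ‖sc T z‖ := lt_of_lt_of_le hρ h1
          positivity
        have h4 : fl (T • z) ≠ 0 := by
          intro h
          rw [h] at h3
          simp [nm] at h3
        have h5 := nm_one h4
        have h6 := hv _ h4
        have h7 : T * ‖z‖ ≤ nm (fl (T • z)) + 1 := by
          have h8 := fl_dist (T • z)
          have h9 : ‖T • z‖ ≤ ‖(((fl (T • z)).1 : ℝ), ((fl (T • z)).2 : ℝ))‖ +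
              ‖(((fl (T • z)).1 : ℝ), ((fl (T • z)).2 : ℝ)) - T • z‖ := by
            have := norm_sub_le (((fl (T • z)).1 : ℝ), ((fl (T • z)).2 : ℝ))
              ((((fl (T • z)).1 : ℝ), ((fl (T • z)).2 : ℝ)) - T • z)
            rwa [sub_sub_cancel] at this
          rw [norm_smul, Real.norm_eq_abs, abs_of_pos hT0] at h9
          rw [nm_eq]
          linarith
        have h8 : T ≤ nm (fl (T • z)) / ρ := by
          rw [le_div_iff₀ hρ, h2]
          exact mul_le_mul_of_nonneg_left h1 hT0.le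
        have h9 : T / nm (fl (T • z)) ≤ (1 / ρ + 2) / (1 + ‖z‖) := by
          rw [div_le_div_iff₀ h3 hz0]
          have : nm (fl (T • z)) / ρ = 1 / ρ * nm (fl (T • z)) := by ring
          nlinarith
        rw [Real.norm_eq_abs, abs_mul, abs_of_pos (by positivity : 0 < T ^ k)]
        calc T ^ k * |v (fl (T • z))| ≤ T ^ k * (C / nm (fl (T • z)) ^ k) := by gcongr
          _ = C * (T / nm (fl (T • z))) ^ k := by rw [div_pow]; ring
          _ ≤ C * ((1 / ρ + 2) / (1 + ‖z‖)) ^ k := by gcongr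
          _ = _ := by rw [div_pow]; ring
      · rw [indicator_of_notMem (show fl (T • z) ∉ {P : ℤ × ℤ | ((P.1 : ℝ) / T, (P.2 : ℝ) / T) ∈ A} from hP)]
        rw [mul_zero, norm_zero]
        positivity
    · apply Integrable.const_mul
      apply integrable_one_add_norm
      rw [Module.finrank_prod, Module.finrank_self]
      exact_mod_cast hk
    · have h0 : volume ({0} : Set (ℝ × ℝ)) = 0 := measure_singleton 0
      have hae : ∀ᵐ z : ℝ × ℝ, z ∉ frontier A ∧ z ∉ ({0} : Set (ℝ × ℝ)) :=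
        (measure_eq_zero_iff_ae_notMem.1 hfr).and (measure_eq_zero_iff_ae_notMem.1 h0)
      filter_upwards [hae] with z hz
      have hz0 : z ≠ 0 := fun h => hz.2 (by rw [h]; rfl)
      have hs := sc_tendsto z
      rw [frontier, Set.mem_sdiff, not_and_not_right] at hz
      by_cases hzc : z ∈ closure A
      · have hzi := hz.1 hzc
        rw [indicator_of_mem (interior_subset hzi)]
        refine (hG z hz0).congr' ?_
        filter_upwards [hs.eventually (mem_interior_iff_mem_nhds.1 hzi)] with T hT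
        rw [hΨ]
        simp only
        rw [indicator_of_mem]
        exact hT
      · rw [indicator_of_notMem (fun h => hzc (subset_closure h))]
        refine tendsto_const_nhds.congr' ?_
        have h1 : (closure A)ᶜ ∈ 𝓝 z := isClosed_closure.isOpen_compl.mem_nhds hzc
        filter_upwards [hs.eventually h1] with T hT
        rw [hΨ]
        simp only
        rw [indicator_of_notMem, mul_zero]
        intro h
        exact hT (subset_closure h)
  rw [integral_indicator hA] at key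
  refine key.congr' ?_
  filter_upwards [eventually_gt_atTop 0] with T hT
  rw [hΨ]
  simp only
  rw [integral_const_mul, ← int_fl_scale _ hT, ← mul_assoc, ← pow_add]
  congr 2
  omega

end Pool.Agent.U46
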