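import Pool.Agent.U46.Plc

set_option autoImplicit false
set_option linter.unusedSectionVars false

/-! Plane curves: the limit measure. -/

open Filter Topology MeasureTheory

namespace Pool.Agent.U46

open Pool.Agent.N656.LL

lemma WW_pos (d : ℕ) (s : ℝ) : 0 < WW d s := by
  have h1 := vol_pos (fun k : Fin d => s ^ ((k : ℕ) + 1))
  rw [vol_eq_F] at h1
  exact h1

lemma max_pos_of_ne {z : ℝ × ℝ} (hz : z ≠ 0) : 0 < max |z.1| |z.2| := norm_pos_iff.2 hz

lemma GG_pos (d : ℕ) {z : ℝ × ℝ} (hz : z ≠ 0) : 0 < GG d z := by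
  unfold GG
  have h1 := max_pos_of_ne hz
  have h2 := WW_pos d (min |z.1| |z.2| / max |z.1| |z.2|)
  positivity

lemma GG_smul (d : ℕ) {t : ℝ} (ht : 0 < t) (z : ℝ × ℝ) : GG d (t • z) = GG d z / t ^ d := by
  have h1 := GG_hom d ht z
  rw [← h1]
  have h2 : t • z = (t * z.1, t * z.2) := rfl
  rw [h2]
  field_simp

/-- the limit measure is homogeneous -/
lemma GG_scale {d : ℕ} (hd : 2 ≤ d) {t : ℝ} (ht : 0 < t) {A : Set (ℝ × ℝ)} (hA : MeasurableSet A) :
    ∫ z in {z : ℝ × ℝ | t⁻¹ • z ∈ A}, GG d z = (∫ z in A, GG d z) / t ^ (d - 2) := by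
  have hm : MeasurableSet {z : ℝ × ℝ | t⁻¹ • z ∈ A} := measurable_const_smul t⁻¹ hA
  rw [← integral_indicator hm, ← integral_indicator hA]
  have h1 := Measure.integral_comp_smul (volume : Measure (ℝ × ℝ))
    (fun z => A.indicator (GG d) z) t⁻¹
  rw [Module.finrank_prod, Module.finrank_self] at h1
  have h2 : (fun z : ℝ × ℝ => A.indicator (GG d) (t⁻¹ • z)) =
      fun z => t ^ d * {z : ℝ × ℝ | t⁻¹ • z ∈ A}.indicator (GG d) z := by
    funext z
    by_cases hz : t⁻¹ • z ∈ A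
    · rw [Set.indicator_of_mem hz, Set.indicator_of_mem (show z ∈ {z : ℝ × ℝ | t⁻¹ • z ∈ A} from hz)]
      have h3 := GG_hom d ht (t⁻¹ • z)
      rw [← h3]
      congr 2
      simp only [Prod.smul_fst, Prod.smul_snd, smul_eq_mul]
      rw [mul_inv_cancel_left₀ ht.ne', mul_inv_cancel_left₀ ht.ne']
    · rw [Set.indicator_of_notMem hz,
        Set.indicator_of_notMem (show z ∉ {z : ℝ × ℝ | t⁻¹ • z ∈ A} from hz), mul_zero]
  rw [h2, integral_const_mul, smul_eq_mul] at h1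
  have h5 : |((t⁻¹ ^ (1 + 1))⁻¹ : ℝ)| = t ^ 2 := by
    rw [inv_pow, inv_inv, abs_of_pos (by positivity)]
  rw [h5] at h1
  obtain ⟨I, hI⟩ : ∃ I, I = ∫ z : ℝ × ℝ, {z : ℝ × ℝ | t⁻¹ • z ∈ A}.indicator (GG d) z := ⟨_, rfl⟩
  obtain ⟨J, hJ⟩ : ∃ J, J = ∫ z : ℝ × ℝ, A.indicator (GG d) z := ⟨_, rfl⟩
  rw [← hI, ← hJ] at h1 ⊢
  have h4 : t ^ d = t ^ (d - 2) * t ^ 2 := by
    rw [← pow_add]
    congr 1
    omega
  rw [h4] at h1
  rw [eq_div_iff (by positivity)]
  have h6 : t ^ 2 ≠ 0 := by positivity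
  apply mul_left_cancel₀ h6
  linarith

lemma far_one : Good {z : ℝ × ℝ | 1 < ‖z‖} := by
  have h1 : {z : ℝ × ℝ | 1 < ‖z‖} = (Metric.closedBall 0 1)ᶜ := by
    ext z
    simp
  refine ⟨?_, ?_, 1, one_pos, fun z hz => le_of_lt hz⟩
  · rw [h1]
    exact Metric.isClosed_closedBall.isOpen_compl.measurableSet
  · rw [h1, frontier_compl, frontier_closedBall _ (by norm_num : (1 : ℝ) ≠ 0)]
    exact Measure.addHaar_sphere volume 0 1

/-- the limit measure of the exterior of the unit square is positive -/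
lemma nu_pos {d : ℕ} (hd : 7 ≤ d) : 0 < ∫ z in {z : ℝ × ℝ | 1 < ‖z‖}, GG d z := by
  have h1 := (pd_lim hd far_one).comp tendsto_natCast_atTop_atTop
  have hK := Pool.Agent.R414.DU.K1_pos d
  have h2 : 1 / (2 * Pool.Agent.R414.DU.K1 d) ≤ ∫ z in {z : ℝ × ℝ | 1 < ‖z‖}, GG d z := by
    refine ge_of_tendsto h1 ?_
    filter_upwards [eventually_ge_atTop 1] with T hT
    have hT1 : (1 : ℝ) ≤ T := by exact_mod_cast hT
    have hT0 : (0 : ℝ) < T := by linarith
    have h3 := Pool.Agent.N656.PC.wt_lower0 hd pRED pGAH hT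
    have h4 : Reg T {z : ℝ × ℝ | 1 < ‖z‖} = Data.big T := by
      ext P
      have e1 : ‖((P.1 : ℝ) / T, (P.2 : ℝ) / T)‖ = nm P / T := by
        rw [nm_eq, Prod.norm_def, Prod.norm_def]
        simp only [norm_div]
        rw [Real.norm_of_nonneg hT0.le, max_div_div_right hT0.le]
      have e2 : nm P = (sz P : ℝ) := by
        unfold nm sz
        rw [Nat.cast_max, Nat.cast_natAbs, Nat.cast_natAbs, Int.cast_abs, Int.cast_abs]
      show 1 < ‖((P.1 : ℝ) / T, (P.2 : ℝ) / T)‖ ↔ T < sz P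
      rw [e1, e2, one_lt_div hT0]
      exact_mod_cast Iff.rfl
    simp only [Function.comp_apply]
    rw [h4]
    have h5 : (pd hd).wt (Data.big T) = (Pool.Agent.N656.PC.dat0 hd pRED pGAH).wt (Data.big T) := rfl
    rw [h5]
    calc 1 / (2 * Pool.Agent.R414.DU.K1 d) =
          (T : ℝ) ^ (d - 2) * (1 / (2 * Pool.Agent.R414.DU.K1 d * (T : ℝ) ^ (d - 2))) := by
          field_simp
      _ ≤ _ := mul_le_mul_of_nonneg_left h3 (by positivity)
  have : 0 < 1 / (2 * Pool.Agent.R414.DU.K1 d) := by positivity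
  linarith

end Pool.Agent.U46
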