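import Pool.Agent.N498.PC.Gah

set_option autoImplicit false
set_option maxHeartbeats 4000000

/-! Degenerate forms at the level `H ^ (9 / 16)`: the estimate of `N498.PC.Gah` with an explicit
threshold (the proof is the one given there). -/

open Finset

namespace Pool.Agent.U46

open Pool.Agent.R414.DN Pool.Agent.R414.DS Pool.Agent.N656.PC Pool.Agent.N498.PC

/-- **GAH**, with a threshold that is a power of `1 / ε`. -/
def S_GAHu : Prop := ∀ d : ℕ, 2 ≤ d → ∃ K : ℝ, 1 ≤ K ∧ ∀ ε : ℝ, 0 < ε → ε ≤ 1 → ∀ H : ℕ,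
  (K / ε) ^ 8 ≤ (H : ℝ) → ∀ S : Finset (Cf d), S ⊆ ibox ↥(I d) H →
  (∀ a ∈ S, ¬ GA (co a) d H ((H : ℝ) ^ ((9 : ℝ) / 16))) →
  (S.card : ℝ) ≤ ε * (2 * (H : ℝ) + 1) ^ (MM d - 1)

theorem t_GAHu (hB : S_BLK) : S_GAHu := by
  intro d hd
  have hd1 : 1 ≤ d := by omega
  have hc1 := c1_pos d
  have hdc : 0 ≤ (d : ℝ) * c1 d := by positivity
  set g : ℝ := (d : ℝ) * c1 d with hg
  set M : ℝ := 3 + 2 * g with hM
  set C : ℝ := 5 * (4 * M * (2 + g) + 6 * M + 3) + 7 * (2 + M) with hC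
  have hC0 : 0 < C := by positivity
  refine ⟨1 + 2 * (2 + g) + C, by linarith, fun ε hε hε1 H hH S hS hG => ?_⟩
  set X0 : ℝ := 1 + 2 * (2 + g) + C / ε with hX0
  have hX1 : 1 ≤ X0 := by
    have : 0 ≤ C / ε := by positivity
    rw [hX0]
    linarith
  have hH0 : (0 : ℝ) ≤ H := Nat.cast_nonneg H
  have hHX : X0 ^ 8 ≤ H := by
    refine le_trans ?_ hH
    apply pow_le_pow_left₀ (by linarith)
    have e1 : (1 + 2 * (2 + g) + C) / ε = (1 + 2 * (2 + g)) / ε + C / ε := add_div _ _ _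
    rw [hX0, e1]
    have e2 : 1 + 2 * (2 + g) ≤ (1 + 2 * (2 + g)) / ε := by
      rw [le_div_iff₀ hε]
      have : 0 < 1 + 2 * (2 + g) := by positivity
      nlinarith
    linarith
  set x : ℝ := (H : ℝ) ^ ((1 : ℝ) / 16) with hx
  have hx0 : 0 ≤ x := Real.rpow_nonneg hH0 _
  have hx16 : x ^ 16 = H := by
    rw [hx, ← Real.rpow_natCast, ← Real.rpow_mul hH0]
    norm_num
  have hx9 : (H : ℝ) ^ ((9 : ℝ) / 16) = x ^ 9 := by
    rw [hx, ← Real.rpow_natCast, ← Real.rpow_mul hH0]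
    norm_num
  have hx2 : X0 ≤ x ^ 2 := by
    have h1 : X0 ^ 8 ≤ (x ^ 2) ^ 8 := by
      rw [← pow_mul]
      norm_num
      rw [hx16]
      exact hHX
    exact (pow_le_pow_iff_left₀ (by linarith) (by positivity) (by norm_num)).1 h1
  have hx1 : 1 ≤ x := by
    by_contra h
    push Not at h
    have : x ^ 2 < 1 := pow_lt_one₀ hx0 h (by norm_num)
    linarith
  have hxpos : 0 < x := by linarith
  rw [hx9] at hG
  have hw1 : 1 ≤ x ^ 9 := one_le_pow₀ hx1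
  have e0 : (H : ℝ) / (x ^ 9) ^ 2 = 1 / x ^ 2 := by
    rw [← hx16]
    field_simp
  have e1 : (H : ℝ) / x ^ 9 = x ^ 7 := by
    rw [← hx16]
    field_simp
  set D0 : ℝ := (2 + g) * (1 / x ^ 2) with hD0
  set D1 : ℝ := (1 + g) * x ^ 7 with hD1
  have hD0' : D0 < 1 / 2 := by
    rw [hD0, mul_one_div, div_lt_iff₀ (by positivity)]
    have : 0 < C / ε := by positivity
    linarith
  have hcov : ∀ a ∈ S, ∃ k ∈ Icc (-⌊2 * x ^ 9⌋) ⌊2 * x ^ 9⌋,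
      |TT (co a) d 0 ((k : ℝ) / x ^ 9)| ≤ D0 ∧ |TT (co a) d 1 ((k : ℝ) / x ^ 9)| ≤ D1 := by
    intro a ha
    have := cover hd1 hw1 (hS ha) (hG a ha)
    rw [e0, e1] at this
    exact this
  set Q : ℕ := ⌊x ^ 2⌋₊ with hQ
  have hxx : 1 ≤ x ^ 2 := one_le_pow₀ hx1
  have hQ1 : 1 ≤ Q := by
    rw [hQ, Nat.one_le_floor_iff]
    exact hxx
  have hQle : (Q : ℝ) ≤ x ^ 2 := Nat.floor_le (by positivity)
  have hQge : x ^ 2 / 2 ≤ Q := by
    have h1 : x ^ 2 < (Q : ℝ) + 1 := Nat.lt_floor_add_one _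
    have h2 : (1 : ℝ) ≤ Q := by exact_mod_cast hQ1
    linarith
  obtain ⟨L, hL⟩ : ∃ L : ℕ, L = ⌊2 * D1⌋₊ + 1 := ⟨_, rfl⟩
  have hx7 : 1 ≤ x ^ 7 := one_le_pow₀ hx1
  have hLle : (L : ℝ) ≤ M * x ^ 7 := by
    have h1 : (⌊2 * D1⌋₊ : ℝ) ≤ 2 * D1 := Nat.floor_le (by positivity)
    rw [hL]
    push_cast
    rw [hM]
    calc (⌊2 * D1⌋₊ : ℝ) + 1 ≤ 2 * D1 + x ^ 7 := add_le_add h1 hx7
      _ = (3 + 2 * g) * x ^ 7 := by rw [hD1]; ring
  have hmain := count hB hd1 hw1 (by positivity) hD0' hQ1 S hS hcov hL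
  have hM0 : 0 < M := by positivity
  have hLQ : (L : ℝ) / Q ≤ 2 * M * x ^ 5 := by
    calc (L : ℝ) / Q ≤ (M * x ^ 7) / (x ^ 2 / 2) := by gcongr
      _ = 2 * M * x ^ 5 := by field_simp
  have hx5 : 1 ≤ x ^ 5 := one_le_pow₀ hx1
  have hE : 4 * L * D0 + 3 * (L / Q) + 3 ≤ (4 * M * (2 + g) + 6 * M + 3) * x ^ 5 := by
    have h1 : 4 * L * D0 ≤ 4 * M * (2 + g) * x ^ 5 := by
      calc 4 * L * D0 ≤ 4 * (M * x ^ 7) * D0 := by gcongr
        _ = 4 * M * (2 + g) * x ^ 5 := by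
          rw [hD0]
          field_simp
    nlinarith
  have htot : (5 * x ^ 9) * (4 * L * D0 + 3 * (L / Q) + 3) + (2 * x ^ 9 + L) * (7 * (Q : ℝ) ^ 2) ≤
      C * x ^ 14 := by
    have h1 : (5 * x ^ 9) * (4 * L * D0 + 3 * (L / Q) + 3) ≤
        5 * (4 * M * (2 + g) + 6 * M + 3) * x ^ 14 := by
      calc (5 * x ^ 9) * (4 * L * D0 + 3 * (L / Q) + 3) ≤
          (5 * x ^ 9) * ((4 * M * (2 + g) + 6 * M + 3) * x ^ 5) := by gcongr
        _ = _ := by ring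
    have h2 : (2 * x ^ 9 + L) * (7 * (Q : ℝ) ^ 2) ≤ 7 * (2 + M) * x ^ 14 := by
      calc (2 * x ^ 9 + L) * (7 * (Q : ℝ) ^ 2) ≤ (2 * x ^ 9 + M * x ^ 9) * (7 * (x ^ 2) ^ 2) := by
            have h3 : M * x ^ 7 ≤ M * x ^ 9 := by
              have : x ^ 7 ≤ x ^ 9 := pow_le_pow_right₀ hx1 (by norm_num)
              gcongr
            have h4 : (L : ℝ) ≤ M * x ^ 9 := hLle.trans h3
            gcongr
        _ = 7 * (2 + M) * x ^ 13 := by ring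
        _ ≤ 7 * (2 + M) * x ^ 14 := by
            have : x ^ 13 ≤ x ^ 14 := pow_le_pow_right₀ hx1 (by norm_num)
            gcongr
    refine (add_le_add h1 h2).trans (le_of_eq ?_)
    rw [hC]
    ring
  have hfin : C * x ^ 14 ≤ ε * (2 * (H : ℝ) + 1) := by
    have h1 : C ≤ ε * x ^ 2 := by
      have h2 : C / ε ≤ x ^ 2 := by linarith
      rw [div_le_iff₀ hε] at h2
      linarith
    calc C * x ^ 14 ≤ (ε * x ^ 2) * x ^ 14 := by gcongr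
      _ = ε * H := by rw [← hx16]; ring
      _ ≤ ε * (2 * (H : ℝ) + 1) := by
        gcongr
        linarith
  have hMM : MM d - 1 = (MM d - 2) + 1 := by
    have := MM_ge hd1
    omega
  rw [hMM, pow_succ]
  calc (S.card : ℝ) ≤ _ := hmain
    _ ≤ (C * x ^ 14) * (2 * (H : ℝ) + 1) ^ (MM d - 2) := by gcongr
    _ ≤ (ε * (2 * (H : ℝ) + 1)) * (2 * (H : ℝ) + 1) ^ (MM d - 2) := by gcongr
    _ = _ := by ring

end Pool.Agent.U46
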