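import Pool.Agent.U46.Rate
import Pool.Agent.U46.Comb
import Pool.Agent.U46.Asy
import Pool.Agent.N656.LL.Vol
import Pool.Agent.N656.LL.Fin

set_option autoImplicit false
set_option linter.unusedSectionVars false

/-! Consequences of the limit law with a power saving: small sets, and many random members. -/

open Filter Topology Finset MeasureTheory

namespace Pool.Agent.U46

open Pool.Agent.N656.LL

/-- the limit law with a power saving -/
def HasRate (D : Data) (C δ : ℝ) : Prop := ∀ H : ℕ, 1 ≤ H → ∀ A : Set (ℤ × ℤ),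
  |D.N A H - D.wt A * (H : ℝ) ^ D.n| ≤ C * ((H : ℝ) ^ D.n / (H : ℝ) ^ δ)

/-- all `H` instead of large `H` -/
lemma rate_all {D : Data} {C K : ℝ} (hC : 0 ≤ C) {m : ℕ} (hm : 1 ≤ m)
    (h : ∀ H : ℕ, K ≤ H → ∀ A : Set (ℤ × ℤ),
      |D.N A H - D.wt A * (H : ℝ) ^ D.n| ≤ C * ((H : ℝ) ^ D.n / (H : ℝ) ^ ((1 : ℝ) / m))) :
    ∃ C' : ℝ, 0 ≤ C' ∧ HasRate D C' ((1 : ℝ) / m) := by
  classical
  obtain ⟨B, hB⟩ : ∃ B : ℝ, B = ∑ h ∈ range ⌈K⌉₊, (D.N Set.univ h + D.wt Set.univ * (h : ℝ) ^ D.n) :=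
    ⟨_, rfl⟩
  have hterm : ∀ h : ℕ, 0 ≤ D.N Set.univ h + D.wt Set.univ * (h : ℝ) ^ D.n := by
    intro h
    have h1 := D.N_nonneg Set.univ h
    have h2 := D.wt_nonneg Set.univ
    positivity
  have hB0 : 0 ≤ B := by rw [hB]; exact sum_nonneg fun h _ => hterm h
  refine ⟨C + B, by positivity, fun H hH A => ?_⟩
  have hH1 : (1 : ℝ) ≤ H := by exact_mod_cast hH
  have hH0 : (0 : ℝ) < H := by linarith
  have hpos : 0 < (H : ℝ) ^ D.n / (H : ℝ) ^ ((1 : ℝ) / m) := by positivity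
  by_cases hK : K ≤ H
  · refine (h H hK A).trans ?_
    apply mul_le_mul_of_nonneg_right _ hpos.le
    linarith
  · rw [not_le] at hK
    have hmem : H ∈ range ⌈K⌉₊ := by
      rw [mem_range]
      exact Nat.lt_ceil.2 hK
    have h1 : D.N Set.univ H + D.wt Set.univ * (H : ℝ) ^ D.n ≤ B := by
      rw [hB]
      exact single_le_sum (f := fun h : ℕ => D.N Set.univ h + D.wt Set.univ * (h : ℝ) ^ D.n)
        (fun h _ => hterm h) hmem
    have h2 : |D.N A H - D.wt A * (H : ℝ) ^ D.n| ≤ B := by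
      have e1 := D.N_nonneg A H
      have e2 := D.N_mono (Set.subset_univ A) H
      have e3 := D.wt_nonneg A
      have e4 := D.wt_mono (Set.subset_univ A)
      have e5 : 0 ≤ (H : ℝ) ^ D.n := by positivity
      have e6 : D.wt A * (H : ℝ) ^ D.n ≤ D.wt Set.univ * (H : ℝ) ^ D.n :=
        mul_le_mul_of_nonneg_right e4 e5
      have e7 : 0 ≤ D.wt A * (H : ℝ) ^ D.n := mul_nonneg e3 e5
      rw [abs_le]
      constructor <;> linarith
    have h3 : 1 ≤ (H : ℝ) ^ D.n / (H : ℝ) ^ ((1 : ℝ) / m) := by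
      rw [le_div_iff₀ (by positivity), one_mul]
      have e1 : (H : ℝ) ^ ((1 : ℝ) / m) ≤ (H : ℝ) ^ (1 : ℝ) := by
        apply Real.rpow_le_rpow_of_exponent_le hH1
        have : (1 : ℝ) ≤ m := by exact_mod_cast hm
        rw [div_le_one (by linarith)]
        exact this
      rw [Real.rpow_one] at e1
      refine e1.trans (le_self_pow₀ hH1 ?_)
      have := D.hn
      omega
    calc |D.N A H - D.wt A * (H : ℝ) ^ D.n| ≤ B * 1 := by rw [mul_one]; exact h2
      _ ≤ (C + B) * ((H : ℝ) ^ D.n / (H : ℝ) ^ ((1 : ℝ) / m)) := by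
          apply mul_le_mul (by linarith) h3 zero_le_one (by positivity)

/-- **Small sets.** -/
theorem ratio_lim {D : Data} {C δ : ℝ} (hrate : HasRate D C δ) (hδ : 0 < δ)
    {A : ℕ → Set (ℤ × ℤ)} {q : ℕ → ℝ} (hq0 : ∀ᶠ H in atTop, 0 ≤ q H)
    (hq : ∀ᶠ H : ℕ in atTop, q H ≤ (H : ℝ) ^ (δ / 2)) {L : ℝ}
    (hL : Tendsto (fun H => q H * D.wt (A H)) atTop (𝓝 L)) :
    Tendsto (fun H => q H * (D.N (A H) H / D.N Set.univ H)) atTop (𝓝 (L / D.wt Set.univ)) := by
  have hC : 0 ≤ C := by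
    have h1 := hrate 1 le_rfl Set.univ
    simp only [Nat.cast_one, one_pow, Real.one_rpow, div_one, mul_one] at h1
    exact (abs_nonneg _).trans h1
  have hnum : Tendsto (fun H : ℕ => q H * (D.N (A H) H / (H : ℝ) ^ D.n)) atTop (𝓝 L) := by
    have herr : Tendsto (fun H : ℕ => C * (1 / (H : ℝ) ^ (δ / 2))) atTop (𝓝 0) := by
      have h1 : Tendsto (fun H : ℕ => (H : ℝ) ^ (-(δ / 2))) atTop (𝓝 0) :=
        (tendsto_rpow_neg_atTop (by linarith)).comp tendsto_natCast_atTop_atTop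
      have h2 := h1.const_mul C
      rw [mul_zero] at h2
      refine h2.congr' ?_
      filter_upwards [eventually_ge_atTop 1] with H hH
      have hH0 : (0 : ℝ) ≤ H := Nat.cast_nonneg H
      rw [Real.rpow_neg hH0, one_div]
    have hdiff : Tendsto (fun H : ℕ => q H * (D.N (A H) H / (H : ℝ) ^ D.n) - q H * D.wt (A H)) atTop
        (𝓝 0) := by
      refine squeeze_zero_norm' ?_ herr
      filter_upwards [hq0, hq, eventually_ge_atTop 1] with H h0 h1 hH
      have hH1 : (1 : ℝ) ≤ H := by exact_mod_cast hH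
      have hH0 : (0 : ℝ) < H := by linarith
      have hX : (0 : ℝ) < (H : ℝ) ^ D.n := by positivity
      have h2 := hrate H hH (A H)
      have e1 : q H * (D.N (A H) H / (H : ℝ) ^ D.n) - q H * D.wt (A H) =
          q H * ((D.N (A H) H - D.wt (A H) * (H : ℝ) ^ D.n) / (H : ℝ) ^ D.n) := by
        field_simp
      rw [e1, Real.norm_eq_abs, abs_mul, abs_of_nonneg h0, abs_div, abs_of_pos hX]
      have hs : (H : ℝ) ^ δ = (H : ℝ) ^ (δ / 2) * (H : ℝ) ^ (δ / 2) := by
        rw [← Real.rpow_add hH0]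
        congr 1
        ring
      calc q H * (|D.N (A H) H - D.wt (A H) * (H : ℝ) ^ D.n| / (H : ℝ) ^ D.n)
          ≤ (H : ℝ) ^ (δ / 2) * (C * ((H : ℝ) ^ D.n / (H : ℝ) ^ δ) / (H : ℝ) ^ D.n) := by
            gcongr
        _ = C * (1 / (H : ℝ) ^ (δ / 2)) := by
            rw [hs]
            field_simp
    have h3 := hdiff.add hL
    rw [zero_add] at h3
    refine h3.congr fun H => ?_
    ring
  have h4 := hnum.div (D.lim_set Set.univ) D.wt_univ_pos.ne'
  refine h4.congr' ?_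
  filter_upwards [eventually_ge_atTop 1] with H hH
  have hH1 : (1 : ℝ) ≤ H := by exact_mod_cast hH
  have hX : (0 : ℝ) < (H : ℝ) ^ D.n := by positivity
  simp only [Pi.div_apply]
  rw [mul_div_assoc, div_div_div_cancel_right₀ hX.ne']

/-- **Many random members.** The number of the `n`-tuples of members with a zero for which exactly
`k` have a zero in a small set. -/
theorem tuple_lim {D : Data} {C δ : ℝ} (hrate : HasRate D C δ) (hδ : 0 < δ)
    {A : ℕ → Set (ℤ × ℤ)} {n : ℕ → ℕ} (hn : Tendsto n atTop atTop)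
    (hq : ∀ᶠ H : ℕ in atTop, (n H : ℝ) ≤ (H : ℝ) ^ (δ / 2)) {L : ℝ}
    (hL : Tendsto (fun H => (n H : ℝ) * D.wt (A H)) atTop (𝓝 L)) (k : ℕ) :
    Tendsto (fun H => ((n H).choose k : ℝ) * D.N (A H) H ^ k *
      (D.N Set.univ H - D.N (A H) H) ^ (n H - k) / D.N Set.univ H ^ (n H)) atTop
      (𝓝 (Real.exp (-(L / D.wt Set.univ)) * (L / D.wt Set.univ) ^ k / k.factorial)) := by
  have h1 := ratio_lim hrate hδ (Filter.Eventually.of_forall fun H => Nat.cast_nonneg (n H)) hq hL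
  have h2 := poisson hn h1 k
  refine h2.congr' ?_
  have hpos : ∀ᶠ H : ℕ in atTop, 0 < D.N Set.univ H := by
    have h3 := (D.lim_set Set.univ).eventually (lt_mem_nhds D.wt_univ_pos)
    filter_upwards [h3] with H hH
    by_contra hc
    have h4 := D.N_nonneg Set.univ H
    have h5 : D.N Set.univ H = 0 := le_antisymm (not_lt.1 hc) h4
    rw [h5, zero_div] at hH
    exact lt_irrefl _ hH
  filter_upwards [hpos] with H hH
  rcases le_or_gt k (n H) with hk | hk
  · have e1 : D.N Set.univ H ^ (n H) = D.N Set.univ H ^ k * D.N Set.univ H ^ (n H - k) := by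
      rw [← pow_add]
      congr 1
      omega
    have e2 : 1 - D.N (A H) H / D.N Set.univ H = (D.N Set.univ H - D.N (A H) H) / D.N Set.univ H := by
      field_simp
    rw [e1, e2, div_pow, div_pow]
    field_simp
  · rw [Nat.choose_eq_zero_of_lt hk]
    simp

variable {ι : Type} [Fintype ι] [DecidableEq ι]

lemma vol_eq_F (c : ι → ℝ) : vol c = F c 0 1 1 := by
  unfold vol F K KK
  simp only [zero_add]

lemma cnt_eq_CC (c : ι → ℤ) (H : ℕ) : cnt c 0 H = CC (fun m => (c m : ℝ)) 0 H H := by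
  ext b
  simp only [cnt, CC, Set.mem_ofPred_eq, zero_sub, abs_neg, zero_add]
  have h1 : (|∑ m, (b m : ℝ) * (c m : ℝ)| ≤ (H : ℝ)) ↔ |∑ m, b m * c m| ≤ (H : ℤ) := by
    have h2 : (∑ m, (b m : ℝ) * (c m : ℝ)) = ((∑ m, b m * c m : ℤ) : ℝ) := by push_cast; rfl
    rw [h2]
    exact_mod_cast Iff.rfl
  rw [h1]

/-- **Lattice points against the volume**, uniformly in the coefficients. -/
theorem cnt_rate (c : ι → ℤ) {H : ℕ} (hH : 1 ≤ H) :
    |((cnt c 0 H).ncard : ℝ) - (vol fun m => (c m : ℝ)) * (H : ℝ) ^ Fintype.card ι| ≤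
      3 * Fintype.card ι * 3 ^ (Fintype.card ι - 1) * (H : ℝ) ^ (Fintype.card ι - 1) := by
  have hH1 : (1 : ℝ) ≤ H := by exact_mod_cast hH
  have hH0 : (0 : ℝ) < H := by linarith
  have h1 := CC_F (fun m => (c m : ℝ)) 0 (H : ℝ) H
  have h2 := F_scale (fun m => (c m : ℝ)) 1 1 hH0
  rw [mul_one] at h2
  rw [cnt_eq_CC, vol_eq_F, mul_comm (F _ _ _ _), ← h2]
  refine h1.trans ?_
  rw [mul_assoc (3 * (Fintype.card ι : ℝ)), ← mul_pow]
  apply mul_le_mul_of_nonneg_left _ (by positivity)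
  exact pow_le_pow_left₀ (by positivity) (by linarith) _

end Pool.Agent.U46
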