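import Pool.Agent.U46.Par3
import Pool.Agent.R414.EF.Hn

set_option autoImplicit false
set_option linter.unusedSectionVars false
set_option maxHeartbeats 4000000

/-! Hénon maps with a periodic point of bounded degree: the count for all convex regions. -/

open Finset

namespace Pool.Agent.U46.HN

open Pool.Agent.R414.EB Pool.Agent.R414.EF Pool.Agent.R414.EF.Hn

variable {d : ℕ}

/-- the vector with its parts -/
def tv (w : Fin 2 ⊕ Fin (d + 1) → ℤ) : Vec d := (w (Sum.inl 0), w (Sum.inl 1), fun i => w (Sum.inr i))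

lemma tv_inj : Function.Injective (tv : (Fin 2 ⊕ Fin (d + 1) → ℤ) → Vec d) := by
  intro v w h
  simp only [tv, Prod.mk.injEq] at h
  funext i
  rcases i with i | i
  · fin_cases i
    · exact h.1
    · exact h.2.1
  · exact congrFun h.2.2 i

lemma gd_iff (w : Fin 2 ⊕ Fin (d + 1) → ℤ) : Gd w ↔ IsHen (tv w) := by
  unfold Gd IsHen tv
  rw [Fin.forall_fin_two, and_assoc]

lemma ell_iff (hd : 1 ≤ d) (z : ℚ) (w : Fin 2 ⊕ Fin (d + 1) → ℤ) :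
    ell z.num (z.den : ℤ) w = 0 ↔ Rec (tv w) z z z := by
  have hq : (((z.den : ℤ) : ℚ)) ≠ 0 := by exact_mod_cast z.den_nz
  have hzq : z * ((z.den : ℤ) : ℚ) = ((z.num : ℤ) : ℚ) := by exact_mod_cast Rat.mul_den_eq_num z
  have h1 : ((ell z.num (z.den : ℤ) w : ℤ) : ℚ) = (∑ i : Fin (d + 1), (w (Sum.inr i) : ℚ) * z ^ (i : ℕ) -
      (∑ j, (w (Sum.inl j) : ℚ)) * z) * ((z.den : ℤ) : ℚ) ^ d := by
    rw [ell_cast, ell_eq hzq hd]
  have h2 : ell z.num (z.den : ℤ) w = 0 ↔ ((ell z.num (z.den : ℤ) w : ℤ) : ℚ) = 0 :=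
    Int.cast_eq_zero.symm
  rw [h2, h1, mul_eq_zero, or_iff_left (pow_ne_zero _ hq), sub_eq_zero]
  unfold Rec tv
  simp only
  rw [Fin.sum_univ_two, add_mul]

lemma cnt_tv (Q : Vec d → Prop) (H : ℕ) :
    Set.ncard {w : Fin 2 ⊕ Fin (d + 1) → ℤ | (∀ o, |w o| ≤ (H : ℤ)) ∧ Q (tv w)} =
      ({v | v ∈ vbox d H ∧ Q v} : Set (Vec d)).ncard := by
  rw [← Set.ncard_image_of_injective _ (tv_inj (d := d))]
  congr 1
  ext v
  simp only [Set.mem_image, Set.mem_ofPred_eq, mem_vbox]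
  constructor
  · rintro ⟨w, ⟨h1, h2⟩, rfl⟩
    exact ⟨⟨h1 (Sum.inl 0), h1 (Sum.inl 1), fun i => h1 (Sum.inr i)⟩, h2⟩
  · rintro ⟨⟨h1, h2, h3⟩, h4⟩
    refine ⟨Sum.elim ![v.1, v.2.1] v.2.2, ⟨?_, h4⟩, rfl⟩
    intro i
    rcases i with i | i
    · fin_cases i
      · exact h1
      · exact h2
    · exact h3 i

/-- `(z, z)` is a fixed point and the only periodic point of degree at most `D` -/
def En (D : ℕ) (z : ℚ) (w : Fin 2 ⊕ Fin (d + 1) → ℤ) : Prop :=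
  IsHen (tv w) ∧ hen ℂ (tv w) ((z : ℂ), (z : ℂ)) = ((z : ℂ), (z : ℂ)) ∧
    ∀ P, Per D (tv w) P → P = ((z : ℂ), (z : ℂ))

lemma hLfix (hd : 1 ≤ d) (z : ℚ) (w : Fin 2 ⊕ Fin (d + 1) → ℤ) (hv : IsHen (tv w)) :
    ell z.num (z.den : ℤ) w = 0 ↔ hen ℂ (tv w) ((z : ℂ), (z : ℂ)) = ((z : ℂ), (z : ℂ)) := by
  rw [ell_iff hd, Hn.rec_iff, fix_iff hv.1]
  simp

/-- **The count for all convex regions.** -/
theorem hen_law (D : ℕ) (hD : 1 ≤ D) : ∃ d₀ : ℕ, ∀ d, d₀ ≤ d → 4 ≤ d ∧ ∃ C : ℝ, 0 ≤ C ∧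
    ∀ Ω : Set (Fin 2 ⊕ Fin (d + 1) → ℝ), Convex ℝ Ω → IsClosed Ω → (∀ w ∈ Ω, ∀ o, |w o| ≤ 1) →
    ∀ H : ℕ, 1 ≤ H →
      (∀ A : Set ℚ, |(Set.ncard {w : Fin 2 ⊕ Fin (d + 1) → ℤ | (fun o => (w o : ℝ) / H) ∈ Ω ∧
        ∃ z ∈ A, En D z w} : ℝ) - (∑' z, A.indicator (wz Ω) z) * (H : ℝ) ^ (d + 2)| ≤
        C * (H : ℝ) ^ (d + 1)) ∧
      |(Set.ncard {w : Fin 2 ⊕ Fin (d + 1) → ℤ | (fun o => (w o : ℝ) / H) ∈ Ω ∧
        (IsHen (tv w) ∧ ∃ P, Per D (tv w) P)} : ℝ) - (∑' z, wz Ω z) * (H : ℝ) ^ (d + 2)| ≤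
        C * (H : ℝ) ^ (d + 1) := by
  classical
  obtain ⟨d₂, hd₂⟩ := Pool.Agent.R414.EB.final D 2 hD (by norm_num)
  refine ⟨d₂ + 4, fun d hd => ⟨by omega, ?_⟩⟩
  obtain ⟨-, C₃, -, -, hC₃, h₃, -⟩ := hd₂ d (by omega)
  obtain ⟨C, hC0, hC⟩ := gen_law (ε := Fin 2) (d := d) (by omega)
  have hBad : ∀ H : ℕ, 1 ≤ H → (Set.ncard {w : Fin 2 ⊕ Fin (d + 1) → ℤ | (∀ o, |w o| ≤ (H : ℤ)) ∧
      Gd w ∧ PerC D 2 (tv w)} : ℝ) ≤ C₃ * (H : ℝ) ^ (d + 1) := by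
    intro H hH
    have h5 := h₃ H hH
    rw [← cnt_tv (fun v => IsHen v ∧ PerC D 2 v)] at h5
    have e1 : d + 3 - ek 2 = d + 1 := by
      have : ek 2 = 2 := by decide
      omega
    rw [e1] at h5
    refine le_trans (le_of_eq ?_) h5
    congr 2
    ext w
    rw [Set.mem_ofPred_eq, Set.mem_ofPred_eq, gd_iff]
  refine ⟨C + d * C₃ + C₃, by positivity, fun Ω hc hcl hb H hH => ?_⟩
  have hH1 : (1 : ℝ) ≤ H := by exact_mod_cast hH
  have hH0 : (0 : ℝ) < H := by linarith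
  have hX : (0 : ℝ) < (H : ℝ) ^ (d + 1) := by positivity
  have hK0 : ∀ (z : ℚ) (w : Fin 2 ⊕ Fin (d + 1) → ℤ), IsHen (tv w) →
      hen ℂ (tv w) ((z : ℂ), (z : ℂ)) = ((z : ℂ), (z : ℂ)) → Per D (tv w) ((z : ℂ), (z : ℂ)) := by
    intro z w hv h
    exact per_of_fix hv.1 (rat_deg hD z) ((fix_iff hv.1 _).mp h).2
  have e1 : Fintype.card (Fin 2) + d = d + 2 := by
    rw [Fintype.card_fin]
    omega
  have e2 : Fintype.card (Fin 2) + d - 1 = d + 1 := by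
    rw [Fintype.card_fin]
    omega
  have hlaw : ∀ A : Set ℚ, |(Set.ncard {w : Fin 2 ⊕ Fin (d + 1) → ℤ | (fun o => (w o : ℝ) / H) ∈ Ω ∧
        ∃ z ∈ A, En D z w} : ℝ) - (∑' z, A.indicator (wz Ω) z) * (H : ℝ) ^ (d + 2)| ≤
        (C + d * C₃) * (H : ℝ) ^ (d + 1) := by
    intro A
    have h1 := hC Ω hc hcl hb H hH (En D) (fun w => PerC D 2 (tv w)) C₃
      (fun z w h => ⟨(hLfix (by omega) z w h.1).2 h.2.1, (gd_iff w).2 h.1⟩)
      (fun z w h0 hG hnE => by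
        have hv := (gd_iff w).1 hG
        have hfix := (hLfix (by omega) z w hv).1 h0
        have hpre := hK0 z w hv hfix
        by_contra hcon
        apply hnE
        refine ⟨hv, hfix, fun P hP => ?_⟩
        by_contra hne
        exact hcon (perC_two hpre hP hne))
      (fun z z' w h h' => by
        have h5 := h'.2.2 _ (hK0 z w h.1 h.2.1)
        have h6 : (z : ℂ) = (z' : ℂ) := congrArg Prod.fst h5
        exact_mod_cast h6)
      (by rw [e2]; exact hBad H hH) A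
    rw [e2, e1] at h1
    exact h1
  refine ⟨fun A => (hlaw A).trans ?_, ?_⟩
  · apply mul_le_mul_of_nonneg_right _ hX.le
    linarith
  · have h1 := hlaw Set.univ
    rw [Set.indicator_univ] at h1
    have hfin : ∀ C : (Fin 2 ⊕ Fin (d + 1) → ℤ) → Prop,
        {w : Fin 2 ⊕ Fin (d + 1) → ℤ | (fun o => (w o : ℝ) / H) ∈ Ω ∧ C w}.Finite := by
      intro C
      apply (Finset.finite_toSet (Fintype.piFinset fun _ : Fin 2 ⊕ Fin (d + 1) =>
        Icc (-(H : ℤ)) H)).subset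
      intro w hw
      rw [mem_coe, Fintype.mem_piFinset]
      intro o
      rw [mem_Icc, ← abs_le]
      have h2 := hb _ hw.1 o
      rw [abs_div, abs_of_pos hH0, div_le_one hH0] at h2
      exact_mod_cast h2
    have h2 : (Set.ncard {w : Fin 2 ⊕ Fin (d + 1) → ℤ | (fun o => (w o : ℝ) / H) ∈ Ω ∧
        ∃ z ∈ (Set.univ : Set ℚ), En D z w} : ℝ) ≤
        Set.ncard {w : Fin 2 ⊕ Fin (d + 1) → ℤ | (fun o => (w o : ℝ) / H) ∈ Ω ∧
        (IsHen (tv w) ∧ ∃ P, Per D (tv w) P)} := by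
      have h3 : {w : Fin 2 ⊕ Fin (d + 1) → ℤ | (fun o => (w o : ℝ) / H) ∈ Ω ∧
          ∃ z ∈ (Set.univ : Set ℚ), En D z w} ⊆
          {w : Fin 2 ⊕ Fin (d + 1) → ℤ | (fun o => (w o : ℝ) / H) ∈ Ω ∧
          (IsHen (tv w) ∧ ∃ P, Per D (tv w) P)} := by
        rintro w ⟨hw, z, _, hz⟩
        exact ⟨hw, hz.1, _, hK0 z w hz.1 hz.2.1⟩
      exact_mod_cast Set.ncard_le_ncard h3 (hfin _)
    have h3 : (Set.ncard {w : Fin 2 ⊕ Fin (d + 1) → ℤ | (fun o => (w o : ℝ) / H) ∈ Ω ∧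
        (IsHen (tv w) ∧ ∃ P, Per D (tv w) P)} : ℝ) ≤
        Set.ncard {w : Fin 2 ⊕ Fin (d + 1) → ℤ | (fun o => (w o : ℝ) / H) ∈ Ω ∧
        ∃ z ∈ (Set.univ : Set ℚ), En D z w} + C₃ * (H : ℝ) ^ (d + 1) := by
      refine le_trans ?_ (add_le_add le_rfl (hBad H hH))
      have h4 : {w : Fin 2 ⊕ Fin (d + 1) → ℤ | (fun o => (w o : ℝ) / H) ∈ Ω ∧
          (IsHen (tv w) ∧ ∃ P, Per D (tv w) P)} ⊆
          {w : Fin 2 ⊕ Fin (d + 1) → ℤ | (fun o => (w o : ℝ) / H) ∈ Ω ∧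
          ∃ z ∈ (Set.univ : Set ℚ), En D z w} ∪
          {w : Fin 2 ⊕ Fin (d + 1) → ℤ | (∀ o, |w o| ≤ (H : ℤ)) ∧ Gd w ∧ PerC D 2 (tv w)} := by
        rintro w ⟨hw, hv, P, hP⟩
        by_cases hbad : PerC D 2 (tv w)
        · right
          refine ⟨fun o => ?_, (gd_iff w).2 hv, hbad⟩
          have h2 := hb _ hw o
          rw [abs_div, abs_of_pos hH0, div_le_one hH0] at h2
          exact_mod_cast h2
        · left
          have huniq : ∀ P', Per D (tv w) P' → P' = P := by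
            intro P' hP'
            by_contra hne
            exact hbad (perC_two hP hP' hne)
          obtain ⟨z, hzw, hrec⟩ := unique_per hv hP huniq
          subst hzw
          exact ⟨hw, z, Set.mem_univ _, hv, (fix_iff hv.1 _).mpr ⟨rfl, (Hn.rec_iff _ _).mp hrec⟩, huniq⟩
      have hfin2 : {w : Fin 2 ⊕ Fin (d + 1) → ℤ | (∀ o, |w o| ≤ (H : ℤ)) ∧ Gd w ∧
          PerC D 2 (tv w)}.Finite := by
        apply (Finset.finite_toSet (Fintype.piFinset fun _ : Fin 2 ⊕ Fin (d + 1) =>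
          Icc (-(H : ℤ)) H)).subset
        intro w hw
        rw [mem_coe, Fintype.mem_piFinset]
        intro o
        rw [mem_Icc, ← abs_le]
        exact hw.1 o
      have h5 := (Set.ncard_le_ncard h4 ((hfin _).union hfin2)).trans (Set.ncard_union_le _ _)
      exact_mod_cast h5
    have e3 : (C + d * C₃ + C₃) * (H : ℝ) ^ (d + 1) =
        (C + d * C₃) * (H : ℝ) ^ (d + 1) + C₃ * (H : ℝ) ^ (d + 1) := by ring
    have h6 : 0 ≤ C₃ * (H : ℝ) ^ (d + 1) := by positivity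
    rw [abs_le] at h1 ⊢
    rw [e3]
    constructor
    · linarith [h1.1]
    · linarith [h1.2]

end Pool.Agent.U46.HN
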