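import Pool.Agent.U46.Dens
import Pool.Agent.U46.RateS
import Pool.Agent.U46.Dav

set_option autoImplicit false
set_option linter.unusedSectionVars false

/-! Plane curves whose coefficients lie in a convex region. -/

open Filter Topology Finset MeasureTheory

namespace Pool.Agent.U46

open Pool.Agent.N656.LL Pool.Agent.R414.DN Pool.Agent.R414.DU Pool.Agent.N656.PC

lemma pd_utail {d : ℕ} (hd : 7 ≤ d) :
    ∃ K : ℝ, UTail (pd hd) K (KT d) (48 * (d - 2)) (d - 2) := by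
  classical
  obtain ⟨K₀, hK1, hK⟩ := tail_unif hd pRED (t_GAHu t_BLK)
  refine ⟨K₀ ^ 16, one_le_pow₀ hK1, KT_nonneg d, by omega, by omega, fun T H hTH => ?_⟩
  have h0 : (K₀ * ((T : ℝ) + 1) ^ (3 * (d - 2))) ^ 16 ≤ (H : ℝ) := by
    refine le_trans (le_of_eq ?_) hTH
    rw [mul_pow, ← pow_mul]
    congr 2
    ring
  have h1 := hK T H h0 ((ibox ↥(I d) H).filter fun a => ∃ x y : ℤ,
    Fv (co a) d x y = 0 ∧ T < max x.natAbs y.natAbs)
    (filter_subset _ _) (fun a ha => (mem_filter.1 ha).2)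
  have h2 : (pd hd).N (Data.big T) H = (((ibox ↥(I d) H).filter fun a => ∃ x y : ℤ,
    Fv (co a) d x y = 0 ∧ T < max x.natAbs y.natAbs).card : ℝ) := by
    unfold Data.N
    rw [← Set.ncard_coe_finset]
    congr 2
    ext a
    simp only [coe_filter, Set.mem_ofPred_eq]
    constructor
    · rintro ⟨h3, P, h4, h5⟩
      exact ⟨h3, P.1, P.2, h5, h4⟩
    · rintro ⟨h3, x, y, h5, h4⟩
      exact ⟨h3, (x, y), h4, h5⟩
  rw [h2]
  have h3 : (pd hd).n = MM d - 1 := by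
    have h4 : (pd hd).n = Fintype.card (J (d + 1)) := rfl
    have := card_J d
    rw [h4]
    omega
  rw [h3]
  exact h1

/-- the section of a region of coefficients by the polynomials that vanish at a point -/
def secΩ {d : ℕ} (Ω : Set (Option (J (d + 1)) → ℝ)) (P : ℤ × ℤ) : Set (J (d + 1) → ℝ) :=
  {u | glue u (-∑ m, u m * (mon (d + 1) P m : ℝ)) ∈ Ω}

/-- its volume -/
noncomputable def vΩ {d : ℕ} (Ω : Set (Option (J (d + 1)) → ℝ)) (P : ℤ × ℤ) : ℝ :=
  volume.real (secΩ Ω P)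

variable {d : ℕ} {Ω : Set (Option (J (d + 1)) → ℝ)}

lemma lin_cont (P : ℤ × ℤ) : Continuous fun u : J (d + 1) → ℝ =>
    glue u (-∑ m, u m * (mon (d + 1) P m : ℝ)) :=
  glue_cont.comp (show Continuous fun u : J (d + 1) → ℝ =>
    (u, -∑ m, u m * (mon (d + 1) P m : ℝ)) by fun_prop)

lemma secΩ_closed (hcl : IsClosed Ω) (P : ℤ × ℤ) : IsClosed (secΩ Ω P) := hcl.preimage (lin_cont P)

lemma lin_add (P : ℤ × ℤ) (a b : ℝ) (u v : J (d + 1) → ℝ) :
    a • glue u (-∑ m, u m * (mon (d + 1) P m : ℝ)) + b • glue v (-∑ m, v m * (mon (d + 1) P m : ℝ)) =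
      glue (a • u + b • v) (-∑ m, (a • u + b • v) m * (mon (d + 1) P m : ℝ)) := by
  funext o
  cases o
  · simp only [glue, Pi.add_apply, Pi.smul_apply, smul_eq_mul, mul_neg, mul_sum]
    rw [← neg_add, ← sum_add_distrib]
    congr 1
    refine sum_congr rfl fun m _ => ?_
    ring
  · rfl

lemma secΩ_convex (hc : Convex ℝ Ω) (P : ℤ × ℤ) : Convex ℝ (secΩ Ω P) := by
  intro u hu v hv a b ha hb hab
  have h1 := hc hu hv ha hb hab
  rw [lin_add] at h1
  exact h1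

lemma secΩ_sub (hb : ∀ w ∈ Ω, ∀ o, |w o| ≤ 1) (P : ℤ × ℤ) :
    secΩ Ω P ⊆ K fun m => (mon (d + 1) P m : ℝ) := by
  intro u hu
  refine ⟨fun m => hb _ hu (some m), ?_⟩
  have := hb _ hu none
  simp only [glue, abs_neg] at this
  exact this

lemma vΩ_le (hd : 7 ≤ d) (hb : ∀ w ∈ Ω, ∀ o, |w o| ≤ 1) (P : ℤ × ℤ) : vΩ Ω P ≤ (pd hd).v P :=
  measureReal_mono (secΩ_sub hb P) (K_bounded _).measure_lt_top.ne

lemma vΩ_nonneg (P : ℤ × ℤ) : 0 ≤ vΩ Ω P := measureReal_nonneg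

/-- the members with coefficients in `H Ω` -/
def SΩ (Ω : Set (Option (J (d + 1)) → ℝ)) (H : ℕ) : Set (Cf d) :=
  {a | (fun o => (a (eqv d o) : ℝ) / H) ∈ Ω}

lemma SΩ_sub (hb : ∀ w ∈ Ω, ∀ o, |w o| ≤ 1) {H : ℕ} (hH : 1 ≤ H) :
    SΩ Ω H ⊆ {a | a ∈ ibox ↥(I d) H} := by
  intro a ha
  show a ∈ ibox ↥(I d) H
  rw [mem_ibox]
  intro p
  have hH0 : (0 : ℝ) < H := by exact_mod_cast hH
  have h1 := hb _ ha ((eqv d).symm p)
  simp only [Equiv.apply_symm_apply] at h1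
  rw [abs_div, abs_of_pos hH0, div_le_one hH0] at h1
  exact_mod_cast h1

open scoped Pointwise in
/-- the members that vanish at a point -/
lemma SΩ_count (hc : Convex ℝ Ω) (hcl : IsClosed Ω) (hb : ∀ w ∈ Ω, ∀ o, |w o| ≤ 1) {H : ℕ}
    (hH : 1 ≤ H) (P : ℤ × ℤ) :
    |(Set.ncard {a | a ∈ SΩ Ω H ∧ Fv (co a) d P.1 P.2 = 0} : ℝ) -
      vΩ Ω P * (H : ℝ) ^ Fintype.card (J (d + 1))| ≤
      Fintype.card (J (d + 1)) * 3 ^ (Fintype.card (J (d + 1)) - 1) *
        (H : ℝ) ^ (Fintype.card (J (d + 1)) - 1) := by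
  have hH1 : (1 : ℝ) ≤ H := by exact_mod_cast hH
  have hH0 : (0 : ℝ) < H := by linarith
  obtain ⟨Kk, hKk⟩ : ∃ Kk : Set (J (d + 1) → ℝ), Kk = (H : ℝ) • secΩ Ω P := ⟨_, rfl⟩
  have hmem : ∀ u : J (d + 1) → ℝ, u ∈ Kk ↔ (H : ℝ)⁻¹ • u ∈ secΩ Ω P := by
    intro u
    rw [hKk, Set.mem_smul_set_iff_inv_smul_mem₀ hH0.ne']
  have h1 := davenport Kk (by rw [hKk]; exact (secΩ_convex hc P).smul _)
    (by
      have : Kk = (fun u => (H : ℝ)⁻¹ • u) ⁻¹' secΩ Ω P := by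
        ext u
        exact hmem u
      rw [this]
      exact (secΩ_closed hcl P).preimage (continuous_const_smul _)) H
    (by
      intro u hu m
      rw [hmem] at hu
      have h2 := (secΩ_sub hb P hu).1 m
      simp only [Pi.smul_apply, smul_eq_mul, abs_mul, abs_inv, abs_of_pos hH0] at h2
      rwa [inv_mul_le_iff₀ hH0, mul_one] at h2)
  have hvol : volume.real Kk = vΩ Ω P * (H : ℝ) ^ Fintype.card (J (d + 1)) := by
    rw [hKk, measureReal_def, Measure.addHaar_smul, ENNReal.toReal_mul,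
      Module.finrank_fintype_fun_eq_card, ENNReal.toReal_ofReal (abs_nonneg _),
      abs_of_pos (by positivity), mul_comm]
    rfl
  have hcount : Set.ncard {a | a ∈ SΩ Ω H ∧ Fv (co a) d P.1 P.2 = 0} =
      Set.ncard {b : J (d + 1) → ℤ | (fun m => (b m : ℝ)) ∈ Kk} := by
    have hkey : ∀ a : Cf d, Fv (co a) d P.1 P.2 = 0 →
        (fun o => (a (eqv d o) : ℝ) / H) = glue ((H : ℝ)⁻¹ • fun m => ((a (eqv d (some m)) : ℤ) : ℝ))
          (-∑ m, ((H : ℝ)⁻¹ • fun m => ((a (eqv d (some m)) : ℤ) : ℝ)) m * (mon (d + 1) P m : ℝ)) := by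
      intro a ha
      rw [Fv_opt] at ha
      funext o
      cases o with
      | none =>
        simp only [glue, Pi.smul_apply, smul_eq_mul, mul_assoc]
        rw [← mul_sum]
        have h2 : (a (eqv d none) : ℝ) = -∑ m, (a (eqv d (some m)) : ℝ) * (mon (d + 1) P m : ℝ) := by
          have : a (eqv d none) = -∑ m, a (eqv d (some m)) * mon (d + 1) P m := by linarith
          rw [this]
          push_cast
          rfl
        rw [h2]
        field_simp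
      | some m =>
        simp only [glue, Pi.smul_apply, smul_eq_mul]
        field_simp
    refine Set.ncard_congr (fun a _ => fun m => a (eqv d (some m))) ?_ ?_ ?_
    · rintro a ⟨ha, h0⟩
      show (fun m => ((a (eqv d (some m)) : ℤ) : ℝ)) ∈ Kk
      rw [hmem]
      unfold SΩ at ha
      rw [Set.mem_ofPred_eq, hkey a h0] at ha
      exact ha
    · rintro a b ⟨_, hs⟩ ⟨_, hs'⟩ hab
      rw [Fv_opt] at hs hs'
      have h1 : ∀ m, a (eqv d (some m)) = b (eqv d (some m)) := fun m => congrFun hab m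
      have h2 : ∀ o, a (eqv d o) = b (eqv d o) := by
        intro o
        rcases o with _ | m
        · simp only [h1] at hs
          linarith
        · exact h1 m
      funext p
      have h3 := h2 ((eqv d).symm p)
      rwa [Equiv.apply_symm_apply] at h3
    · intro b hb'
      obtain ⟨a, ha⟩ : ∃ a : Cf d, a = fun p => glue b (-∑ m, b m * mon (d + 1) P m)
        ((eqv d).symm p) := ⟨_, rfl⟩
      have ha1 : ∀ o, a (eqv d o) = glue b (-∑ m, b m * mon (d + 1) P m) o := by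
        intro o
        rw [ha]
        simp
      have h0 : Fv (co a) d P.1 P.2 = 0 := by
        rw [Fv_opt, ha1]
        simp only [ha1, glue]
        ring
      refine ⟨a, ⟨?_, h0⟩, ?_⟩
      · unfold SΩ
        rw [Set.mem_ofPred_eq, hkey a h0]
        have hb'' : (fun m => ((b m : ℤ) : ℝ)) ∈ Kk := hb'
        rw [hmem] at hb''
        have h4 : (fun m => ((a (eqv d (some m)) : ℤ) : ℝ)) = fun m => ((b m : ℤ) : ℝ) := by
          funext m
          rw [ha1]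
          rfl
        rw [h4]
        exact hb''
      · funext m
        simp only [ha1, glue]
  rw [hcount, ← hvol]
  refine h1.trans ?_
  rw [mul_assoc, ← mul_pow]
  apply mul_le_mul_of_nonneg_left _ (by positivity)
  exact pow_le_pow_left₀ (by positivity) (by linarith) _

/-- **Curves with coefficients in a convex region.** -/
theorem pd_convex {d : ℕ} (hd : 7 ≤ d) : ∃ C : ℝ, 0 ≤ C ∧
    ∀ Ω : Set (Option (J (d + 1)) → ℝ), Convex ℝ Ω → IsClosed Ω → (∀ w ∈ Ω, ∀ o, |w o| ≤ 1) →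
    ∀ H : ℕ, 1 ≤ H → ∀ A : Set (ℤ × ℤ),
      |(Set.ncard {a : Cf d | a ∈ SΩ Ω H ∧ ∃ P ∈ A, Fv (co a) d P.1 P.2 = 0} : ℝ) -
        (∑' P, A.indicator (vΩ Ω) P) * (H : ℝ) ^ Fintype.card (J (d + 1))| ≤
        C * ((H : ℝ) ^ Fintype.card (J (d + 1)) / (H : ℝ) ^ ((1 : ℝ) / (48 * ((d : ℝ) - 2)))) := by
  classical
  obtain ⟨K, hU⟩ := pd_utail hd
  obtain ⟨C, hC0, hC⟩ := law_sub hU (R := Fintype.card (J (d + 1)) * 3 ^ (Fintype.card (J (d + 1)) - 1))
    (by positivity)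
  have e : (((48 * (d - 2) : ℕ)) : ℝ) = 48 * ((d : ℝ) - 2) := by
    rw [Nat.cast_mul, Nat.cast_sub (by omega : 2 ≤ d)]
    norm_num
  rw [e] at hC
  have hn : (pd hd).n = Fintype.card (J (d + 1)) := rfl
  obtain ⟨B, hB⟩ : ∃ B : ℝ, B = ∑ h ∈ range ⌈K⌉₊, ((pd hd).N Set.univ h +
    (pd hd).wt Set.univ * (h : ℝ) ^ (pd hd).n) := ⟨_, rfl⟩
  have hterm : ∀ h : ℕ, 0 ≤ (pd hd).N Set.univ h + (pd hd).wt Set.univ * (h : ℝ) ^ (pd hd).n := by
    intro h
    have h1 := (pd hd).N_nonneg Set.univ h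
    have h2 := (pd hd).wt_nonneg Set.univ
    positivity
  have hB0 : 0 ≤ B := by rw [hB]; exact sum_nonneg fun h _ => hterm h
  refine ⟨C + B, by positivity, fun Ω hc hcl hb H hH A => ?_⟩
  have hH1 : (1 : ℝ) ≤ H := by exact_mod_cast hH
  have hH0 : (0 : ℝ) < H := by linarith
  obtain ⟨s, hs⟩ : ∃ s : ℝ, s = (1 : ℝ) / (48 * ((d : ℝ) - 2)) := ⟨_, rfl⟩
  rw [← hs] at hC ⊢
  rw [← hn]
  have hpos : 0 < (H : ℝ) ^ (pd hd).n / (H : ℝ) ^ s := by positivity
  have hS := SΩ_sub hb hH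
  by_cases hK : K ≤ H
  · have h1 := hC H hK (SΩ Ω H) (vΩ Ω) hS vΩ_nonneg (vΩ_le hd hb)
      (fun P => SΩ_count hc hcl hb hH P) A
    refine h1.trans ?_
    apply mul_le_mul_of_nonneg_right _ hpos.le
    linarith
  · rw [not_le] at hK
    have hmem : H ∈ range ⌈K⌉₊ := by
      rw [mem_range]
      exact Nat.lt_ceil.2 hK
    have h1 : (pd hd).N Set.univ H + (pd hd).wt Set.univ * (H : ℝ) ^ (pd hd).n ≤ B := by
      rw [hB]
      exact single_le_sum (f := fun h : ℕ => (pd hd).N Set.univ h +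
        (pd hd).wt Set.univ * (h : ℝ) ^ (pd hd).n) (fun h _ => hterm h) hmem
    have e1 : (Set.ncard {a : Cf d | a ∈ SΩ Ω H ∧ ∃ P ∈ A, Fv (co a) d P.1 P.2 = 0} : ℝ) ≤
        (pd hd).N Set.univ H := by
      have : {a : Cf d | a ∈ SΩ Ω H ∧ ∃ P ∈ A, Fv (co a) d P.1 P.2 = 0} ⊆
          {a | a ∈ (pd hd).S H ∧ ∃ P ∈ (Set.univ : Set (ℤ × ℤ)), (pd hd).Z a P} := by
        rintro a ⟨h3, P, _, h5⟩
        exact ⟨hS h3, P, Set.mem_univ _, h5⟩
      unfold Data.N
      exact_mod_cast Set.ncard_le_ncard this ((pd hd).fin H _)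
    have e2 : ∑' P, A.indicator (vΩ Ω) P ≤ (pd hd).wt Set.univ := by
      unfold Data.wt
      have s1 : Summable (vΩ Ω) := Summable.of_nonneg_of_le vΩ_nonneg (vΩ_le hd hb) (pd hd).summable
      refine (s1.indicator A).tsum_le_tsum (fun P => ?_) ((pd hd).summable_ind _)
      rw [Set.indicator_univ]
      refine le_trans ?_ (vΩ_le hd hb P)
      exact Set.indicator_le_self' (fun _ _ => vΩ_nonneg _) P
    have e3 : 0 ≤ ∑' P, A.indicator (vΩ Ω) P :=
      tsum_nonneg fun P => Set.indicator_nonneg (fun P _ => vΩ_nonneg P) P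
    have e5 : 0 ≤ (H : ℝ) ^ (pd hd).n := by positivity
    have e6 := mul_le_mul_of_nonneg_right e2 e5
    have e7 : 0 ≤ (∑' P, A.indicator (vΩ Ω) P) * (H : ℝ) ^ (pd hd).n := mul_nonneg e3 e5
    have e8 : (0 : ℝ) ≤ Set.ncard {a : Cf d | a ∈ SΩ Ω H ∧ ∃ P ∈ A, Fv (co a) d P.1 P.2 = 0} :=
      Nat.cast_nonneg _
    have h2 : |(Set.ncard {a : Cf d | a ∈ SΩ Ω H ∧ ∃ P ∈ A, Fv (co a) d P.1 P.2 = 0} : ℝ) -
        (∑' P, A.indicator (vΩ Ω) P) * (H : ℝ) ^ (pd hd).n| ≤ B := by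
      rw [abs_le]
      constructor <;> linarith
    have h3 : 1 ≤ (H : ℝ) ^ (pd hd).n / (H : ℝ) ^ s := by
      rw [le_div_iff₀ (by positivity), one_mul]
      have hd7 : (7 : ℝ) ≤ d := by exact_mod_cast hd
      have e1 : (H : ℝ) ^ s ≤ (H : ℝ) ^ (1 : ℝ) := by
        apply Real.rpow_le_rpow_of_exponent_le hH1
        rw [hs, div_le_one (by linarith)]
        linarith
      rw [Real.rpow_one] at e1
      refine e1.trans (le_self_pow₀ hH1 ?_)
      have := (pd hd).hn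
      omega
    calc _ ≤ B * 1 := by rw [mul_one]; exact h2
      _ ≤ (C + B) * ((H : ℝ) ^ (pd hd).n / (H : ℝ) ^ s) := by
          apply mul_le_mul (by linarith) h3 zero_le_one (by positivity)

end Pool.Agent.U46
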