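import Pool.Agent.U46.Dav2

set_option autoImplicit false
set_option linter.unusedSectionVars false
set_option maxHeartbeats 4000000

/-! The integral vectors `(s, c)` for which `∑ c_i X ^ i - (∑ s_j) X` has a given rational zero `p / q`:
they are parametrized by `(s, g)`, where `∑ c_i X ^ i - (∑ s_j) X = (q X - p) g(X)`. -/

open MeasureTheory Finset

namespace Pool.Agent.U46

/-! ### division by `q X - p` -/

lemma div_exists {R : Type} [CommRing R] [IsDomain R] {p q : R} (hq : q ≠ 0) (hpq : IsCoprime p q)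
    (d : ℕ) : ∀ F : ℕ → R, ∑ i ∈ range (d + 1), F i * (p ^ i * q ^ (d - i)) = 0 →
    ∃ g : ℕ → R, (∀ i, d ≤ i → g i = 0) ∧
      ∀ i, i ≤ d → F i = (if i = 0 then 0 else q * g (i - 1)) - p * g i := by
  induction d with
  | zero =>
    intro F h
    simp only [zero_add, range_one, sum_singleton, pow_zero, Nat.sub_zero, mul_one] at h
    refine ⟨fun _ => 0, fun _ _ => rfl, fun i hi => ?_⟩
    have : i = 0 := by omega
    rw [this, h]
    simp
  | succ d ih =>
    intro F h
    rw [sum_range_succ, Nat.sub_self, pow_zero, mul_one] at h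
    have h1 : ∑ i ∈ range (d + 1), F i * (p ^ i * q ^ (d + 1 - i)) =
        q * ∑ i ∈ range (d + 1), F i * (p ^ i * q ^ (d - i)) := by
      rw [mul_sum]
      refine sum_congr rfl fun i hi => ?_
      rw [mem_range] at hi
      have : d + 1 - i = (d - i) + 1 := by omega
      rw [this, pow_succ]
      ring
    rw [h1] at h
    have h2 : q ∣ F (d + 1) * p ^ (d + 1) := by
      refine ⟨-∑ i ∈ range (d + 1), F i * (p ^ i * q ^ (d - i)), ?_⟩
      linear_combination h
    have h3 : q ∣ F (d + 1) := (hpq.symm.pow_right).dvd_of_dvd_mul_right h2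
    obtain ⟨t, ht⟩ := h3
    obtain ⟨g, hg1, hg2⟩ := ih (fun i => F i + if i = d then p * t else 0) (by
      have h4 : ∑ i ∈ range (d + 1), (F i + if i = d then p * t else 0) * (p ^ i * q ^ (d - i)) =
          ∑ i ∈ range (d + 1), F i * (p ^ i * q ^ (d - i)) + p * t * p ^ d := by
        simp only [add_mul, sum_add_distrib, ite_mul, zero_mul]
        congr 1
        rw [sum_ite_eq' (range (d + 1)) d]
        rw [if_pos (mem_range.2 (Nat.lt_succ_self d)), Nat.sub_self, pow_zero, mul_one]
      rw [h4]
      have h5 : q * (∑ i ∈ range (d + 1), F i * (p ^ i * q ^ (d - i)) + p * t * p ^ d) = 0 := by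
        rw [ht] at h
        linear_combination h
      exact (mul_eq_zero.1 h5).resolve_left hq)
    refine ⟨fun i => g i + if i = d then t else 0, fun i hi => ?_, fun i hi => ?_⟩
    · show g i + (if i = d then t else 0) = 0
      rw [hg1 i (by omega), if_neg (by omega), add_zero]
    · show F i = (if i = 0 then 0 else q * (g (i - 1) + if i - 1 = d then t else 0)) -
        p * (g i + if i = d then t else 0)
      rcases Nat.lt_or_ge i d with h4 | h4
      · have h5 : F i + (if i = d then p * t else 0) =
          (if i = 0 then 0 else q * g (i - 1)) - p * g i := hg2 i (by omega)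
        rw [if_neg (by omega : i ≠ d), add_zero] at h5
        rw [h5, if_neg (by omega : i ≠ d), if_neg (by omega : i - 1 ≠ d), add_zero, add_zero]
      · rcases Nat.lt_or_ge d i with h6 | h6
        · have h7 : i = d + 1 := by omega
          rw [h7, if_neg (by omega), Nat.add_sub_cancel, if_pos rfl, hg1 d le_rfl, hg1 (d + 1) (by omega),
            if_neg (by omega), ht]
          ring
        · have h7 : i = d := by omega
          subst h7
          have h5 : F i + (if i = i then p * t else 0) =
            (if i = 0 then 0 else q * g (i - 1)) - p * g i := hg2 i le_rfl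
          rw [if_pos rfl] at h5
          rw [if_pos rfl]
          by_cases h8 : i = 0
          · rw [if_pos h8] at h5 ⊢
            linear_combination h5
          · rw [if_neg h8] at h5 ⊢
            rw [if_neg (by omega : i - 1 ≠ i), add_zero]
            linear_combination h5

/-- the coefficients of the quotient are small -/
lemma div_bound {p q B : ℝ} {d : ℕ} {F g : ℕ → ℝ} (hB : 0 ≤ B) (hg : ∀ i, d ≤ i → g i = 0)
    (h : ∀ i, i ≤ d → F i = (if i = 0 then 0 else q * g (i - 1)) - p * g i)
    (hF : ∀ i, i ≤ d → |F i| ≤ B) (hne : 0 < max |p| |q|) (j : ℕ) :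
    |g j| ≤ d * B / max |p| |q| := by
  obtain ⟨M, hM⟩ : ∃ M : ℝ, M = max |p| |q| := ⟨_, rfl⟩
  rw [← hM] at hne ⊢
  have hBM : 0 ≤ B / M := div_nonneg hB hne.le
  rcases Nat.lt_or_ge j d with hj | hj
  · rcases le_total |q| |p| with hqp | hqp
    · have hMp : M = |p| := by rw [hM]; exact max_eq_left hqp
      have hind : ∀ j, j < d → |g j| ≤ ((j : ℝ) + 1) * (B / M) := by
        intro j
        induction j with
        | zero =>
          intro _
          have h1 := h 0 (Nat.zero_le _)
          rw [if_pos rfl, zero_sub] at h1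
          have h2 : |p| * |g 0| ≤ B := by
            rw [← abs_mul, ← abs_neg, ← h1]
            exact hF 0 (Nat.zero_le _)
          rw [← hMp] at h2
          rw [Nat.cast_zero, zero_add, one_mul, le_div_iff₀ hne, mul_comm]
          exact h2
        | succ j ih =>
          intro hj'
          have h0 := ih (by omega)
          have h1 := h (j + 1) (by omega)
          rw [if_neg (by omega), Nat.add_sub_cancel] at h1
          have h2 : p * g (j + 1) = q * g j - F (j + 1) := by linarith
          have h3 : M * |g (j + 1)| ≤ M * |g j| + B := by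
            rw [hMp, ← abs_mul, h2]
            calc |q * g j - F (j + 1)| ≤ |q * g j| + |F (j + 1)| := abs_sub _ _
              _ ≤ |p| * |g j| + B := by
                  rw [abs_mul]
                  exact add_le_add (mul_le_mul_of_nonneg_right hqp (abs_nonneg _)) (hF _ (by omega))
          have h4 : |g (j + 1)| ≤ |g j| + B / M := by
            have h5 : |g (j + 1)| ≤ (M * |g j| + B) / M := by
              rw [le_div_iff₀ hne, mul_comm]
              exact h3
            refine h5.trans (le_of_eq ?_)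
            field_simp
          push_cast
          linarith
      have h1 := hind j hj
      have h2 : (j : ℝ) + 1 ≤ d := by exact_mod_cast hj
      calc |g j| ≤ ((j : ℝ) + 1) * (B / M) := h1
        _ ≤ d * (B / M) := mul_le_mul_of_nonneg_right h2 hBM
        _ = d * B / M := by ring
    · have hMq : M = |q| := by rw [hM]; exact max_eq_right hqp
      have hind : ∀ k, k < d → |g (d - 1 - k)| ≤ ((k : ℝ) + 1) * (B / M) := by
        intro k
        induction k with
        | zero =>
          intro h0
          have h1 := h d le_rfl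
          rw [if_neg (by omega), hg d le_rfl, mul_zero, sub_zero] at h1
          have h2 : |q| * |g (d - 1)| ≤ B := by
            rw [← abs_mul, ← h1]
            exact hF d le_rfl
          rw [← hMq] at h2
          rw [Nat.cast_zero, zero_add, one_mul, Nat.sub_zero, le_div_iff₀ hne, mul_comm]
          exact h2
        | succ k ih =>
          intro hk
          have h0 := ih (by omega)
          have h1 := h (d - 1 - k) (by omega)
          have e1 : d - 1 - k - 1 = d - 1 - (k + 1) := by omega
          rw [if_neg (by omega), e1] at h1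
          have h2 : q * g (d - 1 - (k + 1)) = F (d - 1 - k) + p * g (d - 1 - k) := by linarith
          have h3 : M * |g (d - 1 - (k + 1))| ≤ M * |g (d - 1 - k)| + B := by
            rw [hMq, ← abs_mul, h2]
            calc |F (d - 1 - k) + p * g (d - 1 - k)| ≤ |F (d - 1 - k)| + |p * g (d - 1 - k)| :=
                  abs_add_le _ _
              _ ≤ B + |q| * |g (d - 1 - k)| := by
                  rw [abs_mul]
                  exact add_le_add (hF _ (by omega)) (mul_le_mul_of_nonneg_right hqp (abs_nonneg _))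
              _ = _ := by ring
          have h4 : |g (d - 1 - (k + 1))| ≤ |g (d - 1 - k)| + B / M := by
            have h5 : |g (d - 1 - (k + 1))| ≤ (M * |g (d - 1 - k)| + B) / M := by
              rw [le_div_iff₀ hne, mul_comm]
              exact h3
            refine h5.trans (le_of_eq ?_)
            field_simp
          push_cast
          linarith
      have h1 := hind (d - 1 - j) (by omega)
      have e1 : d - 1 - (d - 1 - j) = j := by omega
      rw [e1] at h1
      have h2 : ((d - 1 - j : ℕ) : ℝ) + 1 ≤ d := by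
        have : d - 1 - j + 1 ≤ d := by omega
        exact_mod_cast this
      calc |g j| ≤ (((d - 1 - j : ℕ) : ℝ) + 1) * (B / M) := h1
        _ ≤ d * (B / M) := mul_le_mul_of_nonneg_right h2 hBM
        _ = d * B / M := by ring
  · rw [hg j hj, abs_zero]
    positivity

variable {ε : Type} [Fintype ε] {d : ℕ}

/-- the coefficients of `g`, extended by zero -/
def gc {R : Type} [CommRing R] (u : ε ⊕ Fin d → R) (i : ℕ) : R :=
  if h : i < d then u (Sum.inr ⟨i, h⟩) else 0

/-- the vector `(s, coefficients of (q X - p) g + (∑ s_j) X)` -/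
def cv {R : Type} [CommRing R] (p q : R) (u : ε ⊕ Fin d → R) : ε ⊕ Fin (d + 1) → R :=
  Sum.elim (fun j => u (Sum.inl j)) (fun i =>
    (if (i : ℕ) = 0 then 0 else q * gc u ((i : ℕ) - 1)) - p * gc u i +
      (if (i : ℕ) = 1 then ∑ j, u (Sum.inl j) else 0))

lemma gc_of_ge {R : Type} [CommRing R] (u : ε ⊕ Fin d → R) {i : ℕ} (h : d ≤ i) : gc u i = 0 := by
  unfold gc
  rw [dif_neg (by omega)]

lemma gc_fin {R : Type} [CommRing R] (u : ε ⊕ Fin d → R) (j : Fin d) : gc u j = u (Sum.inr j) := by
  unfold gc
  rw [dif_pos j.2]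

/-- the relation -/
def ell {R : Type} [CommRing R] (p q : R) (w : ε ⊕ Fin (d + 1) → R) : R :=
  ∑ i : Fin (d + 1), w (Sum.inr i) * (p ^ (i : ℕ) * q ^ (d - i)) -
    (∑ j, w (Sum.inl j)) * (p * q ^ (d - 1))

lemma ell_eq {R : Type} [CommRing R] {p q ζ : R} (h : ζ * q = p) (hd : 1 ≤ d)
    (w : ε ⊕ Fin (d + 1) → R) : ell p q w =
      (∑ i : Fin (d + 1), w (Sum.inr i) * ζ ^ (i : ℕ) - (∑ j, w (Sum.inl j)) * ζ) * q ^ d := by
  have e : (∑ i : Fin (d + 1), w (Sum.inr i) * ζ ^ (i : ℕ)) * q ^ d =
      ∑ i : Fin (d + 1), w (Sum.inr i) * (p ^ (i : ℕ) * q ^ (d - i)) := by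
    rw [sum_mul]
    refine sum_congr rfl fun i _ => ?_
    have e1 : q ^ d = q ^ (i : ℕ) * q ^ (d - i) := by
      rw [← pow_add]
      congr 1
      omega
    rw [e1, ← h, mul_pow]
    ring
  have e2 : ζ * q ^ d = p * q ^ (d - 1) := by
    have e1 : q ^ d = q * q ^ (d - 1) := by
      rw [← pow_succ']
      congr 1
      omega
    rw [e1, ← h]
    ring
  unfold ell
  rw [sub_mul, e, mul_assoc, e2]

lemma ell_cast {R : Type} [CommRing R] (p q : ℤ) (w : ε ⊕ Fin (d + 1) → ℤ) :
    ((ell p q w : ℤ) : R) = ell (p : R) (q : R) (fun o => (w o : R)) := by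
  unfold ell
  push_cast
  rfl

lemma ell_range {R : Type} [CommRing R] (p q : R) (w : ε ⊕ Fin (d + 1) → R) (hd : 1 ≤ d) :
    ell p q w =
    ∑ i ∈ range (d + 1), ((if h : i < d + 1 then w (Sum.inr ⟨i, h⟩) else 0) -
      (if i = 1 then ∑ j, w (Sum.inl j) else 0)) * (p ^ i * q ^ (d - i)) := by
  unfold ell
  simp only [sub_mul, sum_sub_distrib, ite_mul, zero_mul]
  rw [sum_ite_eq' (range (d + 1)) 1, if_pos (mem_range.2 (by omega)), pow_one]
  congr 1
  rw [← Fin.sum_univ_eq_sum_range (fun i => (if h : i < d + 1 then w (Sum.inr ⟨i, h⟩) else 0) *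
    (p ^ i * q ^ (d - i)))]
  refine sum_congr rfl fun i _ => ?_
  rw [dif_pos i.2]

/-- existence of the parameters -/
lemma cv_surj {R : Type} [CommRing R] [IsDomain R] {p q : R} (hq : q ≠ 0) (hpq : IsCoprime p q)
    (hd : 1 ≤ d) {w : ε ⊕ Fin (d + 1) → R} (hw : ell p q w = 0) :
    ∃ u : ε ⊕ Fin d → R, cv p q u = w := by
  rw [ell_range p q w hd] at hw
  obtain ⟨g, hg1, hg2⟩ := div_exists hq hpq d _ hw
  refine ⟨Sum.elim (fun j => w (Sum.inl j)) (fun i => g i), ?_⟩
  have hgc : ∀ i, gc (Sum.elim (fun j => w (Sum.inl j)) (fun i : Fin d => g i)) i = g i := by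
    intro i
    unfold gc
    split_ifs with h
    · rfl
    · rw [hg1 i (by omega)]
  funext o
  cases o with
  | inl j => rfl
  | inr i =>
    show (if (i : ℕ) = 0 then 0 else q * gc (Sum.elim (fun j => w (Sum.inl j)) (fun i : Fin d => g i))
      ((i : ℕ) - 1)) - p * gc (Sum.elim (fun j => w (Sum.inl j)) (fun i : Fin d => g i)) i +
      (if (i : ℕ) = 1 then ∑ j, w (Sum.inl j) else 0) = w (Sum.inr i)
    rw [hgc, hgc]
    have h1 : (if h : (i : ℕ) < d + 1 then w (Sum.inr ⟨i, h⟩) else 0) -
      (if (i : ℕ) = 1 then ∑ j, w (Sum.inl j) else 0) =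
      (if (i : ℕ) = 0 then 0 else q * g (i - 1)) - p * g i := hg2 i (by omega)
    rw [dif_pos i.2] at h1
    linear_combination -h1

/-- the parametrized vectors satisfy the relation -/
lemma ell_cv {p q : ℤ} (hd : 1 ≤ d) (u : ε ⊕ Fin d → ℤ) : ell p q (cv p q u) = 0 := by
  rw [ell_range p q _ hd]
  have h1 : ∀ i ∈ range (d + 1), ((if h : i < d + 1 then (cv p q u) (Sum.inr ⟨i, h⟩) else 0) -
      (if i = 1 then ∑ j, (cv p q u) (Sum.inl j) else 0)) * (p ^ i * q ^ (d - i)) =
      ((if i = 0 then 0 else q * gc u (i - 1)) - p * gc u i) * (p ^ i * q ^ (d - i)) := by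
    intro i hi
    rw [dif_pos (mem_range.1 hi)]
    congr 1
    show (if i = 0 then 0 else q * gc u (i - 1)) - p * gc u i +
      (if i = 1 then ∑ j, u (Sum.inl j) else 0) - (if i = 1 then ∑ j, u (Sum.inl j) else 0) = _
    ring
  rw [sum_congr rfl h1]
  have h2 : ∀ n, n ≤ d → ∑ i ∈ range (n + 1), ((if i = 0 then 0 else q * gc u (i - 1)) - p * gc u i) *
      (p ^ i * q ^ (d - i)) = -(gc u n * (p ^ (n + 1) * q ^ (d - n))) := by
    intro n
    induction n with
    | zero =>
      intro _
      rw [zero_add, range_one, sum_singleton, if_pos rfl]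
      ring
    | succ n ih =>
      intro hn
      rw [sum_range_succ, ih (by omega), if_neg (by omega), Nat.add_sub_cancel]
      have e1 : d - n = (d - (n + 1)) + 1 := by omega
      rw [e1]
      ring
  rw [h2 d le_rfl, gc_of_ge u le_rfl]
  ring

/-- the parameters are small -/
lemma cv_bound {p q B : ℝ} (hB : 0 ≤ B) (hne : 0 < max |p| |q|) {u : ε ⊕ Fin d → ℝ}
    (hu : ∀ o, |cv p q u o| ≤ B) (j : Fin d) :
    |u (Sum.inr j)| ≤ d * ((Fintype.card ε + 1) * B) / max |p| |q| := by
  have hs : |∑ j, u (Sum.inl j)| ≤ Fintype.card ε * B := by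
    calc |∑ j, u (Sum.inl j)| ≤ ∑ j, |u (Sum.inl j)| := abs_sum_le_sum_abs _ _
      _ ≤ ∑ _j : ε, B := sum_le_sum fun j _ => hu (Sum.inl j)
      _ = Fintype.card ε * B := by rw [sum_const, card_univ, nsmul_eq_mul]
  have h1 := div_bound (p := p) (q := q) (B := (Fintype.card ε + 1) * B) (d := d)
    (F := fun i => (if i = 0 then 0 else q * gc u (i - 1)) - p * gc u i) (g := gc u)
    (by positivity) (fun i hi => gc_of_ge u hi) (fun i _ => rfl) (fun i hi => by
      have h2 := hu (Sum.inr ⟨i, by omega⟩)
      have h3 : cv p q u (Sum.inr ⟨i, by omega⟩) = (if i = 0 then 0 else q * gc u (i - 1)) - p * gc u i +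
        (if i = 1 then ∑ j, u (Sum.inl j) else 0) := rfl
      rw [h3] at h2
      show |(if i = 0 then 0 else q * gc u (i - 1)) - p * gc u i| ≤ _
      obtain ⟨x, hx⟩ : ∃ x : ℝ, x = (if i = 0 then 0 else q * gc u (i - 1)) - p * gc u i := ⟨_, rfl⟩
      obtain ⟨y, hy⟩ : ∃ y : ℝ, y = (if i = 1 then ∑ j, u (Sum.inl j) else 0) := ⟨_, rfl⟩
      rw [← hx, ← hy] at h2
      rw [← hx]
      have hyB : |y| ≤ Fintype.card ε * B := by
        rw [hy]
        split_ifs
        · exact hs
        · rw [abs_zero]
          positivity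
      have h4 : x = (x + y) - y := by ring
      rw [h4]
      calc |(x + y) - y| ≤ |x + y| + |y| := abs_sub _ _
        _ ≤ B + Fintype.card ε * B := add_le_add h2 hyB
        _ = _ := by ring) hne j
  rw [gc_fin] at h1
  exact h1

/-- injectivity -/
lemma cv_inj {R : Type} [CommRing R] [IsDomain R] {p q : R} (hq : q ≠ 0) :
    Function.Injective (cv p q : (ε ⊕ Fin d → R) → ε ⊕ Fin (d + 1) → R) := by
  intro u v huv
  have hl : ∀ j, u (Sum.inl j) = v (Sum.inl j) := fun j => congrFun huv (Sum.inl j)
  have hr : ∀ i, i ≤ d → (if i = 0 then 0 else q * gc u (i - 1)) - p * gc u i =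
      (if i = 0 then 0 else q * gc v (i - 1)) - p * gc v i := by
    intro i hi
    have h1 : (if i = 0 then 0 else q * gc u (i - 1)) - p * gc u i +
      (if i = 1 then ∑ j, u (Sum.inl j) else 0) = (if i = 0 then 0 else q * gc v (i - 1)) - p * gc v i +
      (if i = 1 then ∑ j, v (Sum.inl j) else 0) := congrFun huv (Sum.inr ⟨i, by omega⟩)
    simp only [hl] at h1
    exact add_right_cancel h1
  have hg : ∀ k, k ≤ d → gc u (d - k) = gc v (d - k) := by
    intro k
    induction k with
    | zero =>
      intro _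
      rw [Nat.sub_zero, gc_of_ge u le_rfl, gc_of_ge v le_rfl]
    | succ k ih =>
      intro hk
      have h1 := ih (by omega)
      have h2 := hr (d - k) (by omega)
      have e1 : d - k - 1 = d - (k + 1) := by omega
      rw [if_neg (by omega), if_neg (by omega), h1, e1] at h2
      have h3 : q * gc u (d - (k + 1)) = q * gc v (d - (k + 1)) := by linear_combination h2
      exact mul_left_cancel₀ hq h3
  funext o
  cases o with
  | inl j => exact hl j
  | inr i =>
    have h1 := hg (d - i) (by omega)
    have e1 : d - (d - (i : ℕ)) = i := by omega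
    rw [e1, gc_fin, gc_fin] at h1
    exact h1

/-- casts -/
lemma cv_cast (p q : ℤ) (u : ε ⊕ Fin d → ℤ) :
    (fun o => ((cv p q u o : ℤ) : ℝ)) = cv (p : ℝ) (q : ℝ) (fun o => (u o : ℝ)) := by
  have hg : ∀ i, ((gc u i : ℤ) : ℝ) = gc (fun o => (u o : ℝ)) i := by
    intro i
    unfold gc
    split_ifs
    · rfl
    · exact Int.cast_zero
  funext o
  cases o with
  | inl j => rfl
  | inr i =>
    show (((if (i : ℕ) = 0 then 0 else q * gc u ((i : ℕ) - 1)) - p * gc u i +
      (if (i : ℕ) = 1 then ∑ j, u (Sum.inl j) else 0) : ℤ) : ℝ) =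
      (if (i : ℕ) = 0 then 0 else (q : ℝ) * gc (fun o => (u o : ℝ)) ((i : ℕ) - 1)) -
        (p : ℝ) * gc (fun o => (u o : ℝ)) i + (if (i : ℕ) = 1 then ∑ j, (u (Sum.inl j) : ℝ) else 0)
    rw [← hg, ← hg]
    push_cast
    rfl

/-- linearity -/
lemma cv_lin (p q a b : ℝ) (u v : ε ⊕ Fin d → ℝ) :
    a • cv p q u + b • cv p q v = cv p q (a • u + b • v) := by
  have hg : ∀ i, gc (a • u + b • v) i = a * gc u i + b * gc v i := by
    intro i
    unfold gc
    split_ifs
    · rfl
    · ring
  funext o
  cases o with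
  | inl j => rfl
  | inr i =>
    have h1 : ∀ x : ε ⊕ Fin d → ℝ, cv p q x (Sum.inr i) =
        (if (i : ℕ) = 0 then 0 else q * gc x ((i : ℕ) - 1)) - p * gc x i +
      (if (i : ℕ) = 1 then ∑ j, x (Sum.inl j) else 0) := fun x => rfl
    rw [Pi.add_apply, Pi.smul_apply, Pi.smul_apply, h1, h1, h1, hg, hg]
    simp only [smul_eq_mul, Pi.add_apply, Pi.smul_apply, sum_add_distrib, ← mul_sum]
    split_ifs <;> ring

lemma cv_cont (p q : ℝ) : Continuous (cv p q : (ε ⊕ Fin d → ℝ) → ε ⊕ Fin (d + 1) → ℝ) := by
  have hg : ∀ i, Continuous fun u : ε ⊕ Fin d → ℝ => gc u i := by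
    intro i
    unfold gc
    split_ifs
    · exact continuous_apply _
    · exact continuous_const
  refine continuous_pi fun o => ?_
  cases o with
  | inl j => exact continuous_apply _
  | inr i =>
    show Continuous fun x : ε ⊕ Fin d → ℝ => (if (i : ℕ) = 0 then 0 else q * gc x ((i : ℕ) - 1)) -
      p * gc x i + (if (i : ℕ) = 1 then ∑ j, x (Sum.inl j) else 0)
    refine Continuous.add (Continuous.sub ?_ (continuous_const.mul (hg _))) ?_
    · split_ifs
      · exact continuous_const
      · exact continuous_const.mul (hg _)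
    · split_ifs
      · fun_prop
      · exact continuous_const

end Pool.Agent.U46
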