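import Pool.Agent.U46.Par

set_option autoImplicit false
set_option linter.unusedSectionVars false
set_option maxHeartbeats 4000000

/-! The number of the integral vectors in a convex region for which a given rational number is a zero. -/

open MeasureTheory Finset

namespace Pool.Agent.U46

lemma err_le {ι : Type} [Fintype ι] [DecidableEq ι] {f g : ι → ℝ} (hf : ∀ m, 0 ≤ f m)
    (hfg : ∀ m, f m ≤ g m) (hg : ∀ m, 0 < g m) {y : ℝ} (hy : ∀ m, 1 / g m ≤ y) :
    err f ≤ Fintype.card ι * ((∏ m, g m) * y) := by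
  unfold err
  have h1 : ∀ m ∈ (univ : Finset ι), ∏ j, (if j = m then 1 else f j) ≤ (∏ m, g m) * y := by
    intro m _
    have h2 : ∏ j, (if j = m then 1 else f j) ≤ ∏ j, (if j = m then 1 else g j) := by
      apply prod_le_prod
      · intro j _
        split_ifs
        · exact zero_le_one
        · exact hf j
      · intro j _
        split_ifs
        · exact le_rfl
        · exact hfg j
    have h3 : (∏ j, (if j = m then 1 else g j)) * g m = ∏ j, g j := by
      have h4 : g m = ∏ j, (if j = m then g j else 1) := by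
        rw [prod_ite_eq' univ m]
        simp
      conv_lhs => rw [h4]
      rw [← prod_mul_distrib]
      refine prod_congr rfl fun j _ => ?_
      split_ifs
      · rw [one_mul]
      · rw [mul_one]
    have h4 : ∏ j, (if j = m then 1 else g j) = (∏ j, g j) * (1 / g m) := by
      rw [← h3, mul_one_div, mul_div_assoc, div_self (hg m).ne', mul_one]
    rw [h4] at h2
    refine h2.trans (mul_le_mul_of_nonneg_left (hy m) (prod_nonneg fun j _ => (hg j).le))
  calc _ ≤ ∑ _m : ι, (∏ m, g m) * y := sum_le_sum h1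
    _ = _ := by rw [sum_const, card_univ, nsmul_eq_mul]

variable {ε : Type} [Fintype ε] [DecidableEq ε] {d : ℕ}

/-- the parameters of the region -/
def body (p q : ℝ) (Ω : Set (ε ⊕ Fin (d + 1) → ℝ)) : Set (ε ⊕ Fin d → ℝ) := {u | cv p q u ∈ Ω}

/-- the volume -/
noncomputable def WV (p q : ℝ) (Ω : Set (ε ⊕ Fin (d + 1) → ℝ)) : ℝ := volume.real (body p q Ω)

/-- the constant -/
def cc (ε : Type) [Fintype ε] (d : ℕ) : ℕ := d * (Fintype.card ε + 1)

lemma cc_pos (hd : 1 ≤ d) : 1 ≤ cc ε d := by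
  unfold cc
  exact Nat.mul_pos hd (Nat.succ_pos _)

variable {Ω : Set (ε ⊕ Fin (d + 1) → ℝ)}

lemma body_convex (hc : Convex ℝ Ω) (p q : ℝ) : Convex ℝ (body p q Ω) := by
  intro u hu v hv a b ha hb hab
  show cv p q (a • u + b • v) ∈ Ω
  rw [← cv_lin]
  exact hc hu hv ha hb hab

lemma body_closed (hcl : IsClosed Ω) (p q : ℝ) : IsClosed (body p q Ω) := hcl.preimage (cv_cont p q)

/-- the box of the parameters -/
def Bx (ε : Type) (d : ℕ) (a b : ℝ) : Set (ε ⊕ Fin d → ℝ) :=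
  Set.Icc (fun o => -(Sum.elim (fun _ => a) (fun _ => b) o)) (fun o => Sum.elim (fun _ => a) (fun _ => b) o)

lemma bx_vol {a b : ℝ} (ha : 0 ≤ a) (hb : 0 ≤ b) :
    volume.real (Bx ε d a b) = (2 * a) ^ Fintype.card ε * (2 * b) ^ d := by
  unfold Bx
  rw [measureReal_def, Real.volume_Icc_pi_toReal]
  · rw [Fintype.prod_sum_type]
    simp only [Sum.elim_inl, Sum.elim_inr, prod_const, card_univ, Fintype.card_fin]
    ring
  · intro o
    cases o
    · simp only [Sum.elim_inl]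
      linarith
    · simp only [Sum.elim_inr]
      linarith

lemma bx_fin (a b : ℝ) : volume (Bx ε d a b) < ⊤ := by
  unfold Bx
  exact isCompact_Icc.measure_lt_top

lemma body_sub (hb : ∀ w ∈ Ω, ∀ o, |w o| ≤ 1) {p q : ℝ} (hne : 0 < max |p| |q|) :
    body p q Ω ⊆ Bx ε d 1 (cc ε d / max |p| |q|) := by
  intro u hu
  have h1 := hb _ hu
  have h2 := fun j => cv_bound (p := p) (q := q) zero_le_one hne (u := u) h1 j
  have h3 : ∀ o, |u o| ≤ Sum.elim (fun _ => (1 : ℝ)) (fun _ => (cc ε d / max |p| |q| : ℝ)) o := by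
    intro o
    cases o with
    | inl j => exact h1 (Sum.inl j)
    | inr j =>
      have h4 := h2 j
      rw [mul_one] at h4
      unfold cc
      push_cast
      exact h4
  exact ⟨fun o => (abs_le.1 (h3 o)).1, fun o => (abs_le.1 (h3 o)).2⟩

lemma WV_nonneg (p q : ℝ) : 0 ≤ WV p q Ω := measureReal_nonneg

lemma WV_le (hb : ∀ w ∈ Ω, ∀ o, |w o| ≤ 1) {p q : ℝ} (hne : 0 < max |p| |q|) :
    WV p q Ω ≤ 2 ^ Fintype.card ε * (2 * cc ε d) ^ d / max |p| |q| ^ d := by
  have h1 := measureReal_mono (body_sub hb hne) (bx_fin (ε := ε) (d := d) 1 (cc ε d / max |p| |q|)).ne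
  rw [bx_vol zero_le_one (by positivity)] at h1
  refine h1.trans (le_of_eq ?_)
  rw [mul_one, ← mul_div_assoc, div_pow, mul_div_assoc]

/-- the good vectors -/
def Gd (w : ε ⊕ Fin (d + 1) → ℤ) : Prop := (∀ j, w (Sum.inl j) ≠ 0) ∧ w (Sum.inr (Fin.last d)) ≠ 0

open scoped Pointwise in
/-- **The count**, with the good vectors. -/
theorem cnt_good (hd : 2 ≤ d) (hc : Convex ℝ Ω) (hcl : IsClosed Ω) (hb : ∀ w ∈ Ω, ∀ o, |w o| ≤ 1)
    {p q : ℤ} (hq : 0 < q) (hpq : IsCoprime p q) {H : ℕ} (hH : 1 ≤ H) :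
    |(Set.ncard {w : ε ⊕ Fin (d + 1) → ℤ | (fun o => (w o : ℝ) / H) ∈ Ω ∧ ell p q w = 0 ∧ Gd w} : ℝ) -
      WV (p : ℝ) (q : ℝ) Ω * (H : ℝ) ^ (Fintype.card ε + d)| ≤
      (2 * ((Fintype.card ε + d) * (3 ^ Fintype.card ε * (5 * cc ε d) ^ d)) +
        2 ^ Fintype.card ε * (2 * cc ε d) ^ d) *
        ((H : ℝ) ^ (Fintype.card ε + d) / max |(p : ℝ)| |(q : ℝ)| ^ d *
          (max |(p : ℝ)| |(q : ℝ)| / H)) := by
  classical
  have hH1 : (1 : ℝ) ≤ H := by exact_mod_cast hH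
  have hH0 : (0 : ℝ) < H := by linarith
  obtain ⟨k, hk⟩ : ∃ k : ℕ, k = Fintype.card ε := ⟨_, rfl⟩
  obtain ⟨c, hcc⟩ : ∃ c : ℕ, c = cc ε d := ⟨_, rfl⟩
  have hc1 : 1 ≤ c := by rw [hcc]; exact cc_pos (by omega)
  have hc1R : (1 : ℝ) ≤ c := by exact_mod_cast hc1
  obtain ⟨M, hM⟩ : ∃ M : ℝ, M = max |(p : ℝ)| |(q : ℝ)| := ⟨_, rfl⟩
  have hqR : (1 : ℝ) ≤ |(q : ℝ)| := by
    have h1 : (1 : ℤ) ≤ |q| := Int.one_le_abs (by omega)
    exact_mod_cast h1
  have hM1 : 1 ≤ M := by rw [hM]; exact hqR.trans (le_max_right _ _)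
  have hM0 : 0 < M := by linarith
  have hne : 0 < max |(p : ℝ)| |(q : ℝ)| := by rw [← hM]; exact hM0
  rw [← hk, ← hcc, ← hM]
  have hWle : WV (p : ℝ) (q : ℝ) Ω ≤ 2 ^ k * (2 * c) ^ d / M ^ d := by
    rw [hk, hcc, hM]
    exact WV_le hb hne
  have hW0 : 0 ≤ WV (p : ℝ) (q : ℝ) Ω := WV_nonneg _ _
  have hbd : ∀ (w : ε ⊕ Fin (d + 1) → ℤ) (u : ε ⊕ Fin d → ℤ), cv p q u = w →
      (fun o => (w o : ℝ) / H) ∈ Ω → (∀ j, |(u (Sum.inl j) : ℝ)| ≤ H) ∧
        ∀ j, |(u (Sum.inr j) : ℝ)| ≤ c * H / M := by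
    intro w u huw hw
    have h1 : ∀ o, |(w o : ℝ)| ≤ H := by
      intro o
      have h2 := hb _ hw o
      rwa [abs_div, abs_of_pos hH0, div_le_one hH0] at h2
    have h2 : ∀ o, |cv (p : ℝ) (q : ℝ) (fun o => (u o : ℝ)) o| ≤ H := by
      intro o
      have h3 := congrFun (cv_cast p q u) o
      rw [← h3, huw]
      exact h1 o
    refine ⟨fun j => h2 (Sum.inl j), fun j => ?_⟩
    have h3 := cv_bound (p := (p : ℝ)) (q := (q : ℝ)) hH0.le hne (u := fun o => (u o : ℝ)) h2 j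
    rw [← hM] at h3
    refine h3.trans (le_of_eq ?_)
    rw [hcc]
    unfold cc
    push_cast
    ring
  have hcoef : ∀ u : ε ⊕ Fin d → ℤ, u (Sum.inr ⟨d - 1, by omega⟩) = 0 →
      cv p q u (Sum.inr (Fin.last d)) = 0 := by
    intro u hu
    show (if ((Fin.last d : Fin (d + 1)) : ℕ) = 0 then 0 else
      q * gc u (((Fin.last d : Fin (d + 1)) : ℕ) - 1)) - p * gc u ((Fin.last d : Fin (d + 1)) : ℕ) +
      (if ((Fin.last d : Fin (d + 1)) : ℕ) = 1 then ∑ j, u (Sum.inl j) else 0) = 0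
    rw [Fin.val_last, if_neg (by omega), if_neg (by omega), gc_of_ge u le_rfl]
    have h1 : gc u (d - 1) = 0 := by
      unfold gc
      rw [dif_pos (by omega)]
      exact hu
    rw [h1]
    ring
  obtain ⟨Y, hY⟩ : ∃ Y : ℝ, Y = (H : ℝ) ^ (k + d) / M ^ d * (M / H) := ⟨_, rfl⟩
  have hY0 : 0 ≤ Y := by rw [hY]; positivity
  rw [← hY]
  have e0 : (2 * ((k + d) * (3 ^ k * (5 * (c : ℝ)) ^ d)) + 2 ^ k * (2 * (c : ℝ)) ^ d) * Y =
      2 * ((k + d) * (3 ^ k * (5 * (c : ℝ)) ^ d)) * Y + 2 ^ k * (2 * (c : ℝ)) ^ d * Y := by ring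
  have e1 : 0 ≤ 2 * ((k + d) * (3 ^ k * (5 * (c : ℝ)) ^ d)) * Y := by positivity
  have e2 : 0 ≤ 2 ^ k * (2 * (c : ℝ)) ^ d * Y := by positivity
  by_cases hlarge : (c : ℝ) * H < M
  · -- no good vectors
    have h1 : {w : ε ⊕ Fin (d + 1) → ℤ | (fun o => (w o : ℝ) / H) ∈ Ω ∧ ell p q w = 0 ∧ Gd w} = ∅ := by
      rw [Set.eq_empty_iff_forall_notMem]
      rintro w ⟨hw, h0, hG⟩
      obtain ⟨u, hu⟩ := cv_surj hq.ne' hpq (by omega) h0
      have h2 := (hbd w u hu hw).2 ⟨d - 1, by omega⟩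
      have h3 : |(u (Sum.inr ⟨d - 1, by omega⟩) : ℝ)| < 1 := by
        refine lt_of_le_of_lt h2 ?_
        rw [div_lt_one hM0]
        exact hlarge
      have h4 : u (Sum.inr ⟨d - 1, by omega⟩) = 0 := by
        have h5 : |u (Sum.inr ⟨d - 1, by omega⟩)| < 1 := by exact_mod_cast h3
        exact Int.abs_lt_one_iff.1 h5
      apply hG.2
      rw [← hu]
      exact hcoef u h4
    rw [h1, Set.ncard_empty, Nat.cast_zero, zero_sub, abs_neg, abs_of_nonneg (by positivity)]
    have h2 : WV (p : ℝ) (q : ℝ) Ω * (H : ℝ) ^ (k + d) ≤ 2 ^ k * (2 * (c : ℝ)) ^ d * Y := by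
      have h3 : 1 ≤ M / H := by
        rw [le_div_iff₀ hH0, one_mul]
        nlinarith
      calc WV (p : ℝ) (q : ℝ) Ω * (H : ℝ) ^ (k + d) ≤ 2 ^ k * (2 * c) ^ d / M ^ d * (H : ℝ) ^ (k + d) :=
            mul_le_mul_of_nonneg_right hWle (by positivity)
        _ = 2 ^ k * (2 * c) ^ d * ((H : ℝ) ^ (k + d) / M ^ d * 1) := by ring
        _ ≤ 2 ^ k * (2 * c) ^ d * ((H : ℝ) ^ (k + d) / M ^ d * (M / H)) := by gcongr
        _ = _ := by rw [hY]
    linarith
  · rw [not_lt] at hlarge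
    obtain ⟨x, hx⟩ : ∃ x : ℝ, x = c * H / M := ⟨_, rfl⟩
    have hx1 : 1 ≤ x := by
      rw [hx, le_div_iff₀ hM0, one_mul]
      exact hlarge
    obtain ⟨R, hR⟩ : ∃ R : ε ⊕ Fin d → ℕ, R = Sum.elim (fun _ => H) (fun _ => ⌈x⌉₊) := ⟨_, rfl⟩
    obtain ⟨G, hG⟩ : ∃ G : ε ⊕ Fin d → ℝ, G = Sum.elim (fun _ => 3 * (H : ℝ)) (fun _ => 5 * x) := ⟨_, rfl⟩
    have hRG : ∀ m, 2 * (R m : ℝ) + 1 ≤ G m := by
      intro m
      rw [hR, hG]
      cases m with
      | inl j =>
        simp only [Sum.elim_inl]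
        linarith
      | inr j =>
        simp only [Sum.elim_inr]
        have := Nat.ceil_lt_add_one (by linarith : (0 : ℝ) ≤ x)
        linarith
    have hG0 : ∀ m, 0 < G m := by
      intro m
      have := hRG m
      have h2 : (0 : ℝ) ≤ R m := Nat.cast_nonneg _
      linarith
    have hGy : ∀ m, 1 / G m ≤ M / H := by
      intro m
      rw [hG, div_le_div_iff₀ (by have := hG0 m; rw [hG] at this; exact this) hH0]
      cases m with
      | inl j =>
        simp only [Sum.elim_inl]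
        nlinarith
      | inr j =>
        simp only [Sum.elim_inr]
        rw [hx]
        have h3 : M * (5 * (c * H / M)) = 5 * (c * H) := by field_simp
        rw [h3]
        nlinarith
    have hprod : ∏ m, G m = (3 * (H : ℝ)) ^ k * (5 * x) ^ d := by
      rw [hG, Fintype.prod_sum_type]
      simp only [Sum.elim_inl, Sum.elim_inr, prod_const, card_univ, Fintype.card_fin, hk]
    have herr : err (fun m => 2 * (R m : ℝ) + 1) ≤ (k + d) * (3 ^ k * (5 * (c : ℝ)) ^ d) * Y := by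
      refine (err_le (fun m => by positivity) hRG hG0 hGy).trans (le_of_eq ?_)
      rw [Fintype.card_sum, Fintype.card_fin, ← hk, hprod, hx, hY]
      push_cast
      rw [mul_pow, mul_pow, div_pow, mul_pow, pow_add]
      field_simp
      rw [mul_pow]
    obtain ⟨E, hE⟩ : ∃ E : ℝ, E = err (fun m => 2 * (R m : ℝ) + 1) := ⟨_, rfl⟩
    rw [← hE] at herr
    -- all vectors
    obtain ⟨Kk, hKk⟩ : ∃ Kk : Set (ε ⊕ Fin d → ℝ), Kk = (H : ℝ) • body (p : ℝ) (q : ℝ) Ω := ⟨_, rfl⟩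
    have hmem : ∀ u : ε ⊕ Fin d → ℝ, u ∈ Kk ↔ (fun o => cv (p : ℝ) (q : ℝ) u o / H) ∈ Ω := by
      intro u
      rw [hKk, Set.mem_smul_set_iff_inv_smul_mem₀ hH0.ne']
      show cv (p : ℝ) (q : ℝ) ((H : ℝ)⁻¹ • u) ∈ Ω ↔ _
      have h1 := cv_lin (p : ℝ) (q : ℝ) (H : ℝ)⁻¹ 0 u u
      rw [zero_smul, zero_smul, add_zero, add_zero] at h1
      rw [← h1]
      have h2 : (H : ℝ)⁻¹ • cv (p : ℝ) (q : ℝ) u = fun o => cv (p : ℝ) (q : ℝ) u o / H := by
        funext o
        rw [Pi.smul_apply, smul_eq_mul]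
        ring
      rw [h2]
    have hKR : ∀ u ∈ Kk, ∀ m, |u m| ≤ R m := by
      intro u hu m
      rw [hmem] at hu
      have h1 : ∀ o, |cv (p : ℝ) (q : ℝ) u o| ≤ H := by
        intro o
        have h2 := hb _ hu o
        rwa [abs_div, abs_of_pos hH0, div_le_one hH0] at h2
      rw [hR]
      cases m with
      | inl j => exact h1 (Sum.inl j)
      | inr j =>
        have h3 := cv_bound (p := (p : ℝ)) (q := (q : ℝ)) hH0.le hne (u := u) h1 j
        rw [← hM] at h3
        simp only [Sum.elim_inr]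
        refine (h3.trans (le_of_eq ?_)).trans (Nat.le_ceil x)
        rw [hx, hcc]
        unfold cc
        push_cast
        ring
    have hdav := davenport2 Kk (by rw [hKk]; exact (body_convex hc _ _).smul _)
      (by
        have : Kk = (fun u => (H : ℝ)⁻¹ • u) ⁻¹' body (p : ℝ) (q : ℝ) Ω := by
          ext u
          rw [hKk, Set.mem_smul_set_iff_inv_smul_mem₀ hH0.ne']
          rfl
        rw [this]
        exact (body_closed hcl _ _).preimage (continuous_const_smul _)) R hKR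
    rw [← hE] at hdav
    have hvol : volume.real Kk = WV (p : ℝ) (q : ℝ) Ω * (H : ℝ) ^ (k + d) := by
      rw [hKk, measureReal_def, Measure.addHaar_smul, ENNReal.toReal_mul,
        Module.finrank_fintype_fun_eq_card, ENNReal.toReal_ofReal (abs_nonneg _),
        abs_of_pos (by positivity), mul_comm, Fintype.card_sum, Fintype.card_fin, ← hk]
      rfl
    have hall : Set.ncard {w : ε ⊕ Fin (d + 1) → ℤ | (fun o => (w o : ℝ) / H) ∈ Ω ∧ ell p q w = 0} =
        Set.ncard {b : ε ⊕ Fin d → ℤ | (fun m => (b m : ℝ)) ∈ Kk} := by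
      rw [← Set.ncard_image_of_injective _ (cv_inj (ε := ε) (d := d) (p := p) hq.ne')]
      congr 1
      ext w
      constructor
      · rintro ⟨hw, h0⟩
        obtain ⟨u, hu⟩ := cv_surj hq.ne' hpq (by omega) h0
        refine ⟨u, ?_, hu⟩
        show (fun m => (u m : ℝ)) ∈ Kk
        rw [hmem, ← cv_cast, hu]
        exact hw
      · rintro ⟨u, hu, rfl⟩
        rw [Set.mem_ofPred_eq, hmem, ← cv_cast] at hu
        exact ⟨hu, ell_cv (by omega) u⟩
    -- the bad vectors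
    obtain ⟨Bm, hBm⟩ : ∃ Bm : ε ⊕ Fin d → Finset (ε ⊕ Fin d → ℤ), Bm = fun m =>
      Fintype.piFinset fun j => if j = m then {0} else Icc (-(R j : ℤ)) (R j) := ⟨_, rfl⟩
    have hBmc : (∑ m, ((Bm m).card : ℝ)) = E := by
      rw [hE]
      unfold err
      refine sum_congr rfl fun m _ => ?_
      rw [hBm]
      simp only
      rw [Fintype.card_piFinset, Nat.cast_prod]
      refine prod_congr rfl fun j _ => ?_
      split_ifs with h
      · simp
      · rw [Int.card_Icc]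
        have : ((R j : ℤ) + 1 - -(R j : ℤ)).toNat = 2 * R j + 1 := by omega
        rw [this]
        push_cast
        ring
    have hbad : (Set.ncard {w : ε ⊕ Fin (d + 1) → ℤ | (fun o => (w o : ℝ) / H) ∈ Ω ∧ ell p q w = 0 ∧
        ¬ Gd w} : ℝ) ≤ E := by
      have h1 : {w : ε ⊕ Fin (d + 1) → ℤ | (fun o => (w o : ℝ) / H) ∈ Ω ∧ ell p q w = 0 ∧ ¬ Gd w} ⊆
          (((univ.biUnion Bm).image (cv p q) : Finset (ε ⊕ Fin (d + 1) → ℤ)) :
            Set (ε ⊕ Fin (d + 1) → ℤ)) := by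
        rintro w ⟨hw, h0, hG⟩
        obtain ⟨u, hu⟩ := cv_surj hq.ne' hpq (by omega) h0
        rw [mem_coe, mem_image]
        refine ⟨u, ?_, hu⟩
        rw [mem_biUnion]
        have h2 : (fun m => (u m : ℝ)) ∈ Kk := by
          rw [hmem, ← cv_cast, hu]
          exact hw
        have h3 := hKR _ h2
        have h4 : ∃ m, u m = 0 := by
          by_contra hcon
          push Not at hcon
          apply hG
          refine ⟨fun j => ?_, ?_⟩
          · rw [← hu]
            exact hcon (Sum.inl j)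
          · rw [← hu]
            intro h5
            have h6 : cv p q u (Sum.inr (Fin.last d)) = q * u (Sum.inr ⟨d - 1, by omega⟩) := by
              show (if ((Fin.last d : Fin (d + 1)) : ℕ) = 0 then 0 else
                q * gc u (((Fin.last d : Fin (d + 1)) : ℕ) - 1)) -
                p * gc u ((Fin.last d : Fin (d + 1)) : ℕ) +
                (if ((Fin.last d : Fin (d + 1)) : ℕ) = 1 then ∑ j, u (Sum.inl j) else 0) = _
              rw [Fin.val_last, if_neg (by omega), if_neg (by omega), gc_of_ge u le_rfl]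
              have h1 : gc u (d - 1) = u (Sum.inr ⟨d - 1, by omega⟩) := by
                unfold gc
                rw [dif_pos (by omega)]
              rw [h1]
              ring
            rw [h6] at h5
            rcases mul_eq_zero.1 h5 with h7 | h7
            · exact hq.ne' h7
            · exact hcon _ h7
        obtain ⟨m, hm⟩ := h4
        refine ⟨m, mem_univ _, ?_⟩
        rw [hBm]
        simp only
        rw [Fintype.mem_piFinset]
        intro j
        split_ifs with h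
        · rw [h, hm]
          exact mem_singleton_self _
        · rw [mem_Icc, ← abs_le]
          have := h3 j
          exact_mod_cast this
      have h2 := (Set.ncard_le_ncard h1 (Finset.finite_toSet _))
      rw [Set.ncard_coe_finset] at h2
      have h3 := h2.trans (card_image_le.trans card_biUnion_le)
      rw [← hBmc]
      exact_mod_cast h3
    have hfin : {w : ε ⊕ Fin (d + 1) → ℤ | (fun o => (w o : ℝ) / H) ∈ Ω}.Finite := by
      apply (Finset.finite_toSet (Fintype.piFinset fun _ : ε ⊕ Fin (d + 1) =>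
        Icc (-(H : ℤ)) H)).subset
      intro w hw
      rw [mem_coe, Fintype.mem_piFinset]
      intro o
      rw [mem_Icc, ← abs_le]
      have h2 := hb _ hw o
      rw [abs_div, abs_of_pos hH0, div_le_one hH0] at h2
      exact_mod_cast h2
    have hupper : (Set.ncard {w : ε ⊕ Fin (d + 1) → ℤ | (fun o => (w o : ℝ) / H) ∈ Ω ∧ ell p q w = 0 ∧
        Gd w} : ℝ) ≤ Set.ncard {w : ε ⊕ Fin (d + 1) → ℤ | (fun o => (w o : ℝ) / H) ∈ Ω ∧
          ell p q w = 0} := by
      have h1 : {w : ε ⊕ Fin (d + 1) → ℤ | (fun o => (w o : ℝ) / H) ∈ Ω ∧ ell p q w = 0 ∧ Gd w} ⊆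
          {w : ε ⊕ Fin (d + 1) → ℤ | (fun o => (w o : ℝ) / H) ∈ Ω ∧ ell p q w = 0} :=
        fun w hw => ⟨hw.1, hw.2.1⟩
      exact_mod_cast Set.ncard_le_ncard h1 (hfin.subset fun w hw => hw.1)
    have hlower : (Set.ncard {w : ε ⊕ Fin (d + 1) → ℤ | (fun o => (w o : ℝ) / H) ∈ Ω ∧
        ell p q w = 0} : ℝ) ≤ Set.ncard {w : ε ⊕ Fin (d + 1) → ℤ | (fun o => (w o : ℝ) / H) ∈ Ω ∧
          ell p q w = 0 ∧ Gd w} + Set.ncard {w : ε ⊕ Fin (d + 1) → ℤ | (fun o => (w o : ℝ) / H) ∈ Ω ∧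
          ell p q w = 0 ∧ ¬ Gd w} := by
      have h1 : {w : ε ⊕ Fin (d + 1) → ℤ | (fun o => (w o : ℝ) / H) ∈ Ω ∧ ell p q w = 0} ⊆
          {w : ε ⊕ Fin (d + 1) → ℤ | (fun o => (w o : ℝ) / H) ∈ Ω ∧ ell p q w = 0 ∧ Gd w} ∪
          {w : ε ⊕ Fin (d + 1) → ℤ | (fun o => (w o : ℝ) / H) ∈ Ω ∧ ell p q w = 0 ∧ ¬ Gd w} := by
        intro w hw
        by_cases h : Gd w
        · exact Or.inl ⟨hw.1, hw.2, h⟩
        · exact Or.inr ⟨hw.1, hw.2, h⟩
      have h2 := (Set.ncard_le_ncard h1 ((hfin.subset fun w hw => hw.1).union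
        (hfin.subset fun w hw => hw.1))).trans (Set.ncard_union_le _ _)
      exact_mod_cast h2
    rw [hall] at hupper hlower
    rw [hvol, abs_le] at hdav
    have hEY : 2 * E ≤ 2 * ((k + d) * (3 ^ k * (5 * (c : ℝ)) ^ d)) * Y := by
      calc 2 * E ≤ 2 * ((k + d) * (3 ^ k * (5 * (c : ℝ)) ^ d) * Y) := by linarith
        _ = _ := by ring
    have hE0 : 0 ≤ E := by
      rw [← hBmc]
      positivity
    rw [e0, abs_le]
    constructor
    · linarith [hdav.1]
    · linarith [hdav.2]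

end Pool.Agent.U46
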