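import Pool.Agent.U46.Par2

set_option autoImplicit false
set_option linter.unusedSectionVars false
set_option maxHeartbeats 4000000

/-! The law of the zero: sums over all rational numbers. -/

open MeasureTheory Finset

namespace Pool.Agent.U46

/-- the height -/
noncomputable def hz (z : ℚ) : ℝ := max |(z.num : ℝ)| |((z.den : ℤ) : ℝ)|

lemma hz_one_le (z : ℚ) : 1 ≤ hz z := by
  unfold hz
  refine le_trans ?_ (le_max_right _ _)
  have h1 : (1 : ℤ) ≤ |(z.den : ℤ)| := Int.one_le_abs (by exact_mod_cast z.den_nz)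
  exact_mod_cast h1

lemma hz_pos (z : ℚ) : 0 < hz z := lt_of_lt_of_le one_pos (hz_one_le z)

lemma hz_summable {k : ℕ} (hk : 3 ≤ k) : Summable fun z : ℚ => 1 / hz z ^ k := by
  have h1 := EisensteinSeries.summable_one_div_norm_rpow (k := (k : ℝ)) (by
    have : (3 : ℝ) ≤ k := by exact_mod_cast hk
    linarith)
  have hinj : Function.Injective (fun z : ℚ => (![z.num, (z.den : ℤ)] : Fin 2 → ℤ)) := by
    intro z z' h
    have e1 := congrFun h 0
    have e2 := congrFun h 1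
    simp only [Matrix.cons_val_zero, Matrix.cons_val_one] at e1 e2
    exact Rat.ext e1 (by exact_mod_cast e2)
  refine (h1.comp_injective hinj).congr fun z => ?_
  simp only [Function.comp_apply]
  rw [Real.rpow_neg (norm_nonneg _), Real.rpow_natCast, one_div, EisensteinSeries.norm_eq_max_natAbs]
  unfold hz
  simp only [Matrix.cons_val_zero, Matrix.cons_val_one]
  rw [Nat.cast_max, Nat.cast_natAbs, Nat.cast_natAbs]
  push_cast
  rfl

variable {ε : Type} [Fintype ε] [DecidableEq ε] {d : ℕ}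

/-- the zeros of a good vector -/
lemma zeros_card (hd : 2 ≤ d) {w : ε ⊕ Fin (d + 1) → ℤ} (hw : Gd w) :
    ∃ F : Finset ℚ, F.card ≤ d ∧ ∀ z : ℚ, ell z.num (z.den : ℤ) w = 0 → z ∈ F := by
  classical
  obtain ⟨Q, hQ⟩ : ∃ Q : Polynomial ℚ, Q = ∑ i : Fin (d + 1), Polynomial.C ((w (Sum.inr i) : ℤ) : ℚ) *
    Polynomial.X ^ (i : ℕ) - Polynomial.C (((∑ j, w (Sum.inl j) : ℤ)) : ℚ) * Polynomial.X := ⟨_, rfl⟩
  have hcoef : ∀ n : ℕ, Q.coeff n = (if h : n < d + 1 then ((w (Sum.inr ⟨n, h⟩) : ℤ) : ℚ) else 0) -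
      (if n = 1 then (((∑ j, w (Sum.inl j) : ℤ)) : ℚ) else 0) := by
    intro n
    rw [hQ, Polynomial.coeff_sub, Polynomial.finsetSum_coeff, Polynomial.coeff_C_mul, Polynomial.coeff_X]
    congr 1
    · simp only [Polynomial.coeff_C_mul, Polynomial.coeff_X_pow]
      split_ifs with h
      · rw [Finset.sum_eq_single ⟨n, h⟩]
        · simp
        · intro i _ hi
          rw [if_neg, mul_zero]
          intro h1
          exact hi (Fin.ext h1.symm)
        · intro h1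
          exact absurd (mem_univ _) h1
      · refine Finset.sum_eq_zero fun i _ => ?_
        rw [if_neg (by omega), mul_zero]
    · by_cases h : n = 1
      · rw [if_pos h, if_pos h.symm, mul_one]
      · rw [if_neg h, if_neg (Ne.symm h), mul_zero]
  have hne : Q ≠ 0 := by
    intro h0
    have h1 := hcoef d
    rw [h0, Polynomial.coeff_zero, dif_pos (Nat.lt_succ_self d), if_neg (by omega), sub_zero] at h1
    apply hw.2
    have h2 : (w (Sum.inr (Fin.last d)) : ℚ) = 0 := h1.symm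
    exact_mod_cast h2
  have hdeg : Q.natDegree ≤ d := by
    rw [Polynomial.natDegree_le_iff_coeff_eq_zero]
    intro n hn
    rw [hcoef, dif_neg (by omega), if_neg (by omega), sub_zero]
  refine ⟨Q.roots.toFinset, (Multiset.toFinset_card_le _).trans ((Polynomial.card_roots' Q).trans hdeg),
    fun z hz0 => ?_⟩
  rw [Multiset.mem_toFinset, Polynomial.mem_roots hne, Polynomial.IsRoot.def]
  have hq : (((z.den : ℤ) : ℚ)) ≠ 0 := by exact_mod_cast z.den_nz
  have hzq : z * ((z.den : ℤ) : ℚ) = ((z.num : ℤ) : ℚ) := by exact_mod_cast Rat.mul_den_eq_num z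
  have h3 : Q.eval z * ((z.den : ℤ) : ℚ) ^ d = ((ell z.num (z.den : ℤ) w : ℤ) : ℚ) := by
    rw [ell_cast, ell_eq hzq (by omega), hQ]
    simp only [Polynomial.eval_sub, Polynomial.eval_finsetSum, Polynomial.eval_mul, Polynomial.eval_C,
      Polynomial.eval_pow, Polynomial.eval_X]
    push_cast
    rfl
  rw [hz0, Int.cast_zero] at h3
  exact (mul_eq_zero.1 h3).resolve_right (pow_ne_zero _ hq)

/-- the weight of a rational number -/
noncomputable def wz (Ω : Set (ε ⊕ Fin (d + 1) → ℝ)) (z : ℚ) : ℝ :=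
  WV (z.num : ℝ) ((z.den : ℤ) : ℝ) Ω

lemma wz_nonneg (Ω : Set (ε ⊕ Fin (d + 1) → ℝ)) (z : ℚ) : 0 ≤ wz Ω z := WV_nonneg _ _

lemma wz_le {Ω : Set (ε ⊕ Fin (d + 1) → ℝ)} (hb : ∀ w ∈ Ω, ∀ o, |w o| ≤ 1) (z : ℚ) :
    wz Ω z ≤ 2 ^ Fintype.card ε * (2 * cc ε d) ^ d * (1 / hz z ^ d) := by
  refine (WV_le hb (hz_pos z)).trans (le_of_eq ?_)
  unfold hz
  ring

lemma wz_summable (hd : 3 ≤ d) {Ω : Set (ε ⊕ Fin (d + 1) → ℝ)} (hb : ∀ w ∈ Ω, ∀ o, |w o| ≤ 1) :
    Summable (wz Ω) :=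
  Summable.of_nonneg_of_le (wz_nonneg Ω) (wz_le hb) ((hz_summable hd).mul_left _)

/-- positive weights -/
lemma wz_pos (hd : 1 ≤ d) {Ω : Set (ε ⊕ Fin (d + 1) → ℝ)} (hb : ∀ w ∈ Ω, ∀ o, |w o| ≤ 1)
    {w : ε ⊕ Fin (d + 1) → ℝ} (hw : w ∈ interior Ω) {z : ℚ}
    (h0 : ∑ i : Fin (d + 1), w (Sum.inr i) * (z : ℝ) ^ (i : ℕ) = (∑ j, w (Sum.inl j)) * z) :
    0 < wz Ω z := by
  have hq : (((z.den : ℤ) : ℝ)) ≠ 0 := by exact_mod_cast z.den_nz
  have hzq : (z : ℝ) * ((z.den : ℤ) : ℝ) = ((z.num : ℤ) : ℝ) := by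
    have : z * ((z.den : ℤ) : ℚ) = ((z.num : ℤ) : ℚ) := by exact_mod_cast Rat.mul_den_eq_num z
    exact_mod_cast congrArg (fun q : ℚ => (q : ℝ)) this
  have h1 : ell (z.num : ℝ) ((z.den : ℤ) : ℝ) w = 0 := by
    rw [ell_eq hzq hd, h0, sub_self, zero_mul]
  obtain ⟨u, hu⟩ := cv_surj hq ⟨0, 1 / ((z.den : ℤ) : ℝ), by field_simp; simp⟩ hd h1
  have hopen : IsOpen (cv (z.num : ℝ) ((z.den : ℤ) : ℝ) ⁻¹' interior Ω :
      Set (ε ⊕ Fin d → ℝ)) := isOpen_interior.preimage (cv_cont _ _)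
  have hne : (cv (z.num : ℝ) ((z.den : ℤ) : ℝ) ⁻¹' interior Ω : Set (ε ⊕ Fin d → ℝ)).Nonempty :=
    ⟨u, by rw [Set.mem_preimage, hu]; exact hw⟩
  have hpos := hopen.measure_pos volume hne
  unfold wz WV
  have hfin : volume (body (z.num : ℝ) ((z.den : ℤ) : ℝ) Ω) ≠ ⊤ :=
    (lt_of_le_of_lt (measure_mono (body_sub hb (hz_pos z))) (bx_fin _ _)).ne
  rw [measureReal_def, ENNReal.toReal_pos_iff]
  refine ⟨lt_of_lt_of_le hpos (measure_mono ?_), hfin.lt_top⟩
  intro x hx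
  have h1 : cv (z.num : ℝ) ((z.den : ℤ) : ℝ) x ∈ interior Ω := hx
  have h2 : cv (z.num : ℝ) ((z.den : ℤ) : ℝ) x ∈ Ω := interior_subset h1
  exact h2

/-- the law -/
theorem gen_law (hd : 4 ≤ d) : ∃ C : ℝ, 0 ≤ C ∧
    ∀ Ω : Set (ε ⊕ Fin (d + 1) → ℝ), Convex ℝ Ω → IsClosed Ω → (∀ w ∈ Ω, ∀ o, |w o| ≤ 1) →
    ∀ H : ℕ, 1 ≤ H → ∀ (E : ℚ → (ε ⊕ Fin (d + 1) → ℤ) → Prop) (Bad : (ε ⊕ Fin (d + 1) → ℤ) → Prop)
      (B : ℝ), (∀ z w, E z w → ell z.num (z.den : ℤ) w = 0 ∧ Gd w) →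
      (∀ z w, ell z.num (z.den : ℤ) w = 0 → Gd w → ¬ E z w → Bad w) →
      (∀ z z' w, E z w → E z' w → z = z') →
      ((Set.ncard {w : ε ⊕ Fin (d + 1) → ℤ | (∀ o, |w o| ≤ (H : ℤ)) ∧ Gd w ∧ Bad w} : ℝ) ≤
        B * (H : ℝ) ^ (Fintype.card ε + d - 1)) → ∀ A : Set ℚ,
      |(Set.ncard {w : ε ⊕ Fin (d + 1) → ℤ | (fun o => (w o : ℝ) / H) ∈ Ω ∧ ∃ z ∈ A, E z w} : ℝ) -
        (∑' z, A.indicator (wz Ω) z) * (H : ℝ) ^ (Fintype.card ε + d)| ≤
        (C + d * B) * (H : ℝ) ^ (Fintype.card ε + d - 1) := by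
  classical
  obtain ⟨C₁, hC₁⟩ : ∃ C₁ : ℝ, C₁ = 2 * ((Fintype.card ε + d) * (3 ^ Fintype.card ε *
    (5 * (cc ε d : ℝ)) ^ d)) + 2 ^ Fintype.card ε * (2 * (cc ε d : ℝ)) ^ d := ⟨_, rfl⟩
  have hC₁0 : 0 ≤ C₁ := by rw [hC₁]; positivity
  have hsumm := hz_summable (k := d - 1) (by omega)
  obtain ⟨S, hS⟩ : ∃ S : ℝ, S = ∑' z : ℚ, 1 / hz z ^ (d - 1) := ⟨_, rfl⟩
  have hS0 : 0 ≤ S := by
    rw [hS]
    exact tsum_nonneg fun z => by have := hz_pos z; positivity
  refine ⟨C₁ * S, by positivity, fun Ω hc hcl hb H hH E Bad B hE1 hE2 hE3 hBad A => ?_⟩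
  have hH1 : (1 : ℝ) ≤ H := by exact_mod_cast hH
  have hH0 : (0 : ℝ) < H := by linarith
  obtain ⟨n, hn⟩ : ∃ n : ℕ, n = Fintype.card ε + d := ⟨_, rfl⟩
  rw [← hn] at hBad ⊢
  have hn1 : n - 1 + 1 = n := by omega
  obtain ⟨X, hX⟩ : ∃ X : ℝ, X = (H : ℝ) ^ (n - 1) := ⟨_, rfl⟩
  have hX0 : 0 < X := by rw [hX]; positivity
  have hXn : (H : ℝ) ^ n = X * H := by rw [hX, ← pow_succ, hn1]
  rw [← hX] at hBad ⊢
  have hfin : {w : ε ⊕ Fin (d + 1) → ℤ | (fun o => (w o : ℝ) / H) ∈ Ω}.Finite := by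
    apply (Finset.finite_toSet (Fintype.piFinset fun _ : ε ⊕ Fin (d + 1) =>
      Icc (-(H : ℤ)) H)).subset
    intro w hw
    rw [mem_coe, Fintype.mem_piFinset]
    intro o
    rw [mem_Icc, ← abs_le]
    have h2 := hb _ hw o
    rw [abs_div, abs_of_pos hH0, div_le_one hH0] at h2
    exact_mod_cast h2
  obtain ⟨W, hW⟩ : ∃ W : Finset (ε ⊕ Fin (d + 1) → ℤ), W = hfin.toFinset.filter fun w => Gd w :=
    ⟨_, rfl⟩
  have hWmem : ∀ w, w ∈ W ↔ (fun o => (w o : ℝ) / H) ∈ Ω ∧ Gd w := by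
    intro w
    rw [hW, mem_filter, Set.Finite.mem_toFinset]
    rfl
  have hzer : ∀ w : ε ⊕ Fin (d + 1) → ℤ, ∃ F : Finset ℚ, Gd w → F.card ≤ d ∧
      ∀ z : ℚ, ell z.num (z.den : ℤ) w = 0 → z ∈ F := by
    intro w
    by_cases hw : Gd w
    · obtain ⟨F, h1, h2⟩ := zeros_card (by omega) hw
      exact ⟨F, fun _ => ⟨h1, h2⟩⟩
    · exact ⟨∅, fun h => absurd h hw⟩
  choose Zr hZr using hzer
  obtain ⟨F, hF⟩ : ∃ F : Finset ℚ, F = W.biUnion Zr := ⟨_, rfl⟩
  have hFmem : ∀ z w, w ∈ W → ell z.num (z.den : ℤ) w = 0 → z ∈ F := by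
    intro z w hw h0
    rw [hF, mem_biUnion]
    exact ⟨w, hw, (hZr w ((hWmem w).1 hw).2).2 z h0⟩
  -- the counts
  obtain ⟨g, hg⟩ : ∃ g : ℚ → Finset (ε ⊕ Fin (d + 1) → ℤ), g = fun z =>
    W.filter fun w => ell z.num (z.den : ℤ) w = 0 := ⟨_, rfl⟩
  obtain ⟨e, he⟩ : ∃ e : ℚ → Finset (ε ⊕ Fin (d + 1) → ℤ), e = fun z => W.filter fun w => E z w :=
    ⟨_, rfl⟩
  have hgm : ∀ z w, w ∈ g z ↔ w ∈ W ∧ ell z.num (z.den : ℤ) w = 0 := by
    intro z w
    rw [hg]
    simp only [mem_filter]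
  have hem : ∀ z w, w ∈ e z ↔ w ∈ W ∧ E z w := by
    intro z w
    rw [he]
    simp only [mem_filter]
  have heg : ∀ z, e z ⊆ g z := by
    intro z w hw
    rw [hem] at hw
    rw [hgm]
    exact ⟨hw.1, (hE1 z w hw.2).1⟩
  have hgF : ∀ z, z ∉ F → g z = ∅ := by
    intro z hz
    rw [eq_empty_iff_forall_notMem]
    intro w hw
    rw [hgm] at hw
    exact hz (hFmem z w hw.1 hw.2)
  have hgcnt : ∀ z, |((g z).card : ℝ) - wz Ω z * (H : ℝ) ^ n| ≤ C₁ * X * (1 / hz z ^ (d - 1)) := by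
    intro z
    have hcop : IsCoprime z.num (z.den : ℤ) := by
      rw [Int.isCoprime_iff_gcd_eq_one]
      exact z.reduced
    have h1 := cnt_good (d := d) (by omega) hc hcl hb (p := z.num) (q := (z.den : ℤ))
      (by exact_mod_cast z.den_pos) hcop hH
    have h2 : Set.ncard {w : ε ⊕ Fin (d + 1) → ℤ | (fun o => (w o : ℝ) / H) ∈ Ω ∧
        ell z.num (z.den : ℤ) w = 0 ∧ Gd w} = (g z).card := by
      rw [← Set.ncard_coe_finset]
      congr 1
      ext w
      rw [Set.mem_ofPred_eq, mem_coe, hgm, hWmem]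
      tauto
    rw [h2, ← hn] at h1
    refine h1.trans (le_of_eq ?_)
    rw [← hC₁]
    have h3 : max |(z.num : ℝ)| |((z.den : ℤ) : ℝ)| = hz z := rfl
    rw [h3, hXn]
    have h4 := hz_pos z
    have h5 : hz z ^ d = hz z ^ (d - 1) * hz z := by
      rw [← pow_succ]
      congr 1
      omega
    rw [h5]
    field_simp
  -- the bad ones
  have hbadsum : ∑ z ∈ F, ((g z \ e z).card : ℝ) ≤ d * (B * X) := by
    obtain ⟨Bd, hBd⟩ : ∃ Bd : Finset (ε ⊕ Fin (d + 1) → ℤ), Bd = W.filter fun w => Bad w := ⟨_, rfl⟩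
    have h1 : ∑ z ∈ F, (g z \ e z).card ≤ ∑ w ∈ Bd, (Zr w).card := by
      have h2 : ∀ z ∈ F, (g z \ e z).card ≤ ∑ w ∈ Bd, if z ∈ Zr w then 1 else 0 := by
        intro z _
        rw [← card_filter]
        apply card_le_card
        intro w hw
        rw [mem_sdiff, hgm, hem] at hw
        have hG := ((hWmem w).1 hw.1.1).2
        rw [mem_filter, hBd, mem_filter]
        exact ⟨⟨hw.1.1, hE2 z w hw.1.2 hG fun h => hw.2 ⟨hw.1.1, h⟩⟩, (hZr w hG).2 z hw.1.2⟩
      refine (sum_le_sum h2).trans ?_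
      rw [sum_comm]
      refine sum_le_sum fun w _ => ?_
      rw [← card_filter]
      apply card_le_card
      intro z hz
      rw [mem_filter] at hz
      exact hz.2
    have h2 : ∑ w ∈ Bd, (Zr w).card ≤ Bd.card * d := by
      refine sum_le_card_nsmul _ _ _ fun w hw => ?_
      rw [hBd, mem_filter] at hw
      exact (hZr w ((hWmem w).1 hw.1).2).1
    have h3 : (Bd.card : ℝ) ≤ B * X := by
      refine le_trans ?_ hBad
      rw [← Set.ncard_coe_finset]
      have hfin2 : {w : ε ⊕ Fin (d + 1) → ℤ | (∀ o, |w o| ≤ (H : ℤ)) ∧ Gd w ∧ Bad w}.Finite := by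
        apply (Finset.finite_toSet (Fintype.piFinset fun _ : ε ⊕ Fin (d + 1) =>
          Icc (-(H : ℤ)) H)).subset
        intro w hw
        rw [mem_coe, Fintype.mem_piFinset]
        intro o
        rw [mem_Icc, ← abs_le]
        exact hw.1 o
      have h4 : (Bd : Set (ε ⊕ Fin (d + 1) → ℤ)) ⊆ {w : ε ⊕ Fin (d + 1) → ℤ |
          (∀ o, |w o| ≤ (H : ℤ)) ∧ Gd w ∧ Bad w} := by
        intro w hw
        rw [mem_coe, hBd, mem_filter, hWmem] at hw
        refine ⟨fun o => ?_, hw.1.2, hw.2⟩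
        have h2 := hb _ hw.1.1 o
        rw [abs_div, abs_of_pos hH0, div_le_one hH0] at h2
        exact_mod_cast h2
      exact_mod_cast Set.ncard_le_ncard h4 hfin2
    have h4 : (∑ z ∈ F, ((g z \ e z).card : ℝ)) ≤ (Bd.card : ℝ) * d := by exact_mod_cast h1.trans h2
    calc _ ≤ (Bd.card : ℝ) * d := h4
      _ ≤ B * X * d := mul_le_mul_of_nonneg_right h3 (Nat.cast_nonneg _)
      _ = _ := by ring
  -- the left side
  have hN : (Set.ncard {w : ε ⊕ Fin (d + 1) → ℤ | (fun o => (w o : ℝ) / H) ∈ Ω ∧ ∃ z ∈ A, E z w} : ℝ) =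
      ∑' z, A.indicator (fun z => ((e z).card : ℝ)) z := by
    rw [tsum_eq_sum (s := F) (fun z hz => by
      have h1 : e z = ∅ := by
        have := heg z
        rw [hgF z hz] at this
        exact subset_empty.1 this
      by_cases hA : z ∈ A
      · rw [Set.indicator_of_mem hA, h1, card_empty, Nat.cast_zero]
      · rw [Set.indicator_of_notMem hA])]
    have h1 : ∑ z ∈ F, A.indicator (fun z => ((e z).card : ℝ)) z =
        ∑ z ∈ F.filter (· ∈ A), ((e z).card : ℝ) := by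
      rw [sum_filter]
      refine sum_congr rfl fun z _ => ?_
      by_cases hA : z ∈ A
      · rw [Set.indicator_of_mem hA, if_pos hA]
      · rw [Set.indicator_of_notMem hA, if_neg hA]
    rw [h1, ← Nat.cast_sum, ← card_biUnion (by
      intro z _ z' _ hzz
      rw [Function.onFun, Finset.disjoint_left]
      intro w hw hw'
      rw [hem] at hw hw'
      exact hzz (hE3 z z' w hw.2 hw'.2)), ← Set.ncard_coe_finset]
    congr 2
    ext w
    rw [Set.mem_ofPred_eq, mem_coe, mem_biUnion]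
    constructor
    · rintro ⟨h2, z, hzA, hzE⟩
      have h3 := hE1 z w hzE
      have h4 : w ∈ W := (hWmem w).2 ⟨h2, h3.2⟩
      exact ⟨z, mem_filter.2 ⟨hFmem z w h4 h3.1, hzA⟩, (hem z w).2 ⟨h4, hzE⟩⟩
    · rintro ⟨z, hz, hw⟩
      rw [mem_filter] at hz
      rw [hem] at hw
      exact ⟨((hWmem w).1 hw.1).1, z, hz.2, hw.2⟩
  have hsa : Summable fun z => A.indicator (fun z => ((e z).card : ℝ)) z := by
    apply summable_of_ne_finset_zero (s := F)
    intro z hz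
    have h1 : e z = ∅ := by
      have := heg z
      rw [hgF z hz] at this
      exact subset_empty.1 this
    by_cases hA : z ∈ A
    · rw [Set.indicator_of_mem hA, h1, card_empty, Nat.cast_zero]
    · rw [Set.indicator_of_notMem hA]
  have hsb : Summable fun z => A.indicator (wz Ω) z * (H : ℝ) ^ n :=
    ((wz_summable (by omega) hb).indicator A).mul_right _
  rw [hN, ← tsum_mul_right, ← hsa.tsum_sub hsb]
  have hpt : ∀ z, ‖A.indicator (fun z => ((e z).card : ℝ)) z - A.indicator (wz Ω) z * (H : ℝ) ^ n‖ ≤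
      C₁ * X * (1 / hz z ^ (d - 1)) + (if z ∈ F then ((g z \ e z).card : ℝ) else 0) := by
    intro z
    have h0 : 0 ≤ C₁ * X * (1 / hz z ^ (d - 1)) := by
      have := hz_pos z
      positivity
    have h00 : (0 : ℝ) ≤ (if z ∈ F then ((g z \ e z).card : ℝ) else 0) := by
      split_ifs
      · exact Nat.cast_nonneg _
      · exact le_rfl
    by_cases hA : z ∈ A
    · rw [Set.indicator_of_mem hA, Set.indicator_of_mem hA, Real.norm_eq_abs]
      have h1 := hgcnt z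
      have h2 : ((g z).card : ℝ) = (e z).card + (g z \ e z).card := by
        have := card_sdiff_add_card_eq_card (heg z)
        rw [← this]
        push_cast
        ring
      have h3 : (g z \ e z).card = 0 ∨ z ∈ F := by
        by_cases hz : z ∈ F
        · exact Or.inr hz
        · left
          rw [hgF z hz]
          simp
      have h4 : ((g z \ e z).card : ℝ) = (if z ∈ F then ((g z \ e z).card : ℝ) else 0) := by
        by_cases hz : z ∈ F
        · rw [if_pos hz]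
        · rw [if_neg hz]
          rcases h3 with h3 | h3
          · rw [h3, Nat.cast_zero]
          · exact absurd h3 hz
      rw [← h4]
      have h5 : ((e z).card : ℝ) - wz Ω z * (H : ℝ) ^ n =
          (((g z).card : ℝ) - wz Ω z * (H : ℝ) ^ n) - ((g z \ e z).card : ℝ) := by
        rw [h2]
        ring
      rw [h5]
      refine (abs_sub _ _).trans ?_
      have h6 : |((g z \ e z).card : ℝ)| = ((g z \ e z).card : ℝ) := abs_of_nonneg (Nat.cast_nonneg _)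
      rw [h6]
      exact add_le_add h1 le_rfl
    · rw [Set.indicator_of_notMem hA, Set.indicator_of_notMem hA]
      simp only [zero_mul, sub_self, norm_zero]
      linarith
  have hs1 : Summable fun z : ℚ => C₁ * X * (1 / hz z ^ (d - 1)) := hsumm.mul_left _
  have hs2 : Summable fun z : ℚ => (if z ∈ F then ((g z \ e z).card : ℝ) else 0) :=
    summable_of_ne_finset_zero (s := F) fun z hz => if_neg hz
  have h1 := tsum_of_norm_bounded (hs1.add hs2).hasSum hpt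
  rw [Real.norm_eq_abs] at h1
  refine h1.trans ?_
  rw [hs1.tsum_add hs2, tsum_mul_left, ← hS,
    tsum_eq_sum (s := F) (fun z hz => if_neg hz), sum_congr rfl (fun z hz => if_pos hz)]
  calc C₁ * X * S + ∑ z ∈ F, ((g z \ e z).card : ℝ) ≤ C₁ * X * S + d * (B * X) :=
        add_le_add le_rfl hbadsum
    _ = _ := by ring

end Pool.Agent.U46
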