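import Pool.Agent.U46.Asy

set_option autoImplicit false
set_option linter.unusedSectionVars false

/-! The volume `V(x, y)` for large points `(x, y)`. -/

open MeasureTheory Filter Topology Set

namespace Pool.Agent.U46

/-- the pairs `(i, j)` with `1 ≤ i + j ≤ d` -/
abbrev Ex (d : ℕ) : Type :=
  {m : Fin (d + 1) × Fin (d + 1) // 1 ≤ (m.1 : ℕ) + m.2 ∧ (m.1 : ℕ) + m.2 < d + 1}

/-- the pairs `(i, j)` with `1 ≤ i + j < d` -/
abbrev Low (d : ℕ) : Type := {m : Ex d // (m.1.1 : ℕ) + m.1.2 < d}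

/-- the exponents: the large one, the other ones of degree `d`, the ones of smaller degree -/
def exMap (d : ℕ) (hd : 1 ≤ d) : Option (Fin d ⊕ Low d) → Ex d
  | none => ⟨(⟨d, by omega⟩, ⟨0, by omega⟩), by simp only; omega⟩
  | some (Sum.inl k) => ⟨(⟨d - 1 - k, by omega⟩, ⟨k + 1, by omega⟩), by simp only; omega⟩
  | some (Sum.inr m) => m.1

lemma exMap_bij (d : ℕ) (hd : 1 ≤ d) : Function.Bijective (exMap d hd) := by
  constructor
  · intro a b h
    rcases a with _ | k | m <;> rcases b with _ | k' | m'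
    · rfl
    · have h1 := congrArg (fun m : Ex d => (m.1.2 : ℕ)) h
      simp only [exMap] at h1
      omega
    · have h1 := congrArg (fun m : Ex d => (m.1.1 : ℕ) + m.1.2) h
      simp only [exMap] at h1
      have := m'.2
      omega
    · have h1 := congrArg (fun m : Ex d => (m.1.2 : ℕ)) h
      simp only [exMap] at h1
      omega
    · have h1 := congrArg (fun m : Ex d => (m.1.2 : ℕ)) h
      simp only [exMap] at h1
      congr 2
      apply Fin.ext
      omega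
    · have h1 := congrArg (fun m : Ex d => (m.1.1 : ℕ) + m.1.2) h
      simp only [exMap] at h1
      have := m'.2
      omega
    · have h1 := congrArg (fun m : Ex d => (m.1.1 : ℕ) + m.1.2) h
      simp only [exMap] at h1
      have := m.2
      omega
    · have h1 := congrArg (fun m : Ex d => (m.1.1 : ℕ) + m.1.2) h
      simp only [exMap] at h1
      have := m.2
      omega
    · simp only [exMap] at h
      congr 2
      exact Subtype.ext h
  · intro m
    by_cases h1 : (m.1.1 : ℕ) + m.1.2 < d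
    · exact ⟨some (Sum.inr ⟨m, h1⟩), rfl⟩
    · by_cases h2 : (m.1.2 : ℕ) = 0
      · refine ⟨none, ?_⟩
        apply Subtype.ext
        apply Prod.ext
        · apply Fin.ext
          have := m.2
          simp only [exMap]
          omega
        · apply Fin.ext
          simp only [exMap]
          omega
      · refine ⟨some (Sum.inl ⟨m.1.2 - 1, by have := m.2; omega⟩), ?_⟩
        have := m.2
        apply Subtype.ext
        apply Prod.ext
        · apply Fin.ext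
          simp only [exMap]
          omega
        · apply Fin.ext
          simp only [exMap]
          omega

/-- the equivalence -/
noncomputable def exEquiv (d : ℕ) (hd : 1 ≤ d) : Option (Fin d ⊕ Low d) ≃ Ex d :=
  Equiv.ofBijective (exMap d hd) (exMap_bij d hd)

/-- `V(x, y)` -/
noncomputable def VV (d : ℕ) (P : ℤ × ℤ) : ℝ :=
  F (fun m : Ex d => ((P.1 : ℝ) ^ (m.1.1 : ℕ) * (P.2 : ℝ) ^ (m.1.2 : ℕ))) 0 1 1

/-- the function of the slope -/
noncomputable def WW (d : ℕ) (s : ℝ) : ℝ := F (fun k : Fin d => s ^ ((k : ℕ) + 1)) 0 1 1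

lemma WW_abs (d : ℕ) (s : ℝ) : WW d |s| = WW d s :=
  F_abs (fun m => by rw [abs_pow, abs_pow, abs_abs]) 0 1 zero_le_one

lemma WW_nonneg (d : ℕ) (s : ℝ) : 0 ≤ WW d s := F_nonneg _ _ _ _

lemma WW_le (d : ℕ) (s : ℝ) : WW d s ≤ 2 ^ d := by
  have := F_le (fun k : Fin d => s ^ ((k : ℕ) + 1)) 0 1 (zero_le_one' ℝ)
  rw [mul_one, Fintype.card_fin] at this
  exact this

lemma WW_cont (d : ℕ) : Continuous (WW d) := by
  have h1 : Continuous fun s : ℝ => (fun k : Fin d => s ^ ((k : ℕ) + 1)) := by fun_prop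
  exact F_continuous.comp h1

/-- the swap of the exponents -/
def exSwap (d : ℕ) : Ex d ≃ Ex d where
  toFun m := ⟨(m.1.2, m.1.1), by have := m.2; simp only; omega⟩
  invFun m := ⟨(m.1.2, m.1.1), by have := m.2; simp only; omega⟩
  left_inv m := rfl
  right_inv m := rfl

lemma VV_swap (d : ℕ) (x y : ℤ) : VV d (y, x) = VV d (x, y) := by
  unfold VV
  rw [← F_equiv (exSwap d)]
  congr 1
  funext m
  simp only [Function.comp_apply, exSwap, Equiv.coe_fn_mk]
  ring

/-- the number of the exponents of smaller degree -/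
lemma card_low (d : ℕ) (hd : 1 ≤ d) : Fintype.card (Ex d) = 1 + d + Fintype.card (Low d) := by
  have h1 := Fintype.card_congr (exEquiv d hd)
  rw [Fintype.card_option, Fintype.card_sum, Fintype.card_fin] at h1
  omega

lemma one_add_pow_le {x : ℝ} (h0 : 0 ≤ x) (h1 : x ≤ 1) (n : ℕ) :
    (1 + x) ^ n ≤ 1 + (2 ^ n - 1) * x := by
  induction n with
  | zero => simp
  | succ n ih =>
    have h2 : (1 : ℝ) ≤ 2 ^ n := one_le_pow₀ (by norm_num)
    rw [pow_succ, pow_succ]
    calc (1 + x) ^ n * (1 + x) ≤ (1 + (2 ^ n - 1) * x) * (1 + x) := by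
          apply mul_le_mul_of_nonneg_right ih (by linarith)
      _ ≤ 1 + (2 ^ n * 2 - 1) * x := by nlinarith [mul_nonneg (by linarith : (0 : ℝ) ≤ 2 ^ n - 1) h0]

/-- the constant -/
noncomputable def cN (d : ℕ) : ℝ := 2 * Fintype.card (Ex d)

/-- **The volume at a large point, multiplicative form.** -/
lemma VV_main {d : ℕ} (hd : 1 ≤ d) {x y : ℤ} (hx : x ≠ 0) (hxy : |y| ≤ |x|)
    (hbig : 2 * (Fintype.card (Ex d) : ℝ) ≤ |(x : ℝ)|) :
    |VV d (x, y) - 2 ^ (Fintype.card (Low d) + 1) * WW d ((y : ℝ) / x) / |(x : ℝ)| ^ d| ≤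
      2 ^ (Fintype.card (Low d) + 1) * 2 ^ d * (2 ^ Fintype.card (Ex d) * (2 * Fintype.card (Ex d))) /
        |(x : ℝ)| ^ (d + 1) := by
  obtain ⟨n, hn⟩ : ∃ n, n = Fintype.card (Ex d) := ⟨_, rfl⟩
  obtain ⟨l, hl⟩ : ∃ l, l = Fintype.card (Low d) := ⟨_, rfl⟩
  have hnl : n = 1 + d + l := by rw [hn, hl]; exact card_low d hd
  have hn1 : (1 : ℝ) ≤ n := by
    rw [hnl]
    push_cast
    have : (0 : ℝ) ≤ d := Nat.cast_nonneg d
    have : (0 : ℝ) ≤ l := Nat.cast_nonneg l
    linarith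
  rw [← hn] at hbig ⊢
  rw [← hl]
  have hx' : (x : ℝ) ≠ 0 := by exact_mod_cast hx
  have hX0 : 0 < |(x : ℝ)| := abs_pos.2 hx'
  have hX1 : (1 : ℝ) ≤ |(x : ℝ)| := by linarith
  obtain ⟨X, hX⟩ : ∃ X, X = |(x : ℝ)| := ⟨_, rfl⟩
  rw [← hX] at hX0 hX1 hbig ⊢
  have hs : |(y : ℝ) / x| ≤ 1 := by
    rw [abs_div, div_le_one (by rw [← hX]; exact hX0)]
    exact_mod_cast hxy
  -- the coefficients
  obtain ⟨c, hc⟩ : ∃ c : Option (Fin d ⊕ Low d) → ℝ, c = fun o =>
    (x : ℝ) ^ ((exMap d hd o).1.1 : ℕ) * (y : ℝ) ^ ((exMap d hd o).1.2 : ℕ) := ⟨_, rfl⟩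
  obtain ⟨c', hc'⟩ : ∃ c' : Fin d ⊕ Low d → ℝ, c' =
    Sum.elim (fun k : Fin d => ((y : ℝ) / x) ^ ((k : ℕ) + 1)) fun _ => 0 := ⟨_, rfl⟩
  have hV : VV d (x, y) = F c 0 1 1 := by
    unfold VV
    rw [← F_equiv (exEquiv d hd), hc]
    rfl
  have hc0 : c none = (x : ℝ) ^ d := by
    rw [hc]
    simp [exMap]
  have hcn : |c none| = X ^ d := by rw [hc0, abs_pow, hX]
  have hF' : F c' 0 1 1 = WW d ((y : ℝ) / x) * 2 ^ l := by
    rw [hc', F_sum_zero _ _ _ zero_le_one, ← hl, mul_one]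
    rfl
  have hsum : ∑ i, |c (some i) / c none - c' i| ≤ l / X := by
    rw [Fintype.sum_sum_type]
    have h1 : ∑ k : Fin d, |c (some (Sum.inl k)) / c none - c' (Sum.inl k)| = 0 := by
      apply Finset.sum_eq_zero
      intro k _
      rw [abs_eq_zero, hc0, hc', hc, sub_eq_zero]
      simp only [exMap, Sum.elim_inl]
      have hk := k.2
      have h2 : (x : ℝ) ^ d = (x : ℝ) ^ (d - 1 - (k : ℕ)) * (x : ℝ) ^ ((k : ℕ) + 1) := by
        rw [← pow_add]
        congr 1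
        omega
      rw [h2, div_pow, mul_div_mul_left _ _ (pow_ne_zero _ hx')]
    have h2 : ∑ m : Low d, |c (some (Sum.inr m)) / c none - c' (Sum.inr m)| ≤ ∑ _m : Low d, 1 / X := by
      apply Finset.sum_le_sum
      intro m _
      rw [hc0, hc', hc]
      simp only [exMap, Sum.elim_inr, sub_zero]
      rw [abs_div, abs_mul, abs_pow, abs_pow, abs_pow, ← hX]
      have hm := m.2
      have hy : |(y : ℝ)| ≤ X := by
        rw [hX]
        exact_mod_cast hxy
      rw [div_le_div_iff₀ (by positivity) hX0, one_mul]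
      calc X ^ (m.1.1.1 : ℕ) * |(y : ℝ)| ^ (m.1.1.2 : ℕ) * X
          ≤ X ^ (m.1.1.1 : ℕ) * X ^ (m.1.1.2 : ℕ) * X := by gcongr
        _ = X ^ ((m.1.1.1 : ℕ) + (m.1.1.2 : ℕ) + 1) := by ring
        _ ≤ X ^ d := pow_le_pow_right₀ hX1 (by omega)
    rw [h1, zero_add]
    refine h2.trans (le_of_eq ?_)
    rw [Finset.sum_const, Finset.card_univ, ← hl, nsmul_eq_mul]
    ring
  obtain ⟨η, hη⟩ : ∃ η : ℝ, η = n / X := ⟨_, rfl⟩
  have hη1 : η ≤ 1 / 2 := by
    rw [hη, div_le_iff₀ hX0]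
    linarith
  have hη0 : 0 ≤ η := by rw [hη]; positivity
  have hcard : Fintype.card (Fin d ⊕ Low d) ≤ n := by
    rw [Fintype.card_sum, Fintype.card_fin, ← hl]
    omega
  obtain ⟨k1, k2⟩ := F_main c c' (X := X ^ d) (η := η) (by positivity) hcn (by
    have h3 : 1 / X ^ d ≤ 1 / X := by
      apply one_div_le_one_div_of_le hX0
      calc X = X ^ 1 := (pow_one X).symm
        _ ≤ X ^ d := pow_le_pow_right₀ hX1 hd
    have h4 : η = (1 + d + l) / X := by
      rw [hη, hnl]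
      push_cast
      ring
    have h5 : (0 : ℝ) ≤ d / X := by positivity
    have h6 : (1 + d + l) / X = 1 / X + d / X + l / X := by ring
    linarith) hη1
  rw [hF'] at k1 k2
  obtain ⟨G, hG⟩ : ∃ G : ℝ, G = 2 ^ (l + 1) * WW d ((y : ℝ) / x) / X ^ d := ⟨_, rfl⟩
  have hG' : 2 / X ^ d * (WW d ((y : ℝ) / x) * 2 ^ l) = G := by
    rw [hG, pow_succ]
    ring
  rw [hG'] at k1 k2
  have hG0 : 0 ≤ G := by
    rw [hG]
    have := WW_nonneg d ((y : ℝ) / x)
    positivity
  have hGu : G ≤ 2 ^ (l + 1) * 2 ^ d / X ^ d := by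
    rw [hG]
    have := WW_le d ((y : ℝ) / x)
    gcongr
  rw [hV, ← hG]
  have h2n : (1 : ℝ) ≤ 2 ^ n := one_le_pow₀ (by norm_num)
  have up : (1 + 2 * η) ^ Fintype.card (Fin d ⊕ Low d) ≤ 1 + 2 ^ n * (2 * η) := by
    calc (1 + 2 * η) ^ Fintype.card (Fin d ⊕ Low d) ≤ (1 + 2 * η) ^ n :=
          pow_le_pow_right₀ (by linarith) hcard
      _ ≤ 1 + (2 ^ n - 1) * (2 * η) := one_add_pow_le (by linarith) (by linarith) n
      _ ≤ _ := by nlinarith
  have lo : 1 - 2 ^ n * (2 * η) ≤ (1 - 2 * η) ^ Fintype.card (Fin d ⊕ Low d) := by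
    have h7 := one_add_mul_le_pow (a := -(2 * η)) (by linarith) (Fintype.card (Fin d ⊕ Low d))
    have h8 : (Fintype.card (Fin d ⊕ Low d) : ℝ) ≤ 2 ^ n := by
      have h9 : Fintype.card (Fin d ⊕ Low d) ≤ 2 ^ n := hcard.trans Nat.lt_two_pow_self.le
      exact_mod_cast h9
    have h10 : 1 + -(2 * η) = 1 - 2 * η := by ring
    rw [h10] at h7
    refine le_trans ?_ h7
    nlinarith
  have hfin : |F c 0 1 1 - G| ≤ 2 ^ n * (2 * η) * G := by
    rw [abs_le]
    constructor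
    · have := mul_le_mul_of_nonneg_right lo hG0
      linarith
    · have := mul_le_mul_of_nonneg_right up hG0
      linarith
  refine hfin.trans ?_
  calc 2 ^ n * (2 * η) * G ≤ 2 ^ n * (2 * η) * (2 ^ (l + 1) * 2 ^ d / X ^ d) := by gcongr
    _ = 2 ^ (l + 1) * 2 ^ d * (2 ^ n * (2 * n)) / X ^ (d + 1) := by
        rw [hη, pow_succ X d]
        field_simp

/-- the homogeneous density -/
noncomputable def GG (d : ℕ) (z : ℝ × ℝ) : ℝ :=
  2 ^ (Fintype.card (Low d) + 1) * WW d (min |z.1| |z.2| / max |z.1| |z.2|) / max |z.1| |z.2| ^ d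

lemma GG_nonneg (d : ℕ) (z : ℝ × ℝ) : 0 ≤ GG d z := by
  unfold GG
  have := WW_nonneg d (min |z.1| |z.2| / max |z.1| |z.2|)
  have : 0 ≤ max |z.1| |z.2| := (abs_nonneg z.1).trans (le_max_left _ _)
  positivity

lemma GG_le (d : ℕ) (z : ℝ × ℝ) :
    GG d z ≤ 2 ^ (Fintype.card (Low d) + 1) * 2 ^ d / max |z.1| |z.2| ^ d := by
  unfold GG
  have := WW_le d (min |z.1| |z.2| / max |z.1| |z.2|)
  have : 0 ≤ max |z.1| |z.2| := (abs_nonneg z.1).trans (le_max_left _ _)
  gcongr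

/-- the norm of an integer point -/
noncomputable def nm (P : ℤ × ℤ) : ℝ := max |(P.1 : ℝ)| |(P.2 : ℝ)|

lemma nm_one {P : ℤ × ℤ} (hP : P ≠ 0) : 1 ≤ nm P := by
  unfold nm
  rw [le_max_iff]
  by_contra h
  push Not at h
  apply hP
  have h1 : |P.1| < 1 := by exact_mod_cast h.1
  have h2 : |P.2| < 1 := by exact_mod_cast h.2
  rw [Int.abs_lt_one_iff] at h1 h2
  exact Prod.ext h1 h2

/-- the constant of the next lemma -/
noncomputable def cV (d : ℕ) : ℝ :=
  2 ^ (Fintype.card (Low d) + 1) * 2 ^ d * (2 ^ Fintype.card (Ex d) * (2 * Fintype.card (Ex d))) +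
  (2 ^ Fintype.card (Ex d) + 2 ^ (Fintype.card (Low d) + 1) * 2 ^ d) *
    (2 * Fintype.card (Ex d)) ^ (d + 1)

lemma cV_nonneg (d : ℕ) : 0 ≤ cV d := by unfold cV; positivity

lemma VV_le (d : ℕ) (P : ℤ × ℤ) : VV d P ≤ 2 ^ Fintype.card (Ex d) := by
  have := F_le (fun m : Ex d => ((P.1 : ℝ) ^ (m.1.1 : ℕ) * (P.2 : ℝ) ^ (m.1.2 : ℕ))) 0 1
    (zero_le_one' ℝ)
  rw [mul_one] at this
  exact this

lemma VV_nonneg (d : ℕ) (P : ℤ × ℤ) : 0 ≤ VV d P := F_nonneg _ _ _ _

/-- **The volume at a large point.** -/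
theorem VV_asymp {d : ℕ} (hd : 1 ≤ d) {P : ℤ × ℤ} (hP : P ≠ 0) :
    |VV d P - GG d ((P.1 : ℝ), (P.2 : ℝ))| ≤ cV d / nm P ^ (d + 1) := by
  obtain ⟨x, y⟩ := P
  have h1 := nm_one hP
  obtain ⟨A, hA⟩ : ∃ A : ℝ, A = 2 ^ (Fintype.card (Low d) + 1) * 2 ^ d *
    (2 ^ Fintype.card (Ex d) * (2 * Fintype.card (Ex d))) := ⟨_, rfl⟩
  obtain ⟨B, hB⟩ : ∃ B : ℝ, B = (2 ^ Fintype.card (Ex d) + 2 ^ (Fintype.card (Low d) + 1) * 2 ^ d) *
    (2 * Fintype.card (Ex d)) ^ (d + 1) := ⟨_, rfl⟩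
  have hA0 : 0 ≤ A := by rw [hA]; positivity
  have hB0 : 0 ≤ B := by rw [hB]; positivity
  have hcV : cV d = A + B := by rw [hA, hB]; rfl
  rw [hcV]
  by_cases hbig : 2 * (Fintype.card (Ex d) : ℝ) ≤ nm (x, y)
  · have hAB : A / nm (x, y) ^ (d + 1) ≤ (A + B) / nm (x, y) ^ (d + 1) := by gcongr; linarith
    refine le_trans ?_ hAB
    rcases le_total |y| |x| with hxy | hxy
    · have hxy' : |(y : ℝ)| ≤ |(x : ℝ)| := by exact_mod_cast hxy
      have hnm : nm (x, y) = |(x : ℝ)| := by unfold nm; exact max_eq_left hxy'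
      have hx : x ≠ 0 := by
        rintro rfl
        rw [hnm] at h1
        norm_num at h1
      rw [hnm] at hbig ⊢
      have h2 := VV_main hd hx hxy hbig
      have h3 : GG d ((x : ℝ), (y : ℝ)) =
          2 ^ (Fintype.card (Low d) + 1) * WW d ((y : ℝ) / x) / |(x : ℝ)| ^ d := by
        unfold GG
        simp only
        rw [max_eq_left hxy', min_eq_right hxy', ← abs_div, WW_abs]
      rw [hA]
      simp only
      rw [h3]
      exact h2
    · have hxy' : |(x : ℝ)| ≤ |(y : ℝ)| := by exact_mod_cast hxy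
      have hnm : nm (x, y) = |(y : ℝ)| := by unfold nm; exact max_eq_right hxy'
      have hy : y ≠ 0 := by
        rintro rfl
        rw [hnm] at h1
        norm_num at h1
      rw [hnm] at hbig ⊢
      have h2 := VV_main hd hy hxy hbig
      have h3 : GG d ((x : ℝ), (y : ℝ)) =
          2 ^ (Fintype.card (Low d) + 1) * WW d ((x : ℝ) / y) / |(y : ℝ)| ^ d := by
        unfold GG
        simp only
        rw [max_eq_right hxy', min_eq_left hxy', ← abs_div, WW_abs]
      rw [hA]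
      simp only
      rw [h3, ← VV_swap]
      exact h2
  · rw [not_le] at hbig
    have hAB : B / nm (x, y) ^ (d + 1) ≤ (A + B) / nm (x, y) ^ (d + 1) := by gcongr; linarith
    refine le_trans ?_ hAB
    have hpos : 0 < nm (x, y) ^ (d + 1) := by positivity
    rw [le_div_iff₀ hpos]
    have h2 : |VV d (x, y) - GG d ((x : ℝ), (y : ℝ))| ≤
        2 ^ Fintype.card (Ex d) + 2 ^ (Fintype.card (Low d) + 1) * 2 ^ d := by
      refine (abs_sub _ _).trans ?_
      rw [abs_of_nonneg (VV_nonneg _ _), abs_of_nonneg (GG_nonneg _ _)]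
      apply add_le_add (VV_le _ _)
      refine (GG_le _ _).trans ?_
      have h3 : max |(x : ℝ)| |(y : ℝ)| = nm (x, y) := rfl
      simp only
      rw [h3]
      apply div_le_self (by positivity)
      exact one_le_pow₀ h1
    rw [hB]
    have h4 : nm (x, y) ^ (d + 1) ≤ (2 * (Fintype.card (Ex d) : ℝ)) ^ (d + 1) :=
      pow_le_pow_left₀ (by linarith) hbig.le _
    exact mul_le_mul h2 h4 hpos.le (by positivity)

/-- the density is continuous away from the origin -/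
lemma GG_cont (d : ℕ) {z : ℝ × ℝ} (hz : z ≠ 0) : ContinuousAt (GG d) z := by
  have h1 : 0 < max |z.1| |z.2| := by
    rw [lt_max_iff]
    by_contra h
    push Not at h
    apply hz
    have h2 : z.1 = 0 := abs_nonpos_iff.1 h.1
    have h3 : z.2 = 0 := abs_nonpos_iff.1 h.2
    exact Prod.ext h2 h3
  have h4 : ContinuousAt (fun z : ℝ × ℝ => min |z.1| |z.2| / max |z.1| |z.2|) z := by
    apply ContinuousAt.div
    · fun_prop
    · fun_prop
    · exact h1.ne'
  unfold GG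
  apply ContinuousAt.div
  · exact continuousAt_const.mul ((WW_cont d).continuousAt.comp h4)
  · fun_prop
  · exact pow_ne_zero _ h1.ne'

/-- the density is homogeneous -/
lemma GG_hom (d : ℕ) {T : ℝ} (hT : 0 < T) (z : ℝ × ℝ) : T ^ d * GG d (T * z.1, T * z.2) = GG d z := by
  unfold GG
  simp only
  rw [abs_mul, abs_mul, abs_of_pos hT, ← mul_max_of_nonneg _ _ hT.le, ← mul_min_of_nonneg _ _ hT.le,
    mul_div_mul_left _ _ hT.ne', mul_pow]
  field_simp

end Pool.Agent.U46
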