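import Pool.Agent.U46.Gah
import Pool.Agent.N656.PC.Tail

set_option autoImplicit false
set_option maxHeartbeats 4000000
set_option linter.unusedSectionVars false

/-! All polynomials of bounded degree: the tail, uniformly. The proof is the one of
`N656.PC.Tail`, with an explicit threshold. -/

open Finset

namespace Pool.Agent.U46

open Pool.Agent.R414.DN Pool.Agent.R414.DS Pool.Agent.R414.DU Pool.Agent.N656.PC

lemma thr {Kb η R₀ : ℝ} (hK : 2 ≤ Kb) (hη : 0 < η) (hη1 : η ≤ 1) (hR : R₀ = Kb / η ^ 3) :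
    Kb ≤ η ^ 2 * R₀ ∧ Kb ≤ η ^ 3 * R₀ ∧ Kb ≤ η * R₀ ∧ Kb ≤ R₀ := by
  have hK0 : 0 ≤ Kb := by linarith
  have h : ∀ n : ℕ, Kb ≤ Kb / η ^ n := fun n => by
    rw [le_div_iff₀ (by positivity)]
    exact mul_le_of_le_one_right hK0 (pow_le_one₀ hη.le hη1)
  rw [hR]
  refine ⟨?_, ?_, ?_, h 3⟩
  · have e : η ^ 2 * (Kb / η ^ 3) = Kb / η ^ 1 := by field_simp
    rw [e]
    exact h 1
  · exact le_of_eq (by field_simp)
  · have e : η * (Kb / η ^ 3) = Kb / η ^ 2 := by field_simp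
    rw [e]
    exact h 2

/-- **Upper bound for the tail, uniform version.** -/
theorem tail_unif {d : ℕ} (hd : 7 ≤ d) (hRED : S_RED) (hGAH : S_GAHu) :
    ∃ K : ℝ, 1 ≤ K ∧ ∀ T H : ℕ, (K * ((T : ℝ) + 1) ^ (3 * (d - 2))) ^ 16 ≤ (H : ℝ) →
      ∀ S : Finset (Cf d), S ⊆ ibox ↥(I d) H →
      (∀ a ∈ S, ∃ x y : ℤ, Fv (co a) d x y = 0 ∧ T < max x.natAbs y.natAbs) →
      (S.card : ℝ) ≤ KT d / ((T : ℝ) + 1) ^ (d - 2) * (2 * (H : ℝ) + 1) ^ (MM d - 1) := by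
  classical
  obtain ⟨CR, hCR0, hRed⟩ := hRED d (by omega)
  obtain ⟨KG, hKG1, hGah⟩ := hGAH d (by omega)
  obtain ⟨G, hGd⟩ : ∃ G, G = Pool.Agent.H674R3.kG d := ⟨_, rfl⟩
  obtain ⟨N, hN⟩ : ∃ N, LargeC d G N := by
    rw [hGd]
    exact ⟨_, exists_largeC (by omega : 4 ≤ d)⟩
  obtain ⟨C1, hC1⟩ : ∃ C1 : ℝ, C1 = 1 + (4 * d * (d + 1) ^ 2 * 9 ^ d * cS d ^ (d - 1)) + d + N :=
    ⟨_, rfl⟩
  have hC1' : 0 ≤ C1 := by rw [hC1]; exact C1_nonneg d N (cS d)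
  obtain ⟨L₀, hLd⟩ : ∃ L₀ : ℝ, L₀ = G * (Real.log ((d + 1) * MM d) + 2) := ⟨_, rfl⟩
  have hM1 : (1 : ℝ) ≤ (d + 1) * MM d := by
    have h1 : 1 ≤ (d + 1) * MM d := Nat.mul_pos (Nat.succ_pos d) (by have := MM_pos d; omega)
    exact_mod_cast h1
  have hL0 : 0 ≤ L₀ := by
    rw [hLd]
    have := Real.log_nonneg hM1
    positivity
  have hc1 := c1_pos d
  have hK := KN_one (d := d) (le_refl (1 : ℝ))
  have hA20 : 0 < A2 d := by unfold A2; positivity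
  have hC20 := Pool.Agent.N656.PC.C2_nonneg d
  obtain ⟨Kb, hKb⟩ : ∃ Kb : ℝ, Kb = 2 + |K2 d L₀| + 12 * 2 ^ d * A2 d ^ 2 + CR + C1 + KG := ⟨_, rfl⟩
  have hKK : 0 ≤ |K2 d L₀| := abs_nonneg _
  have hAA : 0 ≤ 12 * 2 ^ d * A2 d ^ 2 := by positivity
  refine ⟨Kb, by rw [hKb]; linarith, fun T H hH S hS hz => ?_⟩
  obtain ⟨η, hηd⟩ : ∃ η : ℝ, η = 1 / ((T : ℝ) + 1) ^ (d - 2) := ⟨_, rfl⟩
  have hT1 : (1 : ℝ) ≤ (T : ℝ) + 1 := by linarith [(Nat.cast_nonneg T : (0 : ℝ) ≤ T)]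
  have hη : 0 < η := by rw [hηd]; positivity
  have hη1 : η ≤ 1 := by
    rw [hηd, div_le_one (by positivity)]
    exact one_le_pow₀ hT1
  obtain ⟨R₀, hR⟩ : ∃ R₀ : ℝ, R₀ = Kb * ((T : ℝ) + 1) ^ (3 * (d - 2)) := ⟨_, rfl⟩
  have hRη : R₀ = Kb / η ^ 3 := by
    rw [hR, hηd, div_pow, one_pow, ← pow_mul, mul_comm (d - 2) 3]
    field_simp
  rw [← hR] at hH
  have hKb2 : 2 ≤ Kb := by rw [hKb]; linarith
  have hKb0 : 0 < Kb := by linarith
  obtain ⟨q1, q2, q3, hRKb⟩ := thr hKb2 hη hη1 hRη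
  have r2 : 2 ≤ R₀ := hKb2.trans hRKb
  have r3 : K2 d L₀ ≤ η ^ 2 * R₀ := by
    refine le_trans ?_ q1
    rw [hKb]
    linarith [le_abs_self (K2 d L₀)]
  have r4 : 12 * 2 ^ d * A2 d ^ 2 ≤ η ^ 3 * R₀ := by
    refine le_trans ?_ q2
    rw [hKb]
    linarith
  have r5 : CR ≤ η * R₀ := by
    refine le_trans ?_ q3
    rw [hKb]
    linarith
  have r6 : C1 ≤ η * R₀ := by
    refine le_trans ?_ q3
    rw [hKb]
    linarith
  have r7 : 1 ≤ η * R₀ := le_trans (by linarith) q3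
  have hHR : R₀ ^ 16 ≤ (H : ℝ) := hH
  have hHH₁ : (KG / η) ^ 8 ≤ (H : ℝ) := by
    refine le_trans ?_ hHR
    have h1 : KG / η ≤ R₀ := by
      rw [div_le_iff₀ hη]
      have : KG ≤ Kb := by rw [hKb]; linarith
      linarith
    have h2 : (0 : ℝ) ≤ KG / η := by positivity
    have h3 : (1 : ℝ) ≤ R₀ := by linarith
    calc (KG / η) ^ 8 ≤ R₀ ^ 8 := pow_le_pow_left₀ h2 h1 8
      _ ≤ R₀ ^ 16 := pow_le_pow_right₀ h3 (by norm_num)
  have hH0' : (0 : ℝ) ≤ H := Nat.cast_nonneg H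
  obtain ⟨r, hrd⟩ : ∃ r : ℝ, r = (H : ℝ) ^ ((1 : ℝ) / 16) := ⟨_, rfl⟩
  have hr0' : 0 ≤ r := by rw [hrd]; positivity
  have hr : r ^ 16 = (H : ℝ) := by
    rw [hrd, ← Real.rpow_natCast, ← Real.rpow_mul hH0']
    norm_num
  have hr9 : r ^ 9 = (H : ℝ) ^ ((9 : ℝ) / 16) := by
    rw [hrd, ← Real.rpow_natCast, ← Real.rpow_mul hH0']
    norm_num
  have hr8 : r ^ 8 = (H : ℝ) ^ ((1 : ℝ) / 2) := by
    rw [hrd, ← Real.rpow_natCast, ← Real.rpow_mul hH0']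
    norm_num
  have hRr : R₀ ≤ r := by
    by_contra hcon
    rw [not_le] at hcon
    have h1 : r ^ 16 < R₀ ^ 16 := pow_lt_pow_left₀ hcon hr0' (by norm_num)
    rw [hr] at h1
    linarith
  have hr2 : 2 ≤ r := r2.trans hRr
  have hr1 : 1 ≤ r := by linarith
  have hr0 : 0 < r := by linarith
  have hmonoη : ∀ n : ℕ, η ^ n * R₀ ≤ η ^ n * r := fun n => by gcongr
  have s3 : K2 d L₀ ≤ η ^ 2 * r := r3.trans (hmonoη 2)
  have s4 : 12 * 2 ^ d * A2 d ^ 2 ≤ η ^ 3 * r := r4.trans (hmonoη 3)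
  have hmono1 : η * R₀ ≤ η * r := by gcongr
  have s5 : CR ≤ η * r := r5.trans hmono1
  have s6 : C1 ≤ η * r := r6.trans hmono1
  have s7 : 1 ≤ η * r := r7.trans hmono1
  have hH' : (1 : ℝ) ≤ H := by
    rw [← hr]
    exact one_le_pow₀ hr1
  have hH1 : 1 ≤ H := by exact_mod_cast hH'
  have hX : (1 : ℝ) ≤ 2 * (H : ℝ) + 1 := by linarith
  have hX0 : (0 : ℝ) < 2 * (H : ℝ) + 1 := by linarith
  have hMd := MM_pos d
  have hrH : r ≤ 2 * (H : ℝ) + 1 := by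
    have h1 : r ≤ (H : ℝ) := by
      rw [← hr]
      exact le_self_pow₀ hr1 (by norm_num)
    linarith
  -- the limits
  obtain ⟨Y₀, hY₀⟩ : ∃ Y₀ : ℝ, Y₀ = A2 d * r ^ 52 / η := ⟨_, rfl⟩
  have hY₀0 : 0 < Y₀ := by rw [hY₀]; positivity
  have hY₀η : A2 d * r ^ 52 ≤ η * Y₀ := by
    rw [hY₀]
    apply le_of_eq
    field_simp
  obtain ⟨m, hm⟩ : ∃ m : ℕ, m = ⌊Y₀⌋₊ := ⟨_, rfl⟩
  have hlog0 : 0 ≤ Real.log (Yn d H G : ℝ) := Real.log_natCast_nonneg _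
  have hlog : Real.log (Yn d H G : ℝ) ≤ L₀ * r ^ 8 := by
    rw [hr8, hLd]
    exact log_Yn_le hH1
  have habs : ∀ n : ℤ, |(n : ℝ)| = ((n.natAbs : ℕ) : ℝ) := by
    intro n
    rw [← Int.cast_abs, Int.abs_eq_natAbs, Int.cast_natCast]
  have hbig : ∀ n : ℕ, m < n → Y₀ ≤ (n : ℝ) := by
    intro n hn
    rw [hm] at hn
    exact (Nat.lt_of_floor_lt hn).le
  -- the cover
  obtain ⟨S0, hS0⟩ : ∃ S0, S0 = S.filter (fun a => ∃ x y : ℤ, Fv (co a) d x y = 0 ∧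
    T < max x.natAbs y.natAbs ∧ max x.natAbs y.natAbs ≤ m) := ⟨_, rfl⟩
  obtain ⟨S1, hS1⟩ : ∃ S1, S1 = S.filter (fun a => ∀ i, co a d i = 0) := ⟨_, rfl⟩
  obtain ⟨S2, hS2⟩ : ∃ S2, S2 = S.filter (fun a => (∃ i, co a d i ≠ 0) ∧
    ¬ Irreducible (MvPolynomial.map (Int.castRingHom ℚ) (poly a))) := ⟨_, rfl⟩
  obtain ⟨S3, hS3⟩ : ∃ S3, S3 = S.filter (fun a => ¬ GA (co a) d H (r ^ 9)) := ⟨_, rfl⟩
  obtain ⟨S4, hS4⟩ : ∃ S4, S4 = S.filter (fun a => ¬ GA (co (swV a)) d H (r ^ 9)) := ⟨_, rfl⟩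
  obtain ⟨S5, hS5⟩ : ∃ S5, S5 = S.filter (fun a => GA (co a) d H (r ^ 9) ∧
    ∃ x y : ℤ, Fv (co a) d x y = 0 ∧ |x| ≤ |y| ∧ Y₀ ≤ |(y : ℝ)| ∧
      |(y : ℝ)| ≤ (Yn d H G : ℝ)) := ⟨_, rfl⟩
  obtain ⟨S6, hS6⟩ : ∃ S6, S6 = S.filter (fun a => GA (co (swV a)) d H (r ^ 9) ∧
    ∃ x y : ℤ, Fv (co (swV a)) d x y = 0 ∧ |x| ≤ |y| ∧ Y₀ ≤ |(y : ℝ)| ∧
      |(y : ℝ)| ≤ (Yn d H G : ℝ)) := ⟨_, rfl⟩
  have hsub : S ⊆ S0 ∪ (S1 ∪ (S2 ∪ (excS d H G ∪ (S3 ∪ (S4 ∪ (S5 ∪ S6)))))) := by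
    intro a ha
    rw [hS0, hS1, hS2, hS3, hS4, hS5, hS6]
    simp only [mem_union, mem_filter]
    obtain ⟨x, y, h0, hT⟩ := hz a ha
    by_cases h1 : max x.natAbs y.natAbs ≤ m
    · left
      exact ⟨ha, x, y, h0, hT, h1⟩
    by_cases h2 : ∀ i, co a d i = 0
    · exact Or.inr (Or.inl ⟨ha, h2⟩)
    push Not at h2
    by_cases h3 : Irreducible (MvPolynomial.map (Int.castRingHom ℚ) (poly a))
    swap
    · exact Or.inr (Or.inr (Or.inl ⟨ha, h2, h3⟩))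
    by_cases h4 : max x.natAbs y.natAbs ≤ Yn d H G
    swap
    · right; right; right; left
      rw [mem_excS]
      refine ⟨hS ha, h3, x, y, h0, ?_⟩
      refine lt_of_le_of_lt ?_ (not_le.1 h4)
      unfold Yn
      apply Nat.pow_le_pow_left
      exact Nat.mul_le_mul_left _ (len_poly (hS ha))
    by_cases h5 : GA (co a) d H (r ^ 9)
    swap
    · right; right; right; right; left
      exact ⟨ha, h5⟩
    by_cases h6 : GA (co (swV a)) d H (r ^ 9)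
    swap
    · right; right; right; right; right; left
      exact ⟨ha, h6⟩
    rw [not_le] at h1
    right; right; right; right; right; right
    rcases le_total x.natAbs y.natAbs with h7 | h7
    · left
      rw [max_eq_right h7] at h1 h4
      refine ⟨ha, h5, x, y, h0, ?_, ?_, ?_⟩
      · rw [Int.abs_eq_natAbs, Int.abs_eq_natAbs]
        exact_mod_cast h7
      · rw [habs]
        exact hbig _ h1
      · rw [habs]
        exact_mod_cast h4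
    · right
      rw [max_eq_left h7] at h1 h4
      refine ⟨ha, h6, y, x, ?_, ?_, ?_, ?_⟩
      · rw [Fv_swV]
        exact h0
      · rw [Int.abs_eq_natAbs, Int.abs_eq_natAbs]
        exact_mod_cast h7
      · rw [habs]
        exact hbig _ h1
      · rw [habs]
        exact_mod_cast h4
  obtain ⟨Z, hZ⟩ : ∃ Z : ℝ, Z = (2 * (H : ℝ) + 1) ^ (MM d - 1) := ⟨_, rfl⟩
  have hZ0 : 0 < Z := by rw [hZ]; positivity
  have hZ2 : (2 * (H : ℝ) + 1) ^ (MM d - 2) * r ≤ Z := by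
    have e1 : Z = (2 * (H : ℝ) + 1) ^ (MM d - 2) * (2 * (H : ℝ) + 1) := by
      rw [hZ, ← pow_succ]
      congr 1
      omega
    rw [e1]
    gcongr
  have hlow : ∀ C : ℝ, 0 ≤ C → C ≤ η * r → C * (2 * (H : ℝ) + 1) ^ (MM d - 2) ≤ η * Z := by
    intro C _ hC
    calc C * (2 * (H : ℝ) + 1) ^ (MM d - 2) ≤ (η * r) * (2 * (H : ℝ) + 1) ^ (MM d - 2) := by
          gcongr
      _ = η * ((2 * (H : ℝ) + 1) ^ (MM d - 2) * r) := by ring
      _ ≤ η * Z := by gcongr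
  -- the parts
  have b0 : (S0.card : ℝ) ≤ (24 * 2 ^ d + 1) * η * Z := by
    have h1 := small_tail_all (T := T) (m := m) (by omega : 3 ≤ d) hH1 S0
      (by rw [hS0]; exact (filter_subset _ _).trans hS)
      (by intro a ha; rw [hS0] at ha; exact (mem_filter.1 ha).2)
    refine h1.trans ?_
    have e1 : Z = (2 * (H : ℝ) + 1) ^ d * (2 * (H : ℝ) + 1) ^ (MM d - (d + 1)) := by
      rw [hZ, ← pow_add]
      congr 1
      omega
    have e2 : 2 / ((T : ℝ) + 1) ^ (d - 2) = 2 * η := by rw [hηd]; ring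
    have e3 : 12 * 2 ^ d * (m : ℝ) ^ 2 ≤ η * (2 * (H : ℝ) + 1) ^ d := by
      have h2 : (m : ℝ) ≤ Y₀ := by rw [hm]; exact Nat.floor_le hY₀0.le
      calc 12 * 2 ^ d * (m : ℝ) ^ 2 ≤ 12 * 2 ^ d * Y₀ ^ 2 := by gcongr
        _ = (12 * 2 ^ d * A2 d ^ 2) * r ^ 104 / η ^ 2 := by
            rw [hY₀, div_pow]
            ring
        _ ≤ (η ^ 3 * r) * r ^ 104 / η ^ 2 := by gcongr
        _ = η * r ^ 105 := by
            field_simp
        _ ≤ η * r ^ 112 := by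
            have : r ^ 105 ≤ r ^ 112 := pow_le_pow_right₀ hr1 (by norm_num)
            gcongr
        _ = η * (H : ℝ) ^ 7 := by
            rw [← hr]
            ring
        _ ≤ η * (2 * (H : ℝ) + 1) ^ 7 := by
            gcongr
            linarith
        _ ≤ η * (2 * (H : ℝ) + 1) ^ d := by
            have : (2 * (H : ℝ) + 1) ^ 7 ≤ (2 * (H : ℝ) + 1) ^ d := pow_le_pow_right₀ hX hd
            gcongr
    rw [e2]
    calc 12 * 2 ^ d * (2 * η * (2 * (H : ℝ) + 1) ^ d + (m : ℝ) ^ 2) *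
          (2 * (H : ℝ) + 1) ^ (MM d - (d + 1))
        = (24 * 2 ^ d * η * (2 * (H : ℝ) + 1) ^ d + 12 * 2 ^ d * (m : ℝ) ^ 2) *
          (2 * (H : ℝ) + 1) ^ (MM d - (d + 1)) := by ring
      _ ≤ (24 * 2 ^ d * η * (2 * (H : ℝ) + 1) ^ d + η * (2 * (H : ℝ) + 1) ^ d) *
          (2 * (H : ℝ) + 1) ^ (MM d - (d + 1)) := by gcongr
      _ = _ := by
          rw [e1]
          ring
  have b1 : (S1.card : ℝ) ≤ η * Z := by
    have h1 := card_zero_form S1 (by rw [hS1]; exact (filter_subset _ _).trans hS)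
      (by intro a ha; rw [hS1] at ha; exact (mem_filter.1 ha).2)
    have h2 : (S1.card : ℝ) ≤ (2 * (H : ℝ) + 1) ^ (MM d - (d + 1)) := by exact_mod_cast h1
    refine h2.trans (le_trans ?_ (hlow 1 (by norm_num) s7))
    rw [one_mul]
    exact pow_le_pow_right₀ hX (by omega)
  have b2 : (S2.card : ℝ) ≤ η * Z := by
    have h1 := hRed H hH1 S2 (by rw [hS2]; exact (filter_subset _ _).trans hS)
      (by intro a ha; rw [hS2] at ha; exact (mem_filter.1 ha).2)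
    exact h1.trans (hlow CR hCR0 s5)
  have b2' : ((excS d H G).card : ℝ) ≤ η * Z := by
    have h1 := card_excS hN (by omega : 5 ≤ d) hH1
    rw [← hC1] at h1
    exact h1.trans (hlow C1 hC1' s6)
  have b3 : (S3.card : ℝ) ≤ η * Z := by
    rw [hZ]
    apply hGah η hη hη1 H hHH₁ S3 (by rw [hS3]; exact (filter_subset _ _).trans hS)
    intro a ha
    rw [hS3] at ha
    rw [← hr9]
    exact (mem_filter.1 ha).2
  have b4 : (S4.card : ℝ) ≤ η * Z := by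
    have h1 := hGah η hη hη1 H hHH₁ (S4.image swV) (by
      intro b hb
      rw [mem_image] at hb
      obtain ⟨a, ha, rfl⟩ := hb
      rw [hS4] at ha
      exact swV_mem (hS (mem_filter.1 ha).1)) (by
      intro b hb
      rw [mem_image] at hb
      obtain ⟨a, ha, rfl⟩ := hb
      rw [hS4] at ha
      rw [← hr9]
      exact (mem_filter.1 ha).2)
    rw [card_image_of_injective _ swV_inj, ← hZ] at h1
    exact h1
  have b5 : (S5.card : ℝ) ≤ C2 d * η * Z := by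
    rw [hZ]
    exact mid_small hd hr hr2 hη hη1 hL0 s3 hY₀η hlog0 hlog
      (S := S5) (by rw [hS5]; exact (filter_subset _ _).trans hS)
      (by intro a ha; rw [hS5] at ha; exact (mem_filter.1 ha).2.1)
      (by intro a ha; rw [hS5] at ha; exact (mem_filter.1 ha).2.2)
  have b6 : (S6.card : ℝ) ≤ C2 d * η * Z := by
    have h1 := mid_small hd hr hr2 hη hη1 hL0 s3 hY₀η hlog0 hlog
      (S := S6.image swV) (by
      intro b hb
      rw [mem_image] at hb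
      obtain ⟨a, ha, rfl⟩ := hb
      rw [hS6] at ha
      exact swV_mem (hS (mem_filter.1 ha).1)) (by
      intro b hb
      rw [mem_image] at hb
      obtain ⟨a, ha, rfl⟩ := hb
      rw [hS6] at ha
      exact (mem_filter.1 ha).2.1) (by
      intro b hb
      rw [mem_image] at hb
      obtain ⟨a, ha, rfl⟩ := hb
      rw [hS6] at ha
      exact (mem_filter.1 ha).2.2)
    rw [card_image_of_injective _ swV_inj, ← hZ] at h1
    exact h1
  have hcard := (card_le_card hsub).trans ((card_union_le _ _).trans (add_le_add le_rfl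
    ((card_union_le _ _).trans (add_le_add le_rfl
    ((card_union_le _ _).trans (add_le_add le_rfl
    ((card_union_le _ _).trans (add_le_add le_rfl
    ((card_union_le _ _).trans (add_le_add le_rfl
    ((card_union_le _ _).trans (add_le_add le_rfl (card_union_le _ _)))))))))))))
  have hcard' := (Nat.cast_le (α := ℝ)).2 hcard
  simp only [Nat.cast_add] at hcard'
  have e : KT d / ((T : ℝ) + 1) ^ (d - 2) * (2 * (H : ℝ) + 1) ^ (MM d - 1) =
      (24 * 2 ^ d + 1) * η * Z + η * Z + η * Z + η * Z + η * Z + η * Z + C2 d * η * Z +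
      C2 d * η * Z := by
    rw [← hZ, hηd]
    unfold KT
    ring
  rw [e]
  linarith

end Pool.Agent.U46
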