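import Pool.Agent.U46.Gen
import Pool.Agent.U46.Tail
import Pool.Agent.U46.Dct
import Pool.Agent.N656.PC.Dat
import Pool.Agent.N656.PC.Blk
import Pool.Agent.N415.PC.Red

set_option autoImplicit false
set_option linter.unusedSectionVars false

/-! Plane curves: the limit law with a power saving, and the weights of far away sets. -/

open Filter Topology Finset MeasureTheory

namespace Pool.Agent.U46

open Pool.Agent.N656.LL Pool.Agent.R414.DN Pool.Agent.R414.DU Pool.Agent.N656.PC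

lemma pRED : S_RED := Pool.Agent.N415.PC.t_RED

lemma pGAH : S_GAH := Pool.Agent.N498.PC.t_GAH t_BLK

/-- the data -/
noncomputable def pd {d : ℕ} (hd : 7 ≤ d) : Data := dat0 hd pRED pGAH

theorem pd_rate {d : ℕ} (hd : 7 ≤ d) :
    ∃ C : ℝ, 0 ≤ C ∧ HasRate (pd hd) C ((1 : ℝ) / (48 * ((d : ℝ) - 2))) := by
  classical
  obtain ⟨K₀, hK1, hK⟩ := tail_unif hd pRED (t_GAHu t_BLK)
  have hm : 5 ≤ 48 * (d - 2) := by omega
  obtain ⟨C, hC0, hC⟩ := law_rate (pd hd)
    (R := 3 * Fintype.card (J (d + 1)) * 3 ^ (Fintype.card (J (d + 1)) - 1)) (by positivity)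
    (by
      intro P H hH
      have h1 := cnt_rate (mon (d + 1) P) hH
      have h2 : Set.ncard {a | a ∈ (pd hd).S H ∧ (pd hd).Z a P} = (cnt (mon (d + 1) P) 0 H).ncard :=
        ncard_value P 0 H
      rw [h2]
      exact h1)
    (K := K₀ ^ 16) (one_le_pow₀ hK1) hm
    (by
      intro T H hTH
      have h0 : (K₀ * ((T : ℝ) + 1) ^ (3 * (d - 2))) ^ 16 ≤ (H : ℝ) := by
        refine le_trans (le_of_eq ?_) hTH
        rw [mul_pow, ← pow_mul]
        congr 2
        ring
      have h1 := hK T H h0 ((ibox ↥(I d) H).filter fun a => ∃ x y : ℤ,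
        Fv (co a) d x y = 0 ∧ T < max x.natAbs y.natAbs)
        (filter_subset _ _) (fun a ha => (mem_filter.1 ha).2)
      have h2 : (pd hd).N (Data.big T) H = (((ibox ↥(I d) H).filter fun a => ∃ x y : ℤ,
        Fv (co a) d x y = 0 ∧ T < max x.natAbs y.natAbs).card : ℝ) := by
        unfold Data.N
        rw [← Set.ncard_coe_finset]
        congr 2
        ext a
        simp only [coe_filter, Set.mem_ofPred_eq]
        constructor
        · rintro ⟨h3, P, h4, h5⟩
          exact ⟨h3, P.1, P.2, h5, h4⟩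
        · rintro ⟨h3, x, y, h5, h4⟩
          exact ⟨h3, (x, y), h4, h5⟩
      rw [h2]
      have h3 : (pd hd).n = MM d - 1 := by
        have h4 : (pd hd).n = Fintype.card (J (d + 1)) := rfl
        have := card_J d
        rw [h4]
        omega
      rw [h3]
      exact h1)
  obtain ⟨C', hC'0, hC'⟩ := rate_all hC0 (by omega : 1 ≤ 48 * (d - 2)) hC
  refine ⟨C', hC'0, ?_⟩
  have e : ((48 * (d - 2) : ℕ) : ℝ) = 48 * ((d : ℝ) - 2) := by
    rw [Nat.cast_mul, Nat.cast_sub (by omega : 2 ≤ d)]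
    norm_num
  rwa [e] at hC'

lemma pd_v {d : ℕ} (hd : 7 ≤ d) : (pd hd).v = VV d := by
  funext P
  have h1 : (pd hd).v P = vol fun m => (mon (d + 1) P m : ℝ) := rfl
  rw [h1, vol_eq_F]
  unfold VV mon
  congr 1
  funext m
  push_cast
  rfl

/-- the points in the dilate of a set -/
def Reg (T : ℝ) (A : Set (ℝ × ℝ)) : Set (ℤ × ℤ) := {P | ((P.1 : ℝ) / T, (P.2 : ℝ) / T) ∈ A}

/-- a set bounded away from the origin with a negligible boundary -/
def Good (A : Set (ℝ × ℝ)) : Prop :=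
  MeasurableSet A ∧ volume (frontier A) = 0 ∧ ∃ ρ : ℝ, 0 < ρ ∧ ∀ z ∈ A, ρ ≤ ‖z‖

/-- **The weights of far away sets.** -/
theorem VV_lim {d : ℕ} (hd : 3 ≤ d) {A : Set (ℝ × ℝ)} (hA : Good A) :
    Tendsto (fun T : ℝ => T ^ (d - 2) * ∑' P, (Reg T A).indicator (VV d) P) atTop
      (𝓝 (∫ z in A, GG d z)) := by
  obtain ⟨h1, h2, ρ, hρ, h3⟩ := hA
  obtain ⟨C, hC⟩ : ∃ C : ℝ, C = 2 ^ (Fintype.card (Low d) + 1) * 2 ^ d + cV d := ⟨_, rfl⟩
  have hC0 : 0 ≤ C := by
    rw [hC]
    have := cV_nonneg d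
    positivity
  refine dct (VV d) (GG d) (k := d) (by omega) (C := C) ?_ ?_ h1 h2 hρ h3
  · intro P hP
    have e1 := nm_one hP
    have e2 := VV_asymp (by omega : 1 ≤ d) hP
    have e3 := GG_le d ((P.1 : ℝ), (P.2 : ℝ))
    have e4 := GG_nonneg d ((P.1 : ℝ), (P.2 : ℝ))
    have e5 : max |((P.1 : ℝ), (P.2 : ℝ)).1| |((P.1 : ℝ), (P.2 : ℝ)).2| = nm P := rfl
    rw [e5] at e3
    have e6 : cV d / nm P ^ (d + 1) ≤ cV d / nm P ^ d := by
      apply div_le_div_of_nonneg_left (cV_nonneg d) (by positivity)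
      exact pow_le_pow_right₀ e1 (by omega)
    have e7 : C / nm P ^ d = 2 ^ (Fintype.card (Low d) + 1) * 2 ^ d / nm P ^ d + cV d / nm P ^ d := by
      rw [hC, add_div]
    rw [e7, abs_of_nonneg (VV_nonneg d P)]
    have := (abs_le.1 e2).2
    linarith
  · intro z hz
    have hz0 : 0 < ‖z‖ := norm_pos_iff.2 hz
    have hsc := sc_tendsto z
    have hG : Tendsto (fun T => GG d (sc T z)) atTop (𝓝 (GG d z)) :=
      (GG_cont d hz).tendsto.comp hsc
    have hnorm : Tendsto (fun T => ‖sc T z‖) atTop (𝓝 ‖z‖) := hsc.norm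
    have herr : Tendsto (fun T : ℝ => cV d / ‖sc T z‖ ^ (d + 1) * (1 / T)) atTop (𝓝 0) := by
      have h4 : Tendsto (fun T => cV d / ‖sc T z‖ ^ (d + 1)) atTop (𝓝 (cV d / ‖z‖ ^ (d + 1))) :=
        tendsto_const_nhds.div (hnorm.pow _) (by positivity)
      have h5 : Tendsto (fun T : ℝ => 1 / T) atTop (𝓝 0) := by
        simp only [one_div]
        exact tendsto_inv_atTop_zero
      have h6 := h4.mul h5
      rwa [mul_zero] at h6
    have hdiff : Tendsto (fun T : ℝ => T ^ d * VV d (fl (T • z)) - GG d (sc T z)) atTop (𝓝 0) := by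
      refine squeeze_zero_norm' ?_ herr
      filter_upwards [eventually_gt_atTop 0, hnorm.eventually (lt_mem_nhds hz0)] with T hT hs
      have hnm := nm_sc hT z
      have hnm0 : 0 < nm (fl (T • z)) := by rw [hnm]; positivity
      have hfl : fl (T • z) ≠ 0 := by
        intro h
        rw [h] at hnm0
        simp [nm] at hnm0
      have e1 := VV_asymp (by omega : 1 ≤ d) hfl
      have e2 : GG d (((fl (T • z)).1 : ℝ), ((fl (T • z)).2 : ℝ)) =
          GG d (T * (sc T z).1, T * (sc T z).2) := by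
        congr 1
        unfold sc
        ext
        · simp only
          field_simp
        · simp only
          field_simp
      have e3 := GG_hom d hT (sc T z)
      have e4 : T ^ d * VV d (fl (T • z)) - GG d (sc T z) = T ^ d * (VV d (fl (T • z)) -
          GG d (((fl (T • z)).1 : ℝ), ((fl (T • z)).2 : ℝ))) := by
        rw [mul_sub, e2, e3]
      rw [e4, Real.norm_eq_abs, abs_mul, abs_of_pos (by positivity : 0 < T ^ d)]
      calc T ^ d * |VV d (fl (T • z)) - GG d (((fl (T • z)).1 : ℝ), ((fl (T • z)).2 : ℝ))|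
          ≤ T ^ d * (cV d / nm (fl (T • z)) ^ (d + 1)) := by gcongr
        _ = cV d / ‖sc T z‖ ^ (d + 1) * (1 / T) := by
            rw [hnm, mul_pow, pow_succ T d]
            field_simp
    have h7 := hdiff.add hG
    rw [zero_add] at h7
    refine h7.congr fun T => ?_
    ring

lemma pd_wt {d : ℕ} (hd : 7 ≤ d) (A : Set (ℤ × ℤ)) :
    (pd hd).wt A = ∑' P, A.indicator (VV d) P := by
  unfold Data.wt
  rw [pd_v]

theorem pd_lim {d : ℕ} (hd : 7 ≤ d) {A : Set (ℝ × ℝ)} (hA : Good A) :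
    Tendsto (fun T : ℝ => T ^ (d - 2) * (pd hd).wt (Reg T A)) atTop (𝓝 (∫ z in A, GG d z)) := by
  simp only [pd_wt]
  exact VV_lim (by omega) hA

end Pool.Agent.U46
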