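import Pool.Agent.U46.Par3
import Pool.Agent.R414.EF.Pl

set_option autoImplicit false
set_option linter.unusedSectionVars false
set_option maxHeartbeats 4000000

/-! Polynomials with a preperiodic point of bounded degree: the count for all convex regions. -/

open Finset

namespace Pool.Agent.U46.PM

open Pool.Agent.R414.EB Pool.Agent.R414.EC Pool.Agent.R414.EF

variable {d : ℕ}

/-- the vector with its parts -/
def tp (w : Fin 1 ⊕ Fin (d + 1) → ℤ) : PV d := (w (Sum.inl 0), fun i => w (Sum.inr i))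

lemma tp_inj : Function.Injective (tp : (Fin 1 ⊕ Fin (d + 1) → ℤ) → PV d) := by
  intro v w h
  simp only [tp, Prod.mk.injEq] at h
  funext i
  rcases i with i | i
  · fin_cases i
    exact h.1
  · exact congrFun h.2 i

lemma gd_iff (w : Fin 1 ⊕ Fin (d + 1) → ℤ) : Gd w ↔ IsPol (tp w) := by
  unfold Gd IsPol tp
  rw [Fin.forall_fin_one]

lemma ell_iff (hd : 1 ≤ d) (z : ℚ) (w : Fin 1 ⊕ Fin (d + 1) → ℤ) :
    ell z.num (z.den : ℤ) w = 0 ↔
      ∑ i : Fin (d + 1), (w (Sum.inr i) : ℂ) * (z : ℂ) ^ (i : ℕ) = (w (Sum.inl 0) : ℂ) * z := by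
  have hq : (((z.den : ℤ) : ℚ)) ≠ 0 := by exact_mod_cast z.den_nz
  have hzq : z * ((z.den : ℤ) : ℚ) = ((z.num : ℤ) : ℚ) := by exact_mod_cast Rat.mul_den_eq_num z
  have h1 : ((ell z.num (z.den : ℤ) w : ℤ) : ℚ) = (∑ i : Fin (d + 1), (w (Sum.inr i) : ℚ) * z ^ (i : ℕ) -
      (∑ j, (w (Sum.inl j) : ℚ)) * z) * ((z.den : ℤ) : ℚ) ^ d := by
    rw [ell_cast, ell_eq hzq hd]
  have h2 : ell z.num (z.den : ℤ) w = 0 ↔ ((ell z.num (z.den : ℤ) w : ℤ) : ℚ) = 0 :=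
    Int.cast_eq_zero.symm
  rw [h2, h1, mul_eq_zero, or_iff_left (pow_ne_zero _ hq), sub_eq_zero, Fin.sum_univ_one]
  constructor
  · intro h
    exact_mod_cast congrArg (fun q : ℚ => (q : ℂ)) h
  · intro h
    exact_mod_cast h

lemma cnt_tp (Q : PV d → Prop) (H : ℕ) :
    Set.ncard {w : Fin 1 ⊕ Fin (d + 1) → ℤ | (∀ o, |w o| ≤ (H : ℤ)) ∧ Q (tp w)} =
      ({v | toVec v ∈ vbox d H ∧ Q v} : Set (PV d)).ncard := by
  rw [← Set.ncard_image_of_injective _ (tp_inj (d := d))]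
  congr 1
  ext v
  simp only [Set.mem_image, Set.mem_ofPred_eq, mem_vbox]
  constructor
  · rintro ⟨w, ⟨h1, h2⟩, rfl⟩
    exact ⟨⟨h1 (Sum.inl 0), by simp [toVec], fun i => h1 (Sum.inr i)⟩, h2⟩
  · rintro ⟨⟨h1, -, h3⟩, h4⟩
    refine ⟨Sum.elim ![v.1] v.2, ⟨?_, h4⟩, rfl⟩
    intro i
    rcases i with i | i
    · fin_cases i
      exact h1
    · exact h3 i

/-- `z` is a fixed point and the only preperiodic point of degree at most `D` -/
def En (D : ℕ) (z : ℚ) (w : Fin 1 ⊕ Fin (d + 1) → ℤ) : Prop :=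
  IsPol (tp w) ∧ pol ℂ (tp w) (z : ℂ) = (z : ℂ) ∧ ∀ x, Pre D (tp w) x → x = (z : ℂ)

lemma pLfix (hd : 1 ≤ d) (z : ℚ) (w : Fin 1 ⊕ Fin (d + 1) → ℤ) (hv : IsPol (tp w)) :
    ell z.num (z.den : ℤ) w = 0 ↔ pol ℂ (tp w) (z : ℂ) = (z : ℂ) := by
  rw [ell_iff hd, fix_iff hv.1]
  rfl

/-- **The count for all convex regions.** -/
theorem pol_law (D : ℕ) (hD : 1 ≤ D) : ∃ d₀ : ℕ, ∀ d, d₀ ≤ d → 4 ≤ d ∧ ∃ C : ℝ, 0 ≤ C ∧
    ∀ Ω : Set (Fin 1 ⊕ Fin (d + 1) → ℝ), Convex ℝ Ω → IsClosed Ω → (∀ w ∈ Ω, ∀ o, |w o| ≤ 1) →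
    ∀ H : ℕ, 1 ≤ H →
      (∀ A : Set ℚ, |(Set.ncard {w : Fin 1 ⊕ Fin (d + 1) → ℤ | (fun o => (w o : ℝ) / H) ∈ Ω ∧
        ∃ z ∈ A, En D z w} : ℝ) - (∑' z, A.indicator (wz Ω) z) * (H : ℝ) ^ (d + 1)| ≤
        C * (H : ℝ) ^ d) ∧
      |(Set.ncard {w : Fin 1 ⊕ Fin (d + 1) → ℤ | (fun o => (w o : ℝ) / H) ∈ Ω ∧
        (IsPol (tp w) ∧ ∃ x, Pre D (tp w) x)} : ℝ) - (∑' z, wz Ω z) * (H : ℝ) ^ (d + 1)| ≤
        C * (H : ℝ) ^ d := by
  classical
  obtain ⟨d₂, hd₂⟩ := Pool.Agent.R414.EC.final D 2 hD (by norm_num)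
  refine ⟨d₂ + 4, fun d hd => ⟨by omega, ?_⟩⟩
  obtain ⟨-, C₃, -, -, hC₃, h₃, -⟩ := hd₂ d (by omega)
  obtain ⟨C, hC0, hC⟩ := gen_law (ε := Fin 1) (d := d) (by omega)
  have hBad : ∀ H : ℕ, 1 ≤ H → (Set.ncard {w : Fin 1 ⊕ Fin (d + 1) → ℤ | (∀ o, |w o| ≤ (H : ℤ)) ∧
      Gd w ∧ PreC D 2 (tp w)} : ℝ) ≤ C₃ * (H : ℝ) ^ d := by
    intro H hH
    have h5 := h₃ H hH
    rw [← cnt_tp (fun v => IsPol v ∧ PreC D 2 v)] at h5
    have e1 : d + 2 - 2 = d := by omega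
    rw [e1] at h5
    refine le_trans (le_of_eq ?_) h5
    congr 2
    ext w
    rw [Set.mem_ofPred_eq, Set.mem_ofPred_eq, gd_iff]
  refine ⟨C + d * C₃ + C₃, by positivity, fun Ω hc hcl hb H hH => ?_⟩
  have hH1 : (1 : ℝ) ≤ H := by exact_mod_cast hH
  have hH0 : (0 : ℝ) < H := by linarith
  have hX : (0 : ℝ) < (H : ℝ) ^ d := by positivity
  have hK0 : ∀ (z : ℚ) (w : Fin 1 ⊕ Fin (d + 1) → ℤ), 
      pol ℂ (tp w) (z : ℂ) = (z : ℂ) → Pre D (tp w) (z : ℂ) := fun z w h =>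
    pre_of_fix (rat_deg hD z) h
  have e1 : Fintype.card (Fin 1) + d = d + 1 := by
    rw [Fintype.card_fin]
    omega
  have e2 : Fintype.card (Fin 1) + d - 1 = d := by
    rw [Fintype.card_fin]
    omega
  have hlaw : ∀ A : Set ℚ, |(Set.ncard {w : Fin 1 ⊕ Fin (d + 1) → ℤ | (fun o => (w o : ℝ) / H) ∈ Ω ∧
        ∃ z ∈ A, En D z w} : ℝ) - (∑' z, A.indicator (wz Ω) z) * (H : ℝ) ^ (d + 1)| ≤
        (C + d * C₃) * (H : ℝ) ^ d := by
    intro A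
    have h1 := hC Ω hc hcl hb H hH (En D) (fun w => PreC D 2 (tp w)) C₃
      (fun z w h => ⟨(pLfix (by omega) z w h.1).2 h.2.1, (gd_iff w).2 h.1⟩)
      (fun z w h0 hG hnE => by
        have hv := (gd_iff w).1 hG
        have hfix := (pLfix (by omega) z w hv).1 h0
        have hpre := hK0 z w hfix
        by_contra hcon
        apply hnE
        refine ⟨hv, hfix, fun x hx => ?_⟩
        by_contra hne
        exact hcon (preC_two hpre hx hne))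
      (fun z z' w h h' => by
        have h5 := h'.2.2 _ (hK0 z w h.2.1)
        exact_mod_cast h5)
      (by rw [e2]; exact hBad H hH) A
    rw [e2, e1] at h1
    exact h1
  refine ⟨fun A => (hlaw A).trans ?_, ?_⟩
  · apply mul_le_mul_of_nonneg_right _ hX.le
    linarith
  · have h1 := hlaw Set.univ
    rw [Set.indicator_univ] at h1
    have hfin : ∀ C : (Fin 1 ⊕ Fin (d + 1) → ℤ) → Prop,
        {w : Fin 1 ⊕ Fin (d + 1) → ℤ | (fun o => (w o : ℝ) / H) ∈ Ω ∧ C w}.Finite := by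
      intro C
      apply (Finset.finite_toSet (Fintype.piFinset fun _ : Fin 1 ⊕ Fin (d + 1) =>
        Icc (-(H : ℤ)) H)).subset
      intro w hw
      rw [mem_coe, Fintype.mem_piFinset]
      intro o
      rw [mem_Icc, ← abs_le]
      have h2 := hb _ hw.1 o
      rw [abs_div, abs_of_pos hH0, div_le_one hH0] at h2
      exact_mod_cast h2
    have h2 : (Set.ncard {w : Fin 1 ⊕ Fin (d + 1) → ℤ | (fun o => (w o : ℝ) / H) ∈ Ω ∧
        ∃ z ∈ (Set.univ : Set ℚ), En D z w} : ℝ) ≤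
        Set.ncard {w : Fin 1 ⊕ Fin (d + 1) → ℤ | (fun o => (w o : ℝ) / H) ∈ Ω ∧
        (IsPol (tp w) ∧ ∃ x, Pre D (tp w) x)} := by
      have h3 : {w : Fin 1 ⊕ Fin (d + 1) → ℤ | (fun o => (w o : ℝ) / H) ∈ Ω ∧
          ∃ z ∈ (Set.univ : Set ℚ), En D z w} ⊆
          {w : Fin 1 ⊕ Fin (d + 1) → ℤ | (fun o => (w o : ℝ) / H) ∈ Ω ∧
          (IsPol (tp w) ∧ ∃ x, Pre D (tp w) x)} := by
        rintro w ⟨hw, z, _, hz⟩
        exact ⟨hw, hz.1, _, hK0 z w hz.2.1⟩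
      exact_mod_cast Set.ncard_le_ncard h3 (hfin _)
    have h3 : (Set.ncard {w : Fin 1 ⊕ Fin (d + 1) → ℤ | (fun o => (w o : ℝ) / H) ∈ Ω ∧
        (IsPol (tp w) ∧ ∃ x, Pre D (tp w) x)} : ℝ) ≤
        Set.ncard {w : Fin 1 ⊕ Fin (d + 1) → ℤ | (fun o => (w o : ℝ) / H) ∈ Ω ∧
        ∃ z ∈ (Set.univ : Set ℚ), En D z w} + C₃ * (H : ℝ) ^ d := by
      refine le_trans ?_ (add_le_add le_rfl (hBad H hH))
      have h4 : {w : Fin 1 ⊕ Fin (d + 1) → ℤ | (fun o => (w o : ℝ) / H) ∈ Ω ∧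
          (IsPol (tp w) ∧ ∃ x, Pre D (tp w) x)} ⊆
          {w : Fin 1 ⊕ Fin (d + 1) → ℤ | (fun o => (w o : ℝ) / H) ∈ Ω ∧
          ∃ z ∈ (Set.univ : Set ℚ), En D z w} ∪
          {w : Fin 1 ⊕ Fin (d + 1) → ℤ | (∀ o, |w o| ≤ (H : ℤ)) ∧ Gd w ∧ PreC D 2 (tp w)} := by
        rintro w ⟨hw, hv, x, hx⟩
        by_cases hbad : PreC D 2 (tp w)
        · right
          refine ⟨fun o => ?_, (gd_iff w).2 hv, hbad⟩
          have h2 := hb _ hw o
          rw [abs_div, abs_of_pos hH0, div_le_one hH0] at h2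
          exact_mod_cast h2
        · left
          have huniq : ∀ x', Pre D (tp w) x' → x' = x := by
            intro x' hx'
            by_contra hne
            exact hbad (preC_two hx hx' hne)
          obtain ⟨z, hzw, hrec⟩ := unique_pre hv hx huniq
          subst hzw
          exact ⟨hw, z, Set.mem_univ _, hv, hrec, huniq⟩
      have hfin2 : {w : Fin 1 ⊕ Fin (d + 1) → ℤ | (∀ o, |w o| ≤ (H : ℤ)) ∧ Gd w ∧
          PreC D 2 (tp w)}.Finite := by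
        apply (Finset.finite_toSet (Fintype.piFinset fun _ : Fin 1 ⊕ Fin (d + 1) =>
          Icc (-(H : ℤ)) H)).subset
        intro w hw
        rw [mem_coe, Fintype.mem_piFinset]
        intro o
        rw [mem_Icc, ← abs_le]
        exact hw.1 o
      have h5 := (Set.ncard_le_ncard h4 ((hfin _).union hfin2)).trans (Set.ncard_union_le _ _)
      exact_mod_cast h5
    have e3 : (C + d * C₃ + C₃) * (H : ℝ) ^ d =
        (C + d * C₃) * (H : ℝ) ^ d + C₃ * (H : ℝ) ^ d := by ring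
    have h6 : 0 ≤ C₃ * (H : ℝ) ^ d := by positivity
    rw [abs_le] at h1 ⊢
    rw [e3]
    constructor
    · linarith [h1.1]
    · linarith [h1.2]

end Pool.Agent.U46.PM
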