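import Pool.Agent.N656.LL.Asm

set_option autoImplicit false
set_option linter.unusedSectionVars false

/-! The limit law with a power saving. -/

open Filter Topology Finset

namespace Pool.Agent.U46

open Pool.Agent.N656.LL

lemma exists_level {K : ℝ} (hK : 1 ≤ K) {m : ℕ} (hm : 1 ≤ m) {H : ℕ} (hH : K ≤ H) :
    ∃ T : ℕ, K * ((T : ℝ) + 1) ^ m ≤ H ∧ (H : ℝ) < K * ((T : ℝ) + 2) ^ m := by
  classical
  have hex : ∃ t : ℕ, (H : ℝ) < K * ((t : ℝ) + 1) ^ m := by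
    refine ⟨H, ?_⟩
    have h0 : (0 : ℝ) ≤ H := Nat.cast_nonneg H
    have h1 : (H : ℝ) + 1 ≤ ((H : ℝ) + 1) ^ m := le_self_pow₀ (by linarith) (by omega)
    nlinarith
  have h1 := Nat.find_spec hex
  have h0 : Nat.find hex ≠ 0 := by
    intro h
    rw [h] at h1
    norm_num at h1
    linarith
  obtain ⟨T, hT⟩ : ∃ T, Nat.find hex = T + 1 := ⟨Nat.find hex - 1, by omega⟩
  refine ⟨T, ?_, ?_⟩
  · have h2 := Nat.find_min hex (m := T) (by omega)
    exact not_lt.1 h2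
  · rw [hT] at h1
    have h3 : (((T + 1 : ℕ) : ℝ)) + 1 = (T : ℝ) + 2 := by push_cast; ring
    rw [h3] at h1
    exact h1

lemma card_bx (T : ℕ) : ((bx T).card : ℝ) ≤ 4 * ((T : ℝ) + 1) ^ 2 := by
  unfold bx
  rw [card_product, Int.card_Icc]
  have h1 : ((T : ℤ) + 1 - -(T : ℤ)).toNat = 2 * T + 1 := by omega
  rw [h1]
  push_cast
  have : (0 : ℝ) ≤ T := Nat.cast_nonneg T
  nlinarith

/-- **The limit law with a power saving**, uniformly in the set. -/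
theorem law_rate (D : Data) {R : ℝ} (hR0 : 0 ≤ R)
    (hR : ∀ P (H : ℕ), 1 ≤ H → |(Set.ncard {a | a ∈ D.S H ∧ D.Z a P} : ℝ) - D.v P * (H : ℝ) ^ D.n| ≤
      R * (H : ℝ) ^ (D.n - 1)) {K : ℝ} (hK : 1 ≤ K) {m : ℕ} (hm : 5 ≤ m)
    (ht : ∀ T H : ℕ, K * ((T : ℝ) + 1) ^ m ≤ H → D.N (Data.big T) H ≤
      D.K / ((T : ℝ) + 1) ^ D.k * (2 * (H : ℝ) + 1) ^ D.n) :
    ∃ C : ℝ, 0 ≤ C ∧ ∀ H : ℕ, K ≤ H → ∀ A : Set (ℤ × ℤ),
      |D.N A H - D.wt A * (H : ℝ) ^ D.n| ≤ C * ((H : ℝ) ^ D.n / (H : ℝ) ^ ((1 : ℝ) / m)) := by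
  classical
  have hDK := D.hK
  refine ⟨4 * R + 16 * 3 ^ D.n + D.K * (2 * K) * 3 ^ D.n + D.K * 2 ^ D.n * (2 * K), by positivity,
    fun H hHK A => ?_⟩
  obtain ⟨T, hT1, hT2⟩ := exists_level hK (by omega : 1 ≤ m) hHK
  have hH1 : (1 : ℝ) ≤ H := hK.trans hHK
  have hH0 : (0 : ℝ) < H := by linarith
  have hH1n : 1 ≤ H := by exact_mod_cast hH1
  obtain ⟨h, hh⟩ : ∃ h : ℝ, h = (H : ℝ) ^ ((1 : ℝ) / m) := ⟨_, rfl⟩
  rw [← hh]
  have hm0 : (m : ℝ) ≠ 0 := by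
    have : (5 : ℝ) ≤ m := by exact_mod_cast hm
    linarith
  have hhm : h ^ m = H := by
    rw [hh, ← Real.rpow_natCast, ← Real.rpow_mul hH0.le, one_div, inv_mul_cancel₀ hm0, Real.rpow_one]
  have hh0 : 0 < h := by rw [hh]; positivity
  have hh1 : 1 ≤ h := by
    rw [hh]
    exact Real.one_le_rpow hH1 (by positivity)
  have hT0 : (0 : ℝ) ≤ T := Nat.cast_nonneg T
  -- the size of `T`
  have hTh : (T : ℝ) + 1 ≤ h := by
    by_contra hc
    rw [not_le] at hc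
    have h1 : h ^ m < ((T : ℝ) + 1) ^ m := pow_lt_pow_left₀ hc hh0.le (by omega)
    have h2 : ((T : ℝ) + 1) ^ m ≤ K * ((T : ℝ) + 1) ^ m := le_mul_of_one_le_left (by positivity) hK
    rw [hhm] at h1
    linarith
  have hTh2 : 1 / ((T : ℝ) + 1) ≤ 2 * K / h := by
    have h1 : h < K * ((T : ℝ) + 2) := by
      by_contra hc
      rw [not_lt] at hc
      have h1 : (K * ((T : ℝ) + 2)) ^ m ≤ h ^ m := pow_le_pow_left₀ (by positivity) hc _
      have h2 : K * ((T : ℝ) + 2) ^ m ≤ (K * ((T : ℝ) + 2)) ^ m := by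
        rw [mul_pow]
        apply mul_le_mul_of_nonneg_right _ (by positivity)
        exact le_self_pow₀ hK (by omega)
      rw [hhm] at h1
      linarith
    rw [div_le_div_iff₀ (by positivity) hh0]
    nlinarith
  have hpk : 1 / ((T : ℝ) + 1) ^ D.k ≤ 2 * K / h := by
    refine le_trans ?_ hTh2
    apply one_div_le_one_div_of_le (by positivity)
    exact le_self_pow₀ (by linarith) (by have := D.hk; omega)
  obtain ⟨F, hFT, hFA, hF1, hF2⟩ := D.wt_split A T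
  have hFc : (F.card : ℝ) ≤ 4 * h ^ 2 := by
    have h1 : (F.card : ℝ) ≤ (bx T).card := by exact_mod_cast card_le_card hFT
    have h2 := card_bx T
    have h3 : ((T : ℝ) + 1) ^ 2 ≤ h ^ 2 := pow_le_pow_left₀ (by positivity) hTh 2
    linarith
  obtain ⟨g1, g2⟩ := D.N_finset F H
  obtain ⟨s, hs⟩ : ∃ s : ℝ, s = ∑ P ∈ F, (Set.ncard {a | a ∈ D.S H ∧ D.Z a P} : ℝ) := ⟨_, rfl⟩
  obtain ⟨V, hV⟩ : ∃ V : ℝ, V = ∑ P ∈ F, D.v P := ⟨_, rfl⟩
  obtain ⟨X, hX⟩ : ∃ X : ℝ, X = (H : ℝ) ^ D.n := ⟨_, rfl⟩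
  have hX0 : 0 < X := by rw [hX]; positivity
  rw [← hs] at g1 g2
  rw [← hV] at hF1 hF2
  rw [← hX]
  have hn := D.hn
  have hXn : (H : ℝ) ^ (D.n - 1) * h ^ m = X := by
    rw [hhm, hX, ← pow_succ]
    congr 1
    omega
  -- powers of `h`
  have hpow : ∀ j : ℕ, j + 1 ≤ m → (H : ℝ) ^ (D.n - 1) * h ^ j ≤ X / h := by
    intro j hj
    rw [le_div_iff₀ hh0, mul_assoc, ← pow_succ, ← hXn]
    apply mul_le_mul_of_nonneg_left _ (by positivity)
    exact pow_le_pow_right₀ hh1 hj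
  have hsV : |s - V * X| ≤ 4 * R * (X / h) := by
    rw [hs, hV, sum_mul, ← sum_sub_distrib]
    refine (abs_sum_le_sum_abs _ _).trans ?_
    calc ∑ P ∈ F, |(Set.ncard {a | a ∈ D.S H ∧ D.Z a P} : ℝ) - D.v P * X|
        ≤ ∑ _P ∈ F, R * (H : ℝ) ^ (D.n - 1) := sum_le_sum fun P _ => by rw [hX]; exact hR P H hH1n
      _ = (F.card : ℝ) * (R * (H : ℝ) ^ (D.n - 1)) := by rw [sum_const, nsmul_eq_mul]
      _ ≤ (4 * h ^ 2) * (R * (H : ℝ) ^ (D.n - 1)) :=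
          mul_le_mul_of_nonneg_right hFc (by positivity)
      _ = 4 * R * ((H : ℝ) ^ (D.n - 1) * h ^ 2) := by ring
      _ ≤ 4 * R * (X / h) := mul_le_mul_of_nonneg_left (hpow 2 (by omega)) (by positivity)
  have h3H : 2 * (H : ℝ) + 1 ≤ 3 * H := by linarith
  have hbon : (F.card : ℝ) ^ 2 * (2 * (H : ℝ) + 1) ^ (D.n - 1) ≤ 16 * 3 ^ D.n * (X / h) := by
    have e1 : (F.card : ℝ) ^ 2 ≤ (4 * h ^ 2) ^ 2 := pow_le_pow_left₀ (Nat.cast_nonneg _) hFc 2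
    have e2 : (2 * (H : ℝ) + 1) ^ (D.n - 1) ≤ (3 * (H : ℝ)) ^ (D.n - 1) :=
      pow_le_pow_left₀ (by positivity) h3H _
    have e3 : (3 : ℝ) ^ (D.n - 1) ≤ 3 ^ D.n := pow_le_pow_right₀ (by norm_num) (by omega)
    calc (F.card : ℝ) ^ 2 * (2 * (H : ℝ) + 1) ^ (D.n - 1)
        ≤ (4 * h ^ 2) ^ 2 * (3 * (H : ℝ)) ^ (D.n - 1) :=
          mul_le_mul e1 e2 (by positivity) (by positivity)
      _ = 16 * 3 ^ (D.n - 1) * ((H : ℝ) ^ (D.n - 1) * h ^ 4) := by rw [mul_pow]; ring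
      _ ≤ 16 * 3 ^ D.n * (X / h) := by
          apply mul_le_mul _ (hpow 4 (by omega)) (by positivity) (by positivity)
          linarith
  have htail : D.N (Data.big T) H ≤ D.K * (2 * K) * 3 ^ D.n * (X / h) := by
    refine (ht T H hT1).trans ?_
    have e2 : (2 * (H : ℝ) + 1) ^ D.n ≤ 3 ^ D.n * X := by
      rw [hX, ← mul_pow]
      exact pow_le_pow_left₀ (by positivity) h3H _
    calc D.K / ((T : ℝ) + 1) ^ D.k * (2 * (H : ℝ) + 1) ^ D.n
        = D.K * (1 / ((T : ℝ) + 1) ^ D.k) * (2 * (H : ℝ) + 1) ^ D.n := by ring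
      _ ≤ D.K * (2 * K / h) * (3 ^ D.n * X) := by
          apply mul_le_mul _ e2 (by positivity) (by positivity)
          exact mul_le_mul_of_nonneg_left hpk hDK
      _ = _ := by ring
  have hwt : D.wt (Data.big T) * X ≤ D.K * 2 ^ D.n * (2 * K) * (X / h) := by
    have e1 := D.wt_tail T
    calc D.wt (Data.big T) * X ≤ (D.K * 2 ^ D.n / ((T : ℝ) + 1) ^ D.k) * X :=
          mul_le_mul_of_nonneg_right e1 hX0.le
      _ = D.K * 2 ^ D.n * (1 / ((T : ℝ) + 1) ^ D.k) * X := by ring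
      _ ≤ D.K * 2 ^ D.n * (2 * K / h) * X := by
          apply mul_le_mul_of_nonneg_right _ hX0.le
          exact mul_le_mul_of_nonneg_left hpk (by positivity)
      _ = _ := by ring
  have hN1 : D.N F H ≤ D.N A H := by
    apply D.N_mono
    rw [hFA]
    exact Set.inter_subset_left
  have hN2 : D.N A H ≤ D.N F H + D.N (Data.big T) H := by
    refine le_trans (D.N_mono ?_ H) (D.N_union _ _ H)
    intro P hP
    by_cases hb : P ∈ Data.big T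
    · exact Or.inr hb
    · left
      rw [hFA]
      exact ⟨hP, hb⟩
  have hsV' := abs_le.1 hsV
  have hF1' : D.wt A * X ≤ V * X + D.wt (Data.big T) * X := by
    rw [← add_mul]
    exact mul_le_mul_of_nonneg_right hF1 hX0.le
  have hF2' : V * X ≤ D.wt A * X := mul_le_mul_of_nonneg_right hF2 hX0.le
  have hXh : 0 ≤ X / h := by positivity
  have p1 : 0 ≤ 4 * R * (X / h) := by positivity
  have p2 : 0 ≤ 16 * 3 ^ D.n * (X / h) := by positivity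
  have p3 : 0 ≤ D.K * (2 * K) * 3 ^ D.n * (X / h) := by positivity
  have p4 : 0 ≤ D.K * 2 ^ D.n * (2 * K) * (X / h) := by positivity
  have e : (4 * R + 16 * 3 ^ D.n + D.K * (2 * K) * 3 ^ D.n + D.K * 2 ^ D.n * (2 * K)) * (X / h) =
      4 * R * (X / h) + 16 * 3 ^ D.n * (X / h) + D.K * (2 * K) * 3 ^ D.n * (X / h) +
      D.K * 2 ^ D.n * (2 * K) * (X / h) := by ring
  rw [e, abs_le]
  constructor
  · linarith [hsV'.1]
  · linarith [hsV'.2]

end Pool.Agent.U46
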