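import Pool.Agent.U46.Uni

set_option autoImplicit false
set_option linter.unusedSectionVars false

/-! Sections of cubes by slabs: Fubini, unimodality, and the number of lattice points. -/

open MeasureTheory Filter Topology Set

namespace Pool.Agent.U46

variable {ι κ : Type} [Fintype ι] [Fintype κ]

/-- the part of the cube `[-h, h] ^ ι` where `|s + ∑ u m c m| ≤ a` -/
def KK (c : ι → ℝ) (s a h : ℝ) : Set (ι → ℝ) := {u | (∀ m, |u m| ≤ h) ∧ |s + ∑ m, u m * c m| ≤ a}

lemma KK_closed (c : ι → ℝ) (s a h : ℝ) : IsClosed (KK c s a h) := by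
  have h1 : KK c s a h = (⋂ m, {u : ι → ℝ | |u m| ≤ h}) ∩ {u | |s + ∑ m, u m * c m| ≤ a} := by
    ext u
    simp [KK]
  rw [h1]
  apply IsClosed.inter
  · exact isClosed_iInter fun m => isClosed_le (by fun_prop) continuous_const
  · exact isClosed_le (by fun_prop) continuous_const

lemma KK_meas (c : ι → ℝ) (s a h : ℝ) : MeasurableSet (KK c s a h) := (KK_closed c s a h).measurableSet

lemma KK_sub (c : ι → ℝ) (s a h : ℝ) : KK c s a h ⊆ Set.pi univ fun _ : ι => Icc (-h) h := by
  intro u hu m _
  exact abs_le.1 (hu.1 m)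

lemma vol_cube (h : ℝ) (hh : 0 ≤ h) :
    volume.real (Set.pi univ fun _ : ι => Icc (-h) h) = (2 * h) ^ Fintype.card ι := by
  rw [measureReal_def, volume_pi_pi]
  simp only [Real.volume_Icc, Finset.prod_const, Finset.card_univ, ENNReal.toReal_pow]
  rw [ENNReal.toReal_ofReal (by linarith)]
  congr 1
  ring

lemma cube_fin (h : ℝ) : volume (Set.pi univ fun _ : ι => Icc (-h) h) < ⊤ := by
  rw [volume_pi_pi]
  simp only [Real.volume_Icc, Finset.prod_const]
  exact ENNReal.pow_lt_top ENNReal.ofReal_lt_top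

lemma KK_fin (c : ι → ℝ) (s a h : ℝ) : volume (KK c s a h) < ⊤ :=
  (measure_mono (KK_sub c s a h)).trans_lt (cube_fin h)

/-- the volume -/
noncomputable def F (c : ι → ℝ) (s a h : ℝ) : ℝ := volume.real (KK c s a h)

lemma F_nonneg (c : ι → ℝ) (s a h : ℝ) : 0 ≤ F c s a h := measureReal_nonneg

lemma F_le (c : ι → ℝ) (s a : ℝ) {h : ℝ} (hh : 0 ≤ h) : F c s a h ≤ (2 * h) ^ Fintype.card ι := by
  rw [← vol_cube h hh]
  exact measureReal_mono (KK_sub c s a h) (cube_fin h).ne

lemma F_mono (c : ι → ℝ) (s : ℝ) {a b h : ℝ} (hab : a ≤ b) : F c s a h ≤ F c s b h :=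
  measureReal_mono (fun _ hu => ⟨hu.1, hu.2.trans hab⟩) (KK_fin c s b h).ne

/-- invariance under renaming -/
lemma F_equiv (e : κ ≃ ι) (c : ι → ℝ) (s a h : ℝ) : F (c ∘ e) s a h = F c s a h := by
  have h1 := volume_measurePreserving_piCongrLeft (fun _ : ι => ℝ) e
  have h2 : KK (c ∘ e) s a h =
      (MeasurableEquiv.piCongrLeft (fun _ : ι => ℝ) e) ⁻¹' KK c s a h := by
    ext u
    have h3 : ∀ m, (MeasurableEquiv.piCongrLeft (fun _ : ι => ℝ) e) u (e m) = u m := by
      intro m
      exact Equiv.piCongrLeft_apply_apply (fun _ : ι => ℝ) e u m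
    simp only [KK, mem_ofPred_eq, mem_preimage]
    rw [← e.forall_congr_right (q := fun m => |(MeasurableEquiv.piCongrLeft (fun _ : ι => ℝ) e) u m| ≤ h),
      ← e.sum_comp]
    simp only [h3, Function.comp_apply]
  unfold F
  rw [h2, measureReal_def, measureReal_def, h1.measure_preimage (KK_meas c s a h).nullMeasurableSet]

/-- splitting off one coordinate -/
lemma F_option (c : Option ι → ℝ) (s a : ℝ) {h : ℝ} (hh : 0 ≤ h) :
    F c s a h = ∫ t in (-h)..h, F (fun i => c (some i)) (s + t * c none) a h := by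
  have h1 := Measure.pi_map_piOptionEquivProd (ι := ι) (β := fun _ => ℝ) (fun _ => volume)
  have h2 : volume (KK c s a h) = ∫⁻ t in Icc (-h) h,
      volume (KK (fun i => c (some i)) (s + t * c none) a h) := by
    have h3 : (volume : Measure (Option ι → ℝ)) = ((Measure.pi fun _ : ι => (volume : Measure ℝ)).prod
        (volume : Measure ℝ)).map (MeasurableEquiv.piOptionEquivProd fun _ => ℝ).symm := h1.symm
    rw [h3, MeasurableEquiv.map_apply, Measure.prod_apply_symm
      ((MeasurableEquiv.measurable _) (KK_meas c s a h)), ← lintegral_indicator measurableSet_Icc]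
    refine lintegral_congr fun t => ?_
    have h4 : (fun x : ι → ℝ => (x, t)) ⁻¹'
        ((MeasurableEquiv.piOptionEquivProd fun _ : Option ι => ℝ).symm ⁻¹' KK c s a h) =
        {x | |t| ≤ h ∧ x ∈ KK (fun i => c (some i)) (s + t * c none) a h} := by
      ext x
      have e1 : ((MeasurableEquiv.piOptionEquivProd fun _ : Option ι => ℝ).symm (x, t)) none = t := rfl
      have e2 : ∀ i, ((MeasurableEquiv.piOptionEquivProd fun _ : Option ι => ℝ).symm (x, t)) (some i) =
        x i := fun i => rfl
      simp only [KK, mem_preimage, mem_ofPred_eq, Option.forall, Fintype.sum_option, e1, e2,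
        ← add_assoc]
      tauto
    rw [h4]
    by_cases ht : t ∈ Icc (-h) h
    · rw [indicator_of_mem ht]
      have : |t| ≤ h := abs_le.2 ht
      simp only [this, true_and]
      rfl
    · rw [indicator_of_notMem ht]
      have : ¬ |t| ≤ h := fun hc => ht (abs_le.1 hc)
      simp only [this, false_and]
      simp
  have hm : AEMeasurable (fun t => volume (KK (fun i => c (some i)) (s + t * c none) a h))
      (volume.restrict (Icc (-h) h)) := by
    apply Measurable.aemeasurable
    have h5 : MeasurableSet {p : ℝ × (ι → ℝ) | p.2 ∈ KK (fun i => c (some i)) (s + p.1 * c none) a h} := by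
      apply IsClosed.measurableSet
      have e : {p : ℝ × (ι → ℝ) | p.2 ∈ KK (fun i => c (some i)) (s + p.1 * c none) a h} =
          (⋂ m, {p : ℝ × (ι → ℝ) | |p.2 m| ≤ h}) ∩
          {p : ℝ × (ι → ℝ) | |s + p.1 * c none + ∑ m, p.2 m * c (some m)| ≤ a} := by
        ext p
        simp [KK]
      rw [e]
      apply IsClosed.inter
      · exact isClosed_iInter fun m => isClosed_le (by fun_prop) continuous_const
      · exact isClosed_le (by fun_prop) continuous_const
    exact measurable_measure_prodMk_left h5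
  unfold F
  rw [measureReal_def, h2, intervalIntegral.integral_of_le (by linarith),
    ← integral_Icc_eq_integral_Ioc]
  rw [← integral_toReal hm (Filter.Eventually.of_forall fun t => KK_fin _ _ _ _)]
  rfl

lemma F_empty [IsEmpty ι] (c : ι → ℝ) (s a h : ℝ) : F c s a h = if |s| ≤ a then 1 else 0 := by
  have h1 := vol_cube (ι := ι) 0 le_rfl
  have h2 : (Set.pi univ fun _ : ι => Icc (-(0 : ℝ)) 0) = univ := by
    ext u
    simp
  rw [h2, Fintype.card_eq_zero, pow_zero] at h1
  unfold F KK
  simp only [Finset.univ_eq_empty, Finset.sum_empty, add_zero, IsEmpty.forall_iff, true_and]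
  split_ifs with hs
  · simp only [hs, ofPred_true]
    exact h1
  · simp [hs]

/-- the volume is an even function of the shift that decreases in the absolute value -/
lemma F_uni (c : ι → ℝ) (a : ℝ) {h : ℝ} (hh : 0 ≤ h) : Uni fun s => F c s a h := by
  classical
  refine Fintype.induction_empty_option
    (P := fun ι _ => ∀ c : ι → ℝ, Uni fun s => F c s a h) ?_ ?_ ?_ ι c
  · intro α β _ e ih c
    let : Fintype α := Fintype.ofEquiv β e.symm
    have h1 := ih (c ∘ e)
    have h2 : (fun s => F (c ∘ e) s a h) = fun s => F c s a h := by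
      funext s
      exact F_equiv e c s a h
    rw [← h2]
    convert h1
  · intro c s t hst
    simp only [F_empty]
    split_ifs with h2 h3 h3
    · exact le_rfl
    · exact absurd (hst.trans h2) h3
    · norm_num
    · exact le_rfl
  · intro α _ ih c
    have h1 : (fun s => F c s a h) =
        fun s => ∫ t in (-h)..h, F (fun i => c (some i)) (s + t * c none) a h := by
      funext s
      exact F_option c s a hh
    rw [h1]
    exact (ih fun i => c (some i)).avg (fun s => F_nonneg _ _ _ _) hh (c none)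

/-- the integer vectors of the box with `|s + ∑ b m c m| ≤ a` -/
def CC (c : ι → ℝ) (s a : ℝ) (H : ℕ) : Set (ι → ℤ) :=
  {b | (∀ m, |b m| ≤ (H : ℤ)) ∧ |s + ∑ m, (b m : ℝ) * c m| ≤ a}

lemma CC_finite (c : ι → ℝ) (s a : ℝ) (H : ℕ) : (CC c s a H).Finite := by
  classical
  apply Set.Finite.subset (Set.finite_Icc (fun _ => -(H : ℤ)) (fun _ => (H : ℤ)))
  intro b hb
  rw [Set.mem_Icc]
  exact ⟨fun m => (abs_le.1 (hb.1 m)).1, fun m => (abs_le.1 (hb.1 m)).2⟩

lemma CC_equiv (e : κ ≃ ι) (c : ι → ℝ) (s a : ℝ) (H : ℕ) :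
    (CC (c ∘ e) s a H).ncard = (CC c s a H).ncard := by
  refine Set.ncard_congr (fun b _ => b ∘ e.symm) ?_ ?_ ?_
  · rintro b ⟨h1, h2⟩
    refine ⟨fun m => h1 _, ?_⟩
    rw [← e.sum_comp]
    simpa using h2
  · intro b b' _ _ h
    funext m
    have := congrFun h (e m)
    simpa using this
  · rintro b ⟨h1, h2⟩
    refine ⟨b ∘ e, ⟨fun m => h1 _, ?_⟩, ?_⟩
    · rw [← e.sum_comp] at h2
      simpa using h2
    · funext m
      simp

lemma CC_option (c : Option ι → ℝ) (s a : ℝ) (H : ℕ) :
    ((CC c s a H).ncard : ℝ) = ∑ t ∈ Finset.Icc (-(H : ℤ)) H,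
      ((CC (fun i => c (some i)) (s + t * c none) a H).ncard : ℝ) := by
  classical
  have h1 : CC c s a H = ⋃ t ∈ (Finset.Icc (-(H : ℤ)) H), (fun (x : ι → ℤ) (o : Option ι) =>
      (match o with | none => t | some i => x i : ℤ)) '' CC (fun i => c (some i)) (s + t * c none) a H := by
    ext b
    simp only [mem_iUnion, mem_image, exists_prop, Finset.mem_Icc]
    constructor
    · rintro ⟨h1, h2⟩
      refine ⟨b none, abs_le.1 (h1 none), fun i => b (some i), ⟨fun i => h1 _, ?_⟩, ?_⟩
      · rw [Fintype.sum_option, ← add_assoc] at h2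
        exact h2
      · funext o
        cases o <;> rfl
    · rintro ⟨t, ht, x, ⟨h1, h2⟩, rfl⟩
      refine ⟨?_, ?_⟩
      · intro o
        cases o
        · exact abs_le.2 ht
        · exact h1 _
      · rw [Fintype.sum_option, ← add_assoc]
        exact h2
  have h2 := (Finset.finite_toSet (Finset.Icc (-(H : ℤ)) H)).ncard_biUnion
    (s := fun t => (fun (x : ι → ℤ) (o : Option ι) =>
      (match o with | none => t | some i => x i : ℤ)) '' CC (fun i => c (some i)) (s + t * c none) a H)
    (fun t _ => (CC_finite _ _ _ _).image _) (by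
      intro t _ t' _ htt
      rw [Function.onFun, Set.disjoint_left]
      rintro b ⟨x, _, rfl⟩ ⟨y, _, hy⟩
      exact htt (congrFun hy none).symm)
  rw [finsum_mem_coe_finset] at h2
  rw [h1]
  refine (Nat.cast_inj.2 h2).trans ?_
  push_cast
  refine Finset.sum_congr rfl fun t _ => ?_
  rw [Set.ncard_image_of_injective]
  intro x y hxy
  funext i
  exact congrFun hxy (some i)

/-- **Lattice points against the volume.** -/
theorem CC_F (c : ι → ℝ) (s a : ℝ) (H : ℕ) :
    |((CC c s a H).ncard : ℝ) - F c s a H| ≤ 3 * Fintype.card ι * (2 * (H : ℝ) + 1) ^ (Fintype.card ι - 1) := by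
  classical
  have hH : (0 : ℝ) ≤ H := Nat.cast_nonneg H
  revert s
  refine Fintype.induction_empty_option
    (P := fun ι _ => ∀ c : ι → ℝ, ∀ s, |((CC c s a H).ncard : ℝ) - F c s a H| ≤
      3 * Fintype.card ι * (2 * (H : ℝ) + 1) ^ (Fintype.card ι - 1)) ?_ ?_ ?_ ι c
  · intro α β _ e ih c s
    let : Fintype α := Fintype.ofEquiv β e.symm
    have h1 := ih (c ∘ e) s
    rw [← F_equiv e c s a H, ← CC_equiv e c s a H, ← Fintype.card_congr e]
    convert h1
  · intro c s
    have h1 := F_empty c s a (H : ℝ)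
    have h2 : ((CC c s a H).ncard : ℝ) = if |s| ≤ a then 1 else 0 := by
      unfold CC
      simp only [Finset.univ_eq_empty, Finset.sum_empty, add_zero, IsEmpty.forall_iff, true_and]
      split_ifs with hs
      · simp [hs]
      · simp [hs]
    rw [h1, h2, sub_self, abs_zero]
    positivity
  · intro α _ ih c s
    rw [CC_option, F_option c s a hH, Fintype.card_option, Nat.add_sub_cancel]
    have hu := (F_uni (fun i => c (some i)) a hH).sum (fun s => F_nonneg _ _ _ _) s (c none) H
    have hF := F_le (fun i => c (some i)) 0 a hH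
    obtain ⟨n, hn⟩ : ∃ n, n = Fintype.card α := ⟨_, rfl⟩
    rw [← hn] at hF ⊢
    have h1 : |∑ t ∈ Finset.Icc (-(H : ℤ)) H, ((CC (fun i => c (some i)) (s + t * c none) a H).ncard : ℝ) -
        ∑ t ∈ Finset.Icc (-(H : ℤ)) H, F (fun i => c (some i)) (s + t * c none) a H| ≤
        3 * n * (2 * (H : ℝ) + 1) ^ n := by
      rw [← Finset.sum_sub_distrib]
      refine (Finset.abs_sum_le_sum_abs _ _).trans ?_
      calc ∑ t ∈ Finset.Icc (-(H : ℤ)) H, |((CC (fun i => c (some i)) (s + t * c none) a H).ncard : ℝ) -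
          F (fun i => c (some i)) (s + t * c none) a H|
          ≤ ∑ t ∈ Finset.Icc (-(H : ℤ)) H, 3 * n * (2 * (H : ℝ) + 1) ^ (n - 1) :=
            Finset.sum_le_sum fun t _ => by rw [hn]; exact ih _ _
        _ = (2 * H + 1) * (3 * n * (2 * (H : ℝ) + 1) ^ (n - 1)) := by
            rw [Finset.sum_const, Int.card_Icc, nsmul_eq_mul]
            congr 1
            have : ((H : ℤ) + 1 - -(H : ℤ)).toNat = 2 * H + 1 := by omega
            rw [this]
            push_cast
            ring
        _ ≤ _ := by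
            rcases Nat.eq_zero_or_pos n with h0 | h0
            · rw [h0]
              simp
            · obtain ⟨k, rfl⟩ : ∃ k, n = k + 1 := ⟨n - 1, by omega⟩
              rw [Nat.add_sub_cancel, pow_succ]
              apply le_of_eq
              ring
    have h2 : (2 * (H : ℝ)) ^ n ≤ (2 * (H : ℝ) + 1) ^ n := pow_le_pow_left₀ (by positivity) (by linarith) n
    push_cast
    calc _ ≤ |∑ t ∈ Finset.Icc (-(H : ℤ)) H, ((CC (fun i => c (some i)) (s + t * c none) a H).ncard : ℝ) -
        ∑ t ∈ Finset.Icc (-(H : ℤ)) H, F (fun i => c (some i)) (s + t * c none) a H| +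
        |∑ t ∈ Finset.Icc (-(H : ℤ)) H, F (fun i => c (some i)) (s + t * c none) a H -
          ∫ t in (-(H : ℝ))..H, F (fun i => c (some i)) (s + t * c none) a H| := abs_sub_le _ _ _
      _ ≤ 3 * n * (2 * (H : ℝ) + 1) ^ n + 3 * F (fun i => c (some i)) 0 a H := add_le_add h1 hu
      _ ≤ 3 * n * (2 * (H : ℝ) + 1) ^ n + 3 * (2 * (H : ℝ) + 1) ^ n := by linarith
      _ = _ := by ring

end Pool.Agent.U46
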