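import Mathlib

set_option autoImplicit false
set_option linter.unusedSectionVars false

/-! Even functions that decrease in the absolute value: averages, and sums against integrals. -/

open MeasureTheory Filter Topology Set

namespace Pool.Agent.U46

/-- even and decreasing in the absolute value -/
def Uni (f : ℝ → ℝ) : Prop := ∀ s t, |s| ≤ |t| → f t ≤ f s

namespace Uni

variable {f : ℝ → ℝ}

lemma even (hf : Uni f) (s : ℝ) : f (-s) = f s :=
  le_antisymm (hf _ _ (by rw [abs_neg])) (hf _ _ (by rw [abs_neg]))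

lemma le_zero (hf : Uni f) (s : ℝ) : f s ≤ f 0 := hf _ _ (by simp)

lemma eq_abs (hf : Uni f) (s : ℝ) : f s = f (max |s| 0) := by
  rw [max_eq_left (abs_nonneg s)]
  exact le_antisymm (hf _ _ (by rw [abs_abs])) (hf _ _ (by rw [abs_abs]))

lemma measurable (hf : Uni f) : Measurable f := by
  have h1 : Antitone fun x : ℝ => f (max x 0) := by
    intro x y hxy
    apply hf
    rw [abs_of_nonneg (le_max_right x 0), abs_of_nonneg (le_max_right y 0)]
    exact max_le_max hxy le_rfl
  have h2 : f = (fun x : ℝ => f (max x 0)) ∘ fun s => |s| := by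
    funext s
    exact hf.eq_abs s
  rw [h2]
  exact h1.measurable.comp (measurable_id.abs)

lemma ii (hf : Uni f) (h0 : ∀ s, 0 ≤ f s) (a b : ℝ) : IntervalIntegrable f volume a b := by
  rw [intervalIntegrable_iff]
  refine Measure.integrableOn_of_bounded (M := f 0) ?_ hf.measurable.aestronglyMeasurable ?_
  · exact (show volume (Ioc (min a b) (max a b)) < ⊤ from measure_Ioc_lt_top).ne
  · refine Filter.Eventually.of_forall fun x => ?_
    rw [Real.norm_of_nonneg (h0 x)]
    exact hf.le_zero x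

lemma comp_ii (hf : Uni f) (h0 : ∀ s, 0 ≤ f s) (s c a b : ℝ) :
    IntervalIntegrable (fun t => f (s + t * c)) volume a b := by
  rw [intervalIntegrable_iff]
  refine Measure.integrableOn_of_bounded (M := f 0) ?_ ?_ ?_
  · exact (show volume (Ioc (min a b) (max a b)) < ⊤ from measure_Ioc_lt_top).ne
  · exact (hf.measurable.comp (by fun_prop)).aestronglyMeasurable
  · refine Filter.Eventually.of_forall fun x => ?_
    rw [Real.norm_of_nonneg (h0 _)]
    exact hf.le_zero _

/-- the integral over a window -/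
lemma window (hf : Uni f) (h0 : ∀ s, 0 ≤ f s) {r : ℝ} (hr : 0 ≤ r) :
    Uni fun s => ∫ x in (s - r)..(s + r), f x := by
  obtain ⟨g, hg⟩ : ∃ g : ℝ → ℝ, g = fun s => ∫ x in (s - r)..(s + r), f x := ⟨_, rfl⟩
  rw [← hg]
  have heven : ∀ s, g (-s) = g s := by
    intro s
    rw [hg]
    simp only
    have h1 := intervalIntegral.integral_comp_neg (f := f) (a := s - r) (b := s + r)
    simp only [hf.even] at h1
    rw [h1]
    congr 1 <;> ring
  have hmono : ∀ s t, 0 ≤ s → s ≤ t → g t ≤ g s := by
    intro s t hs hst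
    have i : ∀ a b, IntervalIntegrable f volume a b := hf.ii h0
    have h1 : g s - g t = (∫ x in s..t, f (x - r)) - ∫ x in s..t, f (x + r) := by
      rw [hg]
      simp only
      rw [intervalIntegral.integral_comp_sub_right, intervalIntegral.integral_comp_add_right]
      have e1 := intervalIntegral.integral_add_adjacent_intervals (i (s - r) (t - r)) (i (t - r) (s + r))
      have e2 := intervalIntegral.integral_add_adjacent_intervals (i (t - r) (s + r)) (i (s + r) (t + r))
      linarith
    have h2 : (∫ x in s..t, f (x + r)) ≤ ∫ x in s..t, f (x - r) := by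
      refine intervalIntegral.integral_mono_on hst ?_ ?_ ?_
      · have := hf.comp_ii h0 r 1 s t
        simpa [add_comm] using this
      · have := hf.comp_ii h0 (-r) 1 s t
        simpa [sub_eq_neg_add] using this
      · intro x hx
        apply hf
        have hx0 : 0 ≤ x := hs.trans hx.1
        rw [abs_of_nonneg (by linarith : 0 ≤ x + r), abs_le]
        constructor <;> linarith
    linarith
  have habs : ∀ s, g s = g |s| := by
    intro s
    rcases abs_cases s with h | h
    · rw [h.1]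
    · rw [h.1, heven]
  intro s t hst
  rw [habs s, habs t]
  exact hmono _ _ (abs_nonneg s) hst

/-- averages -/
lemma avg (hf : Uni f) (h0 : ∀ s, 0 ≤ f s) {h : ℝ} (hh : 0 ≤ h) (c : ℝ) :
    Uni fun s => ∫ t in (-h)..h, f (s + t * c) := by
  have pos : ∀ c : ℝ, 0 < c → Uni fun s => ∫ t in (-h)..h, f (s + t * c) := by
    intro c hc
    have h1 := hf.window h0 (mul_nonneg hh hc.le)
    have h2 : (fun s => ∫ t in (-h)..h, f (s + t * c)) =
        fun s => c⁻¹ * ∫ x in (s - h * c)..(s + h * c), f x := by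
      funext s
      have h3 := intervalIntegral.integral_comp_add_mul (f := f) (a := -h) (b := h) hc.ne' s
      simp only [smul_eq_mul] at h3
      have h4 : (fun t => f (s + t * c)) = fun t => f (s + c * t) := by
        funext t
        rw [mul_comm]
      rw [h4, h3]
      congr 2 <;> ring
    rw [h2]
    intro s t hst
    exact mul_le_mul_of_nonneg_left (h1 s t hst) (inv_nonneg.2 hc.le)
  rcases lt_trichotomy c 0 with hc | hc | hc
  · have h1 := pos (-c) (by linarith)
    have h2 : (fun s => ∫ t in (-h)..h, f (s + t * c)) =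
        fun s => ∫ t in (-h)..h, f (s + t * (-c)) := by
      funext s
      have h3 := intervalIntegral.integral_comp_neg (f := fun t => f (s + t * c)) (a := -h) (b := h)
      rw [neg_neg] at h3
      rw [← h3]
      congr 1
      funext t
      congr 1
      ring
    rw [h2]
    exact h1
  · subst hc
    intro s t hst
    simp only [mul_zero, add_zero, intervalIntegral.integral_const, smul_eq_mul]
    exact mul_le_mul_of_nonneg_left (hf s t hst) (by linarith)
  · exact pos c hc

end Uni

lemma sum_Icc_range (φ : ℝ → ℝ) (H : ℕ) :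
    ∑ a ∈ Finset.Icc (-(H : ℤ)) H, φ a = ∑ i ∈ Finset.range (2 * H + 1), φ (-(H : ℝ) + i) := by
  symm
  refine Finset.sum_nbij (fun i : ℕ => -(H : ℤ) + i) ?_ ?_ ?_ ?_
  · intro i hi
    rw [Finset.mem_range] at hi
    rw [Finset.mem_Icc]
    omega
  · intro i _ j _ hij
    simp only at hij
    omega
  · intro a ha
    rw [Finset.mem_coe, Finset.mem_Icc] at ha
    refine ⟨(a + H).toNat, ?_, ?_⟩
    · rw [Finset.mem_coe, Finset.mem_range]
      omega
    · simp only
      omega
  · intro i _
    push_cast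
    rfl

/-- sums against integrals for monotone functions -/
lemma mono_sum {φ : ℝ → ℝ} (hφ : Monotone φ) {B : ℝ} (h0 : ∀ t, 0 ≤ φ t) (hB : ∀ t, φ t ≤ B)
    (H : ℕ) : |∑ a ∈ Finset.Icc (-(H : ℤ)) H, φ a - ∫ t in (-(H : ℝ))..H, φ t| ≤ B := by
  rw [sum_Icc_range]
  have e : -(H : ℝ) + ((2 * H : ℕ) : ℝ) = H := by push_cast; ring
  have h1 := (hφ.monotoneOn (Set.Icc (-(H : ℝ)) (-(H : ℝ) + ((2 * H : ℕ) : ℝ)))).sum_le_integral
  have h2 := (hφ.monotoneOn (Set.Icc (-(H : ℝ)) (-(H : ℝ) + ((2 * H : ℕ) : ℝ)))).integral_le_sum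
  rw [e] at h1 h2
  rw [abs_le]
  constructor
  · rw [Finset.sum_range_succ']
    have h3 := h0 (-(H : ℝ) + ((0 : ℕ) : ℝ))
    have h4 := h0 0
    have h5 := hB 0
    linarith
  · rw [Finset.sum_range_succ]
    have h3 := hB (-(H : ℝ) + ((2 * H : ℕ) : ℝ))
    linarith

lemma anti_sum {φ : ℝ → ℝ} (hφ : Antitone φ) {B : ℝ} (h0 : ∀ t, 0 ≤ φ t) (hB : ∀ t, φ t ≤ B)
    (H : ℕ) : |∑ a ∈ Finset.Icc (-(H : ℤ)) H, φ a - ∫ t in (-(H : ℝ))..H, φ t| ≤ B := by
  rw [sum_Icc_range]
  have e : -(H : ℝ) + ((2 * H : ℕ) : ℝ) = H := by push_cast; ring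
  have h1 := (hφ.antitoneOn (Set.Icc (-(H : ℝ)) (-(H : ℝ) + ((2 * H : ℕ) : ℝ)))).sum_le_integral
  have h2 := (hφ.antitoneOn (Set.Icc (-(H : ℝ)) (-(H : ℝ) + ((2 * H : ℕ) : ℝ)))).integral_le_sum
  rw [e] at h1 h2
  rw [abs_le]
  constructor
  · rw [Finset.sum_range_succ]
    have h3 := h0 (-(H : ℝ) + ((2 * H : ℕ) : ℝ))
    have h4 := h0 0
    have h5 := hB 0
    linarith
  · rw [Finset.sum_range_succ']
    have h3 := hB (-(H : ℝ) + ((0 : ℕ) : ℝ))
    linarith

/-- sums against integrals for unimodal functions -/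
lemma Uni.sum {f : ℝ → ℝ} (hf : Uni f) (h0 : ∀ s, 0 ≤ f s) (s c : ℝ) (H : ℕ) :
    |∑ a ∈ Finset.Icc (-(H : ℤ)) H, f (s + a * c) - ∫ t in (-(H : ℝ))..H, f (s + t * c)| ≤
      3 * f 0 := by
  by_cases hc : c = 0
  · subst hc
    simp only [mul_zero, add_zero, intervalIntegral.integral_const, smul_eq_mul, Finset.sum_const,
      nsmul_eq_mul, Int.card_Icc]
    have e : (((H : ℤ) + 1 - -(H : ℤ)).toNat : ℝ) = 2 * H + 1 := by
      have : ((H : ℤ) + 1 - -(H : ℤ)).toNat = 2 * H + 1 := by omega
      rw [this]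
      push_cast
      ring
    rw [e]
    have h1 := h0 s
    have h2 := hf.le_zero s
    have h3 := h0 0
    have e2 : (2 * (H : ℝ) + 1) * f s - ((H : ℝ) - -(H : ℝ)) * f s = f s := by ring
    rw [e2, abs_of_nonneg h1]
    linarith
  · obtain ⟨t0, ht0⟩ : ∃ t0, t0 = -s / c := ⟨_, rfl⟩
    obtain ⟨φ, hφ⟩ : ∃ φ : ℝ → ℝ, φ = fun t => f (s + t * c) := ⟨_, rfl⟩
    have hφc : ∀ t, φ t = f (c * (t - t0)) := by
      intro t
      rw [hφ, ht0]
      simp only
      congr 1
      field_simp
      ring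
    have hcmp : ∀ t u, |t - t0| ≤ |u - t0| → φ u ≤ φ t := by
      intro t u htu
      rw [hφc, hφc]
      apply hf
      rw [abs_mul, abs_mul]
      exact mul_le_mul_of_nonneg_left htu (abs_nonneg c)
    have hφ0 : ∀ t, 0 ≤ φ t := fun t => by rw [hφ]; exact h0 _
    have hφB : ∀ t, φ t ≤ f 0 := fun t => by rw [hφ]; exact hf.le_zero _
    have hm : Monotone fun t => φ (min t t0) := by
      intro t u htu
      apply hcmp
      rw [abs_of_nonpos (by linarith [min_le_right u t0] : min u t0 - t0 ≤ 0),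
        abs_of_nonpos (by linarith [min_le_right t t0] : min t t0 - t0 ≤ 0)]
      have := min_le_min htu (le_refl t0)
      linarith
    have ha : Antitone fun t => φ (max t t0) := by
      intro t u htu
      apply hcmp
      rw [abs_of_nonneg (by linarith [le_max_right u t0] : 0 ≤ max u t0 - t0),
        abs_of_nonneg (by linarith [le_max_right t t0] : 0 ≤ max t t0 - t0)]
      have := max_le_max htu (le_refl t0)
      linarith
    have hdec : ∀ t, φ t = φ (min t t0) + φ (max t t0) - φ t0 := by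
      intro t
      rcases le_total t t0 with h | h
      · rw [min_eq_left h, max_eq_right h]
        ring
      · rw [min_eq_right h, max_eq_left h]
        ring
    have b1 := mono_sum hm (fun t => hφ0 _) (fun t => hφB _) H
    have b2 := anti_sum ha (fun t => hφ0 _) (fun t => hφB _) H
    have b3 := mono_sum (φ := fun _ => φ t0) monotone_const (fun t => hφ0 _) (fun t => hφB _) H
    have i1 : IntervalIntegrable (fun t => φ (min t t0)) volume (-(H : ℝ)) H :=
      hm.intervalIntegrable
    have i2 : IntervalIntegrable (fun t => φ (max t t0)) volume (-(H : ℝ)) H :=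
      ha.intervalIntegrable
    have i3 : IntervalIntegrable (fun _ => φ t0) volume (-(H : ℝ)) H :=
      intervalIntegrable_const
    have es : ∑ a ∈ Finset.Icc (-(H : ℤ)) H, φ (a : ℝ) =
        ∑ a ∈ Finset.Icc (-(H : ℤ)) H, φ (min (a : ℝ) t0) +
        ∑ a ∈ Finset.Icc (-(H : ℤ)) H, φ (max (a : ℝ) t0) -
        ∑ a ∈ Finset.Icc (-(H : ℤ)) H, φ t0 := by
      rw [← Finset.sum_add_distrib, ← Finset.sum_sub_distrib]
      exact Finset.sum_congr rfl fun a _ => hdec a
    have ei : ∫ t in (-(H : ℝ))..H, φ t = (∫ t in (-(H : ℝ))..H, φ (min t t0)) +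
        (∫ t in (-(H : ℝ))..H, φ (max t t0)) - ∫ t in (-(H : ℝ))..H, φ t0 := by
      rw [← intervalIntegral.integral_add i1 i2, ← intervalIntegral.integral_sub (i1.add i2) i3]
      congr 1
      funext t
      exact hdec t
    have e1 : ∑ a ∈ Finset.Icc (-(H : ℤ)) H, f (s + a * c) =
        ∑ a ∈ Finset.Icc (-(H : ℤ)) H, φ (a : ℝ) := by rw [hφ]
    have e2 : ∫ t in (-(H : ℝ))..H, f (s + t * c) = ∫ t in (-(H : ℝ))..H, φ t := by rw [hφ]
    rw [e1, e2, es, ei]
    rw [abs_le] at b1 b2 b3 ⊢
    constructor <;> linarith [b1.1, b1.2, b2.1, b2.2, b3.1, b3.2]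

end Pool.Agent.U46
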